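import Pool.Agent.ALB.Avg

/-! # ALB module LIM: the limit constant -/

set_option autoImplicit false

namespace Pool.Agent.ALB

/-- Proof: `crK_avg` gives `crK 3 * 4 ≤ 0`, `crK 2 * 3 ≤ 0`, .... -/
theorem crK_le_three {a : ℕ} (h : a ≤ 3) : crK a = 0 := by
  have h1 := crK_avg a
  rw [Nat.sub_eq_zero_of_le h, zero_mul] at h1
  have h2 : (a + 1) * crK a = 0 := Nat.le_zero.1 h1
  exact (Nat.mul_eq_zero.1 h2).resolve_left (by omega)

/-- `c_a = crK a / binom(a,4)` is nondecreasing for `a ≥ 4`.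
Proof: `(a+1) crK a ≤ (a-3) crK (a+1)` and `(a-3) choose (a+1) 4 = (a+1) choose a 4`
(`Nat.succ_mul_choose_eq` or `Nat.choose_succ_right_eq`), both binomials positive. -/
theorem ratio_mono {a b : ℕ} (ha : 4 ≤ a) (hab : a ≤ b) :
    (crK a : ℝ) / (a.choose 4 : ℝ) ≤ (crK b : ℝ) / (b.choose 4 : ℝ) := by
  induction b, hab using Nat.le_induction with
  | base => exact le_rfl
  | succ b hb ih =>
    refine ih.trans ?_
    have hb4 : 4 ≤ b := ha.trans hb
    have h1 := crK_avg b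
    have h2 : (b - 3) * (b + 1).choose 4 = (b + 1) * b.choose 4 := by
      have := Nat.add_one_mul_choose_eq b 3
      have h3 := Nat.choose_succ_right_eq b 3
      have h4 : (b + 1).choose 4 * 4 = (b + 1) * b.choose 3 := by
        rw [this]
      have h5 : b.choose 4 * 4 = b.choose 3 * (b - 3) := h3
      have h6 : (b - 3) * (b + 1).choose 4 * 4 = (b + 1) * b.choose 4 * 4 := by
        calc (b - 3) * (b + 1).choose 4 * 4 = (b - 3) * ((b + 1).choose 4 * 4) := by ring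
          _ = (b + 1) * (b.choose 3 * (b - 3)) := by rw [h4]; ring
          _ = (b + 1) * b.choose 4 * 4 := by rw [← h5]; ring
      omega
    have h3 : 0 < b.choose 4 := Nat.choose_pos hb4
    have h4 : 0 < (b + 1).choose 4 := Nat.choose_pos (by omega)
    have h5 : 0 < b - 3 := by omega
    have h6 : crK b * (b + 1).choose 4 ≤ crK (b + 1) * b.choose 4 := by
      have h7 : (b - 3) * (b + 1) * (crK b * (b + 1).choose 4) ≤
          (b - 3) * (b + 1) * (crK (b + 1) * b.choose 4) := by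
        calc (b - 3) * (b + 1) * (crK b * (b + 1).choose 4) =
            ((b + 1) * crK b) * ((b - 3) * (b + 1).choose 4) := by ring
          _ ≤ ((b - 3) * crK (b + 1)) * ((b - 3) * (b + 1).choose 4) :=
            Nat.mul_le_mul_right _ h1
          _ = (b - 3) * (b + 1) * (crK (b + 1) * b.choose 4) := by rw [h2]; ring
      exact Nat.le_of_mul_le_mul_left h7 (by positivity)
    rw [div_le_div_iff₀ (by exact_mod_cast h3) (by exact_mod_cast h4)]
    exact_mod_cast h6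

theorem lim_pow_le {a : ℕ} (ha : 4 ≤ a) : a ^ 4 ≤ 256 * a.choose 4 := by
  have h1 : a.choose 4 * 24 = a * (a - 1) * (a - 2) * (a - 3) := by
    have := Nat.descFactorial_eq_factorial_mul_choose a 4
    have h24 : Nat.factorial 4 = 24 := rfl
    rw [h24] at this
    rw [mul_comm, ← this]
    simp only [Nat.descFactorial, Nat.sub_zero]
    ring
  obtain ⟨b, rfl⟩ := Nat.exists_eq_add_of_le ha
  have e1 : 4 + b - 1 = b + 3 := by omega
  have e2 : 4 + b - 2 = b + 2 := by omega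
  have e3 : 4 + b - 3 = b + 1 := by omega
  rw [e1, e2, e3] at h1
  have h2 : 24 * (4 + b) ^ 4 ≤ 256 * ((4 + b).choose 4 * 24) := by
    rw [h1]
    ring_nf
    nlinarith [Nat.zero_le b, Nat.zero_le (b ^ 2), Nat.zero_le (b ^ 3), Nat.zero_le (b ^ 4)]
  omega

/-- The limit constant.
Proof.  `c = ⨆ a ≥ 4, crK a / choose a 4`; bounded above: `crK a ≤ a⁴ ≤ 256 choose a 4` for
`a ≥ 4` (`crK_le_pow`; `a⁴ ≤ 256 choose a 4`: `24 choose a 4 = a(a-1)(a-2)(a-3)` and
`a - 1 ≥ 3a/4`, `a - 2 ≥ a/2`, `a - 3 ≥ a/4`, so `24 choose a 4 ≥ (3/32) a⁴`).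
First claim: definition of the supremum for `k ≥ 4`, and `crK_le_three` for `k ≤ 3`.
Second claim: there is `a₀ ≥ 4` with `c - δ ≤ c_{a₀}`, then `ratio_mono`. -/
theorem exists_limit : ∃ c : ℝ, 0 ≤ c ∧ (∀ k : ℕ, (crK k : ℝ) ≤ c * (k.choose 4 : ℝ)) ∧
    ∀ δ : ℝ, 0 < δ → ∃ a₀ : ℕ, 4 ≤ a₀ ∧ ∀ a : ℕ, a₀ ≤ a →
      (c - δ) * (a.choose 4 : ℝ) ≤ (crK a : ℝ) := by
  set f : ℕ → ℝ := fun a => (crK (a + 4) : ℝ) / ((a + 4).choose 4 : ℝ) with hf
  have hpos : ∀ a : ℕ, 4 ≤ a → (0 : ℝ) < (a.choose 4 : ℝ) := fun a ha => by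
    exact_mod_cast Nat.choose_pos ha
  have hb : BddAbove (Set.range f) := by
    refine ⟨256, ?_⟩
    rintro _ ⟨a, rfl⟩
    rw [hf]
    beta_reduce
    rw [div_le_iff₀ (hpos _ (by omega))]
    have h1 := (crK_le_pow (a + 4)).trans (lim_pow_le (a := a + 4) (by omega))
    exact_mod_cast h1
  refine ⟨⨆ a, f a, ?_, ?_, ?_⟩
  · refine le_ciSup_of_le hb 0 ?_
    rw [hf]
    positivity
  · intro k
    rcases lt_or_ge k 4 with hk | hk
    · rw [crK_le_three (by omega), Nat.choose_eq_zero_of_lt hk]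
      simp
    · have h1 : f (k - 4) ≤ ⨆ a, f a := le_ciSup hb (k - 4)
      rw [hf] at h1
      beta_reduce at h1
      rw [Nat.sub_add_cancel hk, div_le_iff₀ (hpos k hk)] at h1
      exact h1
  · intro δ hδ
    obtain ⟨a, ha⟩ := exists_lt_of_lt_ciSup (show (⨆ a, f a) - δ < ⨆ a, f a by linarith)
    refine ⟨a + 4, by omega, fun b hb' => ?_⟩
    have h1 := ratio_mono (a := a + 4) (b := b) (by omega) hb'
    have h2 : (⨆ a, f a) - δ ≤ (crK b : ℝ) / (b.choose 4 : ℝ) := ha.le.trans h1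
    rwa [le_div_iff₀ (hpos b (by omega))] at h2

end Pool.Agent.ALB
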