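import Pool.Agent.ALB.Surg

/-! # ALB module NOADJ -/

set_option autoImplicit false

namespace Pool.Agent.ALB

/-- Every drawing can be replaced by one with at most as many crossings in which adjacent edges
do not cross.  Proof: strong induction on `D.cr` with `surgery`. -/
theorem exists_noAdj {V : Type} [Fintype V] {G : SimpleGraph V} (D : Drw G) :
    ∃ D' : Drw G, D'.cr ≤ D.cr ∧ D'.NoAdj := by
  induction hn : D.cr using Nat.strong_induction_on generalizing D with
  | _ n ih =>
    by_cases h : D.NoAdj
    · exact ⟨D, hn.le, h⟩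
    · unfold Drw.NoAdj at h
      push Not at h
      obtain ⟨u, v, w, huv, huw, hvw, hN⟩ := h
      obtain ⟨D1, hD1⟩ := surgery D huv huw hvw hN
      obtain ⟨D', h1, h2⟩ := ih D1.cr (hn ▸ hD1) D1 rfl
      exact ⟨D', h1.trans (hn ▸ hD1.le), h2⟩

end Pool.Agent.ALB
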