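import Pool.Agent.ALB.ArcA

/-! # ALB module RES: induced subgraphs -/

set_option autoImplicit false

namespace Pool.Agent.ALB

private theorem res_adj {V W : Type} {G : SimpleGraph V} {φ : W → V} {e : Sym2 W}
    (he : e ∈ (G.comap φ).edgeSet) : e.map φ ∈ G.edgeSet := by
  induction e using Sym2.ind with
  | _ u v => exact he

private theorem res_key {V W : Type} {G : SimpleGraph V} (D : Drw G) (φ : W → V)
    {e : Sym2 W} (he : e ∈ (G.comap φ).edgeSet) (S : Set ℂ) :
    (D.arc (e.map φ) ∩ S) \ Set.range (D.pos ∘ φ) = (D.arc (e.map φ) ∩ S) \ Set.range D.pos := by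
  induction e using Sym2.ind with
  | _ u v =>
    ext x
    constructor
    · rintro ⟨⟨h1, h2⟩, h3⟩
      refine ⟨⟨h1, h2⟩, ?_⟩
      rintro ⟨w, rfl⟩
      rcases D.avoid (φ u) (φ v) w he h1 with h | h
      · exact h3 ⟨u, by rw [h]; rfl⟩
      · exact h3 ⟨v, by rw [h]; rfl⟩
    · rintro ⟨⟨h1, h2⟩, h3⟩
      refine ⟨⟨h1, h2⟩, ?_⟩
      rintro ⟨w, rfl⟩
      exact h3 ⟨φ w, rfl⟩

/-- An induced subgraph (along an injection `φ : W → V`) has a drawing with at most as many
crossings.
Proof.  `pos' = pos ∘ φ`, `arc' e = arc (e.map φ)`.  `isArc`, `inj`: clear.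
`avoid`: `pos (φ w) ∈ arc s(φ u, φ v)` gives `φ w = φ u` or `φ v`.
`fin` and the count: for edges `e ≠ f` of `G.comap φ` the edges `e.map φ ≠ f.map φ`
(`Sym2.map` of an injective map is injective) satisfy
`(arc ∩ arc) \ range (pos ∘ φ) = (arc ∩ arc) \ range pos`, since a vertex of `G` on the arc
`e.map φ` is an end point of it (`avoid`), so it is in `range φ`.  Hence
`N' e f = N (e.map φ) (f.map φ)`, and the double sum over `ed (G.comap φ)` is a part of the double
sum over `ed G` (`Finset.sum_map`/`Finset.sum_le_sum_of_subset` with the injection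
`Sym2.map φ`). -/
theorem exists_comap {V W : Type} [Fintype V] [Fintype W] {G : SimpleGraph V} (D : Drw G)
    (φ : W → V) (hφ : Function.Injective φ) : ∃ D' : Drw (G.comap φ), D'.cr ≤ D.cr := by
  classical
  have hmap : Function.Injective (Sym2.map φ) := Sym2.map.injective hφ
  let D' : Drw (G.comap φ) :=
    { pos := D.pos ∘ φ
      arc := fun e => D.arc (e.map φ)
      inj := D.inj.comp hφ
      isArc := fun u v h => D.isArc (φ u) (φ v) h
      avoid := fun u v w h hw => by
        rcases D.avoid (φ u) (φ v) (φ w) h hw with h1 | h1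
        · exact Or.inl (hφ h1)
        · exact Or.inr (hφ h1)
      fin := fun e he f hf hne => by
        rw [res_key D φ he]
        exact D.fin _ (res_adj he) _ (res_adj hf) fun h => hne (hmap h) }
  refine ⟨D', ?_⟩
  have hN : ∀ e ∈ ed (G.comap φ), ∀ f, D'.N e f = D.N (e.map φ) (f.map φ) := by
    intro e he f
    rw [mem_ed] at he
    unfold Drw.N
    exact congrArg Set.ncard (res_key D φ he _)
  have hsub : (ed (G.comap φ)).image (Sym2.map φ) ⊆ ed G := by
    intro e he
    obtain ⟨f, hf, rfl⟩ := Finset.mem_image.1 he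
    exact mem_ed.2 (res_adj (mem_ed.1 hf))
  have hinj : ∀ s : Set (Sym2 W), Set.InjOn (Sym2.map φ) s := fun s => hmap.injOn
  calc D'.cr = ∑ e ∈ ed (G.comap φ), ∑ f ∈ ed (G.comap φ), D.N (e.map φ) (f.map φ) :=
        Finset.sum_congr rfl fun e he => Finset.sum_congr rfl fun f _ => hN e he f
    _ = ∑ e ∈ (ed (G.comap φ)).image (Sym2.map φ),
          ∑ f ∈ (ed (G.comap φ)).image (Sym2.map φ), D.N e f := by
        rw [Finset.sum_image (hinj _)]
        exact Finset.sum_congr rfl fun e _ => (Finset.sum_image (hinj _)).symm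
    _ ≤ ∑ e ∈ ed G, ∑ f ∈ ed G, D.N e f :=
        (Finset.sum_le_sum fun e _ =>
          Finset.sum_le_sum_of_subset hsub).trans (Finset.sum_le_sum_of_subset hsub)

end Pool.Agent.ALB
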