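import Pool.Agent.ALB.Psd

/-! # ALB module CLIQ: cliques -/

set_option autoImplicit false

namespace Pool.Agent.ALB

/-- **Restriction.**  A clique gives a drawing of `K_k`.
Proof: `psd` with `E p = {p.map Y}` (walks of length one); the non-terminal set is empty.
For `p = q` the term `N (p.map Y) (p.map Y) = 0` may be added. -/
theorem crK_le_of_clique {V : Type} [Fintype V] {G : SimpleGraph V} (D : Drw G) {k : ℕ}
    (Y : Fin k → V) (hY : Function.Injective Y) (hA : ∀ i j, i ≠ j → G.Adj (Y i) (Y j)) :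
    crK k ≤ ∑ p ∈ ed (⊤ : SimpleGraph (Fin k)), ∑ q ∈ ed (⊤ : SimpleGraph (Fin k)),
      D.N (p.map Y) (q.map Y) := by
  classical
  have hmap : ∀ p ∈ (⊤ : SimpleGraph (Fin k)).edgeSet, p.map Y ∈ G.edgeSet := by
    intro p hp
    induction p using Sym2.ind with
    | _ i j => exact hA i j hp
  have hinj : Function.Injective (Sym2.map Y) := Sym2.map.injective hY
  set E : Sym2 (Fin k) → Finset (Sym2 V) := fun p =>
    if p ∈ (⊤ : SimpleGraph (Fin k)).edgeSet then {p.map Y} else ∅ with hEdef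
  have hEe : ∀ p ∈ (⊤ : SimpleGraph (Fin k)).edgeSet, E p = {p.map Y} := fun p hp => if_pos hp
  have hEm : ∀ p, ∀ e ∈ E p, p ∈ (⊤ : SimpleGraph (Fin k)).edgeSet ∧ e = p.map Y := by
    intro p e he
    by_cases hp : p ∈ (⊤ : SimpleGraph (Fin k)).edgeSet
    · rw [hEe p hp, Finset.mem_singleton] at he
      exact ⟨hp, he⟩
    · rw [hEdef] at he
      simp only [if_neg hp] at he
      exact absurd he (Finset.notMem_empty e)
  have h := psd D Y hY E (fun p e he => by
      obtain ⟨hp, rfl⟩ := hEm p e he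
      exact hmap p hp) (fun i j hij => ?_) (fun i j hij e he x hx _ => ?_)
      (fun p hp q hq hpq e he he' => ?_)
  · refine h.trans (Finset.sum_le_sum fun p hp => ?_)
    have hp' := mem_ed.1 hp
    refine le_trans ?_ (Finset.sum_le_sum_of_subset (Finset.erase_subset p _))
    refine Finset.sum_le_sum fun q hq => ?_
    have hq' := mem_ed.1 (Finset.mem_of_mem_erase hq)
    rw [hEe p hp', hEe q hq', Finset.sum_singleton, Finset.sum_singleton]
    have h0 : {x : V | x ∉ Set.range Y ∧ (∃ e ∈ ({p.map Y} : Finset (Sym2 V)), x ∈ e) ∧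
        (∃ f ∈ ({q.map Y} : Finset (Sym2 V)), x ∈ f)} = ∅ := by
      rw [Set.eq_empty_iff_forall_notMem]
      rintro x ⟨hx, ⟨e, he, hxe⟩, -⟩
      rw [Finset.mem_singleton] at he
      subst he
      obtain ⟨y, -, rfl⟩ := Sym2.mem_map.1 hxe
      exact hx ⟨y, rfl⟩
    rw [h0, Set.ncard_empty, add_zero]
  · refine ⟨(hA i j hij).toWalk, fun e he => ?_⟩
    rw [SimpleGraph.Walk.edges_cons, SimpleGraph.Walk.edges_nil, List.mem_singleton] at he
    rw [hEe _ hij, Finset.mem_singleton, he]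
    rfl
  · obtain ⟨-, rfl⟩ := hEm _ e he
    rw [Sym2.map_mk, Sym2.mem_iff] at hx
    exact hx
  · obtain ⟨-, h1⟩ := hEm _ e he
    obtain ⟨-, h2⟩ := hEm _ e he'
    exact hpq (hinj (h1.symm.trans h2))

/-- Proof: `crK_le_of_clique`; `p ↦ p.map Y` is injective from the edges of `K_k` to the edges of
`G`, so the double sum is a part of the double sum `D.cr`. -/
theorem crK_le_cr_of_clique {V : Type} [Fintype V] {G : SimpleGraph V} (D : Drw G) {k : ℕ}
    (Y : Fin k → V) (hY : Function.Injective Y) (hA : ∀ i j, i ≠ j → G.Adj (Y i) (Y j)) :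
    crK k ≤ D.cr := by
  classical
  refine (crK_le_of_clique D Y hY hA).trans ?_
  have hmap : ∀ p ∈ (⊤ : SimpleGraph (Fin k)).edgeSet, p.map Y ∈ G.edgeSet := by
    intro p hp
    induction p using Sym2.ind with
    | _ i j => exact hA i j hp
  have hinj : Function.Injective (Sym2.map Y) := Sym2.map.injective hY
  have hsub : (ed (⊤ : SimpleGraph (Fin k))).image (Sym2.map Y) ⊆ ed G := by
    intro e he
    obtain ⟨p, hp, rfl⟩ := Finset.mem_image.1 he
    exact mem_ed.2 (hmap p (mem_ed.1 hp))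
  have h1 : ∀ f : Sym2 V → ℕ, ∑ p ∈ ed (⊤ : SimpleGraph (Fin k)), f (p.map Y) ≤
      ∑ e ∈ ed G, f e := by
    intro f
    rw [← Finset.sum_image (f := f) (g := Sym2.map Y) fun a _ b _ h => hinj h]
    exact Finset.sum_le_sum_of_subset hsub
  unfold Drw.cr
  refine le_trans (Finset.sum_le_sum fun p _ => h1 fun f => D.N (p.map Y) f) ?_
  exact h1 fun e => ∑ f ∈ ed G, D.N e f

end Pool.Agent.ALB
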