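import Pool.Agent.ALB.Defs

/-! # ALB: crossings on the edges between `Z` and the rest of the hub -/

set_option autoImplicit false

namespace Pool.Agent.ALB

open Finset

variable {V : Type} [Fintype V] {G : SimpleGraph V}

open Classical in
/-- crossings on the edges between `Z` and `H \ Z` -/
noncomputable def Phi (D : Drw G) (H Z : Finset V) : ℕ :=
  ∑ e ∈ (ed G).filter (fun e => ∃ z ∈ Z, ∃ h ∈ H, h ∉ Z ∧ e = s(z, h)), ∑ f ∈ ed G, D.N e f

end Pool.Agent.ALB
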