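import Pool.Agent.ALB.PscA
import Pool.Agent.ALB.PscDefs
import Pool.Agent.ALB.Clique

/-! # ALB module PSC: a good set of hub vertices -/

set_option autoImplicit false

namespace Pool.Agent.ALB

open Finset

variable {V : Type} [Fintype V] {G : SimpleGraph V}

open Classical in
private theorem psc_count {H : Finset V} {a b : V} (ha : a ∈ H) (hb : b ∈ H) (hab : a ≠ b) {m : ℕ}
    (hm : 1 ≤ m) :
    2 * (H.card - 2).choose (m - 1) ≤
      ((powersetCard m H).filter (fun Z => ∃ z ∈ Z, ∃ h ∈ H, h ∉ Z ∧ s(a, b) = s(z, h))).card := by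
  have h1 := card_sep ha hb hab hm
  have h2 := card_sep hb ha hab.symm hm
  have hdis : Disjoint ((powersetCard m H).filter (fun Z => a ∈ Z ∧ b ∉ Z))
      ((powersetCard m H).filter (fun Z => b ∈ Z ∧ a ∉ Z)) := by
    rw [disjoint_left]
    intro Z h3 h4
    rw [mem_filter] at h3 h4
    exact h4.2.2 h3.2.1
  calc 2 * (H.card - 2).choose (m - 1)
      = (((powersetCard m H).filter (fun Z => a ∈ Z ∧ b ∉ Z)) ∪
        ((powersetCard m H).filter (fun Z => b ∈ Z ∧ a ∉ Z))).card := by
        rw [card_union_of_disjoint hdis, h1, h2, two_mul]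
    _ ≤ _ := by
        refine card_le_card ?_
        intro Z hZ
        rw [mem_union, mem_filter, mem_filter] at hZ
        rw [mem_filter]
        rcases hZ with hZ | hZ
        · exact ⟨hZ.1, a, hZ.2.1, b, hb, hZ.2.2, rfl⟩
        · exact ⟨hZ.1, b, hZ.2.1, a, ha, hZ.2.2, Sym2.eq_swap⟩

/-- **Averaging over the `m`-subsets of the hub.**

Proof.  `g e = ∑_{f ∈ ed G} N e f`.  For an edge `e = s(a,b)` inside the clique `H` the number of
`Z ∈ powersetCard m H` with `e` between `Z` and `H \ Z` is `2 choose (s-2) (m-1)` (`card_sep`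
twice).  So `∑_Z Phi Z = 2 choose (s-2) (m-1) ∑_{e ⊆ H} g e ≥ 2 choose (s-2) (m-1) crK s`
(`crK_le_of_clique` with an enumeration `Y : Fin s → V` of `H`; the double sum there is over edges
inside `H`).  There are `choose s m` sets `Z`, so for one of them
`choose s m · Phi Z ≥ 2 choose (s-2) (m-1) crK s`; use `choose_aux`. -/
theorem exists_Z (D : Drw G) (H : Finset V) (hH : ∀ a ∈ H, ∀ b ∈ H, a ≠ b → G.Adj a b) {m : ℕ}
    (hm : 1 ≤ m) (hs : 2 * m ≤ H.card) :
    ∃ Z ⊆ H, Z.card = m ∧ m * crK H.card ≤ H.card * Phi D H Z := by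
  classical
  obtain ⟨Y, hYi, hYm⟩ : ∃ Y : Fin H.card → V, Function.Injective Y ∧ ∀ i, Y i ∈ H :=
    ⟨fun i => (H.equivFin.symm i : V), fun i j hij => H.equivFin.symm.injective (Subtype.ext hij),
      fun i => (H.equivFin.symm i).2⟩
  have hYA : ∀ i j, i ≠ j → G.Adj (Y i) (Y j) := fun i j hij =>
    hH _ (hYm i) _ (hYm j) (fun h => hij (hYi h))
  have hcr := crK_le_of_clique D Y hYi hYA
  set g : Sym2 V → ℕ := fun e => ∑ f ∈ ed G, D.N e f with hg
  set C := (H.card - 2).choose (m - 1) with hC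
  have hmap : Function.Injective (Sym2.map Y) := Sym2.map.injective hYi
  have hmem : ∀ p ∈ ed (⊤ : SimpleGraph (Fin H.card)), p.map Y ∈ ed G := by
    intro p hp
    induction p using Sym2.ind with
    | _ i j =>
      rw [mem_ed, SimpleGraph.mem_edgeSet, SimpleGraph.top_adj] at hp
      rw [Sym2.map_mk, mem_ed]
      exact hYA i j hp
  have hcr2 : crK H.card ≤ ∑ p ∈ ed (⊤ : SimpleGraph (Fin H.card)), g (p.map Y) := by
    refine hcr.trans (sum_le_sum fun p _ => ?_)
    simp only [hg]
    have e1 : ∑ q ∈ ed (⊤ : SimpleGraph (Fin H.card)), D.N (p.map Y) (q.map Y) =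
        ∑ f ∈ (ed (⊤ : SimpleGraph (Fin H.card))).image (Sym2.map Y), D.N (p.map Y) f := by
      rw [sum_image fun x _ y _ hxy => hmap hxy]
    rw [e1]
    refine sum_le_sum_of_subset ?_
    intro f hf
    obtain ⟨q, hq, rfl⟩ := mem_image.1 hf
    exact hmem q hq
  set cnt : Sym2 V → ℕ := fun e =>
    ((powersetCard m H).filter (fun Z => ∃ z ∈ Z, ∃ h ∈ H, h ∉ Z ∧ e = s(z, h))).card with hcnt
  have hsum : ∑ Z ∈ powersetCard m H, Phi D H Z = ∑ e ∈ ed G, g e * cnt e := by
    unfold Phi
    simp only [sum_filter, hcnt]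
    rw [sum_comm]
    refine sum_congr rfl fun e _ => ?_
    rw [card_filter, mul_sum]
    refine sum_congr rfl fun Z _ => ?_
    split_ifs <;> simp [hg]
  have hlow : 2 * C * crK H.card ≤ ∑ Z ∈ powersetCard m H, Phi D H Z := by
    rw [hsum]
    calc 2 * C * crK H.card
        ≤ 2 * C * ∑ p ∈ ed (⊤ : SimpleGraph (Fin H.card)), g (p.map Y) :=
          Nat.mul_le_mul_left _ hcr2
      _ = ∑ p ∈ ed (⊤ : SimpleGraph (Fin H.card)), g (p.map Y) * (2 * C) := by
          rw [mul_sum]
          exact sum_congr rfl fun p _ => mul_comm _ _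
      _ ≤ ∑ p ∈ ed (⊤ : SimpleGraph (Fin H.card)), g (p.map Y) * cnt (p.map Y) := by
          refine sum_le_sum fun p hp => Nat.mul_le_mul_left _ ?_
          induction p using Sym2.ind with
          | _ i j =>
            rw [mem_ed, SimpleGraph.mem_edgeSet, SimpleGraph.top_adj] at hp
            rw [Sym2.map_mk]
            exact psc_count (hYm i) (hYm j) (fun h => hp (hYi h)) hm
      _ = ∑ e ∈ (ed (⊤ : SimpleGraph (Fin H.card))).image (Sym2.map Y), g e * cnt e := by
          rw [sum_image fun x _ y _ hxy => hmap hxy]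
      _ ≤ ∑ e ∈ ed G, g e * cnt e := by
          refine sum_le_sum_of_subset ?_
          intro f hf
          obtain ⟨q, hq, rfl⟩ := mem_image.1 hf
          exact hmem q hq
  have hne : (powersetCard m H).Nonempty := powersetCard_nonempty.2 (by omega)
  have hav : ∑ _Z ∈ powersetCard m H, m * crK H.card ≤
      ∑ Z ∈ powersetCard m H, H.card * Phi D H Z := by
    rw [sum_const, card_powersetCard, smul_eq_mul, ← mul_sum]
    have h3 := choose_aux hm hs
    calc H.card.choose m * (m * crK H.card) = (m * H.card.choose m) * crK H.card := by ring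
      _ ≤ (H.card * (2 * C)) * crK H.card := Nat.mul_le_mul_right _ h3
      _ = H.card * (2 * C * crK H.card) := by ring
      _ ≤ _ := Nat.mul_le_mul_left _ hlow
  obtain ⟨Z, hZ, h4⟩ := exists_le_of_sum_le hne hav
  rw [mem_powersetCard] at hZ
  exact ⟨Z, hZ.1, hZ.2, h4⟩

end Pool.Agent.ALB
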