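import Pool.Agent.ALB.WalkArc

/-! # ALB module PSD: drawing `K_k` along a path system -/

set_option autoImplicit false

namespace Pool.Agent.ALB

/-- a vertex on the arc of an edge belongs to the edge -/
private lemma psd_mem {V : Type} {G : SimpleGraph V} (D : Drw G) {e : Sym2 V}
    (he : e ∈ G.edgeSet) {x : V} (hx : D.pos x ∈ D.arc e) : x ∈ e := by
  induction e using Sym2.ind with
  | _ a b =>
    rcases D.avoid a b x he hx with h | h
    · rw [h]; exact Sym2.mem_mk_left _ _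
    · rw [h]; exact Sym2.mem_mk_right _ _

private lemma psd_ncard {ι α : Type} (s : Finset ι) (f : ι → Set α) :
    (⋃ i ∈ s, f i).ncard ≤ ∑ i ∈ s, (f i).ncard := by
  classical
  induction s using Finset.induction_on with
  | empty => simp
  | insert a s ha ih =>
    rw [Finset.set_biUnion_insert, Finset.sum_insert ha]
    exact (Set.ncard_union_le _ _).trans (Nat.add_le_add_left ih _)

/-- **Path system drawing.**  Terminals `Y : Fin k → V`; for every edge `p = s(i,j)` of `K_k` a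
finite set `E p` of edges of `G` which contains a walk from `Y i` to `Y j`, whose vertices are
`Y i`, `Y j` or non-terminals; the sets `E p` are pairwise disjoint.  Then `K_k` can be drawn with
at most `∑_{p ≠ q} (∑_{e ∈ E p, f ∈ E q} N e f + #{non-terminals on both})` crossings (twice).

Proof.  For `p = s(i,j)` choose (`Sym2`: choose a representative `(i,j)` with `Quot.out`) a walk
and the arc `R p` of `walk_arc`; for `p` not an edge put `R p = ∅`.  `D'` : `pos' = pos ∘ Y`,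
`arc' = R`.  `isArc`: for `s(i,j)` with representative `(i,j)` or `(j,i)` use `IsArc.symm`.
`avoid`: if `pos (Y l) ∈ R s(i,j)` then it is on the arc of some `e ∈ E s(i,j)`, so by
`D.avoid` `Y l ∈ e`, by `hT` `Y l = Y i` or `Y l = Y j`, so `l = i` or `l = j`.
Common points: for edges `p ≠ q` of `K_k`, a point of `R p ∩ R q` outside `pos' '' univ` is on
`arc e ∩ arc f` with `e ∈ E p`, `f ∈ E q`, `e ≠ f` by `hdis`.  Either it is not a vertex of `G`
(then it is one of the points counted by `N e f`), or it is `pos x` with `x ∈ e`, `x ∈ f`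
(`D.avoid`) and `x ∉ Set.range Y`.  So
`R p ∩ R q \ range pos' ⊆ (⋃_{e ∈ E p, f ∈ E q} (arc e ∩ arc f \ range pos)) ∪
pos '' {x | x ∉ range Y ∧ (∃ e ∈ E p, x ∈ e) ∧ (∃ f ∈ E q, x ∈ f)}`, a finite set, and
`Set.ncard` of a finite union is at most the sum.  `p = q` contributes `0` (`Drw.N_self`).
Finally `crK k ≤ D'.cr` by `Nat.sInf_le`. -/
theorem psd {V : Type} [Fintype V] {G : SimpleGraph V} (D : Drw G) {k : ℕ} (Y : Fin k → V)
    (hY : Function.Injective Y) (E : Sym2 (Fin k) → Finset (Sym2 V))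
    (hE : ∀ p, ∀ e ∈ E p, e ∈ G.edgeSet)
    (hW : ∀ i j, i ≠ j → ∃ W : G.Walk (Y i) (Y j), ∀ e ∈ W.edges, e ∈ E s(i, j))
    (hT : ∀ i j, i ≠ j → ∀ e ∈ E s(i, j), ∀ x ∈ e, x ∈ Set.range Y → x = Y i ∨ x = Y j)
    (hdis : ∀ p ∈ (⊤ : SimpleGraph (Fin k)).edgeSet, ∀ q ∈ (⊤ : SimpleGraph (Fin k)).edgeSet,
      p ≠ q → ∀ e ∈ E p, e ∉ E q) :
    crK k ≤ ∑ p ∈ ed (⊤ : SimpleGraph (Fin k)),
      ∑ q ∈ (ed (⊤ : SimpleGraph (Fin k))).erase p,
        ((∑ e ∈ E p, ∑ f ∈ E q, D.N e f) +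
          {x : V | x ∉ Set.range Y ∧ (∃ e ∈ E p, x ∈ e) ∧ (∃ f ∈ E q, x ∈ f)}.ncard) := by
  classical
  -- the arcs
  have hR : ∀ p : Sym2 (Fin k), ∃ R : Set ℂ, ∀ i j, p = s(i, j) → i ≠ j →
      R ⊆ {z | ∃ e ∈ E p, z ∈ D.arc e} ∧ IsArc (D.pos (Y i)) (D.pos (Y j)) R := by
    intro p
    induction p using Sym2.ind with
    | _ a b =>
      by_cases hab : a = b
      · refine ⟨∅, fun i j h hij => ?_⟩
        exfalso
        rw [Sym2.eq_iff] at h
        rcases h with ⟨h1, h2⟩ | ⟨h1, h2⟩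
        · exact hij (h1.symm.trans (hab.trans h2))
        · exact hij (h2.symm.trans (hab.symm.trans h1))
      · obtain ⟨W, hWe⟩ := hW a b hab
        obtain ⟨R, hR1, hR2⟩ := walk_arc D W fun h => hab (hY h)
        refine ⟨R, fun i j h _ => ⟨fun z hz => ?_, ?_⟩⟩
        · obtain ⟨e, he, hz'⟩ := hR1 hz
          exact ⟨e, hWe e he, hz'⟩
        · rw [Sym2.eq_iff] at h
          rcases h with ⟨h1, h2⟩ | ⟨h1, h2⟩
          · rw [← h1, ← h2]; exact hR2
          · rw [← h1, ← h2]; exact hR2.symm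
  choose R hR using hR
  have hRsub : ∀ p ∈ (⊤ : SimpleGraph (Fin k)).edgeSet, ∀ z ∈ R p, ∃ e ∈ E p, z ∈ D.arc e := by
    intro p hp z hz
    induction p using Sym2.ind with
    | _ a b => exact (hR _ a b rfl hp).1 hz
  -- the set of the common points
  set S : Sym2 (Fin k) → Sym2 (Fin k) → Set ℂ := fun p q =>
    (⋃ e ∈ E p, ⋃ f ∈ E q, ((D.arc e ∩ D.arc f) \ Set.range D.pos)) ∪
      D.pos '' {x : V | x ∉ Set.range Y ∧ (∃ e ∈ E p, x ∈ e) ∧ (∃ f ∈ E q, x ∈ f)} with hS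
  have hsub : ∀ p ∈ (⊤ : SimpleGraph (Fin k)).edgeSet, ∀ q ∈ (⊤ : SimpleGraph (Fin k)).edgeSet,
      (R p ∩ R q) \ Set.range (D.pos ∘ Y) ⊆ S p q := by
    rintro p hp q hq z ⟨⟨h1, h2⟩, h3⟩
    obtain ⟨e, he, hze⟩ := hRsub p hp z h1
    obtain ⟨f, hf, hzf⟩ := hRsub q hq z h2
    by_cases hz : z ∈ Set.range D.pos
    · obtain ⟨x, rfl⟩ := hz
      refine Or.inr ⟨x, ⟨?_, ⟨e, he, psd_mem D (hE p e he) hze⟩,
        ⟨f, hf, psd_mem D (hE q f hf) hzf⟩⟩, rfl⟩
      rintro ⟨i, rfl⟩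
      exact h3 ⟨i, rfl⟩
    · refine Or.inl ?_
      simp only [Set.mem_iUnion]
      exact ⟨e, he, f, hf, ⟨hze, hzf⟩, hz⟩
  have hfin : ∀ p ∈ (⊤ : SimpleGraph (Fin k)).edgeSet, ∀ q ∈ (⊤ : SimpleGraph (Fin k)).edgeSet,
      p ≠ q → (S p q).Finite := by
    intro p hp q hq hpq
    refine Set.Finite.union ?_ ((Set.toFinite _).image _)
    refine Set.Finite.biUnion (E p).finite_toSet fun e he => ?_
    refine Set.Finite.biUnion (E q).finite_toSet fun f hf => ?_
    exact D.fin e (hE p e he) f (hE q f hf) fun h => hdis p hp q hq hpq e he (h ▸ hf)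
  set D' : Drw (⊤ : SimpleGraph (Fin k)) :=
    { pos := D.pos ∘ Y
      arc := R
      inj := D.inj.comp hY
      isArc := fun u v h => (hR _ u v rfl h).2
      avoid := fun u v w h hw => by
        obtain ⟨e, he, hz⟩ := hRsub s(u, v) h _ hw
        rcases hT u v h e he (Y w) (psd_mem D (hE _ e he) hz) ⟨w, rfl⟩ with h1 | h1
        · exact Or.inl (hY h1)
        · exact Or.inr (hY h1)
      fin := fun p hp q hq hpq => (hfin p hp q hq hpq).subset (hsub p hp q hq) } with hD'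
  refine le_trans (Nat.sInf_le ⟨D', rfl⟩) ?_
  unfold Drw.cr
  refine Finset.sum_le_sum fun p hp => ?_
  have hp' := mem_ed.1 hp
  rw [← Finset.add_sum_erase _ _ hp, Drw.N_self D' hp', zero_add]
  refine Finset.sum_le_sum fun q hq => ?_
  obtain ⟨hqp, hq1⟩ := Finset.mem_erase.1 hq
  have hq' := mem_ed.1 hq1
  refine (Set.ncard_le_ncard (hsub p hp' q hq') (hfin p hp' q hq' hqp.symm)).trans ?_
  refine (Set.ncard_union_le _ _).trans (Nat.add_le_add ?_ (Set.ncard_image_le (Set.toFinite _)))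
  refine (psd_ncard _ _).trans (Finset.sum_le_sum fun e _ => ?_)
  exact psd_ncard _ _

end Pool.Agent.ALB
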