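import Pool.Agent.ALB.Defs

/-! # ALB module ARCA: basic facts about simple arcs -/

set_option autoImplicit false

namespace Pool.Agent.ALB

/-- Constructor: a continuous injective map on a compact interval gives an arc.
Proof.  Take `γ t = f (s + t (r - s))`, `t ∈ [0,1]` (use `Path.mk`); continuity from
`ContinuousOn.comp` (or `ContinuousOn.restrict`), injectivity from `InjOn`; the range is
`f '' Icc s r` since `t ↦ s + t (r - s)` maps `[0,1]` onto `[s,r]`. -/
theorem isArc_of_Icc {f : ℝ → ℂ} {s r : ℝ} (hsr : s < r) (hc : ContinuousOn f (Set.Icc s r))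
    (hi : Set.InjOn f (Set.Icc s r)) : IsArc (f s) (f r) (f '' Set.Icc s r) := by
  have hmem : ∀ t : unitInterval, s + (t : ℝ) * (r - s) ∈ Set.Icc s r := by
    intro t
    have h0 := t.2.1
    have h1 := t.2.2
    constructor <;> nlinarith
  refine ⟨⟨⟨fun t => f (s + (t : ℝ) * (r - s)),
    hc.comp_continuous (by fun_prop) hmem⟩, by simp, by simp⟩, ?_, ?_⟩
  · intro t t' h
    have h1 : s + (t : ℝ) * (r - s) = s + (t' : ℝ) * (r - s) := hi (hmem t) (hmem t') h
    have h3 : r - s ≠ 0 := by
      intro h0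
      linarith
    exact Subtype.ext (mul_right_cancel₀ h3 (add_left_cancel h1))
  · ext z
    constructor
    · rintro ⟨t, rfl⟩
      exact ⟨_, hmem t, rfl⟩
    · rintro ⟨x, hx, rfl⟩
      have h3 : 0 < r - s := by linarith
      refine ⟨⟨(x - s) / (r - s), div_nonneg (by linarith [hx.1]) h3.le, ?_⟩, ?_⟩
      · rw [div_le_one h3]
        linarith [hx.2]
      · change f (s + (x - s) / (r - s) * (r - s)) = f x
        congr 1
        field_simp
        ring

/-- Destructor: an arc is the image of `[0,1]` under a continuous injective map.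
Proof.  `f t = γ (projIcc 0 1 t)` (`Set.IccExtend`); on `[0,1]` it is `γ t`. -/
theorem IsArc.param {a b : ℂ} {S : Set ℂ} (h : IsArc a b S) :
    ∃ f : ℝ → ℂ, ContinuousOn f (Set.Icc 0 1) ∧ Set.InjOn f (Set.Icc 0 1) ∧ f 0 = a ∧ f 1 = b ∧
      f '' Set.Icc 0 1 = S := by
  obtain ⟨γ, hγ, rfl⟩ := h
  refine ⟨fun t => γ (Set.projIcc 0 1 zero_le_one t),
    (γ.continuous.comp continuous_projIcc).continuousOn, ?_, ?_, ?_, ?_⟩
  · intro t ht t' ht' h
    have h1 := congrArg Subtype.val (hγ h)
    rw [Set.projIcc_of_mem _ ht, Set.projIcc_of_mem _ ht'] at h1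
    exact h1
  · simp only [Set.projIcc_left]
    exact γ.source
  · simp only [Set.projIcc_right]
    exact γ.target
  · ext z
    constructor
    · rintro ⟨t, _, rfl⟩
      exact ⟨_, rfl⟩
    · rintro ⟨t, rfl⟩
      refine ⟨t, t.2, ?_⟩
      simp only [Set.projIcc_val]

/-- Proof: `γ.symm`. -/
theorem IsArc.symm {a b : ℂ} {S : Set ℂ} (h : IsArc a b S) : IsArc b a S := by
  obtain ⟨γ, hγ, rfl⟩ := h
  refine ⟨γ.symm, ?_, γ.symm_range⟩
  intro t t' h
  have h1 : unitInterval.symm t = unitInterval.symm t' := hγ h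
  exact unitInterval.symm_bijective.injective h1

/-- Proof: `γ 0 = a`, `γ 1 = b`, `γ` injective. -/
theorem IsArc.ne {a b : ℂ} {S : Set ℂ} (h : IsArc a b S) : a ≠ b := by
  obtain ⟨γ, hγ, rfl⟩ := h
  intro hab
  have h1 : γ 0 = γ 1 := by rw [γ.source, γ.target, hab]
  exact zero_ne_one (hγ h1)

theorem IsArc.left_mem {a b : ℂ} {S : Set ℂ} (h : IsArc a b S) : a ∈ S := by
  obtain ⟨γ, -, rfl⟩ := h
  exact ⟨0, γ.source⟩

theorem IsArc.right_mem {a b : ℂ} {S : Set ℂ} (h : IsArc a b S) : b ∈ S := by
  obtain ⟨γ, -, rfl⟩ := h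
  exact ⟨1, γ.target⟩

/-- Proof: continuous image of the compact unit interval. -/
theorem IsArc.isCompact {a b : ℂ} {S : Set ℂ} (h : IsArc a b S) : IsCompact S := by
  obtain ⟨γ, -, rfl⟩ := h
  exact isCompact_range γ.continuous

/-- Proof: the range of an injective map on the infinite type `unitInterval` is infinite. -/
theorem IsArc.infinite {a b : ℂ} {S : Set ℂ} (h : IsArc a b S) : S.Infinite := by
  obtain ⟨γ, hγ, rfl⟩ := h
  have h1 : Infinite unitInterval := Set.infinite_coe_iff.2 (Set.Icc_infinite zero_lt_one)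
  exact Set.infinite_range_of_injective hγ

/-- The arc of an edge has infinitely many points outside the vertices (finitely many vertices).
Proof: `IsArc.infinite` minus the finite set `Set.range D.pos`. -/
theorem Drw.arc_infinite {V : Type} [Finite V] {G : SimpleGraph V} (D : Drw G) {e : Sym2 V}
    (he : e ∈ G.edgeSet) : (D.arc e \ Set.range D.pos).Infinite := by
  induction e using Sym2.ind with
  | _ u v =>
    exact (D.isArc u v he).infinite.diff (Set.finite_range D.pos)

/-- Proof: `Set.ncard` of an infinite set is `0`. -/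
theorem Drw.N_self {V : Type} [Finite V] {G : SimpleGraph V} (D : Drw G) {e : Sym2 V}
    (he : e ∈ G.edgeSet) : D.N e e = 0 := by
  unfold Drw.N
  rw [Set.inter_self]
  exact (D.arc_infinite he).ncard

/-- The straight segment is an arc.
Proof: `isArc_of_Icc` with `f t = a + t (b - a)` (`AffineMap.lineMap`), `segment_eq_image`. -/
theorem isArc_segment {a b : ℂ} (h : a ≠ b) : IsArc a b (segment ℝ a b) := by
  have hc : ContinuousOn (fun t : ℝ => a + t • (b - a)) (Set.Icc 0 1) := by fun_prop
  have hi : Set.InjOn (fun t : ℝ => a + t • (b - a)) (Set.Icc 0 1) := by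
    intro t _ t' _ h1
    have h2 : t • (b - a) = t' • (b - a) := add_left_cancel h1
    exact smul_left_injective ℝ (sub_ne_zero.2 h.symm) h2
  have h1 := isArc_of_Icc zero_lt_one hc hi
  simp only [zero_smul, add_zero, one_smul, add_sub_cancel] at h1
  rwa [segment_eq_image']

end Pool.Agent.ALB
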