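import Pool.Agent.ALB.FrzDefs
import Pool.Agent.ALB.ArcA

/-! # ALB: counting the crossing set (helper for FRZIN, FRZOUT) -/

set_option autoImplicit false

namespace Pool.Agent.ALB

/-- the ordered crossings of a drawing -/
def YS {V : Type} {G : SimpleGraph V} (D : Drw G) : Set (Sym2 V × Sym2 V × ℂ) :=
  {y | y.1 ∈ G.edgeSet ∧ y.2.1 ∈ G.edgeSet ∧ y.1 ≠ y.2.1 ∧
    y.2.2 ∈ (D.arc y.1 ∩ D.arc y.2.1) \ Set.range D.pos}

theorem YS_finite {V : Type} [Fintype V] {G : SimpleGraph V} (D : Drw G) : (YS D).Finite := by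
  classical
  have h : YS D ⊆ ⋃ p ∈ {p : Sym2 V × Sym2 V | p.1 ∈ G.edgeSet ∧ p.2 ∈ G.edgeSet ∧ p.1 ≠ p.2},
      (fun z => (p.1, p.2, z)) '' ((D.arc p.1 ∩ D.arc p.2) \ Set.range D.pos) := by
    rintro ⟨e, f, z⟩ ⟨h1, h2, h3, h4⟩
    simp only [Set.mem_iUnion]
    exact ⟨(e, f), ⟨h1, h2, h3⟩, z, h4, rfl⟩
  refine Set.Finite.subset ?_ h
  refine Set.Finite.biUnion (Set.toFinite _) ?_
  rintro ⟨e, f⟩ ⟨h1, h2, h3⟩
  exact (D.fin e h1 f h2 h3).image _

theorem YS_ncard {V : Type} [Fintype V] {G : SimpleGraph V} (D : Drw G) :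
    (YS D).ncard = D.cr := by
  classical
  have hfin := YS_finite D
  rw [Set.ncard_eq_toFinset_card _ hfin]
  rw [Finset.card_eq_sum_card_fiberwise (f := fun y : Sym2 V × Sym2 V × ℂ => (y.1, y.2.1))
    (t := ed G ×ˢ ed G)]
  · rw [Finset.sum_product]
    unfold Drw.cr
    refine Finset.sum_congr rfl fun e he => Finset.sum_congr rfl fun f hf => ?_
    rw [mem_ed] at he hf
    by_cases hef : e = f
    · subst hef
      rw [D.N_self he, Finset.card_eq_zero]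
      refine Finset.filter_eq_empty_iff.2 ?_
      rintro ⟨e', f', z⟩ hy hyy
      rw [Set.Finite.mem_toFinset] at hy
      obtain ⟨-, -, h3, -⟩ := hy
      simp only [Prod.mk.injEq] at hyy
      exact h3 (hyy.1.trans hyy.2.symm)
    · have hS := D.fin e he f hf hef
      unfold Drw.N
      rw [Set.ncard_eq_toFinset_card _ hS]
      have himg : ({y ∈ hfin.toFinset | (fun y : Sym2 V × Sym2 V × ℂ => (y.1, y.2.1)) y = (e, f)} :
          Finset (Sym2 V × Sym2 V × ℂ)) = hS.toFinset.image (fun z => (e, f, z)) := by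
        ext ⟨e', f', z⟩
        simp only [Finset.mem_filter, Set.Finite.mem_toFinset, Finset.mem_image, Prod.mk.injEq]
        constructor
        · rintro ⟨⟨-, -, -, h4⟩, h5, h6⟩
          simp only at h4 h5 h6
          subst h5
          subst h6
          exact ⟨z, h4, rfl, rfl, rfl⟩
        · rintro ⟨z', h4, rfl, rfl, rfl⟩
          exact ⟨⟨he, hf, hef, h4⟩, rfl, rfl⟩
      rw [himg, Finset.card_image_of_injective]
      intro z z' h
      simpa using h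
  · rintro ⟨e, f, z⟩ hy
    rw [Finset.mem_coe, Set.Finite.mem_toFinset] at hy
    obtain ⟨h1, h2, -, -⟩ := hy
    simp only [Finset.coe_product, Set.mem_prod, Finset.mem_coe, mem_ed]
    exact ⟨h1, h2⟩

/-- the map from the crossing set of the frozen statement -/
def toYS {n : ℕ} (Φ : ℝ × ℝ → ℂ) (q : (Fin n × Fin n) × (Fin n × Fin n) × (ℝ × ℝ)) :
    Sym2 (Fin n) × Sym2 (Fin n) × ℂ :=
  (s(q.1.1, q.1.2), s(q.2.1.1, q.2.1.2), Φ q.2.2)

theorem sym_lt {n : ℕ} {a b c d : Fin n} (h1 : a < b) (h2 : c < d) (h : s(a, b) = s(c, d)) :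
    a = c ∧ b = d := by
  rcases Sym2.eq_iff.1 h with h | h
  · exact h
  · obtain ⟨rfl, rfl⟩ := h
    exact absurd h1 (lt_asymm h2)

theorem exists_lt_rep {n : ℕ} {G : SimpleGraph (Fin n)} {e : Sym2 (Fin n)} (he : e ∈ G.edgeSet) :
    ∃ u v : Fin n, u < v ∧ G.Adj u v ∧ e = s(u, v) := by
  induction e using Sym2.ind with
  | _ u v =>
    rw [SimpleGraph.mem_edgeSet] at he
    rcases lt_or_gt_of_ne he.ne with h | h
    · exact ⟨u, v, h, he, rfl⟩
    · exact ⟨v, u, h, he.symm, Sym2.eq_swap⟩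

theorem frz_count {n : ℕ} {G : SimpleGraph (Fin n)} {pos : Fin n → ℝ × ℝ}
    {γ : ∀ u v : Fin n, Path (pos u) (pos v)} (D : Drw G) (Φ : ℝ × ℝ → ℂ)
    (hΦ : Function.Injective Φ) (hpos : ∀ v, D.pos v = Φ (pos v))
    (harc : ∀ u v, u < v → G.Adj u v → D.arc s(u, v) = Φ '' Set.range (γ u v)) :
    (XS G pos γ).Finite ∧ (XS G pos γ).ncard = D.cr := by
  have hinj : Set.InjOn (toYS Φ) (XS G pos γ) := by
    rintro ⟨⟨u, v⟩, ⟨u', v'⟩, p⟩ ⟨h1, -, h2, -⟩ ⟨⟨a, b⟩, ⟨a', b'⟩, p'⟩ ⟨h3, -, h4, -⟩ h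
    simp only [toYS, Prod.mk.injEq] at h
    obtain ⟨h5, h6, h7⟩ := h
    obtain ⟨rfl, rfl⟩ := sym_lt h1 h3 h5
    obtain ⟨rfl, rfl⟩ := sym_lt h2 h4 h6
    rw [hΦ h7]
  have himg : toYS Φ '' XS G pos γ = YS D := by
    ext ⟨e, f, z⟩
    constructor
    · rintro ⟨⟨⟨u, v⟩, ⟨u', v'⟩, p⟩, ⟨h1, h2, h3, h4, h5, h6, h7, h8⟩, h⟩
      simp only [toYS, Prod.mk.injEq] at h h1 h2 h3 h4 h5 h6 h7 h8
      obtain ⟨rfl, rfl, rfl⟩ := h
      refine ⟨h2, h4, ?_, ⟨?_, ?_⟩, ?_⟩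
      · intro h
        obtain ⟨rfl, rfl⟩ := sym_lt h1 h3 h
        exact h5 rfl
      · change Φ p ∈ D.arc s(u, v)
        rw [harc u v h1 h2]
        exact ⟨p, h6, rfl⟩
      · change Φ p ∈ D.arc s(u', v')
        rw [harc u' v' h3 h4]
        exact ⟨p, h7, rfl⟩
      · rintro ⟨w, hw⟩
        rw [hpos] at hw
        exact h8 ⟨w, hΦ hw⟩
    · rintro ⟨h1, h2, h3, ⟨h4, h5⟩, h6⟩
      simp only at h1 h2 h3 h4 h5 h6
      obtain ⟨u, v, huv, ha, rfl⟩ := exists_lt_rep h1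
      obtain ⟨u', v', huv', ha', rfl⟩ := exists_lt_rep h2
      rw [harc u v huv ha] at h4
      rw [harc u' v' huv' ha'] at h5
      obtain ⟨p, hp, rfl⟩ := h4
      obtain ⟨p', hp', hpp⟩ := h5
      have := hΦ hpp
      subst this
      refine ⟨((u, v), (u', v'), p'), ⟨huv, ha, huv', ha', ?_, hp, hp', ?_⟩, rfl⟩
      · intro h
        simp only [Prod.mk.injEq] at h
        obtain ⟨rfl, rfl⟩ := h
        exact h3 rfl
      · rintro ⟨w, hw⟩
        refine h6 ⟨w, ?_⟩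
        rw [hpos, hw]
  constructor
  · refine Set.Finite.of_finite_image ?_ hinj
    rw [himg]
    exact YS_finite D
  · rw [← hinj.ncard_image, himg, YS_ncard]

end Pool.Agent.ALB
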