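import Pool.Agent.ALB.FrzDefs
import Pool.Agent.ALB.ArcA
import Pool.Agent.ALB.FrzCount

/-! # ALB module FRZIN -/

set_option autoImplicit false

namespace Pool.Agent.ALB

/-- A drawing as in the frozen statement gives a `Drw` with the same (doubled) number of crossings.

Proof.  Let `Φ : ℝ × ℝ → ℂ`, `Φ (x,y) = x + y i` (`Complex.equivRealProdCLM.symm`, a
homeomorphism).  `pos' = Φ ∘ pos`; `arc s(u,v) = Φ '' Set.range (γ u v)` for `u < v` (define `arc`
by `Sym2.lift` of `fun u v => Φ '' Set.range (γ (min u v) (max u v))`).  `isArc`: for `u < v` the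
path `(γ u v).map`; for `v < u` its reverse.  `avoid`: `pos w = γ u v t` gives `t = 0` or `1`,
so `pos w = pos u` or `pos v`.
The set `XS` is the disjoint union over the ordered pairs of different edges
`e = s(u,v), f = s(u',v')` (`u < v`, `u' < v'`; `(u,v) ↦ s(u,v)` is a bijection onto the
edges) of `{(u,v)} × {(u',v')} × ((arc e ∩ arc f) \ range pos)` (up to `Φ`).  So `fin` follows
from the finiteness of `XS`, and `ncard XS = ∑_{e ≠ f} N e f = cr` (`Drw.N_self`). -/
theorem frz_in {n : ℕ} {G : SimpleGraph (Fin n)} {pos : Fin n → ℝ × ℝ}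
    {γ : ∀ u v : Fin n, Path (pos u) (pos v)} (h : IsFrz G pos γ) :
    ∃ D : Drw G, D.cr = (XS G pos γ).ncard := by
  obtain ⟨h1, h2, h3⟩ := h
  set Φ : ℝ × ℝ → ℂ := fun p => ⟨p.1, p.2⟩ with hΦd
  have hΦc : Continuous Φ := Complex.equivRealProdCLM.symm.continuous
  have hΦ : Function.Injective Φ := by
    intro p q h
    have e1 := congrArg Complex.re h
    have e2 := congrArg Complex.im h
    exact Prod.ext e1 e2
  have hcongr : ∀ a b a' b' : Fin n, a = a' → b = b' →
      Φ '' Set.range (γ a b) = Φ '' Set.range (γ a' b') := by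
    rintro a b a' b' rfl rfl
    rfl
  set arc : Sym2 (Fin n) → Set ℂ := Sym2.lift ⟨fun u v => Φ '' Set.range (γ (min u v) (max u v)),
    fun u v => hcongr _ _ _ _ (min_comm u v) (max_comm u v)⟩ with harcd
  have harc : ∀ u v : Fin n, u < v → arc s(u, v) = Φ '' Set.range (γ u v) := fun u v huv =>
    hcongr _ _ _ _ (min_eq_left huv.le) (max_eq_right huv.le)
  have hA : ∀ u v : Fin n, u < v → G.Adj u v → IsArc (Φ (pos u)) (Φ (pos v)) (arc s(u, v)) := by
    intro u v huv ha
    refine ⟨(γ u v).map hΦc, ?_, ?_⟩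
    · exact hΦ.comp (h2 u v huv ha).1
    · rw [harc u v huv]
      ext z
      constructor
      · rintro ⟨t, rfl⟩
        exact ⟨_, ⟨t, rfl⟩, rfl⟩
      · rintro ⟨p, ⟨t, rfl⟩, rfl⟩
        exact ⟨t, rfl⟩
  have hB : ∀ u v w : Fin n, u < v → G.Adj u v → Φ (pos w) ∈ arc s(u, v) → w = u ∨ w = v := by
    intro u v w huv ha hw
    rw [harc u v huv] at hw
    obtain ⟨p, ⟨s, rfl⟩, hp⟩ := hw
    have hp' := hΦ hp
    rcases (h2 u v huv ha).2 s ⟨w, hp'.symm⟩ with rfl | rfl
    · left
      rw [(γ u v).source] at hp'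
      exact (h1 hp').symm
    · right
      rw [(γ u v).target] at hp'
      exact (h1 hp').symm
  let D : Drw G :=
    { pos := fun v => Φ (pos v)
      arc := arc
      inj := hΦ.comp h1
      isArc := by
        intro u v ha
        rcases lt_or_gt_of_ne ha.ne with huv | huv
        · exact hA u v huv ha
        · rw [Sym2.eq_swap]
          exact (hA v u huv ha.symm).symm
      avoid := by
        intro u v w ha hw
        rcases lt_or_gt_of_ne ha.ne with huv | huv
        · exact hB u v w huv ha hw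
        · rw [Sym2.eq_swap] at hw
          exact (hB v u w huv ha.symm hw).symm
      fin := by
        intro e he f hf hef
        obtain ⟨u, v, huv, ha, rfl⟩ := exists_lt_rep he
        obtain ⟨u', v', huv', ha', rfl⟩ := exists_lt_rep hf
        refine (h3.image (fun q => Φ q.2.2)).subset ?_
        rintro z ⟨⟨hz, hz'⟩, hz2⟩
        rw [harc u v huv] at hz
        rw [harc u' v' huv'] at hz'
        obtain ⟨p, hp, rfl⟩ := hz
        obtain ⟨p', hp', hpp⟩ := hz'
        have := hΦ hpp
        subst this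
        refine ⟨((u, v), (u', v'), p'), ⟨huv, ha, huv', ha', ?_, hp, hp', ?_⟩, rfl⟩
        · intro h
          simp only [Prod.mk.injEq] at h
          obtain ⟨rfl, rfl⟩ := h
          exact hef rfl
        · rintro ⟨w, hw⟩
          refine hz2 ⟨w, ?_⟩
          change Φ (pos w) = Φ p'
          rw [hw] }
  refine ⟨D, ?_⟩
  exact (frz_count D Φ hΦ (fun _ => rfl) (fun u v huv _ => harc u v huv)).2.symm

end Pool.Agent.ALB
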