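import Pool.Agent.ALB.FrzDefs
import Pool.Agent.ALB.ArcA
import Pool.Agent.ALB.FrzCount

/-! # ALB module FRZOUT -/

set_option autoImplicit false

namespace Pool.Agent.ALB

/-- A `Drw` gives a drawing as in the frozen statement with the same number of crossings.

Proof.  Let `Ψ : ℂ → ℝ × ℝ` be the homeomorphism `z ↦ (re z, im z)`.  `pos' = Ψ ∘ D.pos`.  For
adjacent `u, v` choose the path of `D.isArc u v`, mapped by `Ψ`; for non-adjacent `u, v` any path
(e.g. the straight one, `ℝ × ℝ` is path connected; `PathConnectedSpace.somePath`).  Injectivity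
is part of `IsArc`.  If `γ' u v s ∈ range pos'` then by `avoid` it is `pos' u` or `pos' v`, i.e.
`γ' u v 0` or `γ' u v 1`, and `s = 0` or `s = 1` by injectivity.  `XS` is the finite disjoint
union over pairs of different edges, as in `frz_in`, so it is finite and
`ncard XS = ∑ N e f = cr`. -/
theorem frz_out {n : ℕ} {G : SimpleGraph (Fin n)} (D : Drw G) :
    ∃ (pos : Fin n → ℝ × ℝ) (γ : ∀ u v : Fin n, Path (pos u) (pos v)),
      IsFrz G pos γ ∧ (XS G pos γ).ncard = D.cr := by
  classical
  set Φ : ℝ × ℝ → ℂ := fun p => ⟨p.1, p.2⟩ with hΦd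
  have hΦ : Function.Injective Φ := by
    intro p q h
    have e1 := congrArg Complex.re h
    have e2 := congrArg Complex.im h
    exact Prod.ext e1 e2
  set Ψ : ℂ → ℝ × ℝ := fun z => (z.re, z.im) with hΨd
  have hΨc : Continuous Ψ := Complex.equivRealProdCLM.continuous
  have hΦΨ : ∀ z, Φ (Ψ z) = z := fun z => rfl
  have hΨ : Function.Injective Ψ := fun z w h => by
    have := congrArg Φ h
    rwa [hΦΨ, hΦΨ] at this
  set pos : Fin n → ℝ × ℝ := fun v => Ψ (D.pos v) with hpos
  let γ : ∀ u v : Fin n, Path (pos u) (pos v) := fun u v =>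
    if h : G.Adj u v then (Classical.choose (D.isArc u v h)).map hΨc
    else PathConnectedSpace.somePath (pos u) (pos v)
  have hγ : ∀ u v : Fin n, ∀ h : G.Adj u v,
      γ u v = (Classical.choose (D.isArc u v h)).map hΨc := fun u v h => dif_pos h
  have hinj : ∀ u v : Fin n, G.Adj u v → Function.Injective (γ u v) := by
    intro u v h
    rw [hγ u v h]
    exact hΨ.comp (Classical.choose_spec (D.isArc u v h)).1
  have harc : ∀ u v : Fin n, G.Adj u v → D.arc s(u, v) = Φ '' Set.range (γ u v) := by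
    intro u v h
    rw [hγ u v h]
    refine (Classical.choose_spec (D.isArc u v h)).2.symm.trans ?_
    ext z
    constructor
    · rintro ⟨t, rfl⟩
      exact ⟨_, ⟨t, rfl⟩, rfl⟩
    · rintro ⟨p, ⟨t, rfl⟩, rfl⟩
      exact ⟨t, rfl⟩
  have hc := frz_count (pos := pos) (γ := γ) D Φ hΦ (fun _ => rfl) (fun u v _ h => harc u v h)
  refine ⟨pos, γ, ⟨hΨ.comp D.inj, ?_, hc.1⟩, hc.2⟩
  intro u v huv ha
  refine ⟨hinj u v ha, ?_⟩
  rintro s ⟨w, hw⟩
  have h1 : D.pos w ∈ D.arc s(u, v) := by
    rw [harc u v ha]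
    exact ⟨_, ⟨s, rfl⟩, by rw [← hw]⟩
  rcases D.avoid u v w ha h1 with rfl | rfl
  · left
    apply hinj w v ha
    rw [← hw, (γ w v).source]
  · right
    apply hinj u w ha
    rw [← hw, (γ u w).target]

end Pool.Agent.ALB
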