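import Mathlib

/-! # ALB module CHORD: chords of a circle -/

set_option autoImplicit false

namespace Pool.Agent.ALB

open Metric

private theorem ch_norm {z p : ℂ} {r : ℝ} (hp : p ∈ sphere z r) :
    (p.re - z.re) ^ 2 + (p.im - z.im) ^ 2 = r ^ 2 := by
  rw [← mem_sphere_iff_norm.1 hp, Complex.sq_norm, Complex.normSq_apply, Complex.sub_re,
    Complex.sub_im]
  ring

/-- Three collinear points of a circle: two of them coincide.
Proof.  Translate `z` to `0`.  `‖s a + (1-s) c‖² = s ‖a‖² + (1-s) ‖c‖² - s (1-s) ‖a - c‖²`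
(expand; e.g. with `Complex.sq_norm, Complex.normSq_apply` and `ring`/`nlinarith`), i.e.
`r² = r² - s (1-s) ‖a-c‖²`, so `s (1-s) = 0`. -/
theorem col {z a c : ℂ} {r s : ℝ} (ha : a ∈ sphere z r) (hc : c ∈ sphere z r) (hac : a ≠ c)
    (hb : s • a + (1 - s) • c ∈ sphere z r) : s = 0 ∨ s = 1 := by
  have h1 := ch_norm ha
  have h2 := ch_norm hc
  have h3 := ch_norm hb
  have e1 : (s • a + (1 - s) • c).re = s * a.re + (1 - s) * c.re := by
    simp [Complex.real_smul]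
  have e2 : (s • a + (1 - s) • c).im = s * a.im + (1 - s) * c.im := by
    simp [Complex.real_smul]
  rw [e1, e2] at h3
  have h4 : s * (1 - s) * ((a.re - c.re) ^ 2 + (a.im - c.im) ^ 2) = 0 := by
    linear_combination s * h1 + (1 - s) * h2 - h3
  have h5 : (a.re - c.re) ^ 2 + (a.im - c.im) ^ 2 ≠ 0 := by
    intro h0
    apply hac
    have h6 : (a.re - c.re) ^ 2 = 0 := by nlinarith [sq_nonneg (a.re - c.re), sq_nonneg (a.im - c.im)]
    have h7 : (a.im - c.im) ^ 2 = 0 := by nlinarith [sq_nonneg (a.re - c.re), sq_nonneg (a.im - c.im)]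
    exact Complex.ext (sub_eq_zero.1 (pow_eq_zero_iff two_ne_zero |>.1 h6))
      (sub_eq_zero.1 (pow_eq_zero_iff two_ne_zero |>.1 h7))
  rcases mul_eq_zero.1 h4 with h6 | h6
  · rcases mul_eq_zero.1 h6 with h7 | h7
    · exact Or.inl h7
    · exact Or.inr (by linarith)
  · exact absurd h6 h5

/-- Proof: a point of the segment is `s • p + (1-s) • q`; use `col` for `⊆`. -/
theorem chord_sphere {z p q : ℂ} {r : ℝ} (hp : p ∈ sphere z r) (hq : q ∈ sphere z r)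
    (h : p ≠ q) : segment ℝ p q ∩ sphere z r = {p, q} := by
  ext x
  constructor
  · rintro ⟨⟨s, t, hs, ht, hst, rfl⟩, hx⟩
    have ht' : t = 1 - s := by linarith
    subst ht'
    rcases col hp hq h hx with h1 | h1
    · right
      rw [h1]
      simp
    · left
      rw [h1]
      simp
  · rintro (rfl | rfl)
    · exact ⟨left_mem_segment ℝ _ _, hp⟩
    · exact ⟨right_mem_segment ℝ _ _, hq⟩

/-- Proof: `convex_closedBall`. -/
theorem chord_subset {z p q : ℂ} {r : ℝ} (hp : p ∈ sphere z r) (hq : q ∈ sphere z r) :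
    segment ℝ p q ⊆ closedBall z r := by
  exact (convex_closedBall z r).segment_subset (sphere_subset_closedBall hp)
    (sphere_subset_closedBall hq)

/-- Two chords with four different end points have at most one common point.
Proof.  Suppose `x ≠ y` are common points: `x = p₁ + λ (p₂-p₁) = q₁ + λ' (q₂-q₁)`,
`y = p₁ + μ (p₂-p₁) = q₁ + μ' (q₂-q₁)`, so `λ ≠ μ`, `λ' ≠ μ'` and
`q₂ - q₁ = (y-x)/(μ'-λ') = ((μ-λ)/(μ'-λ')) (p₂-p₁)`, hence `q₁ = x - λ' (q₂-q₁)` is of the form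
`p₁ + ν (p₂-p₁) = (1-ν) p₁ + ν p₂`; by `col` `q₁ = p₁` or `q₁ = p₂`, contradiction. -/
theorem chord_inter {z p₁ p₂ q₁ q₂ : ℂ} {r : ℝ} (hp₁ : p₁ ∈ sphere z r) (hp₂ : p₂ ∈ sphere z r)
    (hq₁ : q₁ ∈ sphere z r) (hq₂ : q₂ ∈ sphere z r) (h1 : p₁ ≠ p₂) (h2 : q₁ ≠ q₂)
    (h3 : p₁ ≠ q₁) (h4 : p₁ ≠ q₂) (h5 : p₂ ≠ q₁) (h6 : p₂ ≠ q₂) :
    (segment ℝ p₁ p₂ ∩ segment ℝ q₁ q₂).Subsingleton := by
  rintro x ⟨⟨l, l1, _, _, hl, hx1⟩, ⟨l', l1', _, _, hl', hx2⟩⟩ y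
    ⟨⟨m, m1, _, _, hm, hy1⟩, ⟨m', m1', _, _, hm', hy2⟩⟩
  by_contra hxy
  have e1 : l1 = 1 - l := by linarith
  have e2 : l1' = 1 - l' := by linarith
  have e3 : m1 = 1 - m := by linarith
  have e4 : m1' = 1 - m' := by linarith
  subst e1 e2 e3 e4
  have hlm : l' - m' ≠ 0 := by
    intro h0
    apply hxy
    have h7 : l' = m' := by linarith
    rw [← hx2, ← hy2, h7]
  rw [Complex.real_smul, Complex.real_smul] at hx1 hx2 hy1 hy2
  push_cast at hx1 hx2 hy1 hy2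
  set t : ℝ := (l - m) / (l' - m') with ht
  have ht1 : ((l' : ℂ) - m') * t = (l : ℂ) - m := by
    have h7 : (l' - m') * t = l - m := by
      rw [ht]
      field_simp
    exact_mod_cast h7
  have hlm' : ((l' : ℂ) - m') ≠ 0 := by exact_mod_cast hlm
  have key : (l + (1 - l') * t) • p₁ + (1 - (l + (1 - l') * t)) • p₂ = q₁ := by
    rw [Complex.real_smul, Complex.real_smul]
    push_cast
    apply mul_left_cancel₀ hlm'
    linear_combination (1 - (l' : ℂ)) * (p₁ - p₂) * ht1 + ((l' : ℂ) - m') * (hx1 - hx2) +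
      (1 - (l' : ℂ)) * (hx1 - hy1 - hx2 + hy2)
  rcases col hp₁ hp₂ h1 (key ▸ hq₁) with h7 | h7
  · rw [h7] at key
    apply h5
    rw [← key]
    simp
  · rw [h7] at key
    apply h3
    rw [← key]
    simp

/-- Among four different points on a circle: if the chords `a₁a₂`, `b₁b₂` meet, then the chords
`b₁a₂`, `a₁b₂` do not meet.
Proof.  Suppose `α a₁ + (1-α) a₂ = β b₁ + (1-β) b₂` and
`γ b₁ + (1-γ) a₂ = δ a₁ + (1-δ) b₂` with `α, β, γ, δ ∈ [0,1]`.  None of them is `0` or `1`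
(otherwise one of the four points lies on a chord between two others, against `chord_sphere`).
`δ ·` first `+ α ·` second (with all terms moved to one side) eliminates `a₁`:
`C b₂ = A a₂ + B b₁` with `A = (1-α) δ + (1-γ) α > 0`, `B = γ α - β δ`,
`C = (1-β) δ + (1-δ) α > 0`, `C = A + B`.
So `b₂ = s a₂ + (1-s) b₁` with `s = A / C`; by `col` (`a₂ ≠ b₁`) `s = 0` (impossible, `A > 0`) or
`s = 1`, i.e. `b₂ = a₂`, contradiction. -/
theorem chord_swap {z a₁ a₂ b₁ b₂ : ℂ} {r : ℝ} (ha₁ : a₁ ∈ sphere z r) (ha₂ : a₂ ∈ sphere z r)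
    (hb₁ : b₁ ∈ sphere z r) (hb₂ : b₂ ∈ sphere z r) (h1 : a₁ ≠ a₂) (h2 : b₁ ≠ b₂)
    (h3 : a₁ ≠ b₁) (h4 : a₁ ≠ b₂) (h5 : a₂ ≠ b₁) (h6 : a₂ ≠ b₂) :
    segment ℝ a₁ a₂ ∩ segment ℝ b₁ b₂ = ∅ ∨ segment ℝ b₁ a₂ ∩ segment ℝ a₁ b₂ = ∅ := by
  by_contra hcon
  rw [not_or, ← ne_eq, ← ne_eq, ← Set.nonempty_iff_ne_empty, ← Set.nonempty_iff_ne_empty] at hcon
  obtain ⟨⟨x, hxa, hxb⟩, ⟨y, hya, hyb⟩⟩ := hcon
  have hx : x ∉ sphere z r := by
    intro hx
    have m1 : x ∈ ({a₁, a₂} : Set ℂ) := chord_sphere ha₁ ha₂ h1 ▸ ⟨hxa, hx⟩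
    have m2 : x ∈ ({b₁, b₂} : Set ℂ) := chord_sphere hb₁ hb₂ h2 ▸ ⟨hxb, hx⟩
    rcases m1 with rfl | rfl <;> rcases m2 with rfl | rfl
    · exact h3 rfl
    · exact h4 rfl
    · exact h5 rfl
    · exact h6 rfl
  have hy : y ∉ sphere z r := by
    intro hy
    have m1 : y ∈ ({b₁, a₂} : Set ℂ) := chord_sphere hb₁ ha₂ h5.symm ▸ ⟨hya, hy⟩
    have m2 : y ∈ ({a₁, b₂} : Set ℂ) := chord_sphere ha₁ hb₂ h4 ▸ ⟨hyb, hy⟩
    rcases m1 with rfl | rfl <;> rcases m2 with rfl | rfl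
    · exact h3 rfl
    · exact h2 rfl
    · exact h1 rfl
    · exact h6 rfl
  obtain ⟨α, α', hα0, hα1, hα, hx1⟩ := hxa
  obtain ⟨β, β', hβ0, hβ1, hβ, hx2⟩ := hxb
  obtain ⟨γ, γ', hγ0, hγ1, hγ, hy1⟩ := hya
  obtain ⟨δ, δ', hδ0, hδ1, hδ, hy2⟩ := hyb
  have e1 : α' = 1 - α := by linarith
  have e2 : β' = 1 - β := by linarith
  have e3 : γ' = 1 - γ := by linarith
  have e4 : δ' = 1 - δ := by linarith
  subst e1 e2 e3 e4
  have a0 : α ≠ 0 := by
    rintro rfl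
    apply hx
    rw [← hx1]
    simpa using ha₂
  have a1 : α ≠ 1 := by
    rintro rfl
    apply hx
    rw [← hx1]
    simpa using ha₁
  have d0 : δ ≠ 0 := by
    rintro rfl
    apply hy
    rw [← hy2]
    simpa using hb₂
  have d1 : δ ≠ 1 := by
    rintro rfl
    apply hy
    rw [← hy2]
    simpa using ha₁
  have a0' : 0 < α := lt_of_le_of_ne hα0 (Ne.symm a0)
  have d0' : 0 < δ := lt_of_le_of_ne hδ0 (Ne.symm d0)
  have a1' : 0 < 1 - α := lt_of_le_of_ne hα1 (fun h => a1 (by linarith))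
  have d1' : 0 < 1 - δ := lt_of_le_of_ne hδ1 (fun h => d1 (by linarith))
  have hA : 0 < (1 - α) * δ + (1 - γ) * α := by positivity
  have hC : 0 < (1 - β) * δ + (1 - δ) * α := by positivity
  rw [Complex.real_smul, Complex.real_smul] at hx1 hx2 hy1 hy2
  push_cast at hx1 hx2 hy1 hy2
  set A : ℝ := (1 - α) * δ + (1 - γ) * α with hAd
  set C : ℝ := (1 - β) * δ + (1 - δ) * α with hCd
  have hC' : (C : ℂ) ≠ 0 := by exact_mod_cast hC.ne'
  have hs : (C : ℂ) * ((A / C : ℝ) : ℂ) = A := by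
    have : C * (A / C) = A := by field_simp
    exact_mod_cast this
  have hAc : (A : ℂ) = (1 - α) * δ + (1 - γ) * α := by
    rw [hAd]
    push_cast
    ring
  have hCc : (C : ℂ) = (1 - β) * δ + (1 - δ) * α := by
    rw [hCd]
    push_cast
    ring
  have key : (A / C) • a₂ + (1 - A / C) • b₁ = b₂ := by
    rw [Complex.real_smul, Complex.real_smul]
    push_cast
    push_cast at hs
    apply mul_left_cancel₀ hC'
    have e5 : (C : ℂ) * ((A : ℂ) / C * a₂ + (1 - (A : ℂ) / C) * b₁) = A * a₂ + (C - A) * b₁ := by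
      linear_combination (a₂ - b₁) * hs
    rw [e5, hAc, hCc]
    linear_combination (δ : ℂ) * (hx1 - hx2) + (α : ℂ) * (hy1 - hy2)
  rcases col ha₂ hb₁ h5 (key ▸ hb₂) with h7 | h7
  · exact (div_pos hA hC).ne' h7
  · rw [h7] at key
    apply h6
    rw [← key]
    simp

end Pool.Agent.ALB
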