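import Pool.Agent.ALB.ArcA
import Pool.Agent.ALB.Chord

/-! # ALB module STR: straight line drawing of `K_a` -/

set_option autoImplicit false

namespace Pool.Agent.ALB

open Metric

/-- two chords with a common end point meet only there -/
private lemma str_adj {p p₂ q₂ : ℂ} {r : ℝ} (hp : p ∈ sphere (0 : ℂ) r)
    (hp₂ : p₂ ∈ sphere (0 : ℂ) r) (hq₂ : q₂ ∈ sphere (0 : ℂ) r) (h1 : p ≠ p₂) (h2 : p ≠ q₂)
    (h3 : p₂ ≠ q₂) : segment ℝ p p₂ ∩ segment ℝ p q₂ ⊆ {p} := by
  rintro x ⟨hx, hx'⟩
  rw [segment_eq_image'] at hx hx'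
  obtain ⟨s, hs, rfl⟩ := hx
  obtain ⟨t, ht, he⟩ := hx'
  simp only at he
  by_cases ht0 : t = 0
  · rw [Set.mem_singleton_iff]
    rw [ht0, zero_smul, add_zero] at he
    exact he.symm
  · exfalso
    have h4 : t • (q₂ - p) = s • (p₂ - p) := add_left_cancel he
    have h5 : q₂ = (s / t) • p₂ + (1 - s / t) • p := by
      have h6 : q₂ - p = (s / t) • (p₂ - p) := by
        have h7 : t⁻¹ • (t • (q₂ - p)) = t⁻¹ • (s • (p₂ - p)) := by rw [h4]
        rw [smul_smul, smul_smul, inv_mul_cancel₀ ht0, one_smul] at h7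
        rw [h7]
        congr 1
        field_simp
      have h8 : q₂ = p + (s / t) • (p₂ - p) := by rw [← h6]; ring
      rw [h8, smul_sub, sub_smul, one_smul]
      ring
    have h6 : (s / t) • p₂ + (1 - s / t) • p ∈ sphere (0 : ℂ) r := by rw [← h5]; exact hq₂
    rcases col hp₂ hp h1.symm h6 with h7 | h7
    · rw [h7, zero_smul, zero_add, sub_zero, one_smul] at h5
      exact h2 h5.symm
    · rw [h7, sub_self, zero_smul, add_zero, one_smul] at h5
      exact h3 h5.symm

/-- `K_a` has a drawing, with at most `a⁴` crossings (twice).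

Proof.  Put the vertices on the unit circle, `pos i = exp (i · I / a)` (or any `a` different
points of the unit circle, e.g. `((1 - t²)/(1+t²), 2t/(1+t²))` with `t = i`), and take straight
segments: `arc = Sym2.lift (fun i j => segment ℝ (pos i) (pos j))` (`segment_symm`).
`isArc`: `isArc_segment`.  `avoid`: `chord_sphere` (a vertex lies on the circle, and the segment
meets the circle only in its end points).  Two different edges: if they have no common end point,
`chord_inter` says at most one common point; if they have one common end point,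
`s(i,j)`, `s(i,l)`, the two segments meet only in `pos i`: otherwise for a common point
`x ≠ pos i`, `x = p + λ (p₂ - p) = p + μ (q₂ - p)`, `λ, μ > 0`, so `q₂ = (1-ν) p + ν p₂` with
`ν = λ/μ`, and `col` gives `ν = 0` or `ν = 1`, i.e. `q₂ = p` or `q₂ = p₂`, contradiction.
So `N e f ≤ 1` for all edges `e ≠ f` and `N e e = 0`, hence `cr ≤ |ed|² ≤ (a²)² ` (the number of
edges is at most `a²`: `|Sym2 (Fin a)| ≤ a²`, or `card (ed ⊤) ≤ card (Fin a × Fin a)` because
`(i,j) ↦ s(i,j)` is onto). -/
theorem exists_straight (a : ℕ) : ∃ D : Drw (⊤ : SimpleGraph (Fin a)), D.cr ≤ a ^ 4 := by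
  classical
  -- the vertices
  obtain ⟨pos, hinj, hsph⟩ : ∃ pos : Fin a → ℂ, Function.Injective pos ∧
      ∀ i, pos i ∈ sphere (0 : ℂ) 1 := by
    by_cases ha : a = 0
    · subst ha
      exact ⟨fun _ => 0, fun i => i.elim0, fun i => i.elim0⟩
    · have hz := Complex.isPrimitiveRoot_exp a ha
      refine ⟨fun i => Complex.exp (2 * Real.pi * Complex.I / a) ^ (i : ℕ), ?_, ?_⟩
      · intro i j h
        exact Fin.ext (hz.pow_inj i.2 j.2 h)
      · intro i
        rw [mem_sphere_zero_iff_norm, norm_pow, hz.norm'_eq_one ha, one_pow]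
  obtain ⟨arc, harc⟩ : ∃ arc : Sym2 (Fin a) → Set ℂ,
      ∀ i j, arc s(i, j) = segment ℝ (pos i) (pos j) :=
    ⟨Sym2.lift ⟨fun i j => segment ℝ (pos i) (pos j), fun i j => segment_symm ℝ _ _⟩,
      fun i j => rfl⟩
  have hsub : ∀ e ∈ (⊤ : SimpleGraph (Fin a)).edgeSet, ∀ f ∈ (⊤ : SimpleGraph (Fin a)).edgeSet,
      e ≠ f → ((arc e ∩ arc f) \ Set.range pos).Subsingleton := by
    intro e he f hf hef
    induction e using Sym2.ind with
    | _ i j =>
      induction f using Sym2.ind with
      | _ k l =>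
        have hij : i ≠ j := he
        have hkl : k ≠ l := hf
        rw [harc, harc]
        have hadj : ∀ x y z : Fin a, x ≠ y → x ≠ z → y ≠ z →
            ((segment ℝ (pos x) (pos y) ∩ segment ℝ (pos x) (pos z)) \
              Set.range pos).Subsingleton := by
          intro x y z hxy hxz hyz
          have h := str_adj (hsph x) (hsph y) (hsph z) (hinj.ne hxy) (hinj.ne hxz) (hinj.ne hyz)
          rintro u ⟨hu, hu'⟩
          exact (hu' ⟨x, (Set.mem_singleton_iff.1 (h hu)).symm⟩).elim
        by_cases hik : i = k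
        · subst hik
          exact hadj i j l hij hkl fun h => hef (by rw [h])
        by_cases hil : i = l
        · subst hil
          rw [segment_symm ℝ (pos k) (pos i)]
          exact hadj i j k hij hik fun h => hef (by rw [h, Sym2.eq_swap])
        by_cases hjk : j = k
        · subst hjk
          rw [segment_symm ℝ (pos i) (pos j)]
          exact hadj j i l hij.symm hkl hil
        by_cases hjl : j = l
        · subst hjl
          rw [segment_symm ℝ (pos i) (pos j), segment_symm ℝ (pos k) (pos j)]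
          exact hadj j i k hij.symm hjk hik
        · exact (chord_inter (hsph i) (hsph j) (hsph k) (hsph l) (hinj.ne hij) (hinj.ne hkl)
            (hinj.ne hik) (hinj.ne hil) (hinj.ne hjk) (hinj.ne hjl)).anti Set.sdiff_subset
  set D : Drw (⊤ : SimpleGraph (Fin a)) :=
    { pos := pos
      arc := arc
      inj := hinj
      isArc := fun u v h => by
        rw [harc]
        exact isArc_segment (hinj.ne h)
      avoid := fun u v w h hw => by
        rw [harc] at hw
        have h1 : pos w ∈ segment ℝ (pos u) (pos v) ∩ sphere (0 : ℂ) 1 := ⟨hw, hsph w⟩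
        rw [chord_sphere (hsph u) (hsph v) (hinj.ne h)] at h1
        rcases h1 with h1 | h1
        · exact Or.inl (hinj h1)
        · exact Or.inr (hinj h1)
      fin := fun e he f hf hef => (hsub e he f hf hef).finite } with hD
  refine ⟨D, ?_⟩
  have hN : ∀ e ∈ ed (⊤ : SimpleGraph (Fin a)), ∀ f ∈ ed (⊤ : SimpleGraph (Fin a)),
      D.N e f ≤ 1 := by
    intro e he f hf
    by_cases hef : e = f
    · subst hef
      rw [Drw.N_self D (mem_ed.1 he)]
      exact zero_le_one
    · have h1 := hsub e (mem_ed.1 he) f (mem_ed.1 hf) hef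
      have h2 : Finite ↥((arc e ∩ arc f) \ Set.range pos) := h1.finite
      exact Set.ncard_le_one_iff_subsingleton.2 h1
  have hcard : (ed (⊤ : SimpleGraph (Fin a))).card ≤ a ^ 2 := by
    calc (ed (⊤ : SimpleGraph (Fin a))).card ≤ Fintype.card (Sym2 (Fin a)) :=
          Finset.card_le_univ _
      _ ≤ Fintype.card (Fin a × Fin a) :=
          Fintype.card_le_of_surjective (fun p : Fin a × Fin a => s(p.1, p.2)) (by
            intro e
            induction e using Sym2.ind with
            | _ i j => exact ⟨(i, j), rfl⟩)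
      _ = a ^ 2 := by rw [Fintype.card_prod, Fintype.card_fin, sq]
  calc D.cr = ∑ e ∈ ed (⊤ : SimpleGraph (Fin a)), ∑ f ∈ ed (⊤ : SimpleGraph (Fin a)), D.N e f := rfl
    _ ≤ ∑ e ∈ ed (⊤ : SimpleGraph (Fin a)), ∑ f ∈ ed (⊤ : SimpleGraph (Fin a)), 1 :=
        Finset.sum_le_sum fun e he => Finset.sum_le_sum fun f hf => hN e he f hf
    _ = (ed (⊤ : SimpleGraph (Fin a))).card * (ed (⊤ : SimpleGraph (Fin a))).card := by simp
    _ ≤ a ^ 2 * a ^ 2 := Nat.mul_le_mul hcard hcard
    _ = a ^ 4 := by ring

/-- Proof: `Nat.sInf_le` with `exists_straight`. -/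
theorem crK_le_pow (a : ℕ) : crK a ≤ a ^ 4 := by
  obtain ⟨D, hD⟩ := exists_straight a
  have h : crK a ≤ D.cr := Nat.sInf_le ⟨D, rfl⟩
  exact h.trans hD

/-- The minimum is attained.  Proof: `Nat.sInf_mem` (the set is nonempty by
`exists_straight`). -/
theorem exists_opt (a : ℕ) : ∃ D : Drw (⊤ : SimpleGraph (Fin a)), D.cr = crK a := by
  obtain ⟨D, _⟩ := exists_straight a
  exact Nat.sInf_mem (s := {m | ∃ D : Drw (⊤ : SimpleGraph (Fin a)), D.cr = m}) ⟨_, D, rfl⟩

end Pool.Agent.ALB
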