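import Pool.Agent.ALB.ArcA

/-! # ALB module ARCB: concatenation, splitting, first hit -/

set_option autoImplicit false

namespace Pool.Agent.ALB

/-- Concatenation of two arcs which only share the common end point.
Proof.  With the parametrisations `f, g` of `IsArc.param` put `h t = f t` for `t ≤ 1` and
`h t = g (t - 1)` for `t ≥ 1`, on `[0,2]`; it is continuous (`ContinuousOn.if` or glue with
`ContinuousOn.union_isClosed`; `f 1 = b = g 0`), injective: for `s ≤ 1 < t`, `h s = h t` lies in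
`S ∩ S' = {b}`, so `g (t - 1) = b = g 0`, `t = 1`, contradiction.  Then `isArc_of_Icc`. -/
theorem IsArc.trans {a b c : ℂ} {S S' : Set ℂ} (h : IsArc a b S) (h' : IsArc b c S')
    (hI : S ∩ S' = {b}) : IsArc a c (S ∪ S') := by
  obtain ⟨f, hfc, hfi, hf0, hf1, hfS⟩ := h.param
  obtain ⟨g, hgc, hgi, hg0, hg1, hgS⟩ := h'.param
  let k : ℝ → ℂ := fun t => if t ≤ 1 then f t else g (t - 1)
  have hk1 : ∀ t : ℝ, t ≤ 1 → k t = f t := fun t ht => if_pos ht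
  have hk2 : ∀ t : ℝ, 1 ≤ t → k t = g (t - 1) := by
    intro t ht
    rcases eq_or_lt_of_le ht with h1 | h1
    · subst h1
      rw [hk1 1 le_rfl, hf1, sub_self, hg0]
    · exact if_neg (not_le.2 h1)
  have hc1 : ContinuousOn k (Set.Icc 0 1) := hfc.congr fun t ht => hk1 t ht.2
  have hc2 : ContinuousOn k (Set.Icc 1 2) := by
    have h1 : ContinuousOn (fun t : ℝ => g (t - 1)) (Set.Icc 1 2) :=
      hgc.comp (by fun_prop) (fun t ht => ⟨by linarith [ht.1], by linarith [ht.2]⟩)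
    exact h1.congr fun t ht => hk2 t ht.1
  have hun : Set.Icc (0 : ℝ) 2 = Set.Icc 0 1 ∪ Set.Icc 1 2 :=
    (Set.Icc_union_Icc_eq_Icc zero_le_one one_le_two).symm
  have hc : ContinuousOn k (Set.Icc 0 2) := by
    rw [hun]
    exact hc1.union_of_isClosed hc2 isClosed_Icc isClosed_Icc
  have hcross : ∀ s ∈ Set.Icc (0 : ℝ) 2, ∀ t ∈ Set.Icc (0 : ℝ) 2, s ≤ 1 → 1 < t → k s ≠ k t := by
    intro s hs t ht hs1 ht1 e
    rw [hk1 s hs1, hk2 t ht1.le] at e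
    have h1 : f s ∈ S := by
      rw [← hfS]
      exact ⟨s, ⟨hs.1, hs1⟩, rfl⟩
    have ht' : t - 1 ∈ Set.Icc (0 : ℝ) 1 := ⟨by linarith, by linarith [ht.2]⟩
    have h2 : f s ∈ S' := by
      rw [e, ← hgS]
      exact ⟨t - 1, ht', rfl⟩
    have h3 : f s ∈ S ∩ S' := ⟨h1, h2⟩
    rw [hI, Set.mem_singleton_iff] at h3
    have h4 : g (t - 1) = g 0 := by rw [← e, h3, hg0]
    have h5 := hgi ht' ⟨le_rfl, zero_le_one⟩ h4
    linarith
  have hi : Set.InjOn k (Set.Icc 0 2) := by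
    intro s hs t ht e
    rcases le_or_gt s 1 with hs1 | hs1 <;> rcases le_or_gt t 1 with ht1 | ht1
    · rw [hk1 s hs1, hk1 t ht1] at e
      exact hfi ⟨hs.1, hs1⟩ ⟨ht.1, ht1⟩ e
    · exact absurd e (hcross s hs t ht hs1 ht1)
    · exact absurd e.symm (hcross t ht s hs ht1 hs1)
    · rw [hk2 s hs1.le, hk2 t ht1.le] at e
      have := hgi ⟨by linarith, by linarith [hs.2]⟩ ⟨by linarith, by linarith [ht.2]⟩ e
      linarith
  have key := isArc_of_Icc (by norm_num : (0 : ℝ) < 2) hc hi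
  have e0 : k 0 = a := by rw [hk1 0 zero_le_one, hf0]
  have e2 : k 2 = c := by
    rw [hk2 2 one_le_two, ← hg1]
    norm_num
  have eS : k '' Set.Icc 0 2 = S ∪ S' := by
    rw [hun, Set.image_union, ← hfS, ← hgS]
    congr 1
    · exact Set.image_congr fun t ht => hk1 t ht.2
    · ext z
      constructor
      · rintro ⟨t, ht, rfl⟩
        exact ⟨t - 1, ⟨by linarith [ht.1], by linarith [ht.2]⟩, (hk2 t ht.1).symm⟩
      · rintro ⟨t, ht, rfl⟩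
        refine ⟨t + 1, ⟨by linarith [ht.1], by linarith [ht.2]⟩, ?_⟩
        rw [hk2 (t + 1) (by linarith [ht.1]), add_sub_cancel_right]
  rw [e0, e2, eS] at key
  exact key

/-- Splitting an arc at an interior point.
Proof.  `c = f t₀` with `0 < t₀ < 1`; `S₁ = f '' [0,t₀]`, `S₂ = f '' [t₀,1]` and `isArc_of_Icc`. -/
theorem IsArc.split {a b c : ℂ} {S : Set ℂ} (h : IsArc a b S) (hc : c ∈ S) (hca : c ≠ a)
    (hcb : c ≠ b) : ∃ S₁ S₂ : Set ℂ, IsArc a c S₁ ∧ IsArc c b S₂ ∧ S₁ ∪ S₂ = S ∧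
      S₁ ∩ S₂ = {c} := by
  obtain ⟨f, hfc, hfi, hf0, hf1, hfS⟩ := h.param
  rw [← hfS] at hc
  obtain ⟨t, ht, rfl⟩ := hc
  have ht0 : 0 < t := lt_of_le_of_ne ht.1 (fun e => hca (by rw [← e, hf0]))
  have ht1 : t < 1 := lt_of_le_of_ne ht.2 (fun e => hcb (by rw [e, hf1]))
  have hs1 : Set.Icc 0 t ⊆ Set.Icc (0 : ℝ) 1 := Set.Icc_subset_Icc_right ht1.le
  have hs2 : Set.Icc t 1 ⊆ Set.Icc (0 : ℝ) 1 := Set.Icc_subset_Icc_left ht0.le
  refine ⟨f '' Set.Icc 0 t, f '' Set.Icc t 1, ?_, ?_, ?_, ?_⟩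
  · have := isArc_of_Icc ht0 (hfc.mono hs1) (hfi.mono hs1)
    rwa [hf0] at this
  · have := isArc_of_Icc ht1 (hfc.mono hs2) (hfi.mono hs2)
    rwa [hf1] at this
  · rw [← Set.image_union, Set.Icc_union_Icc_eq_Icc ht0.le ht1.le, hfS]
  · rw [← hfi.image_inter hs1 hs2, Set.Icc_inter_Icc_eq_singleton ht0.le ht1.le,
      Set.image_singleton]

/-- First hit of a closed set.
Proof.  The set `T = {t ∈ [0,1] | f t ∈ F}` is compact and nonempty; let `t₀` be its minimum;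
`t₀ > 0` because `f 0 = a ∉ F`.  `S₁ = f '' [0,t₀]`, `c = f t₀`; `S₁ ∩ F = {c}` by minimality. -/
theorem IsArc.firstHit {a b : ℂ} {S F : Set ℂ} (h : IsArc a b S) (hF : IsClosed F)
    (hn : (S ∩ F).Nonempty) (ha : a ∉ F) :
    ∃ c ∈ S ∩ F, ∃ S₁ ⊆ S, IsArc a c S₁ ∧ S₁ ∩ F = {c} := by
  obtain ⟨f, hfc, hfi, hf0, hf1, hfS⟩ := h.param
  have hT : IsCompact (Set.Icc (0 : ℝ) 1 ∩ f ⁻¹' F) :=
    isCompact_Icc.of_isClosed_subset (hfc.preimage_isClosed_of_isClosed isClosed_Icc hF)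
      Set.inter_subset_left
  have hTn : (Set.Icc (0 : ℝ) 1 ∩ f ⁻¹' F).Nonempty := by
    obtain ⟨z, hzS, hzF⟩ := hn
    rw [← hfS] at hzS
    obtain ⟨t, ht, rfl⟩ := hzS
    exact ⟨t, ht, hzF⟩
  obtain ⟨t, ⟨ht, htF⟩, hmin⟩ := hT.exists_isLeast hTn
  have ht0 : 0 < t := lt_of_le_of_ne ht.1 (fun e => ha (by rw [← hf0, e]; exact htF))
  have hs1 : Set.Icc 0 t ⊆ Set.Icc (0 : ℝ) 1 := Set.Icc_subset_Icc_right ht.2
  refine ⟨f t, ⟨hfS ▸ ⟨t, ht, rfl⟩, htF⟩, f '' Set.Icc 0 t, ?_, ?_, ?_⟩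
  · rw [← hfS]
    exact Set.image_mono hs1
  · have := isArc_of_Icc ht0 (hfc.mono hs1) (hfi.mono hs1)
    rwa [hf0] at this
  · ext z
    constructor
    · rintro ⟨⟨s, hs, rfl⟩, hzF⟩
      have : t ≤ s := hmin ⟨hs1 hs, hzF⟩
      rw [Set.mem_singleton_iff, le_antisymm hs.2 this]
    · rintro rfl
      exact ⟨⟨t, ⟨ht0.le, le_rfl⟩, rfl⟩, htF⟩

end Pool.Agent.ALB
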