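import Pool.Agent.ALB.ArcB

/-! # ALB module CUT: cutting an arc at a small disc -/

set_option autoImplicit false

namespace Pool.Agent.ALB

/-- Let the arc `S` from `a` to `b` contain the centre `q` of a closed disc which contains neither
`a` nor `b`.  Then the part before the first entry into the disc (an arc `a → a₁`) and the part
after the last exit (an arc `a₂ → b`) are disjoint, and they meet the closed disc only in `a₁`
resp. `a₂`, two different points of the circle.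

Proof.  Let `f` be the parametrisation of `IsArc.param`, `T = {t ∈ [0,1] | f t ∈ closedBall q r}`,
a nonempty compact set, `α` its minimum, `ω` its maximum, and `q = f β`, so `α ≤ β ≤ ω`.
`0 < α` and `ω < 1` as `a, b` are outside.  For `t < α` we have `dist (f t) q > r`, hence by
continuity (limit `t → α⁻`) `dist (f α) q ≥ r`, so `f α` is on the sphere; the same for `f ω`.
As `dist (f β) q = 0 < r`, `α < β < ω`.  `S₁ = f '' [0,α]`, `S₂ = f '' [ω,1]`; injectivity of `f`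
gives `a₁ = f α ≠ f ω = a₂` and the disjointness; minimality of `α` gives
`S₁ ∩ closedBall = {a₁}`. -/
theorem IsArc.cut {a b q : ℂ} {S : Set ℂ} {r : ℝ} (h : IsArc a b S) (hr : 0 < r)
    (ha : a ∉ Metric.closedBall q r) (hb : b ∉ Metric.closedBall q r) (hq : q ∈ S) :
    ∃ (a₁ a₂ : ℂ) (S₁ S₂ : Set ℂ), a₁ ≠ a₂ ∧ a₁ ∈ Metric.sphere q r ∧ a₂ ∈ Metric.sphere q r ∧
      IsArc a a₁ S₁ ∧ IsArc a₂ b S₂ ∧ S₁ ⊆ S ∧ S₂ ⊆ S ∧ Disjoint S₁ S₂ ∧
      S₁ ∩ Metric.closedBall q r = {a₁} ∧ S₂ ∩ Metric.closedBall q r = {a₂} := by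
  obtain ⟨f, hc, hi, h0, h1, hS⟩ := h.param
  set T : Set ℝ := Set.Icc 0 1 ∩ f ⁻¹' Metric.closedBall q r with hT
  have hTcl : IsClosed T := hc.preimage_isClosed_of_isClosed isClosed_Icc Metric.isClosed_closedBall
  have hTc : IsCompact T := isCompact_Icc.of_isClosed_subset hTcl Set.inter_subset_left
  rw [← hS] at hq
  obtain ⟨β, hβ, hβq⟩ := hq
  have hβT : β ∈ T := ⟨hβ, by
    change f β ∈ Metric.closedBall q r
    rw [hβq]
    exact Metric.mem_closedBall_self hr.le⟩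
  have hne : T.Nonempty := ⟨β, hβT⟩
  have hα := hTc.sInf_mem hne
  have hω := hTc.sSup_mem hne
  have hle : ∀ t ∈ T, sInf T ≤ t ∧ t ≤ sSup T := fun t ht =>
    ⟨csInf_le hTc.bddBelow ht, le_csSup hTc.bddAbove ht⟩
  set α := sInf T with hαdef
  set ω := sSup T with hωdef
  have hφ : ContinuousOn (fun t => dist (f t) q) (Set.Icc 0 1) := by
    have h3 : Continuous fun z : ℂ => dist z q := by fun_prop
    exact h3.comp_continuousOn hc
  have hφ0 : r < dist (f 0) q := by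
    rw [h0]
    exact not_le.1 fun h => ha (Metric.mem_closedBall.2 h)
  have hφ1 : r < dist (f 1) q := by
    rw [h1]
    exact not_le.1 fun h => hb (Metric.mem_closedBall.2 h)
  have hφα : dist (f α) q ≤ r := Metric.mem_closedBall.1 hα.2
  have hφω : dist (f ω) q ≤ r := Metric.mem_closedBall.1 hω.2
  have hα0 : 0 < α := by
    refine lt_of_le_of_ne hα.1.1 fun h => ?_
    rw [← h] at hφα
    linarith
  have hω1 : ω < 1 := by
    refine lt_of_le_of_ne hω.1.2 fun h => ?_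
    rw [h] at hφω
    linarith
  have hφα' : dist (f α) q = r := by
    have hsub : Set.Icc 0 α ⊆ Set.Icc (0 : ℝ) 1 := Set.Icc_subset_Icc_right hα.1.2
    obtain ⟨t, ht, htr⟩ := intermediate_value_Icc' hα0.le (hφ.mono hsub) ⟨hφα, hφ0.le⟩
    have htT : t ∈ T := ⟨hsub ht, Metric.mem_closedBall.2 htr.le⟩
    have := (hle t htT).1
    rw [le_antisymm ht.2 this] at htr
    exact htr
  have hφω' : dist (f ω) q = r := by
    have hsub : Set.Icc ω 1 ⊆ Set.Icc (0 : ℝ) 1 := Set.Icc_subset_Icc_left hω.1.1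
    obtain ⟨t, ht, htr⟩ := intermediate_value_Icc hω1.le (hφ.mono hsub) ⟨hφω, hφ1.le⟩
    have htT : t ∈ T := ⟨hsub ht, Metric.mem_closedBall.2 htr.le⟩
    have := (hle t htT).2
    rw [le_antisymm this ht.1] at htr
    exact htr
  have hβ1 := hle β hβT
  have hαβ : α < β := by
    refine lt_of_le_of_ne hβ1.1 fun h => ?_
    rw [h, hβq, dist_self] at hφα'
    linarith
  have hβω : β < ω := by
    refine lt_of_le_of_ne hβ1.2 fun h => ?_
    rw [← h, hβq, dist_self] at hφω'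
    linarith
  have hsub1 : Set.Icc 0 α ⊆ Set.Icc (0 : ℝ) 1 := Set.Icc_subset_Icc_right hα.1.2
  have hsub2 : Set.Icc ω 1 ⊆ Set.Icc (0 : ℝ) 1 := Set.Icc_subset_Icc_left hω.1.1
  have hA1 := isArc_of_Icc hα0 (hc.mono hsub1) (hi.mono hsub1)
  have hA2 := isArc_of_Icc hω1 (hc.mono hsub2) (hi.mono hsub2)
  rw [h0] at hA1
  rw [h1] at hA2
  refine ⟨f α, f ω, f '' Set.Icc 0 α, f '' Set.Icc ω 1, ?_, Metric.mem_sphere.2 hφα',
    Metric.mem_sphere.2 hφω', hA1, hA2, ?_, ?_, ?_, ?_, ?_⟩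
  · intro hEq
    have := hi hα.1 hω.1 hEq
    linarith
  · rw [← hS]
    exact Set.image_mono hsub1
  · rw [← hS]
    exact Set.image_mono hsub2
  · rw [Set.disjoint_left]
    rintro z ⟨t, ht, rfl⟩ ⟨t', ht', hEq⟩
    have := hi (hsub2 ht') (hsub1 ht) hEq
    have h3 := ht.2
    have h4 := ht'.1
    linarith
  · ext z
    constructor
    · rintro ⟨⟨t, ht, rfl⟩, hz⟩
      have := (hle t ⟨hsub1 ht, hz⟩).1
      rw [le_antisymm ht.2 this]
      rfl
    · rintro rfl
      exact ⟨⟨α, ⟨hα0.le, le_rfl⟩, rfl⟩, hα.2⟩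
  · ext z
    constructor
    · rintro ⟨⟨t, ht, rfl⟩, hz⟩
      have := (hle t ⟨hsub2 ht, hz⟩).2
      rw [le_antisymm this ht.1]
      rfl
    · rintro rfl
      exact ⟨⟨ω, ⟨le_rfl, hω1.le⟩, rfl⟩, hω.2⟩

end Pool.Agent.ALB
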