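import Pool.Agent.ALB.ArcB

/-! # ALB module LOOP: loop erasure -/

set_option autoImplicit false

namespace Pool.Agent.ALB

/-- The union of two arcs `a → b`, `b → c` (`a ≠ c`) contains an arc `a → c`.

Proof.  `a ≠ b` and `b ≠ c` by `IsArc.ne`.
* If `a ∈ S'`: split `S'` (an arc `b → c`) at `a` (`IsArc.split`; `a ≠ b`, `a ≠ c`): the second
  part is an arc `a → c` inside `S'`.
* If `a ∉ S'`: `S'` is closed (compact) and meets `S` (in `b`), so `IsArc.firstHit` gives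
  `d ∈ S ∩ S'` and an arc `S₁ ⊆ S`, `a → d`, with `S₁ ∩ S' = {d}`.
  If `d = c`: take `S₁`.  If `d = b`: take `S₁ ∪ S'` (`IsArc.trans`).
  Otherwise split `S'` at `d`: `S' = S₁' ∪ S₂'` with `S₂'` an arc `d → c`; `S₁ ∩ S₂' = {d}`
  (contained in `S₁ ∩ S' = {d}`, and `d` is in both), so `S₁ ∪ S₂'` is an arc `a → c`. -/
theorem IsArc.loop {a b c : ℂ} {S S' : Set ℂ} (h : IsArc a b S) (h' : IsArc b c S')
    (hac : a ≠ c) : ∃ R ⊆ S ∪ S', IsArc a c R := by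
  by_cases ha : a ∈ S'
  · obtain ⟨S₁, S₂, _, h2, h3, _⟩ := h'.split ha h.ne hac
    exact ⟨S₂, fun x hx => Or.inr (h3 ▸ Or.inr hx), h2⟩
  obtain ⟨d, ⟨hdS, hdS'⟩, S₁, hS₁, hS₁a, hS₁i⟩ :=
    h.firstHit h'.isCompact.isClosed ⟨b, h.right_mem, h'.left_mem⟩ ha
  by_cases hdc : d = c
  · subst hdc
    exact ⟨S₁, fun x hx => Or.inl (hS₁ hx), hS₁a⟩
  by_cases hdb : d = b
  · subst hdb
    refine ⟨S₁ ∪ S', ?_, hS₁a.trans h' hS₁i⟩
    rintro x (hx | hx)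
    · exact Or.inl (hS₁ hx)
    · exact Or.inr hx
  obtain ⟨T₁, T₂, _, h2, h3, _⟩ := h'.split hdS' hdb hdc
  refine ⟨S₁ ∪ T₂, ?_, hS₁a.trans h2 ?_⟩
  · rintro x (hx | hx)
    · exact Or.inl (hS₁ hx)
    · exact Or.inr (h3 ▸ Or.inr hx)
  · apply Set.Subset.antisymm
    · rintro x ⟨hx1, hx2⟩
      rw [← hS₁i]
      exact ⟨hx1, h3 ▸ Or.inr hx2⟩
    · rintro x rfl
      exact ⟨hS₁a.right_mem, h2.left_mem⟩

end Pool.Agent.ALB
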