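import Pool.Agent.ALB.Sqa

/-! # ALB module CE1: one cloud -/

set_option autoImplicit false

namespace Pool.Agent.ALB

open Finset

variable {V : Type} [Fintype V] {G : SimpleGraph V} {ι β : Type} [Fintype ι] [Fintype β]
  {H : Finset V}

private theorem ce1_notMem (S : Std G ι β H) {u v : V} (hne : u ≠ v) (hna : ¬ G.Adj u v) :
    u ∉ H :=
  fun h => hna (S.hub u h v hne.symm)

private theorem ce1_xs_hub (S : Std G ι β H) {σ : Option V} (hσ : lam G H σ ≠ 0) {x : V}
    (hx : x ∈ H) : xs G H σ x = 0 := by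
  classical
  cases σ with
  | none =>
    simp [xs, x0, hx]
  | some z =>
    have hz : z ∉ H := by
      intro h
      apply hσ
      simp [lam, h]
    have hne : x ≠ z := fun h => hz (h ▸ hx)
    have hadj : G.Adj z x := (S.hub x hx z hne.symm).symm
    simp [xs, hadj]

private theorem ce1_xs_mem (hN : 0 < nL H) (σ : Option V) (x : V) :
    0 ≤ xs G H σ x ∧ xs G H σ x ≤ 1 := by
  classical
  cases σ with
  | none => exact ⟨(x0_mem x hN).1, (x0_mem x hN).2.1⟩
  | some z =>
    simp only [xs]
    split_ifs <;> norm_num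

open Classical in
private theorem ce1_Rr_symm (u v : V) : Rr G H u v = Rr G H v u := by
  ext w
  simp only [Rr, mem_filter, mem_univ, true_and]
  tauto

open Classical in
/-- the weights of the cloud -/
private noncomputable def ce1x (G : SimpleGraph V) (H : Finset V) (σ : Option V) (A : ℝ)
    (v : V) : ℝ := if v ∈ H then 1 else A * xs G H σ v

private theorem ce1_sum (S : Std G ι β H) {σ : Option V} (hσ : lam G H σ ≠ 0) (A : ℝ) :
    ∑ v, ce1x G H σ A v = A * Ks G H σ + (H.card : ℝ) := by
  classical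
  have h1 : ∀ v, ce1x G H σ A v = A * xs G H σ v + (if v ∈ H then 1 else 0) := by
    intro v
    unfold ce1x
    by_cases hv : v ∈ H
    · rw [if_pos hv, if_pos hv, ce1_xs_hub S hσ hv]
      ring
    · rw [if_neg hv, if_neg hv, add_zero]
  rw [Finset.sum_congr rfl fun v _ => h1 v, Finset.sum_add_distrib, ← Finset.mul_sum]
  congr 1
  simp

open Classical in
/-- **One cloud.**  For `σ` with `lam σ ≠ 0` and a scale `A ≥ 0` with `A ≤ 40` there is a cloud on
`G` with weights `1` on the hub and `A · xs σ` outside, middle sets `Rr`, and with loads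
`A² load0 (xs σ)`, `A · xs σ`, `1` on the edges outside / between / inside the hub.

Proof.  `x v = if v ∈ H then 1 else A * xs σ v`, `R = Rr` (symmetric; `R_adj` by definition).
`0 ≤ xs ≤ 1`.  `K_ge` is the hypothesis `hK`.  `R_card`: a non-adjacent pair `u ≠ v` is outside
the hub.  For `σ = none`: `x0 u, x0 v ≠ 0` and `card_Rr` gives
`|R| ≥ N/4000000 ≥ card V/16000000` (`hn`).  For `σ = some z`: `u, v` would be two non-neighbours
of `z`, hence adjacent (`Std.clique`): no such pair.
Loads: in `half a b` only `v` which are non-neighbours of `a` occur, so `v ∉ H` and `a ∉ H`, and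
`b ∈ Rr` gives `b ∉ H`.  For `a, b ∉ H`: `half a b = A² half0 (xs σ) a b`.  For `h ∈ H`:
`half h a = half a h = 0`. -/
theorem one_cloud (S : Std G ι β H) (hN : 0 < nL H)
    (hn : (Fintype.card V : ℝ) ≤ 4 * nL H) (σ : Option V) (hσ : lam G H σ ≠ 0) {A : ℝ}
    (hA0 : 0 ≤ A) (hA : A ≤ 40)
    (hK : 1 / 2 * (Fintype.card V : ℝ) ≤ A * Ks G H σ + (H.card : ℝ)) :
    ∃ c : Cloud G 40 (1 / 2) (1 / 16000000), c.K = A * Ks G H σ + (H.card : ℝ) ∧
      (∀ a b, a ∉ H → b ∉ H → c.load2 a b = A ^ 2 * load0 G H (xs G H σ) a b) ∧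
      (∀ a h, a ∉ H → h ∈ H → c.load2 a h = A * xs G H σ a) ∧
      (∀ h h', h ∈ H → h' ∈ H → c.load2 h h' = 1) := by
  have hR : ∀ u v, u ≠ v → ¬ G.Adj u v → ce1x G H σ A u ≠ 0 → ce1x G H σ A v ≠ 0 →
      1 / 16000000 * (Fintype.card V : ℝ) ≤ ((Rr G H u v).card : ℝ) := by
    intro u v huv hna hu hv
    have hu' : u ∉ H := ce1_notMem S huv hna
    have hv' : v ∉ H := ce1_notMem S huv.symm (fun h => hna h.symm)
    unfold ce1x at hu hv
    rw [if_neg hu'] at hu
    rw [if_neg hv'] at hv
    have hu2 := right_ne_zero_of_mul hu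
    have hv2 := right_ne_zero_of_mul hv
    cases σ with
    | none =>
      have h1 := (card_Rr S hN huv.symm hna hu2 hv2).2
      linarith
    | some z =>
      exfalso
      simp only [xs] at hu2 hv2
      have h1 : u ≠ z ∧ ¬ G.Adj z u := by
        by_contra hcon
        exact hu2 (if_neg hcon)
      have h2 : v ≠ z ∧ ¬ G.Adj z v := by
        by_contra hcon
        exact hv2 (if_neg hcon)
      rcases S.tri z u v h1.1.symm huv h2.1.symm with h3 | h3 | h3
      · exact h1.2 h3
      · exact hna h3
      · exact h2.2 h3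
  let c : Cloud G 40 (1 / 2) (1 / 16000000) :=
    { x := ce1x G H σ A
      R := Rr G H
      x_nonneg := by
        intro v
        unfold ce1x
        split_ifs
        · exact zero_le_one
        · exact mul_nonneg hA0 (ce1_xs_mem hN σ v).1
      x_le := by
        intro v
        unfold ce1x
        split_ifs
        · norm_num
        · have h1 := ce1_xs_mem (G := G) hN σ v
          calc A * xs G H σ v ≤ 40 * 1 := mul_le_mul hA h1.2 h1.1 (by norm_num)
            _ = 40 := by norm_num
      K_ge := by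
        rw [ce1_sum S hσ A]
        exact hK
      R_symm := fun u v => ce1_Rr_symm u v
      R_adj := by
        intro u v w hw
        simp only [Rr, mem_filter, mem_univ, true_and] at hw
        exact hw.2
      R_card := hR }
  have hhalf0 : ∀ a h, h ∈ H → c.half a h = 0 := by
    intro a h hh
    unfold Cloud.half
    refine Finset.sum_eq_zero fun v hv => ?_
    exfalso
    have h1 : h ∈ Rr G H a v := (mem_filter.1 hv).2.2.2
    simp only [Rr, mem_filter, mem_univ, true_and] at h1
    exact h1.1 hh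
  have hhalf1 : ∀ a h, h ∈ H → c.half h a = 0 := by
    intro a h hh
    unfold Cloud.half
    refine Finset.sum_eq_zero fun v hv => ?_
    exfalso
    have h1 := (mem_filter.1 hv).2
    exact h1.2.1 (S.hub h hh v h1.1)
  have hx1 : ∀ h, h ∈ H → c.x h = 1 := by
    intro h hh
    show ce1x G H σ A h = 1
    unfold ce1x
    rw [if_pos hh]
  have hx2 : ∀ a, a ∉ H → c.x a = A * xs G H σ a := by
    intro h hh
    show ce1x G H σ A h = _
    unfold ce1x
    rw [if_neg hh]
  have hhalf2 : ∀ a b, a ∉ H → c.half a b = A ^ 2 * half0 G H (xs G H σ) a b := by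
    intro a b ha
    unfold Cloud.half half0
    rw [Finset.mul_sum]
    refine Finset.sum_congr rfl fun v hv => ?_
    have h1 := (mem_filter.1 hv).2
    have hv' : v ∉ H := ce1_notMem S h1.1 (fun h => h1.2.1 h.symm)
    rw [hx2 a ha, hx2 v hv']
    show A * xs G H σ a * (A * xs G H σ v) / ((Rr G H a v).card : ℝ) = _
    ring
  refine ⟨c, ce1_sum S hσ A, ?_, ?_, ?_⟩
  · intro a b ha hb
    unfold Cloud.load2 load0
    rw [hx2 a ha, hx2 b hb, hhalf2 a b ha, hhalf2 b a hb]
    ring
  · intro a h ha hh
    unfold Cloud.load2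
    rw [hx2 a ha, hx1 h hh, hhalf0 a h hh, hhalf1 a h hh]
    ring
  · intro h h' hh hh'
    unfold Cloud.load2
    rw [hx1 h hh, hx1 h' hh', hhalf0 h h' hh', hhalf0 h' h hh]
    ring

end Pool.Agent.ALB
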