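import Pool.Agent.ALB.Sqa

/-! # ALB module CE2: second moments -/

set_option autoImplicit false

namespace Pool.Agent.ALB

open Finset

variable {V : Type} [Fintype V] {G : SimpleGraph V} {ι β : Type} [Fintype ι] [Fintype β]
  {H : Finset V}

private theorem ce2_lam_nonneg (hN : 0 < nL H) (σ : Option V) : 0 ≤ lam G H σ := by
  classical
  cases σ with
  | none =>
    simp only [lam]
    split_ifs <;> norm_num
  | some v =>
    simp only [lam]
    split_ifs
    · positivity
    · exact le_rfl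

private theorem ce2_lam_none : lam G H none ≤ 1 := by
  classical
  simp only [lam]
  split_ifs <;> norm_num

private theorem ce2_lam_some (hN : 0 < nL H) (v : V) : lam G H (some v) ≤ 2 / (nL H + 1) := by
  classical
  simp only [lam]
  split_ifs
  · exact le_rfl
  · positivity

private theorem ce2_xs_some (v x : V) :
    (xs G H (some v) x = 1 ∧ x ≠ v ∧ ¬ G.Adj v x) ∨
      (xs G H (some v) x = 0 ∧ ¬ (x ≠ v ∧ ¬ G.Adj v x)) := by
  classical
  simp only [xs]
  split_ifs with h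
  · exact Or.inl ⟨rfl, h⟩
  · exact Or.inr ⟨rfl, h⟩

private theorem ce2_half (S : Std G ι β H) (v a b : V) : half0 G H (xs G H (some v)) a b = 0 := by
  classical
  unfold half0
  apply Finset.sum_eq_zero
  intro w hw
  rw [Finset.mem_filter] at hw
  obtain ⟨_, hwa, haw, _⟩ := hw
  rcases ce2_xs_some (G := G) (H := H) v a with ⟨ha, hav, hva⟩ | ⟨ha, _⟩
  · rcases ce2_xs_some (G := G) (H := H) v w with ⟨hw, hwv, hvw⟩ | ⟨hw, _⟩
    · rcases S.tri a v w hav hwv.symm hwa.symm with h | h | h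
      · exact absurd h.symm hva
      · exact absurd h hvw
      · exact absurd h haw
    · rw [hw, mul_zero, zero_div]
  · rw [ha, zero_mul, zero_div]

private theorem ce2_load (S : Std G ι β H) (v a b : V) :
    load0 G H (xs G H (some v)) a b = xs G H (some v) a * xs G H (some v) b := by
  unfold load0
  rw [ce2_half S, ce2_half S, add_zero, add_zero]

/-- Second moments, edges outside the hub.
Proof.  `load0 (xs (some v)) a b = [a, b both non-neighbours of v]` (two different non-neighbours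
of `v` are adjacent, so the `half0` terms vanish).  So the sum is at most
`load0 (x0) a b ² + (2/(N+1)) cod a b ≤ 1` (`load0_sq`; `0 ≤ lam none ≤ 1`,
`lam (some v) ≤ 2/(N+1)`; the number of `v` with `a, b` non-neighbours is `cod a b`). -/
theorem mom_LL (S : Std G ι β H) (hN : 0 < nL H) {a b : V} (ha : a ∉ H) (hb : b ∉ H)
    (hab : G.Adj a b) :
    ∑ σ : Option V, lam G H σ * load0 G H (xs G H σ) a b ^ 2 ≤ 1 := by
  classical
  rw [Fintype.sum_option]
  have h1 : lam G H none * load0 G H (xs G H none) a b ^ 2 ≤ load0 G H (x0 G H) a b ^ 2 := by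
    have h2 : xs G H none = x0 G H := by
      funext x
      rfl
    rw [h2]
    exact mul_le_of_le_one_left (sq_nonneg _) ce2_lam_none
  have h2 : ∑ v : V, lam G H (some v) * load0 G H (xs G H (some v)) a b ^ 2 ≤
      2 / (nL H + 1) * (cod G a b : ℝ) := by
    have h3 : (cod G a b : ℝ) = ∑ v : V, if v ≠ a ∧ ¬ G.Adj a v ∧ v ≠ b ∧ ¬ G.Adj b v then
        (1 : ℝ) else 0 := by
      rw [Finset.sum_boole]
      unfold cod
      congr!
    rw [h3, Finset.mul_sum]
    apply Finset.sum_le_sum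
    intro v _
    rw [ce2_load S]
    rcases ce2_xs_some (G := G) (H := H) v a with ⟨ha1, hav, hva⟩ | ⟨ha1, _⟩
    · rcases ce2_xs_some (G := G) (H := H) v b with ⟨hb1, hbv, hvb⟩ | ⟨hb1, _⟩
      · rw [ha1, hb1, if_pos ⟨hav.symm, fun h => hva h.symm, hbv.symm, fun h => hvb h.symm⟩]
        have := ce2_lam_some (G := G) hN v
        simpa using this
      · rw [hb1, mul_zero]
        have h4 : (0 : ℝ) ≤ 2 / (nL H + 1) := by positivity
        have h5 : (0 : ℝ) ≤ if v ≠ a ∧ ¬ G.Adj a v ∧ v ≠ b ∧ ¬ G.Adj b v then (1 : ℝ) else 0 := by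
          split_ifs <;> norm_num
        nlinarith [mul_nonneg h4 h5]
    · rw [ha1, zero_mul]
      have h4 : (0 : ℝ) ≤ 2 / (nL H + 1) := by positivity
      have h5 : (0 : ℝ) ≤ if v ≠ a ∧ ¬ G.Adj a v ∧ v ≠ b ∧ ¬ G.Adj b v then (1 : ℝ) else 0 := by
        split_ifs <;> norm_num
      nlinarith [mul_nonneg h4 h5]
  have h3 := load0_sq S hN ha hb hab
  linarith

/-- Fourth moments of the weights.  Proof: `x0_four`; `∑_v [a non-neighbour of v] = tdeg a`. -/
theorem mom_four (S : Std G ι β H) (hN : 0 < nL H) {a : V} (ha : a ∉ H) :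
    ∑ σ : Option V, lam G H σ * xs G H σ a ^ 4 ≤ 1 := by
  classical
  rw [Fintype.sum_option]
  have h1 : lam G H none * xs G H none a ^ 4 ≤ x0 G H a ^ 4 := by
    have h2 : xs G H none a = x0 G H a := rfl
    rw [h2]
    exact mul_le_of_le_one_left (by positivity) ce2_lam_none
  have h2 : ∑ v : V, lam G H (some v) * xs G H (some v) a ^ 4 ≤
      2 / (nL H + 1) * (tdeg G a : ℝ) := by
    have h3 : (tdeg G a : ℝ) = ∑ v : V, if v ≠ a ∧ ¬ G.Adj a v then (1 : ℝ) else 0 := by
      rw [Finset.sum_boole]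
      unfold tdeg
      congr!
    rw [h3, Finset.mul_sum]
    apply Finset.sum_le_sum
    intro v _
    rcases ce2_xs_some (G := G) (H := H) v a with ⟨ha1, hav, hva⟩ | ⟨ha1, _⟩
    · rw [ha1, if_pos ⟨hav.symm, fun h => hva h.symm⟩]
      have := ce2_lam_some (G := G) hN v
      simpa using this
    · rw [ha1]
      have h4 : (0 : ℝ) ≤ 2 / (nL H + 1) := by positivity
      have h5 : (0 : ℝ) ≤ if v ≠ a ∧ ¬ G.Adj a v then (1 : ℝ) else 0 := by
        split_ifs <;> norm_num
      nlinarith [mul_nonneg h4 h5]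
  have h3 := x0_four S hN ha
  linarith

/-- Edges between the hub and the rest.
Proof.  Cauchy–Schwarz: `(∑ λ K² x²)² ≤ (∑ λ K⁴)(∑ λ x⁴) ≤ W`, all terms nonnegative. -/
theorem mom_LH (S : Std G ι β H) (hN : 0 < nL H) {a : V} (ha : a ∉ H) :
    (∑ σ : Option V, lam G H σ * Ks G H σ ^ 2 * xs G H σ a ^ 2) ^ 2 ≤ WW G H := by
  classical
  have h1 := Finset.sum_mul_sq_le_sq_mul_sq (Finset.univ : Finset (Option V))
    (fun σ => Real.sqrt (lam G H σ) * Ks G H σ ^ 2) (fun σ => Real.sqrt (lam G H σ) * xs G H σ a ^ 2)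
  have h2 : ∑ σ : Option V, (Real.sqrt (lam G H σ) * Ks G H σ ^ 2) *
      (Real.sqrt (lam G H σ) * xs G H σ a ^ 2) =
      ∑ σ : Option V, lam G H σ * Ks G H σ ^ 2 * xs G H σ a ^ 2 := by
    refine Finset.sum_congr rfl fun σ _ => ?_
    have h3 := Real.mul_self_sqrt (ce2_lam_nonneg (G := G) hN σ)
    calc (Real.sqrt (lam G H σ) * Ks G H σ ^ 2) * (Real.sqrt (lam G H σ) * xs G H σ a ^ 2) =
        (Real.sqrt (lam G H σ) * Real.sqrt (lam G H σ)) * Ks G H σ ^ 2 * xs G H σ a ^ 2 := by ring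
      _ = _ := by rw [h3]
  have h4 : ∑ σ : Option V, (Real.sqrt (lam G H σ) * Ks G H σ ^ 2) ^ 2 = WW G H := by
    unfold WW
    refine Finset.sum_congr rfl fun σ _ => ?_
    have h3 := Real.sq_sqrt (ce2_lam_nonneg (G := G) hN σ)
    calc (Real.sqrt (lam G H σ) * Ks G H σ ^ 2) ^ 2 = Real.sqrt (lam G H σ) ^ 2 * Ks G H σ ^ 4 := by
          ring
      _ = _ := by rw [h3]
  have h5 : ∑ σ : Option V, (Real.sqrt (lam G H σ) * xs G H σ a ^ 2) ^ 2 ≤ 1 := by
    refine le_trans (le_of_eq ?_) (mom_four S hN ha)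
    refine Finset.sum_congr rfl fun σ _ => ?_
    have h3 := Real.sq_sqrt (ce2_lam_nonneg (G := G) hN σ)
    calc (Real.sqrt (lam G H σ) * xs G H σ a ^ 2) ^ 2 = Real.sqrt (lam G H σ) ^ 2 * xs G H σ a ^ 4 := by
          ring
      _ = _ := by rw [h3]
  have h6 : 0 ≤ WW G H := by
    rw [← h4]
    exact Finset.sum_nonneg fun σ _ => sq_nonneg _
  rw [h2, h4] at h1
  calc _ ≤ WW G H * ∑ σ : Option V, (Real.sqrt (lam G H σ) * xs G H σ a ^ 2) ^ 2 := h1
    _ ≤ WW G H * 1 := mul_le_mul_of_nonneg_left h5 h6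
    _ = WW G H := mul_one _

end Pool.Agent.ALB
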