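import Pool.Agent.ALB.Wb
import Pool.Agent.ALB.Ce1
import Pool.Agent.ALB.Ce2

/-! # ALB module CE: existence of the clouds -/

set_option autoImplicit false

namespace Pool.Agent.ALB

open Finset

variable {V : Type} [Fintype V] {G : SimpleGraph V} {ι β : Type} [Fintype ι] [Fintype β]
  {H : Finset V}

open Classical in
private theorem ce_sum_T (g : Option V → ℝ) (hg : ∀ σ, lam G H σ = 0 → g σ = 0) :
    ∑ τ : {σ : Option V // lam G H σ ≠ 0}, g τ.1 = ∑ σ, g σ := by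
  rw [← Finset.sum_filter_of_ne (s := univ) (p := fun σ => lam G H σ ≠ 0) (f := g)
    (fun x _ h h0 => h (hg x h0))]
  exact (Finset.sum_subtype _ (by simp) g).symm

private theorem ce_lam_nonneg (hN : 0 < nL H) (σ : Option V) : 0 ≤ lam G H σ := by
  classical
  cases σ with
  | none =>
    simp only [lam]
    split_ifs <;> norm_num
  | some z =>
    simp only [lam]
    split_ifs
    · positivity
    · exact le_rfl

private theorem ce_Ks (σ : Option V) (h : lam G H σ ≠ 0) : nL H / 20 ≤ Ks G H σ := by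
  classical
  cases σ with
  | none =>
    by_contra hcon
    exact h (if_neg hcon)
  | some z =>
    by_contra hcon
    exact h (if_neg fun h1 => hcon h1.2)

/-- **The mixture.**

Proof.  `N = nL H = |ι| + 2|β| ≥ 2|β| ≥ k/2 ≥ 4·10⁶`; `card V ≤ 2k ≤ 8|β| ≤ 4N`.
`w = W^{1/4}`, so `w > 0`, `w⁴ = W`, `w ≥ (51/50)(|ι|+|β|)` (`W_ge`), `w ≤ 2N` (`W_le`).
`T = {σ : Option V // lam σ ≠ 0}`, `P σ = lam σ K_σ⁴ / W` (sum `1`: the other `σ` contribute
zero to `W`), `A_σ = w / K_σ`, `K_σ ≥ N/20 > 0` so `A_σ ≤ 40`; the cloud of `one_cloud`, with total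
weight `w + |H| =: K` and
`K ≥ |H| + |ι| + |β| + (1/50)(|ι|+|β|) ≥ k + k/200` as `|β| ≥ k/4`, and `K ≥ k ≥ card V/2`.
Second moments: outside the hub
`∑ P (A² load0)² = ∑ lam K⁴/W · (w/K)⁴ load0² = ∑ lam load0² ≤ 1` (`mom_LL`);
between: `∑ P A² xs² = ∑ lam K² xs² w²/W ≤ √W w²/W = 1` (`mom_LH`); hub: `∑ P = 1`. -/
theorem clouds_exist (S : Std G ι β H) {k : ℕ}
    (hk : k = H.card + Fintype.card ι + Fintype.card β) (h1 : 8000000 ≤ k)
    (h2 : k ≤ 4 * Fintype.card β) :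
    ∃ (T : Type) (_ : Fintype T) (P : T → ℝ) (c : T → Cloud G 40 (1 / 2) (1 / 16000000)) (K : ℝ),
      (∀ σ, 0 ≤ P σ) ∧ ∑ σ, P σ = 1 ∧ (∀ σ, (c σ).K = K) ∧
      (∀ f ∈ ed G, ∑ σ, P σ * (c σ).load f ^ 2 ≤ 1) ∧ (1 + 1 / 200) * (k : ℝ) ≤ K := by
  classical
  have hNe := S.nL_eq
  have hcard := S.card
  have hkR : (k : ℝ) = H.card + Fintype.card ι + Fintype.card β := by exact_mod_cast hk
  have h1R : (8000000 : ℝ) ≤ k := by exact_mod_cast h1
  have h2R : (k : ℝ) ≤ 4 * Fintype.card β := by exact_mod_cast h2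
  have hcR : (Fintype.card V : ℝ) = H.card + Fintype.card ι + 2 * Fintype.card β := by
    exact_mod_cast hcard
  have hι0 : (0 : ℝ) ≤ Fintype.card ι := Nat.cast_nonneg _
  have hH0 : (0 : ℝ) ≤ H.card := Nat.cast_nonneg _
  have hN4 : 4000000 ≤ nL H := by
    rw [hNe]
    linarith
  have hN : 0 < nL H := by linarith
  have hn : (Fintype.card V : ℝ) ≤ 4 * nL H := by
    rw [hNe, hcR]
    linarith
  set W := WW G H with hW
  have hWge := W_ge S hN4
  have hWle := W_le S hN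
  rw [← hW] at hWge hWle
  have hb0 : 0 < 51 / 50 * ((Fintype.card ι : ℝ) + (Fintype.card β : ℝ)) := by
    have : (0 : ℝ) < Fintype.card β := by linarith
    positivity
  have hW0 : 0 < W := lt_of_lt_of_le (by positivity) hWge
  set w := W ^ ((1 : ℝ) / 4) with hw
  have hw0 : 0 < w := Real.rpow_pos_of_pos hW0 _
  have hw4 : w ^ 4 = W := by
    rw [hw, ← Real.rpow_natCast, ← Real.rpow_mul hW0.le]
    norm_num
  have hwge : 51 / 50 * ((Fintype.card ι : ℝ) + (Fintype.card β : ℝ)) ≤ w := by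
    rw [← hw4] at hWge
    exact le_of_pow_le_pow_left₀ (by norm_num) hw0.le hWge
  have hwle : w ≤ 2 * nL H := by
    rw [← hw4] at hWle
    exact le_of_pow_le_pow_left₀ (by norm_num) (by positivity) hWle
  have hKs : ∀ τ : {σ : Option V // lam G H σ ≠ 0}, 0 < Ks G H τ.1 := fun τ =>
    lt_of_lt_of_le (by positivity) (ce_Ks τ.1 τ.2)
  have hAK : ∀ τ : {σ : Option V // lam G H σ ≠ 0}, w / Ks G H τ.1 * Ks G H τ.1 = w :=
    fun τ => div_mul_cancel₀ _ (hKs τ).ne'
  have hex : ∀ τ : {σ : Option V // lam G H σ ≠ 0},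
      ∃ c : Cloud G 40 (1 / 2) (1 / 16000000),
        c.K = w / Ks G H τ.1 * Ks G H τ.1 + (H.card : ℝ) ∧
      (∀ a b, a ∉ H → b ∉ H → c.load2 a b =
        (w / Ks G H τ.1) ^ 2 * load0 G H (xs G H τ.1) a b) ∧
      (∀ a h, a ∉ H → h ∈ H → c.load2 a h = w / Ks G H τ.1 * xs G H τ.1 a) ∧
      (∀ h h', h ∈ H → h' ∈ H → c.load2 h h' = 1) := by
    intro τ
    refine one_cloud S hN hn τ.1 τ.2 (div_nonneg hw0.le (hKs τ).le) ?_ ?_
    · rw [div_le_iff₀ (hKs τ)]
      have := ce_Ks τ.1 τ.2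
      linarith
    · rw [hAK τ]
      linarith
  choose c hc1 hc2 hc3 hc4 using hex
  have hPsum : ∑ τ : {σ : Option V // lam G H σ ≠ 0},
      lam G H τ.1 * Ks G H τ.1 ^ 4 / W = 1 := by
    rw [ce_sum_T (fun σ => lam G H σ * Ks G H σ ^ 4 / W) (fun σ h => by rw [h]; simp),
      ← Finset.sum_div]
    exact div_self hW0.ne'
  have hLL : ∀ a b, a ∉ H → b ∉ H → G.Adj a b →
      ∑ τ : {σ : Option V // lam G H σ ≠ 0},
        lam G H τ.1 * Ks G H τ.1 ^ 4 / W * (c τ).load2 a b ^ 2 ≤ 1 := by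
    intro a b ha hb hab
    have h3 : ∀ τ : {σ : Option V // lam G H σ ≠ 0},
        lam G H τ.1 * Ks G H τ.1 ^ 4 / W * (c τ).load2 a b ^ 2 =
        lam G H τ.1 * load0 G H (xs G H τ.1) a b ^ 2 := by
      intro τ
      rw [hc2 τ a b ha hb]
      have hK := (hKs τ).ne'
      have h4 : ((w / Ks G H τ.1) ^ 2 * load0 G H (xs G H τ.1) a b) ^ 2 =
          w ^ 4 / Ks G H τ.1 ^ 4 * load0 G H (xs G H τ.1) a b ^ 2 := by
        rw [div_pow]
        ring
      rw [h4, hw4]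
      have hW1 := hW0.ne'
      field_simp
    rw [Finset.sum_congr rfl fun τ _ => h3 τ,
      ce_sum_T (fun σ => lam G H σ * load0 G H (xs G H σ) a b ^ 2)
        (fun σ h => by rw [h]; simp)]
    exact mom_LL S hN ha hb hab
  have hLH : ∀ a b, a ∉ H → b ∈ H →
      ∑ τ : {σ : Option V // lam G H σ ≠ 0},
        lam G H τ.1 * Ks G H τ.1 ^ 4 / W * (c τ).load2 a b ^ 2 ≤ 1 := by
    intro a b ha hb
    have h3 : ∀ τ : {σ : Option V // lam G H σ ≠ 0},
        lam G H τ.1 * Ks G H τ.1 ^ 4 / W * (c τ).load2 a b ^ 2 =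
        lam G H τ.1 * Ks G H τ.1 ^ 2 * xs G H τ.1 a ^ 2 * (w ^ 2 / W) := by
      intro τ
      rw [hc3 τ a b ha hb]
      have hK := (hKs τ).ne'
      have hW1 := hW0.ne'
      rw [mul_pow, div_pow]
      field_simp
    rw [Finset.sum_congr rfl fun τ _ => h3 τ, ← Finset.sum_mul,
      ce_sum_T (fun σ => lam G H σ * Ks G H σ ^ 2 * xs G H σ a ^ 2)
        (fun σ h => by rw [h]; simp)]
    have h4 := mom_LH S hN ha
    rw [← hW, ← hw4] at h4
    have h5 : w ^ 4 = (w ^ 2) ^ 2 := by ring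
    rw [h5] at h4
    have h6 : ∑ σ : Option V, lam G H σ * Ks G H σ ^ 2 * xs G H σ a ^ 2 ≤ w ^ 2 :=
      le_of_pow_le_pow_left₀ (by norm_num) (by positivity) h4
    calc _ ≤ w ^ 2 * (w ^ 2 / W) := mul_le_mul_of_nonneg_right h6 (by positivity)
      _ = 1 := by
          rw [← hw4]
          have := hw0.ne'
          field_simp
  refine ⟨{σ : Option V // lam G H σ ≠ 0}, inferInstance,
    fun τ => lam G H τ.1 * Ks G H τ.1 ^ 4 / W, c, w + H.card, ?_, hPsum, ?_, ?_, ?_⟩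
  · intro τ
    exact div_nonneg (mul_nonneg (ce_lam_nonneg hN _) (by positivity)) hW0.le
  · intro τ
    rw [hc1 τ, hAK τ]
  · intro f
    refine Sym2.ind (fun a b => ?_) f
    intro hf
    have hab : G.Adj a b := mem_ed.1 hf
    simp only [Cloud.load_mk]
    by_cases ha : a ∈ H
    · by_cases hb : b ∈ H
      · have h3 : ∀ τ : {σ : Option V // lam G H σ ≠ 0},
            lam G H τ.1 * Ks G H τ.1 ^ 4 / W * (c τ).load2 a b ^ 2 =
            lam G H τ.1 * Ks G H τ.1 ^ 4 / W := by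
          intro τ
          rw [hc4 τ a b ha hb]
          ring
        rw [Finset.sum_congr rfl fun τ _ => h3 τ]
        exact hPsum.le
      · have h3 := hLH b a hb ha
        refine le_of_eq_of_le (Finset.sum_congr rfl fun τ _ => ?_) h3
        rw [(c τ).load2_comm]
    · by_cases hb : b ∈ H
      · exact hLH a b ha hb
      · exact hLL a b ha hb hab
  · linarith

end Pool.Agent.ALB
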