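import Pool.Agent.ALB.Cloud
import Pool.Agent.ALB.Ce
import Pool.Agent.ALB.Lim

/-! # ALB module ASYM: many pairs -/

set_option autoImplicit false

namespace Pool.Agent.ALB

open Finset

/-- **Many pairs.**

Proof.  Let `c` be the constant of `exists_limit`.  If `c = 0` then `crK k = 0`.  Let `c > 0`,
`B = B0 40 (1/2) (1/16000000) · 40⁴`.  Choose `a ≥ 4` with `crK a ≥ (1 - 1/1000) c choose a 4`
(`exists_limit` with `δ = c/1000`) and `B/(a-3) ≤ 1/1000`; then `k₀ ≥ 8·10⁶` with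
`a⁴ (2·40/(1/2) + 16000000)/k₀ ≤ 1/1000`.  By `clouds_exist` and `mix_ineq`
(`card V ≥ k ≥ k₀`):
`(1/24)(999/1000) c · ((1+1/200) k)⁴ · (999/1000) ≤ (1 + 1/1000) cr`, and
`(1+1/200)⁴ (999/1000)² ≥ 1001/1000`, so `cr ≥ c k⁴/24 ≥ c choose k 4 ≥ crK k`. -/
theorem asym : ∃ k₀ : ℕ, ∀ (V : Type) (_ : Fintype V) (G : SimpleGraph V) (ι β : Type)
    (_ : Fintype ι) (_ : Fintype β) (H : Finset V) (_ : Std G ι β H) (D : Drw G) (k : ℕ),
    D.NoAdj → k = H.card + Fintype.card ι + Fintype.card β → k₀ ≤ k →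
    k ≤ 4 * Fintype.card β → crK k ≤ D.cr := by
  obtain ⟨c, hc0, hck, hlim⟩ := exists_limit
  rcases hc0.eq_or_lt with hc | hc
  · refine ⟨0, ?_⟩
    intro V _ G ι β _ _ H _ D k _ _ _ _
    have h1 := hck k
    rw [← hc, zero_mul] at h1
    have h2 : crK k ≤ 0 := by exact_mod_cast h1
    omega
  · obtain ⟨a₀, ha₀, ha⟩ := hlim (c / 1000) (by positivity)
    set B := B0 40 (1 / 2) (1 / 16000000) * 40 ^ 4 with hB
    set a := max a₀ (⌈1000 * |B|⌉₊ + 4) with haD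
    have ha4 : 4 ≤ a := ha₀.trans (le_max_left _ _)
    have haa : (c - c / 1000) * (a.choose 4 : ℝ) ≤ (crK a : ℝ) := ha a (le_max_left _ _)
    have haR : 1000 * |B| + 4 ≤ (a : ℝ) := by
      have h1 : ⌈1000 * |B|⌉₊ + 4 ≤ a := le_max_right _ _
      have h2 : ((⌈1000 * |B|⌉₊ : ℕ) : ℝ) + 4 ≤ a := by exact_mod_cast h1
      have h3 := Nat.le_ceil (1000 * |B|)
      linarith
    have ha3 : 0 < (a : ℝ) - 3 := by
      have := abs_nonneg B
      linarith
    have hBa : B / ((a : ℝ) - 3) ≤ 1 / 1000 := by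
      rw [div_le_iff₀ ha3]
      have := le_abs_self B
      linarith
    set M := (a : ℝ) ^ 4 * (2 * 40 / (1 / 2) + 1 / (1 / 16000000)) with hM
    refine ⟨max 8000000 ⌈1000 * M⌉₊, ?_⟩
    intro V _ G ι β _ _ H S D k hD hk hk0 hkβ
    have h8 : 8000000 ≤ k := (le_max_left _ _).trans hk0
    have hkM : 1000 * M ≤ k := by
      have h1 : ⌈1000 * M⌉₊ ≤ k := (le_max_right _ _).trans hk0
      have h2 := Nat.le_ceil (1000 * M)
      have h3 : ((⌈1000 * M⌉₊ : ℕ) : ℝ) ≤ k := by exact_mod_cast h1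
      linarith
    obtain ⟨T, _, P, cl, K, hP, hP1, hclK, hL, hKk⟩ := clouds_exist S hk h8 hkβ
    have hcard := S.card
    have hVk : k ≤ Fintype.card V := by omega
    have hV : 0 < Fintype.card V := by omega
    have hVR : (k : ℝ) ≤ Fintype.card V := by exact_mod_cast hVk
    have hV0 : (0 : ℝ) < Fintype.card V := by exact_mod_cast hV
    have hmix := mix_ineq D hD (C := 40) (κ := 1 / 2) (η := 1 / 16000000) (by norm_num)
      (by norm_num) (by norm_num) hV ha4 P hP hP1 cl K hclK hL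
    have hk8 : (8000000 : ℝ) ≤ k := by exact_mod_cast h8
    have hk00 : (0 : ℝ) ≤ k := by linarith
    have hch : 0 < (a.choose 4 : ℝ) := by
      have : 0 < a.choose 4 := Nat.choose_pos ha4
      exact_mod_cast this
    have h1 : (999 / 1000 * c) / 24 ≤ (crK a : ℝ) / (24 * (a.choose 4 : ℝ)) := by
      rw [div_le_div_iff₀ (by norm_num) (by positivity)]
      nlinarith
    have h2 : (201 / 200) ^ 4 * (k : ℝ) ^ 4 ≤ K ^ 4 := by
      rw [← mul_pow]
      refine pow_le_pow_left₀ (by positivity) ?_ 4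
      linarith
    have h3 : 999 / 1000 ≤ 1 - (a : ℝ) ^ 4 * (2 * 40 / (1 / 2) + 1 / (1 / 16000000)) /
        (Fintype.card V : ℝ) := by
      rw [← hM]
      have h4 : M / (Fintype.card V : ℝ) ≤ 1 / 1000 := by
        rw [div_le_iff₀ hV0]
        linarith
      linarith
    have h4 : (1 + B0 40 (1 / 2) (1 / 16000000) * 40 ^ 4 / ((a : ℝ) - 3)) * (D.cr : ℝ) ≤
        1001 / 1000 * (D.cr : ℝ) := by
      refine mul_le_mul_of_nonneg_right ?_ (Nat.cast_nonneg _)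
      rw [← hB]
      linarith
    have h5 : (999 / 1000 * c) / 24 * ((201 / 200) ^ 4 * (k : ℝ) ^ 4) * (999 / 1000) ≤
        (crK a : ℝ) / (24 * (a.choose 4 : ℝ)) * K ^ 4 *
        (1 - (a : ℝ) ^ 4 * (2 * 40 / (1 / 2) + 1 / (1 / 16000000)) / (Fintype.card V : ℝ)) := by
      have h6 : 0 ≤ (crK a : ℝ) / (24 * (a.choose 4 : ℝ)) := by positivity
      have h7 : 0 ≤ K ^ 4 := by positivity
      refine mul_le_mul (mul_le_mul h1 h2 (by positivity) h6) h3 (by norm_num)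
        (mul_nonneg h6 h7)
    have h6 : (999 / 1000 * c) / 24 * ((201 / 200) ^ 4 * (k : ℝ) ^ 4) * (999 / 1000) ≤
        1001 / 1000 * (D.cr : ℝ) := h5.trans (hmix.trans h4)
    have hk4 : (0 : ℝ) ≤ c * (k : ℝ) ^ 4 := by positivity
    have h7 : c * (k : ℝ) ^ 4 / 24 ≤ (D.cr : ℝ) := by nlinarith
    have h8' : (k.choose 4 : ℝ) ≤ (k : ℝ) ^ 4 / 24 := by
      have := Nat.choose_le_pow_div (α := ℝ) 4 k
      have h24 : ((Nat.factorial 4 : ℕ) : ℝ) = 24 := by norm_num [Nat.factorial]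
      rwa [h24] at this
    have h9 : (crK k : ℝ) ≤ (D.cr : ℝ) := by
      calc (crK k : ℝ) ≤ c * (k.choose 4 : ℝ) := hck k
        _ ≤ c * ((k : ℝ) ^ 4 / 24) := mul_le_mul_of_nonneg_left h8' hc.le
        _ = c * (k : ℝ) ^ 4 / 24 := by ring
        _ ≤ _ := h7
    exact_mod_cast h9

end Pool.Agent.ALB
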