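import Pool.Agent.ALB.Clique
import Pool.Agent.ALB.NoAdj
import Pool.Agent.ALB.Str

/-! # ALB module AVG: deleting a vertex, -/

set_option autoImplicit false

namespace Pool.Agent.ALB

/-- a disjoint pair of edges misses all but four vertices -/
theorem avg_card {a : ℕ} {D : Drw (⊤ : SimpleGraph (Fin (a + 1)))} (hD : D.NoAdj)
    {e f : Sym2 (Fin (a + 1))} (he : e ∈ ed (⊤ : SimpleGraph (Fin (a + 1))))
    (hf : f ∈ ed (⊤ : SimpleGraph (Fin (a + 1)))) (h : D.N e f ≠ 0) :
    (Finset.univ.filter fun i => i ∉ e ∧ i ∉ f).card = a - 3 := by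
  rw [mem_ed] at he hf
  have hef : e ≠ f := by
    rintro rfl
    exact h (D.N_self he)
  have key : ∀ x y z, x ≠ y → x ≠ z → D.N s(x, y) s(x, z) ≠ 0 → y = z := by
    intro x y z hxy hxz h1
    by_contra h2
    exact h1 (hD x y z hxy hxz h2)
  induction e using Sym2.ind with
  | _ u v =>
    induction f using Sym2.ind with
    | _ u' v' =>
      have huv : u ≠ v := he
      have huv' : u' ≠ v' := hf
      have h1 : u ≠ u' := by
        rintro rfl
        have := key _ _ _ huv huv' h
        exact hef (by rw [this])
      have h2 : u ≠ v' := by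
        rintro rfl
        rw [Sym2.eq_swap (a := u')] at h
        have := key _ _ _ huv huv'.symm h
        exact hef (by rw [this, Sym2.eq_swap])
      have h3 : v ≠ u' := by
        rintro rfl
        rw [Sym2.eq_swap (a := u)] at h
        have := key _ _ _ huv.symm huv' h
        exact hef (by rw [this, Sym2.eq_swap])
      have h4 : v ≠ v' := by
        rintro rfl
        rw [Sym2.eq_swap (a := u), Sym2.eq_swap (a := u')] at h
        have := key _ _ _ huv.symm huv'.symm h
        exact hef (by rw [this])
      have h5 : (Finset.univ.filter fun i => i ∉ s(u, v) ∧ i ∉ s(u', v')) =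
          ({u, v, u', v'} : Finset (Fin (a + 1)))ᶜ := by
        ext i
        simp only [Finset.mem_filter, Finset.mem_univ, true_and, Sym2.mem_iff, Finset.mem_compl,
          Finset.mem_insert, Finset.mem_singleton]
        tauto
      rw [h5, Finset.card_compl, Fintype.card_fin]
      have h6 : ({u, v, u', v'} : Finset (Fin (a + 1))).card = 4 := by
        rw [Finset.card_insert_of_notMem, Finset.card_insert_of_notMem,
          Finset.card_insert_of_notMem, Finset.card_singleton]
        · simpa using huv'
        · simp [h3, h4]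
        · simp [huv, h1, h2]
      rw [h6]
      omega

/-- Averaging over the deleted vertex.
Proof.  Let `D` be an optimal drawing of `K_{a+1}` (`exists_opt`) without adjacent crossings
(`exists_noAdj`; it is still optimal because `crK` is the minimum).  For `i : Fin (a+1)` apply
`crK_le_of_clique` with `Y = i.succAbove`:
`crK a ≤ ∑_{e, f edges of K_{a+1}, i ∉ e, i ∉ f} N e f`
(`Sym2.map i.succAbove` is a bijection from the edges of `K_a` to the edges of `K_{a+1}` avoiding
`i`).  Sum over `i` and exchange the sums:
`(a+1) crK a ≤ ∑_{e,f} N e f · #{i | i ∉ e ∧ i ∉ f}`.  If `e, f` are disjoint the number is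
`a + 1 - 4 = a - 3`; otherwise `e = f` and `N e e = 0`, or they have exactly one common vertex
and `N e f = 0` by `NoAdj`. -/
theorem crK_avg (a : ℕ) : (a + 1) * crK a ≤ (a - 3) * crK (a + 1) := by
  classical
  obtain ⟨D0, hD0⟩ := exists_opt (a + 1)
  obtain ⟨D, hD1, hD⟩ := exists_noAdj D0
  rw [hD0] at hD1
  set E := ed (⊤ : SimpleGraph (Fin (a + 1))) with hE
  have h1 : ∀ i : Fin (a + 1), crK a ≤
      ∑ e ∈ E, ∑ f ∈ E, if i ∉ e ∧ i ∉ f then D.N e f else 0 := by
    intro i
    have hinj : Function.Injective i.succAbove := Fin.succAbove_right_injective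
    have h2 := crK_le_of_clique D i.succAbove hinj (fun x y hxy => hinj.ne hxy)
    have hinj2 : Function.Injective (Sym2.map i.succAbove) := Sym2.map.injective hinj
    have hsub : (ed (⊤ : SimpleGraph (Fin a))).image (Sym2.map i.succAbove) ⊆
        E.filter (fun e => i ∉ e) := by
      intro e he
      rw [Finset.mem_image] at he
      obtain ⟨p, hp, rfl⟩ := he
      rw [mem_ed] at hp
      rw [Finset.mem_filter, hE, mem_ed]
      induction p using Sym2.ind with
      | _ x y =>
        have hxy : x ≠ y := hp
        rw [Sym2.map_mk]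
        refine ⟨hinj.ne hxy, ?_⟩
        rw [Sym2.mem_iff]
        push Not
        exact ⟨(Fin.succAbove_ne i x).symm, (Fin.succAbove_ne i y).symm⟩
    have h3 : ∀ g : Sym2 (Fin (a + 1)) → ℕ,
        ∑ p ∈ ed (⊤ : SimpleGraph (Fin a)), g (p.map i.succAbove) ≤
          ∑ e ∈ E, if i ∉ e then g e else 0 := by
      intro g
      rw [← Finset.sum_filter, ← Finset.sum_image (f := g) (g := Sym2.map i.succAbove)
        (fun x _ y _ h => hinj2 h)]
      exact Finset.sum_le_sum_of_subset hsub
    refine h2.trans ?_
    refine (Finset.sum_le_sum fun p _ => h3 fun f => D.N (p.map i.succAbove) f).trans ?_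
    refine (h3 fun e => ∑ f ∈ E, if i ∉ f then D.N e f else 0).trans ?_
    refine Finset.sum_le_sum fun e _ => ?_
    by_cases he : i ∉ e
    · rw [if_pos he]
      refine Finset.sum_le_sum fun f _ => ?_
      by_cases hf : i ∉ f
      · rw [if_pos hf, if_pos ⟨he, hf⟩]
      · rw [if_neg hf]
        exact Nat.zero_le _
    · rw [if_neg he]
      exact Nat.zero_le _
  have h2 : (a + 1) * crK a ≤
      ∑ i : Fin (a + 1), ∑ e ∈ E, ∑ f ∈ E, if i ∉ e ∧ i ∉ f then D.N e f else 0 := by
    calc (a + 1) * crK a = ∑ _i : Fin (a + 1), crK a := by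
          rw [Finset.sum_const, Finset.card_univ, Fintype.card_fin, smul_eq_mul]
      _ ≤ _ := Finset.sum_le_sum fun i _ => h1 i
  refine h2.trans ?_
  rw [Finset.sum_comm]
  calc ∑ e ∈ E, ∑ i : Fin (a + 1), ∑ f ∈ E, (if i ∉ e ∧ i ∉ f then D.N e f else 0)
      ≤ ∑ e ∈ E, ∑ f ∈ E, (a - 3) * D.N e f := by
        refine Finset.sum_le_sum fun e he => ?_
        rw [Finset.sum_comm]
        refine Finset.sum_le_sum fun f hf => ?_
        rw [← Finset.sum_filter, Finset.sum_const, smul_eq_mul]
        by_cases h : D.N e f = 0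
        · rw [h]
          simp
        · rw [avg_card hD he hf h]
    _ = (a - 3) * D.cr := by
        unfold Drw.cr
        rw [Finset.mul_sum]
        exact Finset.sum_congr rfl fun e _ => by rw [Finset.mul_sum]
    _ ≤ _ := Nat.mul_le_mul_left _ hD1

end Pool.Agent.ALB
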