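import Pool.Agent.ALB.Defs

/-! # ALB: definitions for the cloud inequality

A cloud on `G` is a weight function `x` on the vertices (terminals of a random `K_a` are chosen
independently with probabilities `x / ∑ x`) together with sets `R u v` of common neighbours (for
non-adjacent terminals `u, v` the edge of `K_a` is drawn along `u - w - v` with `w` uniform in
`R u v`).  `load` is (half) the normalised expected number of uses of an edge. -/

set_option autoImplicit false

namespace Pool.Agent.ALB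

open Finset

/-- A cloud. -/
structure Cloud {V : Type} [Fintype V] (G : SimpleGraph V) (C κ η : ℝ) where
  x : V → ℝ
  R : V → V → Finset V
  x_nonneg : ∀ v, 0 ≤ x v
  x_le : ∀ v, x v ≤ C
  K_ge : κ * (Fintype.card V : ℝ) ≤ ∑ v, x v
  R_symm : ∀ u v, R u v = R v u
  R_adj : ∀ u v w, w ∈ R u v → G.Adj u w ∧ G.Adj v w
  R_card : ∀ u v, u ≠ v → ¬ G.Adj u v → x u ≠ 0 → x v ≠ 0 →
    η * (Fintype.card V : ℝ) ≤ ((R u v).card : ℝ)

variable {V : Type} [Fintype V] {G : SimpleGraph V} {C κ η : ℝ}

/-- total weight -/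
noncomputable def Cloud.K (c : Cloud G C κ η) : ℝ := ∑ v, c.x v

open Classical in
/-- the part of the load on the (ordered) edge `u w` of paths `u - w - v` -/
noncomputable def Cloud.half (c : Cloud G C κ η) (u w : V) : ℝ :=
  ∑ v ∈ univ.filter (fun v => v ≠ u ∧ ¬ G.Adj u v ∧ w ∈ c.R u v),
    c.x u * c.x v / ((c.R u v).card : ℝ)

/-- load of an ordered pair -/
noncomputable def Cloud.load2 (c : Cloud G C κ η) (u w : V) : ℝ :=
  c.x u * c.x w + c.half u w + c.half w u

theorem Cloud.load2_comm (c : Cloud G C κ η) (u w : V) : c.load2 u w = c.load2 w u := by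
  unfold Cloud.load2
  ring

/-- load of an edge -/
noncomputable def Cloud.load (c : Cloud G C κ η) : Sym2 V → ℝ :=
  Sym2.lift ⟨c.load2, fun u w => c.load2_comm u w⟩

@[simp] theorem Cloud.load_mk (c : Cloud G C κ η) (u w : V) :
    c.load s(u, w) = c.load2 u w := rfl

/-- probability of a terminal -/
noncomputable def Cloud.p (c : Cloud G C κ η) (v : V) : ℝ := c.x v / c.K

/-- the situation in which the pair `u v` is drawn along a path of length two -/
def Cloud.two (c : Cloud G C κ η) (u v : V) : Prop :=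
  u ≠ v ∧ ¬ G.Adj u v ∧ c.x u ≠ 0 ∧ c.x v ≠ 0

open Classical in
/-- distribution of the middle vertex (a probability, uniform on `R u v` if `two u v`,
uniform on `V` otherwise) -/
noncomputable def Cloud.ρ (c : Cloud G C κ η) (u v w : V) : ℝ :=
  if c.two u v then (if w ∈ c.R u v then 1 / ((c.R u v).card : ℝ) else 0)
  else 1 / (Fintype.card V : ℝ)

open Classical in
/-- the edges used for the pair `u v` with middle vertex `w` -/
noncomputable def route (G : SimpleGraph V) (u v w : V) : Finset (Sym2 V) :=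
  if u = v then ∅ else if G.Adj u v then {s(u, v)} else {s(u, w), s(w, v)}

/-- index pairs -/
def prs (a : ℕ) : Finset (Fin a × Fin a) := univ.filter (fun e => e.1 < e.2)

/-- weight of a configuration: terminals `τ`, middle vertices `ω` -/
noncomputable def Cloud.wt (c : Cloud G C κ η) {a : ℕ} (τ : Fin a → V)
    (ω : Fin a × Fin a → V) : ℝ :=
  (∏ i, c.p (τ i)) * ∏ e, c.ρ (τ e.1) (τ e.2) (ω e)

/-- crossings between the routes of two index pairs -/
noncomputable def crs (D : Drw G) {a : ℕ} (τ : Fin a → V) (ω : Fin a × Fin a → V)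
    (e e' : Fin a × Fin a) : ℝ :=
  ∑ f ∈ route G (τ e.1) (τ e.2) (ω e), ∑ f' ∈ route G (τ e'.1) (τ e'.2) (ω e'), (D.N f f' : ℝ)

/-- a bad configuration -/
def Cloud.bad (c : Cloud G C κ η) {a : ℕ} (τ : Fin a → V) (ω : Fin a × Fin a → V) : Prop :=
  (∃ i j, i < j ∧ τ i = τ j) ∨
  (∃ i j l, i < j ∧ l ≠ i ∧ l ≠ j ∧ c.two (τ i) (τ j) ∧ ω (i, j) = τ l) ∨
  (∃ e ∈ prs a, ∃ e' ∈ prs a, e ≠ e' ∧ c.two (τ e.1) (τ e.2) ∧ c.two (τ e'.1) (τ e'.2) ∧
    ω e = ω e')

end Pool.Agent.ALB
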