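import Pool.Agent.ALB.StdB
import Pool.Agent.ALB.ClDefs

/-! # ALB: the clouds on a standard form graph (definitions) -/

set_option autoImplicit false

namespace Pool.Agent.ALB

open Finset

variable {V : Type} [Fintype V]

/-- number of vertices outside the hub -/
noncomputable def nL (H : Finset V) : ℝ := (Fintype.card V : ℝ) - (H.card : ℝ)

/-- `√(1 - 2 t / N)` (zero if `t ≥ N/2`) -/
noncomputable def sq (G : SimpleGraph V) (H : Finset V) (x : V) : ℝ :=
  Real.sqrt (1 - 2 * (tdeg G x : ℝ) / nL H)

open Classical in
/-- the truncated square root weights, outside the hub -/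
noncomputable def x0 (G : SimpleGraph V) (H : Finset V) (x : V) : ℝ :=
  if x ∈ H then 0 else if sq G H x < 1 / 2000 then 0 else sq G H x

open Classical in
/-- the local weights: `none`: square root weights; `some v`: indicator of the non-neighbours
of `v` -/
noncomputable def xs (G : SimpleGraph V) (H : Finset V) (σ : Option V) (x : V) : ℝ :=
  match σ with
  | none => x0 G H x
  | some v => if x ≠ v ∧ ¬ G.Adj v x then 1 else 0

/-- local total weight -/
noncomputable def Ks (G : SimpleGraph V) (H : Finset V) (σ : Option V) : ℝ :=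
  ∑ x, xs G H σ x

open Classical in
/-- coefficients of the mixture -/
noncomputable def lam (G : SimpleGraph V) (H : Finset V) (σ : Option V) : ℝ :=
  match σ with
  | none => if nL H / 20 ≤ Ks G H none then 1 else 0
  | some v => if v ∉ H ∧ nL H / 20 ≤ Ks G H (some v) then 2 / (nL H + 1) else 0

/-- `W = ∑ λ K⁴` -/
noncomputable def WW (G : SimpleGraph V) (H : Finset V) : ℝ :=
  ∑ σ : Option V, lam G H σ * Ks G H σ ^ 4

open Classical in
/-- common neighbours outside the hub -/
noncomputable def Rr (G : SimpleGraph V) (H : Finset V) (u v : V) : Finset V :=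
  univ.filter (fun w => w ∉ H ∧ G.Adj u w ∧ G.Adj v w)

open Classical in
/-- local version of `Cloud.half` -/
noncomputable def half0 (G : SimpleGraph V) (H : Finset V) (x : V → ℝ) (a b : V) : ℝ :=
  ∑ v ∈ univ.filter (fun v => v ≠ a ∧ ¬ G.Adj a v ∧ b ∈ Rr G H a v),
    x a * x v / ((Rr G H a v).card : ℝ)

/-- local version of `Cloud.load2` -/
noncomputable def load0 (G : SimpleGraph V) (H : Finset V) (x : V → ℝ) (a b : V) : ℝ :=
  x a * x b + half0 G H x a b + half0 G H x b a

end Pool.Agent.ALB
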