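import Pool.Agent.ALB.ClZ

/-! # ALB module CLA: expected use of an edge -/

set_option autoImplicit false

namespace Pool.Agent.ALB

open Finset

variable {V : Type} [Fintype V] {G : SimpleGraph V} {C κ η : ℝ}

open Classical in
/-- every edge is counted twice by the ordered adjacent pairs -/
theorem cla_sum_ed (g : Sym2 V → ℝ) : ∑ e ∈ ed G, g e =
    (1 / 2) * ∑ u, ∑ v, (if G.Adj u v then g s(u, v) else 0) := by
  have h1 : ∑ u, ∑ v, (if G.Adj u v then g s(u, v) else 0) =
      ∑ q ∈ (univ : Finset (V × V)).filter (fun q => G.Adj q.1 q.2), g s(q.1, q.2) := by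
    rw [Finset.sum_filter, ← Finset.univ_product_univ, Finset.sum_product]
  have h2 : ∑ q ∈ (univ : Finset (V × V)).filter (fun q => G.Adj q.1 q.2), g s(q.1, q.2) =
      ∑ e ∈ ed G, ∑ q ∈ ((univ : Finset (V × V)).filter (fun q => G.Adj q.1 q.2)).filter
        (fun q => s(q.1, q.2) = e), g s(q.1, q.2) := by
    rw [Finset.sum_fiberwise_of_maps_to]
    intro q hq
    rw [Finset.mem_filter] at hq
    rw [mem_ed, SimpleGraph.mem_edgeSet]
    exact hq.2
  rw [h1, h2, Finset.mul_sum]
  refine Finset.sum_congr rfl fun e he => ?_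
  induction e with
  | _ a b =>
    rw [mem_ed, SimpleGraph.mem_edgeSet] at he
    have h3 : ((univ : Finset (V × V)).filter (fun q => G.Adj q.1 q.2)).filter
        (fun q => s(q.1, q.2) = s(a, b)) = {(a, b), (b, a)} := by
      ext ⟨x, y⟩
      simp only [Finset.mem_filter, Finset.mem_univ, true_and, Finset.mem_insert,
        Finset.mem_singleton, Prod.mk.injEq, Sym2.eq_iff]
      constructor
      · rintro ⟨-, h⟩
        exact h
      · rintro (⟨h, h'⟩ | ⟨h, h'⟩)
        · rw [h, h']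
          exact ⟨he, Or.inl ⟨rfl, rfl⟩⟩
        · rw [h, h']
          exact ⟨he.symm, Or.inr ⟨rfl, rfl⟩⟩
    have h4 : (a, b) ≠ (b, a) := by
      intro h
      rw [Prod.mk.injEq] at h
      exact he.ne h.1
    rw [h3, Finset.sum_pair h4]
    have h5 : s(b, a) = s(a, b) := Sym2.eq_swap
    simp only [h5]
    ring

theorem cla_half_adj (c : Cloud G C κ η) (u w : V) (h : ¬ G.Adj u w) : c.half u w = 0 := by
  classical
  unfold Cloud.half
  rw [Finset.sum_eq_zero]
  intro v hv
  rw [Finset.mem_filter] at hv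
  exact absurd (c.R_adj u v w hv.2.2.2).1 h

open Classical in
/-- the half use -/
noncomputable def claA (c : Cloud G C κ η) (h : Sym2 V → ℝ) (u v : V) : ℝ :=
  c.p u * c.p v * ∑ w, c.ρ u v w * h s(u, w)

open Classical in
theorem cla_A (c : Cloud G C κ η) (h : Sym2 V → ℝ) {u v : V}
    (huv : u ≠ v) (hadj : ¬ G.Adj u v) :
    claA c h u v = 1 / c.K ^ 2 * ∑ w, (if w ∈ c.R u v then
      c.x u * c.x v / ((c.R u v).card : ℝ) * h s(u, w) else 0) := by
  unfold claA Cloud.p
  by_cases h0 : c.x u ≠ 0 ∧ c.x v ≠ 0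
  · have htwo : c.two u v := ⟨huv, hadj, h0.1, h0.2⟩
    rw [Finset.mul_sum, Finset.mul_sum]
    refine Finset.sum_congr rfl fun w _ => ?_
    unfold Cloud.ρ
    rw [if_pos htwo]
    split_ifs with hw
    · ring
    · ring
  · have hz : c.x u * c.x v = 0 := by
      by_contra hne
      exact h0 ⟨fun h1 => hne (by rw [h1, zero_mul]), fun h1 => hne (by rw [h1, mul_zero])⟩
    have h1 : c.x u / c.K * (c.x v / c.K) = 0 := by
      rw [div_mul_div_comm, hz, zero_div]
    rw [h1, zero_mul, Finset.sum_eq_zero, mul_zero]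
    intro w _
    rw [hz, zero_div, zero_mul]
    simp

open Classical in
theorem cla_row (c : Cloud G C κ η) (h : Sym2 V → ℝ) (u : V) :
    ∑ v, (if v ≠ u ∧ ¬ G.Adj u v then claA c h u v else 0) =
      1 / c.K ^ 2 * ∑ w, c.half u w * h s(u, w) := by
  have h1 : ∀ v, (if v ≠ u ∧ ¬ G.Adj u v then claA c h u v else 0) =
      1 / c.K ^ 2 * ∑ w, (if v ≠ u ∧ ¬ G.Adj u v ∧ w ∈ c.R u v then
        c.x u * c.x v / ((c.R u v).card : ℝ) * h s(u, w) else 0) := by
    intro v
    by_cases hv : v ≠ u ∧ ¬ G.Adj u v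
    · rw [if_pos hv, cla_A c h hv.1.symm hv.2]
      congr 1
      refine Finset.sum_congr rfl fun w _ => ?_
      by_cases hw : w ∈ c.R u v
      · rw [if_pos hw, if_pos ⟨hv.1, hv.2, hw⟩]
      · rw [if_neg hw, if_neg fun h => hw h.2.2]
    · rw [if_neg hv, Finset.sum_eq_zero, mul_zero]
      intro w _
      rw [if_neg fun h => hv ⟨h.1, h.2.1⟩]
  simp only [h1]
  rw [← Finset.mul_sum, Finset.sum_comm]
  congr 1
  refine Finset.sum_congr rfl fun w _ => ?_
  unfold Cloud.half
  rw [Finset.sum_mul, Finset.sum_filter]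

open Classical in
theorem cla_cell (c : Cloud G C κ η) (hη : 0 < η)
    (hV : 0 < Fintype.card V) (h : Sym2 V → ℝ) (u v : V) :
    ∑ w, c.p u * c.p v * c.ρ u v w * ∑ f ∈ route G u v w, h f =
      (if G.Adj u v then c.p u * c.p v * h s(u, v) else 0) +
      ((if v ≠ u ∧ ¬ G.Adj u v then claA c h u v else 0) +
        (if u ≠ v ∧ ¬ G.Adj v u then claA c h v u else 0)) := by
  by_cases huv : u = v
  · subst huv
    simp [route]
  by_cases hadj : G.Adj u v
  · have h2 : G.Adj v u := hadj.symm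
    have h3 : ∀ w, route G u v w = {s(u, v)} := fun w => by
      unfold route
      rw [if_neg huv, if_pos hadj]
    simp only [h3, Finset.sum_singleton, hadj, h2, if_true, not_true_eq_false, and_false,
      if_false, add_zero]
    rw [← Finset.sum_mul, ← Finset.mul_sum, c.sum_ρ hη hV, mul_one]
  · have h2 : ¬ G.Adj v u := fun h => hadj h.symm
    have h3 : ∀ w, ∑ f ∈ route G u v w, h f = h s(u, w) + h s(v, w) := fun w => by
      unfold route
      rw [if_neg huv, if_neg hadj, Finset.sum_pair]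
      · rw [Sym2.eq_swap (a := w) (b := v)]
      · intro h
        rw [Sym2.eq_iff] at h
        rcases h with ⟨h, h'⟩ | ⟨h, -⟩
        · exact huv (h.trans h')
        · exact huv h
    rw [if_neg hadj, if_pos ⟨Ne.symm huv, hadj⟩, if_pos ⟨huv, h2⟩, zero_add]
    unfold claA
    rw [Finset.mul_sum, Finset.mul_sum, ← Finset.sum_add_distrib]
    refine Finset.sum_congr rfl fun w _ => ?_
    rw [h3, c.ρ_comm v u w]
    ring

/-- **Expected use of the edges.**

Proof.  `u = v` contributes `0`.  Adjacent `(u,v)`: `∑_w ρ = 1`, so they contribute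
`∑_{(u,v), Adj} x u x v / K² · h s(u,v)`.  Non-adjacent `u ≠ v`: if `x u = 0` or `x v = 0` the
contribution is `0`, otherwise it is
`x u x v / K² · (1/|R|) ∑_{w ∈ R u v} (h s(u,w) + h s(w,v))` (note `s(u,w) ≠ s(w,v)`).  By the
symmetry in `(u,v)` the non-adjacent pairs contribute
`(2/K²) ∑_{u} ∑_{v ≠ u, ¬ Adj u v} ∑_{w ∈ R u v} x u x v / |R u v| · h s(u,w)
= (2/K²) ∑_{(u,w)} half u w · h s(u,w)` where `half u w = 0` unless `Adj u w` (`R_adj`).
On the right side use `∑_{e ∈ ed G} g e = (1/2) ∑_{(u,w), Adj u w} g s(u,w)` (every edge is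
counted twice; e.g. via `Sym2`-fibres), which gives
`(1/K²) ∑_{(u,w), Adj} (x u x w + half u w + half w u) h s(u,w)
= (1/K²) ∑_{(u,w), Adj} (x u x w + 2 half u w) h s(u,w)`.  The two sides agree. -/
theorem expect_route (c : Cloud G C κ η) (hK : 0 < c.K) (hη : 0 < η)
    (hV : 0 < Fintype.card V) (h : Sym2 V → ℝ) :
    ∑ u, ∑ v, ∑ w, c.p u * c.p v * c.ρ u v w * ∑ f ∈ route G u v w, h f =
      ∑ e ∈ ed G, (2 * c.load e / c.K ^ 2) * h e := by
  classical
  have hK' : c.K ≠ 0 := hK.ne'
  -- the left side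
  have hL : ∑ u, ∑ v, ∑ w, c.p u * c.p v * c.ρ u v w * ∑ f ∈ route G u v w, h f =
      1 / c.K ^ 2 * (∑ u, ∑ v, (if G.Adj u v then c.x u * c.x v * h s(u, v) else 0) +
        2 * ∑ u, ∑ w, c.half u w * h s(u, w)) := by
    simp only [cla_cell c hη hV h, Finset.sum_add_distrib]
    have h1 : ∑ u, ∑ v, (if v ≠ u ∧ ¬ G.Adj u v then claA c h u v else 0) =
        1 / c.K ^ 2 * ∑ u, ∑ w, c.half u w * h s(u, w) := by
      simp only [cla_row c h]
      rw [Finset.mul_sum]
    have h2 : ∑ u, ∑ v, (if u ≠ v ∧ ¬ G.Adj v u then claA c h v u else 0) =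
        1 / c.K ^ 2 * ∑ u, ∑ w, c.half u w * h s(u, w) := by
      rw [Finset.sum_comm]
      exact h1
    have h3 : ∑ u, ∑ v, (if G.Adj u v then c.p u * c.p v * h s(u, v) else 0) =
        1 / c.K ^ 2 * ∑ u, ∑ v, (if G.Adj u v then c.x u * c.x v * h s(u, v) else 0) := by
      rw [Finset.mul_sum]
      refine Finset.sum_congr rfl fun u _ => ?_
      rw [Finset.mul_sum]
      refine Finset.sum_congr rfl fun v _ => ?_
      unfold Cloud.p
      split_ifs
      · field_simp
      · simp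
    rw [h1, h2, h3]
    ring
  -- the right side
  have hR : ∑ e ∈ ed G, (2 * c.load e / c.K ^ 2) * h e =
      1 / c.K ^ 2 * (∑ u, ∑ v, (if G.Adj u v then c.x u * c.x v * h s(u, v) else 0) +
        (∑ u, ∑ w, c.half u w * h s(u, w) + ∑ u, ∑ w, c.half w u * h s(u, w))) := by
    rw [cla_sum_ed, ← Finset.sum_add_distrib, ← Finset.sum_add_distrib, Finset.mul_sum,
      Finset.mul_sum]
    refine Finset.sum_congr rfl fun u _ => ?_
    rw [← Finset.sum_add_distrib, ← Finset.sum_add_distrib, Finset.mul_sum, Finset.mul_sum]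
    refine Finset.sum_congr rfl fun v _ => ?_
    by_cases hadj : G.Adj u v
    · rw [if_pos hadj, if_pos hadj, Cloud.load_mk]
      unfold Cloud.load2
      field_simp
      ring
    · rw [if_neg hadj, if_neg hadj, cla_half_adj c u v hadj,
        cla_half_adj c v u fun h => hadj h.symm]
      ring
  have hS : ∑ u, ∑ w, c.half w u * h s(u, w) = ∑ u, ∑ w, c.half u w * h s(u, w) := by
    rw [Finset.sum_comm]
    refine Finset.sum_congr rfl fun u _ => Finset.sum_congr rfl fun w _ => ?_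
    rw [Sym2.eq_swap]
  rw [hL, hR, hS]
  ring

end Pool.Agent.ALB
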