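import Mathlib

/-! # ALB module MARG: marginals of product weights -/

set_option autoImplicit false

namespace Pool.Agent.ALB

/-- Marginal of a product of probability weights on the coordinates in the image of an injection
`emb : κ → ι`.
Proof.  Split the functions `ι → V` into the functions on `Set.range emb` and on the complement
(`Equiv.piEquivPiSubtypeProd (· ∈ Set.range emb)`), the product over `ι` splits accordingly
(`Finset.prod_subtype_mul_prod_subtype` / `Fintype.prod_subtype_mul_prod_subtype`), the sum over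
the complement is `∏ ∑ = 1` (`Finset.prod_univ_sum`, backwards), and functions on the range are
functions on `κ` (`Equiv.ofInjective`, `Equiv.arrowCongr`).  Alternatively: expand
`F (ω ∘ emb) = ∑ t, if ω ∘ emb = t then F t else 0`, and for fixed `t` write the indicator as a
product over `κ`, hence the whole summand as a product over `ι`, and use
`Finset.prod_univ_sum`. -/
theorem marg {ι κ V : Type} [Fintype ι] [Fintype κ] [Fintype V] [DecidableEq ι] [DecidableEq κ]
    (emb : κ → ι) (hemb : Function.Injective emb) (r : ι → V → ℝ) (hr : ∀ i, ∑ v, r i v = 1)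
    (F : (κ → V) → ℝ) :
    ∑ ω : ι → V, (∏ i, r i (ω i)) * F (ω ∘ emb) =
      ∑ t : κ → V, (∏ l, r (emb l) (t l)) * F t := by
  classical
  have key : ∀ t : κ → V, ∑ ω : ι → V, (∏ i, r i (ω i)) * (if ω ∘ emb = t then 1 else 0) =
      ∏ l, r (emb l) (t l) := by
    intro t
    have h1 : ∀ ω : ι → V, (∏ i, r i (ω i)) * (if ω ∘ emb = t then (1 : ℝ) else 0) =
        ∏ i, (r i (ω i) * ∏ l ∈ Finset.univ.filter (fun l => emb l = i),
          (if ω i = t l then (1 : ℝ) else 0)) := by
      intro ω
      rw [Finset.prod_mul_distrib]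
      congr 1
      have h2 : ∀ i, ∏ l ∈ Finset.univ.filter (fun l => emb l = i),
          (if ω i = t l then (1 : ℝ) else 0) =
          ∏ l ∈ Finset.univ.filter (fun l => emb l = i),
          (if ω (emb l) = t l then (1 : ℝ) else 0) := by
        intro i
        refine Finset.prod_congr rfl ?_
        intro l hl
        rw [(Finset.mem_filter.1 hl).2]
      rw [Finset.prod_congr rfl (fun i _ => h2 i),
        Finset.prod_fiberwise Finset.univ emb (fun l => if ω (emb l) = t l then (1 : ℝ) else 0)]
      by_cases h : ω ∘ emb = t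
      · rw [if_pos h]
        symm
        refine Finset.prod_eq_one ?_
        intro l _
        exact if_pos (congrFun h l)
      · rw [if_neg h]
        have h3 : ∃ l, ω (emb l) ≠ t l := by
          by_contra hc
          push Not at hc
          exact h (funext hc)
        obtain ⟨l, hl⟩ := h3
        symm
        exact Finset.prod_eq_zero (Finset.mem_univ l) (if_neg hl)
    rw [Finset.sum_congr rfl (fun ω _ => h1 ω)]
    have h4 := Finset.prod_univ_sum (fun _ : ι => (Finset.univ : Finset V))
      (fun i v => r i v * ∏ l ∈ Finset.univ.filter (fun l => emb l = i),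
          (if v = t l then (1 : ℝ) else 0))
    rw [Fintype.piFinset_univ] at h4
    rw [← h4]
    rw [← Finset.prod_fiberwise Finset.univ emb (fun l => r (emb l) (t l))]
    refine Finset.prod_congr rfl ?_
    intro i _
    by_cases hi : ∃ l, emb l = i
    · obtain ⟨l, rfl⟩ := hi
      have h5 : Finset.univ.filter (fun l' => emb l' = emb l) = {l} := by
        ext l'
        simp only [Finset.mem_filter, Finset.mem_univ, true_and, Finset.mem_singleton]
        exact ⟨fun h => hemb h, fun h => by rw [h]⟩
      rw [h5, Finset.prod_singleton]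
      simp only [Finset.prod_singleton, mul_ite, mul_one, mul_zero, Finset.sum_ite_eq',
        Finset.mem_univ, if_true]
    · have h5 : Finset.univ.filter (fun l' => emb l' = i) = ∅ := by
        ext l'
        simp only [Finset.mem_filter, Finset.mem_univ, true_and, Finset.notMem_empty, iff_false]
        exact fun h => hi ⟨l', h⟩
      rw [h5, Finset.prod_empty]
      simp only [Finset.prod_empty, mul_one]
      exact hr i
  have h6 : ∀ ω : ι → V, (∏ i, r i (ω i)) * F (ω ∘ emb) =
      ∑ t : κ → V, ((∏ i, r i (ω i)) * (if ω ∘ emb = t then 1 else 0)) * F t := by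
    intro ω
    rw [Finset.sum_eq_single (ω ∘ emb)]
    · rw [if_pos rfl, mul_one]
    · intro t _ ht
      rw [if_neg (fun h => ht h.symm), mul_zero, zero_mul]
    · intro h
      exact absurd (Finset.mem_univ _) h
  rw [Finset.sum_congr rfl (fun ω _ => h6 ω), Finset.sum_comm]
  refine Finset.sum_congr rfl ?_
  intro t _
  rw [← Finset.sum_mul, key t]

/-- Two coordinates.  Proof: `marg` with `κ = Bool` (or `Fin 2`), `emb = ![i, j]`, and
`Fin 2 → V ≃ V × V` (`finTwoArrowEquiv`, `Fin.prod_univ_two`). -/
theorem marg2 {ι V : Type} [Fintype ι] [Fintype V] [DecidableEq ι] {i j : ι} (hij : i ≠ j)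
    (r : ι → V → ℝ) (hr : ∀ i, ∑ v, r i v = 1) (F : V → V → ℝ) :
    ∑ ω : ι → V, (∏ i, r i (ω i)) * F (ω i) (ω j) =
      ∑ v, ∑ w, r i v * r j w * F v w := by
  have hinj : Function.Injective (![i, j] : Fin 2 → ι) := by
    intro a b hab
    fin_cases a <;> fin_cases b <;>
      first
        | rfl
        | exact absurd hab hij
        | exact absurd hab.symm hij
  have h := marg (![i, j] : Fin 2 → ι) hinj r hr (fun t => F (t 0) (t 1))
  refine Eq.trans h ?_
  rw [← (Fin.consEquiv (fun _ : Fin 2 => V)).sum_comp, Fintype.sum_prod_type]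
  refine Finset.sum_congr rfl ?_
  intro v _
  rw [← (Fin.consEquiv (fun _ : Fin 1 => V)).sum_comp, Fintype.sum_prod_type]
  refine Finset.sum_congr rfl ?_
  intro w _
  rw [Fintype.sum_unique, Fin.prod_univ_two]
  rfl

/-- Three coordinates. -/
theorem marg3 {ι V : Type} [Fintype ι] [Fintype V] [DecidableEq ι] {i j k : ι} (hij : i ≠ j)
    (hik : i ≠ k) (hjk : j ≠ k)
    (r : ι → V → ℝ) (hr : ∀ i, ∑ v, r i v = 1) (F : V → V → V → ℝ) :
    ∑ ω : ι → V, (∏ i, r i (ω i)) * F (ω i) (ω j) (ω k) =
      ∑ u, ∑ v, ∑ w, r i u * r j v * r k w * F u v w := by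
  have hinj : Function.Injective (![i, j, k] : Fin 3 → ι) := by
    intro a b hab
    fin_cases a <;> fin_cases b <;>
      first
        | rfl
        | exact absurd hab hij
        | exact absurd hab.symm hij
        | exact absurd hab hik
        | exact absurd hab.symm hik
        | exact absurd hab hjk
        | exact absurd hab.symm hjk
  have h := marg (![i, j, k] : Fin 3 → ι) hinj r hr (fun t => F (t 0) (t 1) (t 2))
  refine Eq.trans h ?_
  rw [← (Fin.consEquiv (fun _ : Fin 3 => V)).sum_comp, Fintype.sum_prod_type]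
  refine Finset.sum_congr rfl ?_
  intro u _
  rw [← (Fin.consEquiv (fun _ : Fin 2 => V)).sum_comp, Fintype.sum_prod_type]
  refine Finset.sum_congr rfl ?_
  intro v _
  rw [← (Fin.consEquiv (fun _ : Fin 1 => V)).sum_comp, Fintype.sum_prod_type]
  refine Finset.sum_congr rfl ?_
  intro w _
  rw [Fintype.sum_unique, Fin.prod_univ_three]
  rfl

/-- Four coordinates. -/
theorem marg4 {ι V : Type} [Fintype ι] [Fintype V] [DecidableEq ι] {i j k l : ι} (hij : i ≠ j)
    (hik : i ≠ k) (hil : i ≠ l) (hjk : j ≠ k) (hjl : j ≠ l) (hkl : k ≠ l)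
    (r : ι → V → ℝ) (hr : ∀ i, ∑ v, r i v = 1) (F : V → V → V → V → ℝ) :
    ∑ ω : ι → V, (∏ i, r i (ω i)) * F (ω i) (ω j) (ω k) (ω l) =
      ∑ t, ∑ u, ∑ v, ∑ w, r i t * r j u * r k v * r l w * F t u v w := by
  have hinj : Function.Injective (![i, j, k, l] : Fin 4 → ι) := by
    intro a b hab
    fin_cases a <;> fin_cases b <;>
      first
        | rfl
        | exact absurd hab hij
        | exact absurd hab.symm hij
        | exact absurd hab hik
        | exact absurd hab.symm hik
        | exact absurd hab hil
        | exact absurd hab.symm hil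
        | exact absurd hab hjk
        | exact absurd hab.symm hjk
        | exact absurd hab hjl
        | exact absurd hab.symm hjl
        | exact absurd hab hkl
        | exact absurd hab.symm hkl
  have h := marg (![i, j, k, l] : Fin 4 → ι) hinj r hr (fun t => F (t 0) (t 1) (t 2) (t 3))
  refine Eq.trans h ?_
  rw [← (Fin.consEquiv (fun _ : Fin 4 => V)).sum_comp, Fintype.sum_prod_type]
  refine Finset.sum_congr rfl ?_
  intro t _
  rw [← (Fin.consEquiv (fun _ : Fin 3 => V)).sum_comp, Fintype.sum_prod_type]
  refine Finset.sum_congr rfl ?_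
  intro u _
  rw [← (Fin.consEquiv (fun _ : Fin 2 => V)).sum_comp, Fintype.sum_prod_type]
  refine Finset.sum_congr rfl ?_
  intro v _
  rw [← (Fin.consEquiv (fun _ : Fin 1 => V)).sum_comp, Fintype.sum_prod_type]
  refine Finset.sum_congr rfl ?_
  intro w _
  rw [Fintype.sum_unique, Fin.prod_univ_four]
  rfl

/-- One coordinate. -/
theorem marg1 {ι V : Type} [Fintype ι] [Fintype V] [DecidableEq ι] (i : ι)
    (r : ι → V → ℝ) (hr : ∀ i, ∑ v, r i v = 1) (F : V → ℝ) :
    ∑ ω : ι → V, (∏ i, r i (ω i)) * F (ω i) = ∑ v, r i v * F v := by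
  have hinj : Function.Injective (![i] : Fin 1 → ι) := by
    intro a b _
    exact Subsingleton.elim a b
  have h := marg (![i] : Fin 1 → ι) hinj r hr (fun t => F (t 0))
  refine Eq.trans h ?_
  rw [← (Fin.consEquiv (fun _ : Fin 1 => V)).sum_comp, Fintype.sum_prod_type]
  refine Finset.sum_congr rfl ?_
  intro w _
  rw [Fintype.sum_unique, Fin.prod_univ_one]
  rfl

end Pool.Agent.ALB
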