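import Pool.Agent.ALB.ClA
import Pool.Agent.ALB.Marg

/-! # ALB module CLB: disjoint index pairs -/

set_option autoImplicit false

namespace Pool.Agent.ALB

open Finset

variable {V : Type} [Fintype V] {G : SimpleGraph V} {C κ η : ℝ}

/-- For two disjoint index pairs the expected number of crossings between the two routes.

Proof.  For fixed `τ` sum over `ω` with `marg2` (the two different coordinates `e, e'`, weights
`c.ρ (τ e.1) (τ e.2)`; `Cloud.sum_ρ`), then over `τ` with `marg4` (coordinates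
`e.1, e.2, e'.1, e'.2`).  The result is
`∑_{u,v,u',v'} p p p p ∑_{w,w'} ρ u v w ρ u' v' w' ∑_{f ∈ route u v w} ∑_{f' ∈ route u' v' w'}
N f f'`; use `expect_route` for `(u',v',w')` with `h f' = N f f'` and then for `(u,v,w)`. -/
theorem expect_disj (D : Drw G) (c : Cloud G C κ η) (hK : 0 < c.K) (hη : 0 < η)
    (hV : 0 < Fintype.card V) {a : ℕ} {e e' : Fin a × Fin a} (h1 : e.1 ≠ e.2)
    (h2 : e'.1 ≠ e'.2) (h3 : e.1 ≠ e'.1) (h4 : e.1 ≠ e'.2) (h5 : e.2 ≠ e'.1)
    (h6 : e.2 ≠ e'.2) :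
    ∑ τ : Fin a → V, ∑ ω : Fin a × Fin a → V, c.wt τ ω * crs D τ ω e e' =
      4 / c.K ^ 4 * ∑ f ∈ ed G, ∑ f' ∈ ed G, c.load f * c.load f' * (D.N f f' : ℝ) := by
  classical
  have hee : e ≠ e' := fun h => h3 (by rw [h])
  -- the sum over the middle vertices
  have s1 : ∀ τ : Fin a → V, ∑ ω : Fin a × Fin a → V, c.wt τ ω * crs D τ ω e e' =
      (∏ i, c.p (τ i)) * ∑ w, ∑ w', c.ρ (τ e.1) (τ e.2) w * c.ρ (τ e'.1) (τ e'.2) w' *
        ∑ f ∈ route G (τ e.1) (τ e.2) w, ∑ f' ∈ route G (τ e'.1) (τ e'.2) w', (D.N f f' : ℝ) := by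
    intro τ
    rw [← marg2 hee (fun e : Fin a × Fin a => c.ρ (τ e.1) (τ e.2))
      (fun e => c.sum_ρ hη hV (τ e.1) (τ e.2)) (fun w w' =>
        ∑ f ∈ route G (τ e.1) (τ e.2) w, ∑ f' ∈ route G (τ e'.1) (τ e'.2) w', (D.N f f' : ℝ)),
      Finset.mul_sum]
    refine Finset.sum_congr rfl fun ω _ => ?_
    unfold Cloud.wt crs
    ring
  rw [Finset.sum_congr rfl (fun τ _ => s1 τ)]
  -- the sum over the terminals
  rw [marg4 h1 h3 h4 h5 h6 h2 (fun _ : Fin a => c.p) (fun _ => c.sum_p hK)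
    (fun t u v z => ∑ w, ∑ w', c.ρ t u w * c.ρ v z w' *
      ∑ f ∈ route G t u w, ∑ f' ∈ route G v z w', (D.N f f' : ℝ))]
  -- the two routes separately
  have s2 : ∀ f : Sym2 V, ∑ v, ∑ z, ∑ w', c.p v * c.p z * c.ρ v z w' *
      ∑ f' ∈ route G v z w', (D.N f f' : ℝ) =
      ∑ f' ∈ ed G, (2 * c.load f' / c.K ^ 2) * (D.N f f' : ℝ) := fun f =>
    expect_route c hK hη hV fun f' => (D.N f f' : ℝ)
  have s3 := expect_route c hK hη hV fun f =>
    ∑ f' ∈ ed G, (2 * c.load f' / c.K ^ 2) * (D.N f f' : ℝ)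
  have s4 : ∀ t u : V, ∑ v, ∑ z, c.p t * c.p u * c.p v * c.p z *
      (∑ w, ∑ w', c.ρ t u w * c.ρ v z w' *
        ∑ f ∈ route G t u w, ∑ f' ∈ route G v z w', (D.N f f' : ℝ)) =
      ∑ w, c.p t * c.p u * c.ρ t u w * ∑ f ∈ route G t u w,
        ∑ f' ∈ ed G, (2 * c.load f' / c.K ^ 2) * (D.N f f' : ℝ) := by
    intro t u
    have e1 : ∀ w, ∑ f ∈ route G t u w,
        ∑ f' ∈ ed G, (2 * c.load f' / c.K ^ 2) * (D.N f f' : ℝ) =
        ∑ v, ∑ z, ∑ w', c.p v * c.p z * c.ρ v z w' *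
          ∑ f ∈ route G t u w, ∑ f' ∈ route G v z w', (D.N f f' : ℝ) := by
      intro w
      rw [Finset.sum_congr rfl (fun f _ => (s2 f).symm), Finset.sum_comm]
      refine Finset.sum_congr rfl fun v _ => ?_
      rw [Finset.sum_comm]
      refine Finset.sum_congr rfl fun z _ => ?_
      rw [Finset.sum_comm]
      refine Finset.sum_congr rfl fun w' _ => ?_
      rw [Finset.mul_sum]
    simp only [e1, Finset.mul_sum]
    -- both sides are sums over `v, z, w, w', f, f'`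
    rw [Finset.sum_comm (s := (univ : Finset V)) (t := (univ : Finset V))
      (f := fun w v => ∑ z, ∑ w', ∑ f ∈ route G t u w, ∑ f' ∈ route G v z w',
        c.p t * c.p u * c.ρ t u w * (c.p v * c.p z * c.ρ v z w' * (D.N f f' : ℝ)))]
    refine Finset.sum_congr rfl fun v _ => ?_
    rw [Finset.sum_comm (s := (univ : Finset V)) (t := (univ : Finset V))
      (f := fun w z => ∑ w', ∑ f ∈ route G t u w, ∑ f' ∈ route G v z w',
        c.p t * c.p u * c.ρ t u w * (c.p v * c.p z * c.ρ v z w' * (D.N f f' : ℝ)))]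
    refine Finset.sum_congr rfl fun z _ => Finset.sum_congr rfl fun w _ =>
      Finset.sum_congr rfl fun w' _ => Finset.sum_congr rfl fun f _ =>
      Finset.sum_congr rfl fun f' _ => ?_
    ring
  rw [Finset.sum_congr rfl fun t _ => Finset.sum_congr rfl fun u _ => s4 t u, s3,
    Finset.mul_sum]
  refine Finset.sum_congr rfl fun f _ => ?_
  rw [Finset.mul_sum, Finset.mul_sum]
  refine Finset.sum_congr rfl fun f' _ => ?_
  field_simp
  ring

end Pool.Agent.ALB
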