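import Pool.Agent.ALB.ClZ
import Pool.Agent.ALB.Marg

/-! # ALB module CLC: index pairs with a common index -/

set_option autoImplicit false

namespace Pool.Agent.ALB

open Finset

variable {V : Type} [Fintype V] {G : SimpleGraph V} {C κ η : ℝ}

/-- the constant of `expect_adj` -/
noncomputable def B0 (C κ η : ℝ) : ℝ :=
  4 * (C / κ) * (C / κ + 1 / η) * (2 * C / (κ * η)) + (2 * C / (κ * η)) ^ 2

open Classical in
/-- probability to use the edge `f`, given one terminal `t` -/
noncomputable def Cloud.use (c : Cloud G C κ η) (t : V) (f : Sym2 V) : ℝ :=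
  ∑ b, ∑ w, c.p b * c.ρ t b w * (if f ∈ route G t b w then 1 else 0)

private lemma cc_p_le (c : Cloud G C κ η) (hC : 0 < C) (hκ : 0 < κ)
    (hV : 0 < Fintype.card V) (v : V) : c.p v ≤ C / (κ * (Fintype.card V : ℝ)) := by
  have hn : (0 : ℝ) < Fintype.card V := by exact_mod_cast hV
  have hK : κ * (Fintype.card V : ℝ) ≤ c.K := c.K_ge
  unfold Cloud.p
  exact div_le_div₀ hC.le (c.x_le v) (mul_pos hκ hn) hK

private lemma cc_x_ne {c : Cloud G C κ η} {t : V} (ht : c.p t ≠ 0) : c.x t ≠ 0 := by
  intro h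
  apply ht
  unfold Cloud.p
  rw [h, zero_div]

/-- the distribution of the middle vertex is small -/
private lemma cc_ρ_le (c : Cloud G C κ η) (hη : 0 < η) (hV : 0 < Fintype.card V) {t b : V}
    (h : c.two t b) (w : V) : c.ρ t b w ≤ 1 / (η * (Fintype.card V : ℝ)) := by
  classical
  have hn : (0 : ℝ) < Fintype.card V := by exact_mod_cast hV
  unfold Cloud.ρ
  rw [if_pos h]
  split_ifs with hw
  · exact one_div_le_one_div_of_le (mul_pos hη hn) (c.R_card t b h.1 h.2.1 h.2.2.1 h.2.2.2)
  · positivity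

private lemma cc_ρ_self (c : Cloud G C κ η) {t b : V} (h : c.two t b) : c.ρ t b t = 0 := by
  classical
  unfold Cloud.ρ
  rw [if_pos h, if_neg]
  intro hw
  exact G.irrefl (c.R_adj t b t hw).1

private lemma cc_use_nonneg (c : Cloud G C κ η) (t : V) (f : Sym2 V) : 0 ≤ c.use t f := by
  classical
  unfold Cloud.use
  refine sum_nonneg fun b _ => sum_nonneg fun w _ => ?_
  refine mul_nonneg (mul_nonneg (c.p_nonneg b) (c.ρ_nonneg t b w)) ?_
  split_ifs <;> norm_num

/-- Proof.  `f = s(t,y)`, `y ≠ t`.  If `f ∈ route t b w` (with `p b ≠ 0`, `ρ ≠ 0`), then `b ≠ t`,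
and either `Adj t b` and `b = y`, or `two t b`, `w ∈ R t b`, and `s(t,y) ∈ {s(t,w), s(w,b)}`,
i.e. `w = y` (`s(t,y) = s(w,b)` would give `w = t`, impossible since `Adj t w`, or `b = t`).
First kind: `∑_w p y ρ t y w = p y ≤ C / (κ n)` (`p y = x y / K`, `K ≥ κ n`).
Second kind: `∑_b p b · 1/|R t b| ≤ 1/(η n)` (`R_card`, `∑ p = 1`). -/
theorem Cloud.use_le_of_mem (c : Cloud G C κ η) (hC : 0 < C) (hκ : 0 < κ) (hη : 0 < η)
    (hV : 0 < Fintype.card V) {t : V} (ht : c.p t ≠ 0) {f : Sym2 V} (hf : f ∈ ed G)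
    (hm : t ∈ f) : c.use t f ≤ (C / κ + 1 / η) / (Fintype.card V : ℝ) := by
  classical
  have hn : (0 : ℝ) < Fintype.card V := by exact_mod_cast hV
  obtain ⟨y, rfl⟩ := Sym2.mem_iff_exists.1 hm
  have hadj : G.Adj t y := mem_ed.1 hf
  have hxt := cc_x_ne ht
  have hb : ∀ b, ∑ w, c.p b * c.ρ t b w * (if s(t, y) ∈ route G t b w then (1 : ℝ) else 0) ≤
      (if b = y then c.p y else 0) + c.p b * (1 / (η * (Fintype.card V : ℝ))) := by
    intro b
    have h0 : 0 ≤ c.p b * (1 / (η * (Fintype.card V : ℝ))) :=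
      mul_nonneg (c.p_nonneg b) (by positivity)
    have h0' : (0 : ℝ) ≤ if b = y then c.p y else 0 := by
      split_ifs
      · exact c.p_nonneg y
      · exact le_rfl
    by_cases hbt : t = b
    · have : ∀ w, c.p b * c.ρ t b w * (if s(t, y) ∈ route G t b w then (1 : ℝ) else 0) = 0 := by
        intro w
        rw [if_neg, mul_zero]
        unfold route
        rw [if_pos hbt]
        exact Finset.notMem_empty _
      rw [sum_congr rfl fun w _ => this w, sum_const_zero]
      exact add_nonneg h0' h0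
    · by_cases hA : G.Adj t b
      · have hr : ∀ w, route G t b w = {s(t, b)} := fun w => by
          unfold route; rw [if_neg hbt, if_pos hA]
        by_cases hby : b = y
        · rw [if_pos hby]
          have : ∑ w, c.p b * c.ρ t b w * (if s(t, y) ∈ route G t b w then (1 : ℝ) else 0) ≤
              ∑ w, c.p b * c.ρ t b w := by
            refine sum_le_sum fun w _ => ?_
            refine mul_le_of_le_one_right (mul_nonneg (c.p_nonneg b) (c.ρ_nonneg t b w)) ?_
            split_ifs <;> norm_num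
          rw [← mul_sum, c.sum_ρ hη hV, mul_one] at this
          rw [hby] at this ⊢
          rw [hby] at h0
          linarith
        · have : ∀ w, c.p b * c.ρ t b w * (if s(t, y) ∈ route G t b w then (1 : ℝ) else 0) = 0 := by
            intro w
            rw [if_neg, mul_zero]
            rw [hr, Finset.mem_singleton, Sym2.eq_iff]
            rintro (⟨-, h⟩ | ⟨h, -⟩)
            · exact hby h.symm
            · exact hbt h
          rw [sum_congr rfl fun w _ => this w, sum_const_zero]
          exact add_nonneg h0' h0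
      · by_cases hpb : c.p b = 0
        · rw [hpb]
          simp only [zero_mul, sum_const_zero, add_zero]
          exact h0'
        · have htwo : c.two t b := ⟨hbt, hA, hxt, cc_x_ne hpb⟩
          have hr : ∀ w, route G t b w = {s(t, w), s(w, b)} := fun w => by
            unfold route; rw [if_neg hbt, if_neg hA]
          have : ∑ w, c.p b * c.ρ t b w * (if s(t, y) ∈ route G t b w then (1 : ℝ) else 0) ≤
              c.p b * c.ρ t b y := by
            rw [← sum_erase_add _ _ (mem_univ y)]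
            have h1 : ∑ w ∈ univ.erase y, c.p b * c.ρ t b w *
                (if s(t, y) ∈ route G t b w then (1 : ℝ) else 0) = 0 := by
              refine sum_eq_zero fun w hw => ?_
              have hwy := (Finset.mem_erase.1 hw).1
              by_cases hwt : w = t
              · rw [hwt, cc_ρ_self c htwo, mul_zero, zero_mul]
              · rw [if_neg, mul_zero]
                rw [hr, Finset.mem_insert, Finset.mem_singleton, Sym2.eq_iff, Sym2.eq_iff]
                rintro ((⟨-, h⟩ | ⟨h, -⟩) | (⟨h, -⟩ | ⟨h, -⟩))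
                · exact hwy h.symm
                · exact hwt h.symm
                · exact hwt h.symm
                · exact hbt h
            rw [h1, zero_add]
            refine mul_le_of_le_one_right (mul_nonneg (c.p_nonneg b) (c.ρ_nonneg t b y)) ?_
            split_ifs <;> norm_num
          have h2 := mul_le_mul_of_nonneg_left (cc_ρ_le c hη hV htwo y) (c.p_nonneg b)
          linarith
  have hK : 0 < c.K := c.K_pos hκ hV
  unfold Cloud.use
  refine (sum_le_sum fun b _ => hb b).trans ?_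
  rw [sum_add_distrib, ← sum_mul, c.sum_p hK, one_mul, Finset.sum_ite_eq' univ y,
    if_pos (mem_univ y)]
  have h3 := cc_p_le c hC hκ hV y
  have e : (C / κ + 1 / η) / (Fintype.card V : ℝ) =
      C / (κ * (Fintype.card V : ℝ)) + 1 / (η * (Fintype.card V : ℝ)) := by
    field_simp
  rw [e]
  linarith

/-- Proof.  `f = s(y,z)`, `t ∉ f`.  If `f ∈ route t b w`, `p b ≠ 0`, `ρ ≠ 0`, then `Adj t b` is
impossible, so `two t b`, `w ∈ R t b` and `s(y,z) = s(w,b)`: `(w,b) = (y,z)` or `(z,y)`.  So
`use ≤ p z ρ t z y + p y ρ t y z ≤ 2 · (C/(κ n)) · (1/(η n))`. -/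
theorem Cloud.use_le_of_notMem (c : Cloud G C κ η) (hC : 0 < C) (hκ : 0 < κ) (hη : 0 < η)
    (hV : 0 < Fintype.card V) {t : V} (ht : c.p t ≠ 0) {f : Sym2 V} (hf : f ∈ ed G)
    (hm : t ∉ f) : c.use t f ≤ (2 * C / (κ * η)) / (Fintype.card V : ℝ) ^ 2 := by
  classical
  have hn : (0 : ℝ) < Fintype.card V := by exact_mod_cast hV
  induction f using Sym2.ind with
  | _ y z =>
  have hadj : G.Adj y z := mem_ed.1 hf
  have hyz : y ≠ z := hadj.ne
  rw [Sym2.mem_iff, not_or] at hm
  have hxt := cc_x_ne ht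
  have hb : ∀ b, ∑ w, c.p b * c.ρ t b w * (if s(y, z) ∈ route G t b w then (1 : ℝ) else 0) ≤
      (if b = y then C / (κ * (Fintype.card V : ℝ)) * (1 / (η * (Fintype.card V : ℝ))) else 0) +
      (if b = z then C / (κ * (Fintype.card V : ℝ)) * (1 / (η * (Fintype.card V : ℝ))) else 0) := by
    intro b
    have h0 : ∀ v : V, (0 : ℝ) ≤ if b = v then C / (κ * (Fintype.card V : ℝ)) *
        (1 / (η * (Fintype.card V : ℝ))) else 0 := by
      intro v
      split_ifs
      · positivity
      · exact le_rfl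
    by_cases hbt : t = b
    · have : ∀ w, c.p b * c.ρ t b w * (if s(y, z) ∈ route G t b w then (1 : ℝ) else 0) = 0 := by
        intro w
        rw [if_neg, mul_zero]
        unfold route
        rw [if_pos hbt]
        exact Finset.notMem_empty _
      rw [sum_congr rfl fun w _ => this w, sum_const_zero]
      exact add_nonneg (h0 y) (h0 z)
    · by_cases hA : G.Adj t b
      · have : ∀ w, c.p b * c.ρ t b w * (if s(y, z) ∈ route G t b w then (1 : ℝ) else 0) = 0 := by
          intro w
          rw [if_neg, mul_zero]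
          unfold route
          rw [if_neg hbt, if_pos hA, Finset.mem_singleton, Sym2.eq_iff]
          rintro (⟨h, -⟩ | ⟨-, h⟩)
          · exact hm.1 h.symm
          · exact hm.2 h.symm
        rw [sum_congr rfl fun w _ => this w, sum_const_zero]
        exact add_nonneg (h0 y) (h0 z)
      · by_cases hpb : c.p b = 0
        · rw [hpb]
          simp only [zero_mul, sum_const_zero]
          exact add_nonneg (h0 y) (h0 z)
        · have htwo : c.two t b := ⟨hbt, hA, hxt, cc_x_ne hpb⟩
          have hr : ∀ w, route G t b w = {s(t, w), s(w, b)} := fun w => by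
            unfold route; rw [if_neg hbt, if_neg hA]
          -- one middle vertex
          have hone : ∀ w0 : V, (∀ w, w ≠ w0 → ¬ s(y, z) = s(w, b)) →
              ∑ w, c.p b * c.ρ t b w * (if s(y, z) ∈ route G t b w then (1 : ℝ) else 0) ≤
                C / (κ * (Fintype.card V : ℝ)) * (1 / (η * (Fintype.card V : ℝ))) := by
            intro w0 hw0
            rw [← sum_erase_add _ _ (mem_univ w0)]
            have h1 : ∑ w ∈ univ.erase w0, c.p b * c.ρ t b w *
                (if s(y, z) ∈ route G t b w then (1 : ℝ) else 0) = 0 := by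
              refine sum_eq_zero fun w hw => ?_
              rw [if_neg, mul_zero]
              rw [hr, Finset.mem_insert, Finset.mem_singleton]
              rintro (h | h)
              · rw [Sym2.eq_iff] at h
                rcases h with ⟨h, -⟩ | ⟨-, h⟩
                · exact hm.1 h.symm
                · exact hm.2 h.symm
              · exact hw0 w (Finset.mem_erase.1 hw).1 h
            rw [h1, zero_add]
            refine le_trans (mul_le_of_le_one_right (mul_nonneg (c.p_nonneg b)
              (c.ρ_nonneg t b w0)) ?_) ?_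
            · split_ifs <;> norm_num
            · exact mul_le_mul (cc_p_le c hC hκ hV b) (cc_ρ_le c hη hV htwo w0)
                (c.ρ_nonneg t b w0) (by positivity)
          by_cases hby : b = y
          · have h1 := hone z fun w hw h => by
              rw [Sym2.eq_iff] at h
              rcases h with ⟨-, h⟩ | ⟨-, h⟩
              · exact hyz (hby.symm.trans h.symm)
              · exact hw h.symm
            have h2 := h0 z
            rw [if_pos hby]
            linarith
          · by_cases hbz : b = z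
            · have h1 := hone y fun w hw h => by
                rw [Sym2.eq_iff] at h
                rcases h with ⟨h, -⟩ | ⟨h, -⟩
                · exact hw h.symm
                · exact hby h.symm
              have h2 := h0 y
              rw [if_pos hbz]
              linarith
            · have : ∀ w, c.p b * c.ρ t b w *
                  (if s(y, z) ∈ route G t b w then (1 : ℝ) else 0) = 0 := by
                intro w
                rw [if_neg, mul_zero]
                rw [hr, Finset.mem_insert, Finset.mem_singleton, Sym2.eq_iff, Sym2.eq_iff]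
                rintro ((⟨h, -⟩ | ⟨-, h⟩) | (⟨-, h⟩ | ⟨h, -⟩))
                · exact hm.1 h.symm
                · exact hm.2 h.symm
                · exact hbz h.symm
                · exact hby h.symm
              rw [sum_congr rfl fun w _ => this w, sum_const_zero]
              exact add_nonneg (h0 y) (h0 z)
  unfold Cloud.use
  refine (sum_le_sum fun b _ => hb b).trans ?_
  rw [sum_add_distrib, Finset.sum_ite_eq' univ y, Finset.sum_ite_eq' univ z,
    if_pos (mem_univ y), if_pos (mem_univ z)]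
  refine le_of_eq ?_
  field_simp
  ring

/-- Sums over routes in terms of `use`. -/
private lemma cc_sum_route (c : Cloud G C κ η) {t : V} (ht : c.p t ≠ 0) (g : Sym2 V → ℝ) :
    ∑ b, ∑ w, c.p b * c.ρ t b w * ∑ f ∈ route G t b w, g f = ∑ f ∈ ed G, c.use t f * g f := by
  classical
  have h1 : ∀ b w, c.p b * c.ρ t b w * ∑ f ∈ route G t b w, g f =
      ∑ f ∈ ed G, c.p b * c.ρ t b w * (if f ∈ route G t b w then (1 : ℝ) else 0) * g f := by
    intro b w
    by_cases hb : c.p b = 0
    · simp [hb]
    by_cases hw : c.ρ t b w = 0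
    · simp [hw]
    have hsub : route G t b w ⊆ ed G := fun f hf => mem_ed.2 (c.route_sub ht hb hw f hf)
    rw [mul_sum, ← Finset.sum_subset hsub]
    · refine sum_congr rfl fun f hf => ?_
      rw [if_pos hf, mul_one]
    · intro f _ hf
      rw [if_neg hf, mul_zero, zero_mul]
  rw [sum_congr rfl fun b _ => sum_congr rfl fun w _ => h1 b w]
  have h2 : ∀ f, c.use t f * g f = ∑ b, ∑ w, c.p b * c.ρ t b w *
      (if f ∈ route G t b w then (1 : ℝ) else 0) * g f := by
    intro f
    unfold Cloud.use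
    rw [sum_mul]
    exact sum_congr rfl fun b _ => by rw [sum_mul]
  rw [sum_congr rfl fun f _ => h2 f, sum_comm (s := ed G)]
  exact sum_congr rfl fun b _ => sum_comm

/-- the conditional expectation of the number of crossings, given the terminals -/
private noncomputable def ccH (D : Drw G) (c : Cloud G C κ η) (t b t' b' : V) : ℝ :=
  ∑ v, ∑ w, c.ρ t b v * c.ρ t' b' w * ∑ f ∈ route G t b v, ∑ f' ∈ route G t' b' w, (D.N f f' : ℝ)

private lemma ccH_left (D : Drw G) (c : Cloud G C κ η) (t b t' b' : V) :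
    ccH D c t b t' b' = ccH D c b t t' b' := by
  unfold ccH
  refine sum_congr rfl fun v _ => sum_congr rfl fun w _ => ?_
  rw [c.ρ_comm t b v, route_comm t b v]

private lemma ccH_right (D : Drw G) (c : Cloud G C κ η) (t b t' b' : V) :
    ccH D c t b t' b' = ccH D c t b b' t' := by
  unfold ccH
  refine sum_congr rfl fun v _ => sum_congr rfl fun w _ => ?_
  rw [c.ρ_comm t' b' w, route_comm t' b' w]

/-- three different indices -/
private lemma cc_idx (D : Drw G) (c : Cloud G C κ η) {a : ℕ} {e e' : Fin a × Fin a}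
    (he : e ∈ prs a) (he' : e' ∈ prs a) (hne : e ≠ e')
    (hs : e.1 = e'.1 ∨ e.1 = e'.2 ∨ e.2 = e'.1 ∨ e.2 = e'.2) :
    ∃ i j k : Fin a, i ≠ j ∧ i ≠ k ∧ j ≠ k ∧ ∀ τ : Fin a → V,
      ccH D c (τ e.1) (τ e.2) (τ e'.1) (τ e'.2) = ccH D c (τ i) (τ j) (τ i) (τ k) := by
  have h1 : e.1 < e.2 := by simpa [prs] using he
  have h2 : e'.1 < e'.2 := by simpa [prs] using he'
  rcases hs with h | h | h | h
  · refine ⟨e.1, e.2, e'.2, h1.ne, h ▸ h2.ne, fun h3 => hne (Prod.ext h h3), fun τ => ?_⟩
    rw [← h]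
  · refine ⟨e.1, e.2, e'.1, h1.ne, ?_, ?_, fun τ => ?_⟩
    · rw [h]; exact h2.ne'
    · exact ((h2.trans_eq h.symm).trans h1).ne'
    · rw [ccH_right, ← h]
  · refine ⟨e.2, e.1, e'.2, h1.ne', ?_, ?_, fun τ => ?_⟩
    · rw [h]; exact h2.ne
    · exact ((h1.trans_eq h).trans h2).ne
    · rw [ccH_left, ← h]
  · refine ⟨e.2, e.1, e'.1, h1.ne', ?_, fun h3 => hne (Prod.ext h3 h), fun τ => ?_⟩
    · rw [h]; exact h2.ne'
    · rw [ccH_left, ccH_right, ← h]

/-- the sum over configurations -/
private lemma cc_expect (D : Drw G) (c : Cloud G C κ η) (hκ : 0 < κ) (hη : 0 < η)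
    (hV : 0 < Fintype.card V) {a : ℕ} {e e' : Fin a × Fin a} (he : e ∈ prs a)
    (he' : e' ∈ prs a) (hne : e ≠ e')
    (hs : e.1 = e'.1 ∨ e.1 = e'.2 ∨ e.2 = e'.1 ∨ e.2 = e'.2) :
    ∑ τ : Fin a → V, ∑ ω : Fin a × Fin a → V, c.wt τ ω * crs D τ ω e e' =
      ∑ u, ∑ v, ∑ w, c.p u * c.p v * c.p w * ccH D c u v u w := by
  classical
  obtain ⟨i, j, k, hij, hik, hjk, hH⟩ := cc_idx D c he he' hne hs
  rw [← marg3 hij hik hjk (fun _ => c.p) (fun _ => c.sum_p (c.K_pos hκ hV))
    (fun u v w => ccH D c u v u w)]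
  refine sum_congr rfl fun τ _ => ?_
  rw [← hH τ]
  have h1 := marg2 hne (fun e'' : Fin a × Fin a => c.ρ (τ e''.1) (τ e''.2))
    (fun e'' => c.sum_ρ hη hV _ _) (fun v w => ∑ f ∈ route G (τ e.1) (τ e.2) v,
      ∑ f' ∈ route G (τ e'.1) (τ e'.2) w, (D.N f f' : ℝ))
  unfold ccH
  rw [← h1, mul_sum]
  refine sum_congr rfl fun ω _ => ?_
  unfold Cloud.wt crs
  ring

private lemma cc_swap {γ : Type} (r : Finset γ) (q : V → V → ℝ) (S : γ → V → V → ℝ) :
    ∑ f ∈ r, ∑ w, ∑ w2, q w w2 * S f w w2 = ∑ w, ∑ w2, q w w2 * ∑ f ∈ r, S f w w2 := by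
  rw [sum_comm]
  refine sum_congr rfl fun w _ => ?_
  rw [sum_comm]
  refine sum_congr rfl fun w2 _ => ?_
  rw [mul_sum]

private lemma cc_use_sum (D : Drw G) (c : Cloud G C κ η) (u : V) :
    ∑ v, ∑ w, c.p u * c.p v * c.p w * ccH D c u v u w =
      c.p u * ∑ f ∈ ed G, c.use u f * ∑ f' ∈ ed G, c.use u f' * (D.N f f' : ℝ) := by
  classical
  by_cases hu : c.p u = 0
  · simp [hu]
  have h1 : ∑ f ∈ ed G, c.use u f * ∑ f' ∈ ed G, c.use u f' * (D.N f f' : ℝ) =
      ∑ v, ∑ w1, c.p v * c.ρ u v w1 * ∑ f ∈ route G u v w1,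
        ∑ w, ∑ w2, c.p w * c.ρ u w w2 * ∑ f' ∈ route G u w w2, (D.N f f' : ℝ) := by
    rw [← cc_sum_route c hu]
    refine sum_congr rfl fun v _ => sum_congr rfl fun w1 _ => ?_
    congr 1
    refine sum_congr rfl fun f _ => ?_
    rw [← cc_sum_route c hu]
  rw [h1, mul_sum]
  refine sum_congr rfl fun v _ => ?_
  rw [mul_sum]
  unfold ccH
  have h2 : ∀ w, c.p u * c.p v * c.p w * ∑ w1, ∑ w2, c.ρ u v w1 * c.ρ u w w2 *
      ∑ f ∈ route G u v w1, ∑ f' ∈ route G u w w2, (D.N f f' : ℝ) =
      ∑ w1, c.p u * c.p v * c.p w * ∑ w2, c.ρ u v w1 * c.ρ u w w2 *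
      ∑ f ∈ route G u v w1, ∑ f' ∈ route G u w w2, (D.N f f' : ℝ) := fun w => by rw [mul_sum]
  rw [sum_congr rfl fun w _ => h2 w, sum_comm]
  refine sum_congr rfl fun w1 _ => ?_
  rw [cc_swap, mul_sum, mul_sum]
  refine sum_congr rfl fun w _ => ?_
  rw [mul_sum, mul_sum, mul_sum]
  refine sum_congr rfl fun w2 _ => ?_
  ring

/-- crossing edges are disjoint -/
private lemma cc_disj (D : Drw G) (hD : D.NoAdj) {f f' : Sym2 V} (hf : f ∈ ed G)
    (hf' : f' ∈ ed G) (hN : D.N f f' ≠ 0) {t : V} (ht : t ∈ f) : t ∉ f' := by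
  intro ht'
  obtain ⟨y, rfl⟩ := Sym2.mem_iff_exists.1 ht
  obtain ⟨z, rfl⟩ := Sym2.mem_iff_exists.1 ht'
  by_cases hyz : y = z
  · subst hyz
    exact hN (D.N_self (mem_ed.1 hf))
  · exact hN (hD t y z (mem_ed.1 hf) (mem_ed.1 hf') hyz)

private lemma cc_two (f : Sym2 V) [DecidablePred fun t : V => t ∈ f] {M : ℝ} (hM : 0 ≤ M) :
    ∑ t, (if t ∈ f then M else 0) ≤ 2 * M := by
  classical
  obtain ⟨y, z, hf⟩ : ∃ y z, f = s(y, z) := by
    induction f using Sym2.ind with
    | _ y z => exact ⟨y, z, rfl⟩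
  have h1 : ∀ t : V, (if t ∈ f then M else 0) ≤ (if t = y then M else 0) +
      (if t = z then M else 0) := by
    intro t
    have h0 : ∀ v : V, (0 : ℝ) ≤ if t = v then M else 0 := by
      intro v
      split_ifs
      · exact hM
      · exact le_rfl
    by_cases ht : t ∈ f
    · rw [if_pos ht]
      rw [hf, Sym2.mem_iff] at ht
      rcases ht with h | h
      · have := h0 z
        rw [if_pos h]
        linarith
      · have := h0 y
        rw [if_pos h]
        linarith
    · rw [if_neg ht]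
      exact add_nonneg (h0 y) (h0 z)
  refine (sum_le_sum fun t _ => h1 t).trans ?_
  rw [sum_add_distrib, Finset.sum_ite_eq' univ y, Finset.sum_ite_eq' univ z,
    if_pos (mem_univ y), if_pos (mem_univ z)]
  linarith

private lemma cc_pair (D : Drw G) (hD : D.NoAdj) (c : Cloud G C κ η) (hC : 0 < C) (hκ : 0 < κ)
    (hη : 0 < η) (hV : 0 < Fintype.card V) {f f' : Sym2 V} (hf : f ∈ ed G) (hf' : f' ∈ ed G)
    (hN : D.N f f' ≠ 0) : ∑ t, c.p t * c.use t f * c.use t f' ≤
      B0 C κ η / (Fintype.card V : ℝ) ^ 4 := by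
  classical
  have hn : (0 : ℝ) < Fintype.card V := by exact_mod_cast hV
  set n : ℝ := (Fintype.card V : ℝ) with hnd
  set m1 : ℝ := (C / κ + 1 / η) / n with hm1
  set m2 : ℝ := (2 * C / (κ * η)) / n ^ 2 with hm2
  set m3 : ℝ := C / (κ * n) with hm3
  have hm1' : 0 ≤ m1 := by positivity
  have hm2' : 0 ≤ m2 := by positivity
  have hm3' : 0 ≤ m3 := by positivity
  have hpt : ∀ t, c.p t * c.use t f * c.use t f' ≤ (if t ∈ f then m3 * m1 * m2 else 0) +
      (if t ∈ f' then m3 * m1 * m2 else 0) + c.p t * m2 ^ 2 := by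
    intro t
    have z1 : ∀ g : Sym2 V, (0 : ℝ) ≤ if t ∈ g then m3 * m1 * m2 else 0 := by
      intro g
      split_ifs
      · positivity
      · exact le_rfl
    have z2 : 0 ≤ c.p t * m2 ^ 2 := mul_nonneg (c.p_nonneg t) (by positivity)
    by_cases ht : c.p t = 0
    · have a1 := z1 f
      have a2 := z1 f'
      rw [ht]
      simp only [zero_mul, add_zero]
      linarith
    · have p3 := cc_p_le c hC hκ hV t
      have u0 := cc_use_nonneg c t f
      have u0' := cc_use_nonneg c t f'
      by_cases h1 : t ∈ f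
      · have h2 := cc_disj D hD hf hf' hN h1
        rw [if_pos h1, if_neg h2, add_zero]
        have a1 := c.use_le_of_mem hC hκ hη hV ht hf h1
        have a2 := c.use_le_of_notMem hC hκ hη hV ht hf' h2
        have a3 : c.p t * c.use t f * c.use t f' ≤ m3 * m1 * m2 :=
          mul_le_mul (mul_le_mul p3 a1 u0 hm3') a2 u0' (by positivity)
        linarith
      · by_cases h2 : t ∈ f'
        · rw [if_neg h1, if_pos h2, zero_add]
          have a1 := c.use_le_of_notMem hC hκ hη hV ht hf h1
          have a2 := c.use_le_of_mem hC hκ hη hV ht hf' h2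
          have a3 : c.p t * c.use t f * c.use t f' ≤ m3 * m2 * m1 :=
            mul_le_mul (mul_le_mul p3 a1 u0 hm3') a2 u0' (by positivity)
          have a4 : m3 * m2 * m1 = m3 * m1 * m2 := by ring
          linarith
        · rw [if_neg h1, if_neg h2, zero_add, zero_add]
          have a1 := c.use_le_of_notMem hC hκ hη hV ht hf h1
          have a2 := c.use_le_of_notMem hC hκ hη hV ht hf' h2
          have a3 : c.use t f * c.use t f' ≤ m2 * m2 := mul_le_mul a1 a2 u0' hm2'
          have a4 := mul_le_mul_of_nonneg_left a3 (c.p_nonneg t)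
          calc c.p t * c.use t f * c.use t f' = c.p t * (c.use t f * c.use t f') := by ring
            _ ≤ c.p t * (m2 * m2) := a4
            _ = c.p t * m2 ^ 2 := by ring
  refine (sum_le_sum fun t _ => hpt t).trans ?_
  rw [sum_add_distrib, sum_add_distrib, ← sum_mul, c.sum_p (c.K_pos hκ hV), one_mul]
  have a1 := cc_two f (M := m3 * m1 * m2) (by positivity)
  have a2 := cc_two f' (M := m3 * m1 * m2) (by positivity)
  have e : B0 C κ η / n ^ 4 = 4 * (m3 * m1 * m2) + m2 ^ 2 := by
    rw [hm1, hm2, hm3, B0]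
    field_simp
  rw [e]
  linarith

/-- For two different index pairs with a common index.

Proof.  Sum over `ω` with `marg2` (coordinates `e ≠ e'`).  By `Cloud.ρ_comm`, `route_comm` the
orientation inside the index pairs does not matter, so in all four cases
(`e.1 = e'.1`, `e.1 = e'.2`, `e.2 = e'.1`, `e.2 = e'.2`; exactly one holds as `e ≠ e'` and both
are increasing) `marg3` gives
`∑_{t,b,b'} p t p b p b' ∑_{w,w'} ρ t b w ρ t b' w' ∑_{f ∈ route t b w, f' ∈ route t b' w'} N f f'
= ∑_{f, f' ∈ ed G} N f f' ∑_t p t use t f use t f'`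
(`Cloud.route_sub`: only edges of `G` occur in terms of positive weight).
`N f f' = 0` if `f = f'` (`Drw.N_self`) or if `f, f'` have a common vertex (`NoAdj`).  For
disjoint `f, f'` the vertices `t ∈ f` (two) and `t ∈ f'` (two) give each at most
`(C/(κ n)) ((C/κ + 1/η)/n) ((2C/(κη))/n²)`, and the other `t` give together at most
`∑ p t · ((2C/(κη))/n²)²`.  The sum is at most `B0 / n⁴`. -/
theorem expect_adj (D : Drw G) (hD : D.NoAdj) (c : Cloud G C κ η) (hC : 0 < C) (hκ : 0 < κ)
    (hη : 0 < η) (hV : 0 < Fintype.card V) {a : ℕ} {e e' : Fin a × Fin a} (he : e ∈ prs a)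
    (he' : e' ∈ prs a) (hne : e ≠ e')
    (hs : e.1 = e'.1 ∨ e.1 = e'.2 ∨ e.2 = e'.1 ∨ e.2 = e'.2) :
    ∑ τ : Fin a → V, ∑ ω : Fin a × Fin a → V, c.wt τ ω * crs D τ ω e e' ≤
      B0 C κ η / (Fintype.card V : ℝ) ^ 4 * (D.cr : ℝ) := by
  classical
  rw [cc_expect D c hκ hη hV he he' hne hs, sum_congr rfl fun u _ => cc_use_sum D c u]
  have h1 : ∑ u, c.p u * ∑ f ∈ ed G, c.use u f * ∑ f' ∈ ed G, c.use u f' * (D.N f f' : ℝ) =
      ∑ f ∈ ed G, ∑ f' ∈ ed G, (∑ u, c.p u * c.use u f * c.use u f') * (D.N f f' : ℝ) := by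
    have h2 : ∀ u, c.p u * ∑ f ∈ ed G, c.use u f * ∑ f' ∈ ed G, c.use u f' * (D.N f f' : ℝ) =
        ∑ f ∈ ed G, ∑ f' ∈ ed G, c.p u * c.use u f * c.use u f' * (D.N f f' : ℝ) := by
      intro u
      rw [mul_sum]
      refine sum_congr rfl fun f _ => ?_
      rw [mul_sum, mul_sum]
      refine sum_congr rfl fun f' _ => ?_
      ring
    rw [sum_congr rfl fun u _ => h2 u, sum_comm]
    refine sum_congr rfl fun f _ => ?_
    rw [sum_comm]
    refine sum_congr rfl fun f' _ => ?_
    rw [sum_mul]
  rw [h1]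
  have h3 : (D.cr : ℝ) = ∑ f ∈ ed G, ∑ f' ∈ ed G, (D.N f f' : ℝ) := by
    unfold Drw.cr
    push_cast
    rfl
  rw [h3, mul_sum]
  refine sum_le_sum fun f hf => ?_
  rw [mul_sum]
  refine sum_le_sum fun f' hf' => ?_
  by_cases hN : D.N f f' = 0
  · rw [hN]
    simp
  · exact mul_le_mul_of_nonneg_right (cc_pair D hD c hC hκ hη hV hf hf' hN) (Nat.cast_nonneg _)

end Pool.Agent.ALB
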