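import Pool.Agent.ALB.ClZ
import Pool.Agent.ALB.Marg

/-! # ALB module CLD: bad configurations are rare -/

set_option autoImplicit false

namespace Pool.Agent.ALB

open Finset

variable {V : Type} [Fintype V] {G : SimpleGraph V} {C κ η : ℝ}

private theorem cld_one {ι : Type} [Fintype ι] [DecidableEq ι] (r : ι → V → ℝ)
    (hr : ∀ i, ∑ v, r i v = 1) : ∑ ω : ι → V, ∏ i, r i (ω i) = 1 := by
  rw [← Fintype.piFinset_univ, ← Finset.prod_univ_sum]
  simp [hr]

/-- Total weight.  Proof: `∑_ω ∏_e ρ = ∏_e ∑_w ρ = 1` (`Finset.prod_univ_sum` backwards,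
`Cloud.sum_ρ`), then `∑_τ ∏ p = 1`. -/
theorem Cloud.sum_wt (c : Cloud G C κ η) (hK : 0 < c.K) (hη : 0 < η)
    (hV : 0 < Fintype.card V) (a : ℕ) :
    ∑ τ : Fin a → V, ∑ ω : Fin a × Fin a → V, c.wt τ ω = 1 := by
  have h1 : ∀ τ : Fin a → V, ∑ ω : Fin a × Fin a → V, c.wt τ ω = ∏ i, c.p (τ i) := by
    intro τ
    unfold Cloud.wt
    rw [← Finset.mul_sum, cld_one (fun (e : Fin a × Fin a) w => c.ρ (τ e.1) (τ e.2) w)
      (fun e => c.sum_ρ hη hV _ _), mul_one]
  rw [Finset.sum_congr rfl fun τ _ => h1 τ]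
  exact cld_one (fun (_ : Fin a) v => c.p v) (fun _ => c.sum_p hK)

theorem Cloud.wt_nonneg (c : Cloud G C κ η) {a : ℕ} (τ : Fin a → V)
    (ω : Fin a × Fin a → V) : 0 ≤ c.wt τ ω :=
  mul_nonneg (Finset.prod_nonneg fun _ _ => c.p_nonneg _)
    (Finset.prod_nonneg fun _ _ => c.ρ_nonneg _ _ _)

private theorem cld_sum3 {α β γ : Type} [Fintype α] [Fintype β] [Fintype γ]
    (g : γ → α → β → ℝ) :
    ∑ τ, ∑ ω, ∑ x, g x τ ω = ∑ x, ∑ τ, ∑ ω, g x τ ω := by
  rw [Finset.sum_congr rfl fun τ _ => Finset.sum_comm, Finset.sum_comm]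

private theorem cld_p_le (c : Cloud G C κ η) (hC : 0 < C) (hκ : 0 < κ)
    (hV : 0 < Fintype.card V) (v : V) : c.p v ≤ C / (κ * (Fintype.card V : ℝ)) := by
  have hV0 : (0 : ℝ) < Fintype.card V := by exact_mod_cast hV
  unfold Cloud.p
  exact div_le_div₀ hC.le (c.x_le v) (by positivity) c.K_ge

private theorem cld_rho_le (c : Cloud G C κ η) (hη : 0 < η) (hV : 0 < Fintype.card V)
    {u v : V} (h : c.two u v) (w : V) : c.ρ u v w ≤ 1 / (η * (Fintype.card V : ℝ)) := by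
  have hV0 : (0 : ℝ) < Fintype.card V := by exact_mod_cast hV
  have h1 : η * (Fintype.card V : ℝ) ≤ ((c.R u v).card : ℝ) :=
    c.R_card u v h.1 h.2.1 h.2.2.1 h.2.2.2
  unfold Cloud.ρ
  rw [if_pos h]
  split_ifs
  · exact one_div_le_one_div_of_le (by positivity) h1
  · positivity

/-- sum over `ω` of the weights with a function -/
private theorem cld_T (c : Cloud G C κ η) {a : ℕ} (τ : Fin a → V)
    (F : (Fin a × Fin a → V) → ℝ) :
    ∑ ω : Fin a × Fin a → V, c.wt τ ω * F ω =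
      (∏ i, c.p (τ i)) * ∑ ω : Fin a × Fin a → V,
        (∏ e, c.ρ (τ e.1) (τ e.2) (ω e)) * F ω := by
  rw [Finset.mul_sum]
  refine Finset.sum_congr rfl fun ω _ => ?_
  unfold Cloud.wt
  ring

open Classical in
private theorem cld_B1 (c : Cloud G C κ η) (hC : 0 < C) (hκ : 0 < κ) (hη : 0 < η)
    (hV : 0 < Fintype.card V) {a : ℕ} {i j : Fin a} (hij : i ≠ j) :
    ∑ τ : Fin a → V, ∑ ω : Fin a × Fin a → V, (if τ i = τ j then c.wt τ ω else 0) ≤
      C / (κ * (Fintype.card V : ℝ)) := by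
  have hK := c.K_pos hκ hV
  have h1 : ∀ τ : Fin a → V,
      ∑ ω : Fin a × Fin a → V, (if τ i = τ j then c.wt τ ω else 0) =
      (∏ i, c.p (τ i)) * (if τ i = τ j then 1 else 0) := by
    intro τ
    have h2 : ∀ ω : Fin a × Fin a → V, (if τ i = τ j then c.wt τ ω else 0) =
        c.wt τ ω * (if τ i = τ j then 1 else 0) := by
      intro ω
      split_ifs <;> simp
    rw [Finset.sum_congr rfl fun ω _ => h2 ω, cld_T, ← Finset.sum_mul,
      cld_one (fun (e : Fin a × Fin a) w => c.ρ (τ e.1) (τ e.2) w)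
      (fun e => c.sum_ρ hη hV _ _), one_mul]
  rw [Finset.sum_congr rfl fun τ _ => h1 τ,
    marg2 hij (fun _ v => c.p v) (fun _ => c.sum_p hK) (fun v w => if v = w then 1 else 0)]
  have h3 : ∀ v, ∑ w, c.p v * c.p w * (if v = w then (1 : ℝ) else 0) = c.p v * c.p v := by
    intro v
    rw [Finset.sum_eq_single v]
    · simp
    · intro w _ hw
      rw [if_neg hw.symm, mul_zero]
    · simp
  rw [Finset.sum_congr rfl fun v _ => h3 v]
  calc ∑ v, c.p v * c.p v ≤ ∑ v, c.p v * (C / (κ * (Fintype.card V : ℝ))) :=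
        Finset.sum_le_sum fun v _ =>
          mul_le_mul_of_nonneg_left (cld_p_le c hC hκ hV v) (c.p_nonneg v)
    _ = _ := by rw [← Finset.sum_mul, c.sum_p hK, one_mul]

open Classical in
private theorem cld_B2 (c : Cloud G C κ η) (hC : 0 < C) (hκ : 0 < κ) (hη : 0 < η)
    (hV : 0 < Fintype.card V) {a : ℕ} {i j l : Fin a} (hij : i ≠ j) (hil : i ≠ l)
    (hjl : j ≠ l) :
    ∑ τ : Fin a → V, ∑ ω : Fin a × Fin a → V,
      (if c.two (τ i) (τ j) ∧ ω (i, j) = τ l then c.wt τ ω else 0) ≤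
      C / (κ * (Fintype.card V : ℝ)) := by
  have hK := c.K_pos hκ hV
  have h1 : ∀ τ : Fin a → V,
      ∑ ω : Fin a × Fin a → V, (if c.two (τ i) (τ j) ∧ ω (i, j) = τ l then c.wt τ ω else 0) ≤
      (∏ i, c.p (τ i)) * c.ρ (τ i) (τ j) (τ l) := by
    intro τ
    have h2 : ∀ ω : Fin a × Fin a → V,
        (if c.two (τ i) (τ j) ∧ ω (i, j) = τ l then c.wt τ ω else 0) ≤
        c.wt τ ω * (if ω (i, j) = τ l then 1 else 0) := by
      intro ω
      by_cases h : ω (i, j) = τ l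
      · rw [if_pos h, mul_one]
        split_ifs
        · exact le_rfl
        · exact c.wt_nonneg _ _
      · rw [if_neg (fun h' => h h'.2), if_neg h, mul_zero]
    refine (Finset.sum_le_sum fun ω _ => h2 ω).trans ?_
    rw [cld_T c τ fun ω => if ω (i, j) = τ l then 1 else 0,
      marg1 (i, j) (fun (e : Fin a × Fin a) w => c.ρ (τ e.1) (τ e.2) w)
      (fun e => c.sum_ρ hη hV _ _) (fun w => if w = τ l then 1 else 0)]
    refine mul_le_mul_of_nonneg_left (le_of_eq ?_)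
      (Finset.prod_nonneg fun _ _ => c.p_nonneg _)
    simp
  refine (Finset.sum_le_sum fun τ _ => h1 τ).trans ?_
  rw [marg3 hij hil hjl (fun _ v => c.p v) (fun _ => c.sum_p hK) (fun u v w => c.ρ u v w)]
  have h3 : ∀ u v, ∑ w, c.p u * c.p v * c.p w * c.ρ u v w ≤
      c.p u * c.p v * (C / (κ * (Fintype.card V : ℝ))) := by
    intro u v
    calc ∑ w, c.p u * c.p v * c.p w * c.ρ u v w ≤
        ∑ w, c.p u * c.p v * (C / (κ * (Fintype.card V : ℝ))) * c.ρ u v w := by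
          refine Finset.sum_le_sum fun w _ => ?_
          refine mul_le_mul_of_nonneg_right ?_ (c.ρ_nonneg _ _ _)
          exact mul_le_mul_of_nonneg_left (cld_p_le c hC hκ hV w)
            (mul_nonneg (c.p_nonneg u) (c.p_nonneg v))
      _ = _ := by rw [← Finset.mul_sum, c.sum_ρ hη hV, mul_one]
  calc _ ≤ ∑ u, ∑ v, c.p u * c.p v * (C / (κ * (Fintype.card V : ℝ))) :=
        Finset.sum_le_sum fun u _ => Finset.sum_le_sum fun v _ => h3 u v
    _ = _ := by
        have h4 : ∀ u, ∑ v, c.p u * c.p v * (C / (κ * (Fintype.card V : ℝ))) =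
            c.p u * (C / (κ * (Fintype.card V : ℝ))) := by
          intro u
          rw [← Finset.sum_mul, ← Finset.mul_sum, c.sum_p hK, mul_one]
        rw [Finset.sum_congr rfl fun u _ => h4 u, ← Finset.sum_mul, c.sum_p hK, one_mul]

open Classical in
private theorem cld_B3 (c : Cloud G C κ η) (hκ : 0 < κ) (hη : 0 < η)
    (hV : 0 < Fintype.card V) {a : ℕ} {e e' : Fin a × Fin a} (hne : e ≠ e') :
    ∑ τ : Fin a → V, ∑ ω : Fin a × Fin a → V,
      (if c.two (τ e.1) (τ e.2) ∧ c.two (τ e'.1) (τ e'.2) ∧ ω e = ω e' then c.wt τ ω else 0) ≤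
      1 / (η * (Fintype.card V : ℝ)) := by
  have hV0 : (0 : ℝ) < Fintype.card V := by exact_mod_cast hV
  have hK := c.K_pos hκ hV
  have h1 : ∀ τ : Fin a → V,
      ∑ ω : Fin a × Fin a → V,
        (if c.two (τ e.1) (τ e.2) ∧ c.two (τ e'.1) (τ e'.2) ∧ ω e = ω e' then c.wt τ ω else 0) ≤
      (∏ i, c.p (τ i)) * (1 / (η * (Fintype.card V : ℝ))) := by
    intro τ
    have hp : 0 ≤ ∏ i, c.p (τ i) := Finset.prod_nonneg fun _ _ => c.p_nonneg _
    by_cases ht : c.two (τ e.1) (τ e.2)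
    · have h2 : ∀ ω : Fin a × Fin a → V,
          (if c.two (τ e.1) (τ e.2) ∧ c.two (τ e'.1) (τ e'.2) ∧ ω e = ω e' then c.wt τ ω
            else 0) ≤ c.wt τ ω * (if ω e = ω e' then 1 else 0) := by
        intro ω
        by_cases h : ω e = ω e'
        · rw [if_pos h, mul_one]
          split_ifs
          · exact le_rfl
          · exact c.wt_nonneg _ _
        · rw [if_neg (fun h' => h h'.2.2), if_neg h, mul_zero]
      refine (Finset.sum_le_sum fun ω _ => h2 ω).trans ?_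
      rw [cld_T c τ fun ω => if ω e = ω e' then 1 else 0,
        marg2 hne (fun (e : Fin a × Fin a) w => c.ρ (τ e.1) (τ e.2) w)
        (fun e => c.sum_ρ hη hV _ _) (fun w w' => if w = w' then 1 else 0)]
      refine mul_le_mul_of_nonneg_left ?_ hp
      have h3 : ∀ v, ∑ w, c.ρ (τ e.1) (τ e.2) v * c.ρ (τ e'.1) (τ e'.2) w *
          (if v = w then (1 : ℝ) else 0) =
          c.ρ (τ e.1) (τ e.2) v * c.ρ (τ e'.1) (τ e'.2) v := by
        intro v
        rw [Finset.sum_eq_single v]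
        · simp
        · intro w _ hw
          rw [if_neg hw.symm, mul_zero]
        · simp
      rw [Finset.sum_congr rfl fun v _ => h3 v]
      calc _ ≤ ∑ v, 1 / (η * (Fintype.card V : ℝ)) * c.ρ (τ e'.1) (τ e'.2) v :=
            Finset.sum_le_sum fun v _ =>
              mul_le_mul_of_nonneg_right (cld_rho_le c hη hV ht v) (c.ρ_nonneg _ _ _)
        _ = _ := by rw [← Finset.mul_sum, c.sum_ρ hη hV, mul_one]
    · have h2 : ∀ ω : Fin a × Fin a → V,
          (if c.two (τ e.1) (τ e.2) ∧ c.two (τ e'.1) (τ e'.2) ∧ ω e = ω e' then c.wt τ ω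
            else 0) = 0 := by
        intro ω
        rw [if_neg (fun h' => ht h'.1)]
      rw [Finset.sum_congr rfl fun ω _ => h2 ω, Finset.sum_const_zero]
      positivity
  refine (Finset.sum_le_sum fun τ _ => h1 τ).trans (le_of_eq ?_)
  rw [← Finset.sum_mul, cld_one (fun (_ : Fin a) v => c.p v) (fun _ => c.sum_p hK), one_mul]

open Classical in
private theorem cld_bound (c : Cloud G C κ η) {a : ℕ} (τ : Fin a → V)
    (ω : Fin a × Fin a → V) :
    (if c.bad τ ω then c.wt τ ω else 0) ≤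
      (∑ x : Fin a × Fin a, if x.1 < x.2 then (if τ x.1 = τ x.2 then c.wt τ ω else 0) else 0) +
      (∑ x : Fin a × Fin a × Fin a, if x.1 < x.2.1 ∧ x.2.2 ≠ x.1 ∧ x.2.2 ≠ x.2.1 then
        (if c.two (τ x.1) (τ x.2.1) ∧ ω (x.1, x.2.1) = τ x.2.2 then c.wt τ ω else 0) else 0) +
      (∑ x : (Fin a × Fin a) × (Fin a × Fin a), if x.1 ≠ x.2 then
        (if c.two (τ x.1.1) (τ x.1.2) ∧ c.two (τ x.2.1) (τ x.2.2) ∧ ω x.1 = ω x.2 then
          c.wt τ ω else 0) else 0) := by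
  have hw := c.wt_nonneg τ ω
  have n1 : 0 ≤ ∑ x : Fin a × Fin a,
      if x.1 < x.2 then (if τ x.1 = τ x.2 then c.wt τ ω else 0) else 0 :=
    Finset.sum_nonneg fun x _ => by split_ifs <;> first | exact hw | exact le_rfl
  have n2 : 0 ≤ ∑ x : Fin a × Fin a × Fin a, if x.1 < x.2.1 ∧ x.2.2 ≠ x.1 ∧ x.2.2 ≠ x.2.1 then
        (if c.two (τ x.1) (τ x.2.1) ∧ ω (x.1, x.2.1) = τ x.2.2 then c.wt τ ω else 0) else 0 :=
    Finset.sum_nonneg fun x _ => by split_ifs <;> first | exact hw | exact le_rfl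
  have n3 : 0 ≤ ∑ x : (Fin a × Fin a) × (Fin a × Fin a), if x.1 ≠ x.2 then
        (if c.two (τ x.1.1) (τ x.1.2) ∧ c.two (τ x.2.1) (τ x.2.2) ∧ ω x.1 = ω x.2 then
          c.wt τ ω else 0) else 0 :=
    Finset.sum_nonneg fun x _ => by split_ifs <;> first | exact hw | exact le_rfl
  by_cases hb : c.bad τ ω
  · rw [if_pos hb]
    rcases hb with ⟨i, j, hij, he⟩ | ⟨i, j, l, hij, hli, hlj, ht, he⟩ |
      ⟨e, _, e', _, hne, ht, ht', he⟩
    · have h1 : c.wt τ ω ≤ ∑ x : Fin a × Fin a,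
          if x.1 < x.2 then (if τ x.1 = τ x.2 then c.wt τ ω else 0) else 0 := by
        refine le_trans (le_of_eq ?_) (Finset.single_le_sum
          (f := fun x : Fin a × Fin a => if x.1 < x.2 then
            (if τ x.1 = τ x.2 then c.wt τ ω else 0) else 0)
          (fun x _ => by split_ifs <;> first | exact hw | exact le_rfl) (mem_univ (i, j)))
        simp [hij, he]
      linarith
    · have h1 : c.wt τ ω ≤ ∑ x : Fin a × Fin a × Fin a,
          if x.1 < x.2.1 ∧ x.2.2 ≠ x.1 ∧ x.2.2 ≠ x.2.1 then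
        (if c.two (τ x.1) (τ x.2.1) ∧ ω (x.1, x.2.1) = τ x.2.2 then c.wt τ ω else 0) else 0 := by
        refine le_trans (le_of_eq ?_) (Finset.single_le_sum
          (f := fun x : Fin a × Fin a × Fin a =>
            if x.1 < x.2.1 ∧ x.2.2 ≠ x.1 ∧ x.2.2 ≠ x.2.1 then
              (if c.two (τ x.1) (τ x.2.1) ∧ ω (x.1, x.2.1) = τ x.2.2 then c.wt τ ω else 0)
              else 0)
          (fun x _ => by split_ifs <;> first | exact hw | exact le_rfl) (mem_univ (i, j, l)))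
        simp [hij, he, hli, hlj, ht]
      linarith
    · have h1 : c.wt τ ω ≤ ∑ x : (Fin a × Fin a) × (Fin a × Fin a), if x.1 ≠ x.2 then
        (if c.two (τ x.1.1) (τ x.1.2) ∧ c.two (τ x.2.1) (τ x.2.2) ∧ ω x.1 = ω x.2 then
          c.wt τ ω else 0) else 0 := by
        refine le_trans (le_of_eq ?_) (Finset.single_le_sum
          (f := fun x : (Fin a × Fin a) × (Fin a × Fin a) => if x.1 ≠ x.2 then
            (if c.two (τ x.1.1) (τ x.1.2) ∧ c.two (τ x.2.1) (τ x.2.2) ∧ ω x.1 = ω x.2 then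
              c.wt τ ω else 0) else 0)
          (fun x _ => by split_ifs <;> first | exact hw | exact le_rfl) (mem_univ (e, e')))
        simp [hne, he, ht, ht']
      linarith
  · rw [if_neg hb]
    linarith

open Classical in
/-- Union bound.  With `n = card V`:
(B1) for `i < j`: `P(τ i = τ j) = ∑ p² ≤ max p ≤ C/(κ n)` (`marg2` for `τ`), at most `a²` pairs;
(B2) for `i < j`, `l ≠ i, j`: `P(two ∧ ω(i,j) = τ l) ≤ C/(κ n)`: by `marg1` for `ω`, then
`marg3` for `τ`: `∑_{u,v,w} p u p v p w ρ u v w ≤ (C/(κ n)) ∑ p u p v ∑_w ρ u v w = C/(κ n)`; at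
most `a³` triples;
(B3) for `e ≠ e'`: by `marg2` for `ω`, for each `τ` with `two` for `e`:
`∑_w ρ(τ e, w) ρ(τ e', w) ≤ 1/(η n)` (`ρ ≤ 1/|R| ≤ 1/(η n)` when `two`, and `∑_w ρ = 1`); at
most `a⁴` pairs.
Total `≤ (a² + a³) C/(κ n) + a⁴/(η n) ≤ a⁴ (2C/κ + 1/η)/n` (for `a ≥ 2`: `a² + a³ ≤ 2a⁴`;
for `a ≤ 1` there is no bad configuration). -/
theorem Cloud.bad_le (c : Cloud G C κ η) (hC : 0 < C) (hκ : 0 < κ) (hη : 0 < η)
    (hV : 0 < Fintype.card V) (a : ℕ) :
    ∑ τ : Fin a → V, ∑ ω : Fin a × Fin a → V, (if c.bad τ ω then c.wt τ ω else 0) ≤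
      (a : ℝ) ^ 4 * (2 * C / κ + 1 / η) / (Fintype.card V : ℝ) := by
  have hV0 : (0 : ℝ) < Fintype.card V := by exact_mod_cast hV
  set D1 := C / (κ * (Fintype.card V : ℝ)) with hD1
  set D2 := 1 / (η * (Fintype.card V : ℝ)) with hD2
  have hD10 : 0 ≤ D1 := by positivity
  have hD20 : 0 ≤ D2 := by positivity
  refine (Finset.sum_le_sum fun τ _ => Finset.sum_le_sum fun ω _ => cld_bound c τ ω).trans ?_
  simp only [Finset.sum_add_distrib]
  rw [cld_sum3 (fun (x : Fin a × Fin a) (τ : Fin a → V) (ω : Fin a × Fin a → V) =>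
      if x.1 < x.2 then (if τ x.1 = τ x.2 then c.wt τ ω else 0) else 0),
    cld_sum3 (fun (x : Fin a × Fin a × Fin a) (τ : Fin a → V) (ω : Fin a × Fin a → V) =>
      if x.1 < x.2.1 ∧ x.2.2 ≠ x.1 ∧ x.2.2 ≠ x.2.1 then
        (if c.two (τ x.1) (τ x.2.1) ∧ ω (x.1, x.2.1) = τ x.2.2 then c.wt τ ω else 0) else 0),
    cld_sum3 (fun (x : (Fin a × Fin a) × (Fin a × Fin a)) (τ : Fin a → V)
      (ω : Fin a × Fin a → V) => if x.1 ≠ x.2 then
        (if c.two (τ x.1.1) (τ x.1.2) ∧ c.two (τ x.2.1) (τ x.2.2) ∧ ω x.1 = ω x.2 then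
          c.wt τ ω else 0) else 0)]
  have s1 : ∑ x : Fin a × Fin a, ∑ τ : Fin a → V, ∑ ω : Fin a × Fin a → V,
      (if x.1 < x.2 then (if τ x.1 = τ x.2 then c.wt τ ω else 0) else 0) ≤
      (a : ℝ) ^ 2 * D1 := by
    have h1 : ∀ x : Fin a × Fin a, ∑ τ : Fin a → V, ∑ ω : Fin a × Fin a → V,
      (if x.1 < x.2 then (if τ x.1 = τ x.2 then c.wt τ ω else 0) else 0) ≤ D1 := by
      intro x
      by_cases hx : x.1 < x.2
      · simp only [if_pos hx]
        exact cld_B1 c hC hκ hη hV hx.ne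
      · simp only [if_neg hx, Finset.sum_const_zero]
        exact hD10
    refine (Finset.sum_le_sum fun x _ => h1 x).trans (le_of_eq ?_)
    rw [Finset.sum_const, nsmul_eq_mul]
    simp only [Finset.card_univ, Fintype.card_prod, Fintype.card_fin]
    push_cast
    ring
  have s2 : ∑ x : Fin a × Fin a × Fin a, ∑ τ : Fin a → V, ∑ ω : Fin a × Fin a → V,
      (if x.1 < x.2.1 ∧ x.2.2 ≠ x.1 ∧ x.2.2 ≠ x.2.1 then
        (if c.two (τ x.1) (τ x.2.1) ∧ ω (x.1, x.2.1) = τ x.2.2 then c.wt τ ω else 0) else 0) ≤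
      (a : ℝ) ^ 3 * D1 := by
    have h1 : ∀ x : Fin a × Fin a × Fin a, ∑ τ : Fin a → V, ∑ ω : Fin a × Fin a → V,
      (if x.1 < x.2.1 ∧ x.2.2 ≠ x.1 ∧ x.2.2 ≠ x.2.1 then
        (if c.two (τ x.1) (τ x.2.1) ∧ ω (x.1, x.2.1) = τ x.2.2 then c.wt τ ω else 0) else 0) ≤
        D1 := by
      intro x
      by_cases hx : x.1 < x.2.1 ∧ x.2.2 ≠ x.1 ∧ x.2.2 ≠ x.2.1
      · simp only [if_pos hx]
        exact cld_B2 c hC hκ hη hV hx.1.ne hx.2.1.symm hx.2.2.symm
      · simp only [if_neg hx, Finset.sum_const_zero]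
        exact hD10
    refine (Finset.sum_le_sum fun x _ => h1 x).trans (le_of_eq ?_)
    rw [Finset.sum_const, nsmul_eq_mul]
    simp only [Finset.card_univ, Fintype.card_prod, Fintype.card_fin]
    push_cast
    ring
  have s3 : ∑ x : (Fin a × Fin a) × (Fin a × Fin a), ∑ τ : Fin a → V,
      ∑ ω : Fin a × Fin a → V, (if x.1 ≠ x.2 then
        (if c.two (τ x.1.1) (τ x.1.2) ∧ c.two (τ x.2.1) (τ x.2.2) ∧ ω x.1 = ω x.2 then
          c.wt τ ω else 0) else 0) ≤ (a : ℝ) ^ 4 * D2 := by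
    have h1 : ∀ x : (Fin a × Fin a) × (Fin a × Fin a), ∑ τ : Fin a → V,
      ∑ ω : Fin a × Fin a → V, (if x.1 ≠ x.2 then
        (if c.two (τ x.1.1) (τ x.1.2) ∧ c.two (τ x.2.1) (τ x.2.2) ∧ ω x.1 = ω x.2 then
          c.wt τ ω else 0) else 0) ≤ D2 := by
      intro x
      by_cases hx : x.1 ≠ x.2
      · simp only [if_pos hx]
        exact cld_B3 c hκ hη hV hx
      · simp only [if_neg hx, Finset.sum_const_zero]
        exact hD20
    refine (Finset.sum_le_sum fun x _ => h1 x).trans (le_of_eq ?_)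
    rw [Finset.sum_const, nsmul_eq_mul]
    simp only [Finset.card_univ, Fintype.card_prod, Fintype.card_fin]
    push_cast
    ring
  have ha : ((a : ℝ)) ^ 2 ≤ (a : ℝ) ^ 4 := by
    have : a ^ 2 ≤ a ^ 4 := by
      rcases Nat.eq_zero_or_pos a with h | h
      · simp [h]
      · exact Nat.pow_le_pow_right h (by norm_num)
    exact_mod_cast this
  have ha3 : ((a : ℝ)) ^ 3 ≤ (a : ℝ) ^ 4 := by
    have : a ^ 3 ≤ a ^ 4 := by
      rcases Nat.eq_zero_or_pos a with h | h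
      · simp [h]
      · exact Nat.pow_le_pow_right h (by norm_num)
    exact_mod_cast this
  calc _ ≤ (a : ℝ) ^ 2 * D1 + (a : ℝ) ^ 3 * D1 + (a : ℝ) ^ 4 * D2 :=
        add_le_add (add_le_add s1 s2) s3
    _ ≤ (a : ℝ) ^ 4 * D1 + (a : ℝ) ^ 4 * D1 + (a : ℝ) ^ 4 * D2 := by
        have h1 := mul_le_mul_of_nonneg_right ha hD10
        have h2 := mul_le_mul_of_nonneg_right ha3 hD10
        linarith
    _ = _ := by
        rw [hD1, hD2]
        field_simp
        ring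

end Pool.Agent.ALB
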