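import Pool.Agent.ALB.ClZ
import Pool.Agent.ALB.Psd

/-! # ALB module CLE: a good configuration draws `K_a` -/

set_option autoImplicit false

namespace Pool.Agent.ALB

open Finset

variable {V : Type} [Fintype V] {G : SimpleGraph V} {C κ η : ℝ}

/-- the routes as a function of an unordered pair -/
noncomputable def cfE (G : SimpleGraph V) {a : ℕ} (τ : Fin a → V) (ω : Fin a × Fin a → V) :
    Sym2 (Fin a) → Finset (Sym2 V) :=
  Sym2.lift ⟨fun i j => route G (τ (min i j)) (τ (max i j)) (ω (min i j, max i j)), by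
    intro i j
    simp only [min_comm i j, max_comm i j]⟩

theorem cfE_of_lt {a : ℕ} (τ : Fin a → V) (ω : Fin a × Fin a → V) {i j : Fin a} (h : i < j) :
    cfE G τ ω s(i, j) = route G (τ i) (τ j) (ω (i, j)) := by
  simp only [cfE, Sym2.lift_mk]
  rw [min_eq_left h.le, max_eq_right h.le]

theorem cfE_diag {a : ℕ} (τ : Fin a → V) (ω : Fin a × Fin a → V) (i : Fin a) :
    cfE G τ ω s(i, i) = ∅ := by
  simp only [cfE, Sym2.lift_mk, min_self, max_self]
  unfold route
  simp

theorem cfE_lt_rep {a : ℕ} {p : Sym2 (Fin a)} (hp : ¬ p.IsDiag) :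
    ∃ i j : Fin a, i < j ∧ p = s(i, j) := by
  induction p using Sym2.ind with
  | _ i j =>
    rw [Sym2.mk_isDiag_iff] at hp
    rcases lt_or_gt_of_ne hp with h | h
    · exact ⟨i, j, h, rfl⟩
    · exact ⟨j, i, h, Sym2.eq_swap⟩

theorem cfE_route_adj {u v w : V} {f : Sym2 V} (h : G.Adj u v) (hf : f ∈ route G u v w) :
    f = s(u, v) := by
  unfold route at hf
  rw [if_neg h.ne, if_pos h] at hf
  simpa using hf

theorem cfE_route_nadj {u v w : V} {f : Sym2 V} (huv : u ≠ v) (h : ¬ G.Adj u v) :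
    f ∈ route G u v w ↔ f = s(u, w) ∨ f = s(w, v) := by
  unfold route
  rw [if_neg huv, if_neg h]
  simp

/-- Proof.  `psd` with `Y = τ` and, for `p ∈ Sym2 (Fin a)`, `E p = route G (τ i) (τ j) (ω (i,j))`
where `(i,j)`, `i ≤ j`, is the ordered representative of `p` (`Sym2.sortEquiv`, or define it by
`Sym2.lift` with `min`, `max`).  `wt ≠ 0` means that all `p (τ i) ≠ 0` and all
`ρ (τ i) (τ j) (ω (i,j)) ≠ 0`.  Not bad: `τ` injective.  For `i < j`: if `Adj (τ i) (τ j)` the
route is the edge itself; otherwise `two (τ i) (τ j)`, so `ω (i,j) ∈ R`, both edges are in `G`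
(`R_adj`), `ω (i,j)` is not a terminal (different from `τ i`, `τ j` by `R_adj`, from the others by
the second clause), and the `ω (i,j)` of different non-adjacent pairs are different (third
clause).  `hE`: `Cloud.route_sub`.  `hW`: walk of length one or two.  `hT`: the vertices of a
route are the two terminals and the non-terminal `ω`.  `hdis`: a common edge of two routes:
edge/edge: the same terminals, so the same pair; edge/two-path: the two-path edges contain a
non-terminal; two-path/two-path: they would have the same middle vertex.  The set of common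
non-terminals is empty, so its `ncard` is `0`.  Finally the double sum over `ed ⊤` is the double
sum over `prs a` (bijection `(i,j) ↦ s(i,j)` from `prs a` onto `ed ⊤`). -/
theorem crK_le_config (D : Drw G) (c : Cloud G C κ η) {a : ℕ} (τ : Fin a → V)
    (ω : Fin a × Fin a → V) (hw : c.wt τ ω ≠ 0) (hb : ¬ c.bad τ ω) :
    (crK a : ℝ) ≤ ∑ e ∈ prs a, ∑ e' ∈ (prs a).erase e, crs D τ ω e e' := by
  classical
  -- positivity of all factors
  have hp : ∀ i, c.p (τ i) ≠ 0 := by
    intro i
    have h := left_ne_zero_of_mul hw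
    exact Finset.prod_ne_zero_iff.mp h i (Finset.mem_univ i)
  have hρ : ∀ i j, c.ρ (τ i) (τ j) (ω (i, j)) ≠ 0 := by
    intro i j
    have h := right_ne_zero_of_mul hw
    exact Finset.prod_ne_zero_iff.mp h (i, j) (Finset.mem_univ _)
  have hx : ∀ i, c.x (τ i) ≠ 0 := by
    intro i h
    apply hp i
    unfold Cloud.p
    rw [h, zero_div]
  -- not bad
  unfold Cloud.bad at hb
  push Not at hb
  obtain ⟨hb1, hb2, hb3⟩ := hb
  have hinj : Function.Injective τ := by
    intro i j hij
    by_contra hne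
    rcases lt_or_gt_of_ne hne with h | h
    · exact hb1 i j h hij
    · exact hb1 j i h hij.symm
  have htwo : ∀ i j, i < j → ¬ G.Adj (τ i) (τ j) → c.two (τ i) (τ j) := fun i j h hn =>
    ⟨fun e => h.ne (hinj e), hn, hx i, hx j⟩
  have hedge : ∀ i j, i < j → ∀ f ∈ route G (τ i) (τ j) (ω (i, j)), f ∈ G.edgeSet :=
    fun i j _ => c.route_sub (hp i) (hp j) (hρ i j)
  have hadj1 : ∀ i j, i < j → ¬ G.Adj (τ i) (τ j) → G.Adj (τ i) (ω (i, j)) := by
    intro i j h hn
    have := hedge i j h s(τ i, ω (i, j))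
      ((cfE_route_nadj (fun e => h.ne (hinj e)) hn).mpr (Or.inl rfl))
    simpa using this
  have hadj2 : ∀ i j, i < j → ¬ G.Adj (τ i) (τ j) → G.Adj (ω (i, j)) (τ j) := by
    intro i j h hn
    have := hedge i j h s(ω (i, j), τ j)
      ((cfE_route_nadj (fun e => h.ne (hinj e)) hn).mpr (Or.inr rfl))
    simpa using this
  -- middle vertices are not terminals
  have hmid : ∀ i j, i < j → ¬ G.Adj (τ i) (τ j) → ω (i, j) ∉ Set.range τ := by
    rintro i j h hn ⟨l, hl⟩
    by_cases hli : l = i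
    · subst hli
      exact (hadj1 l j h hn).ne hl
    · by_cases hlj : l = j
      · subst hlj
        exact (hadj2 i l h hn).ne hl.symm
      · exact hb2 i j l h hli hlj (htwo i j h hn) hl.symm
  -- vertices of the routes
  have hvert : ∀ i j, i < j → ∀ f ∈ route G (τ i) (τ j) (ω (i, j)), ∀ x ∈ f,
      x = τ i ∨ x = τ j ∨ (¬ G.Adj (τ i) (τ j) ∧ x = ω (i, j)) := by
    intro i j h f hf x hxf
    by_cases hA : G.Adj (τ i) (τ j)
    · rw [cfE_route_adj hA hf, Sym2.mem_iff] at hxf
      tauto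
    · rcases (cfE_route_nadj (fun e => h.ne (hinj e)) hA).mp hf with rfl | rfl
      · rw [Sym2.mem_iff] at hxf
        tauto
      · rw [Sym2.mem_iff] at hxf
        tauto
  have hmem : ∀ i j, i < j → ∀ f ∈ route G (τ i) (τ j) (ω (i, j)), ¬ G.Adj (τ i) (τ j) →
      ω (i, j) ∈ f := by
    intro i j h f hf hA
    rcases (cfE_route_nadj (fun e => h.ne (hinj e)) hA).mp hf with rfl | rfl
    · simp
    · simp
  have hne3 : ∀ i j k l, i < j → k < l → (i, j) ≠ (k, l) → ¬ G.Adj (τ i) (τ j) →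
      ¬ G.Adj (τ k) (τ l) → ω (i, j) ≠ ω (k, l) := by
    intro i j k l h h' hne hA hA'
    exact hb3 (i, j) (by simp [prs, h]) (k, l) (by simp [prs, h']) hne (htwo i j h hA)
      (htwo k l h' hA')
  -- apply psd
  have key := psd D τ hinj (cfE G τ ω) ?_ ?_ ?_ ?_
  rotate_left
  · intro p e he
    by_cases hd : p.IsDiag
    · induction p using Sym2.ind with
      | _ i j =>
        rw [Sym2.mk_isDiag_iff] at hd
        subst hd
        rw [cfE_diag] at he
        simp at he
    · obtain ⟨i, j, h, rfl⟩ := cfE_lt_rep hd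
      rw [cfE_of_lt τ ω h] at he
      exact hedge i j h e he
  · have aux : ∀ i j, i < j → ∃ W : G.Walk (τ i) (τ j), ∀ e ∈ W.edges,
        e ∈ cfE G τ ω s(i, j) := by
      intro i j h
      by_cases hA : G.Adj (τ i) (τ j)
      · refine ⟨SimpleGraph.Walk.cons hA SimpleGraph.Walk.nil, ?_⟩
        intro e he
        rw [cfE_of_lt τ ω h]
        simp only [SimpleGraph.Walk.edges_cons, SimpleGraph.Walk.edges_nil,
          List.mem_singleton] at he
        subst he
        unfold route
        rw [if_neg hA.ne, if_pos hA]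
        simp
      · refine ⟨SimpleGraph.Walk.cons (hadj1 i j h hA) (SimpleGraph.Walk.cons (hadj2 i j h hA)
          SimpleGraph.Walk.nil), ?_⟩
        intro e he
        rw [cfE_of_lt τ ω h, cfE_route_nadj (fun e => h.ne (hinj e)) hA]
        simpa using he
    intro i j hij
    rcases lt_or_gt_of_ne hij with h | h
    · exact aux i j h
    · obtain ⟨W, hW⟩ := aux j i h
      refine ⟨W.reverse, ?_⟩
      intro e he
      rw [SimpleGraph.Walk.edges_reverse, List.mem_reverse] at he
      rw [Sym2.eq_swap]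
      exact hW e he
  · have aux : ∀ i j, i < j → ∀ e ∈ cfE G τ ω s(i, j), ∀ x ∈ e, x ∈ Set.range τ →
        x = τ i ∨ x = τ j := by
      intro i j h e he x hxe hxr
      rw [cfE_of_lt τ ω h] at he
      rcases hvert i j h e he x hxe with h1 | h1 | ⟨h1, h2⟩
      · exact Or.inl h1
      · exact Or.inr h1
      · exact absurd (h2 ▸ hxr) (hmid i j h h1)
    intro i j hij
    rcases lt_or_gt_of_ne hij with h | h
    · exact aux i j h
    · intro e he x hxe hxr
      rw [Sym2.eq_swap] at he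
      exact (aux j i h e he x hxe hxr).symm
  · intro p hp' q hq' hpq e he he'
    have hpd : ¬ p.IsDiag := SimpleGraph.not_isDiag_of_mem_edgeSet _ hp'
    have hqd : ¬ q.IsDiag := SimpleGraph.not_isDiag_of_mem_edgeSet _ hq'
    obtain ⟨i, j, h, rfl⟩ := cfE_lt_rep hpd
    obtain ⟨k, l, h', rfl⟩ := cfE_lt_rep hqd
    rw [cfE_of_lt τ ω h] at he
    rw [cfE_of_lt τ ω h'] at he'
    have hne : (i, j) ≠ (k, l) := by
      intro h2
      apply hpq
      rw [(Prod.mk.inj h2).1, (Prod.mk.inj h2).2]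
    by_cases hA : G.Adj (τ i) (τ j)
    · by_cases hA' : G.Adj (τ k) (τ l)
      · have h1 := cfE_route_adj hA he
        have h2 := cfE_route_adj hA' he'
        rw [h1, Sym2.eq_iff] at h2
        rcases h2 with ⟨h3, h4⟩ | ⟨h3, h4⟩
        · exact hne (by rw [hinj h3, hinj h4])
        · have h5 := hinj h3
          have h6 := hinj h4
          subst h5
          subst h6
          exact absurd h (not_lt_of_gt h')
      · have h1 := cfE_route_adj hA he
        have h2 := hmem k l h' e he' hA'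
        rw [h1, Sym2.mem_iff] at h2
        apply hmid k l h' hA'
        rcases h2 with h2 | h2
        · exact ⟨i, h2.symm⟩
        · exact ⟨j, h2.symm⟩
    · have h2 := hmem i j h e he hA
      rcases hvert k l h' e he' _ h2 with h3 | h3 | ⟨h3, h4⟩
      · exact hmid i j h hA ⟨k, h3.symm⟩
      · exact hmid i j h hA ⟨l, h3.symm⟩
      · exact hne3 i j k l h h' hne hA h3 h4
  -- the ncard terms vanish
  have hzero : ∀ i j k l, i < j → k < l → (i, j) ≠ (k, l) →
      {x : V | x ∉ Set.range τ ∧ (∃ e ∈ cfE G τ ω s(i, j), x ∈ e) ∧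
        (∃ f ∈ cfE G τ ω s(k, l), x ∈ f)}.ncard = 0 := by
    intro i j k l h h' hne
    have : {x : V | x ∉ Set.range τ ∧ (∃ e ∈ cfE G τ ω s(i, j), x ∈ e) ∧
        (∃ f ∈ cfE G τ ω s(k, l), x ∈ f)} = ∅ := by
      rw [Set.eq_empty_iff_forall_notMem]
      rintro x ⟨hxr, ⟨e, he, hxe⟩, ⟨f, hf, hxf⟩⟩
      rw [cfE_of_lt τ ω h] at he
      rw [cfE_of_lt τ ω h'] at hf
      rcases hvert i j h e he x hxe with h1 | h1 | ⟨h1, h2⟩
      · exact hxr ⟨i, h1.symm⟩
      · exact hxr ⟨j, h1.symm⟩
      · rcases hvert k l h' f hf x hxf with h3 | h3 | ⟨h3, h4⟩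
        · exact hxr ⟨k, h3.symm⟩
        · exact hxr ⟨l, h3.symm⟩
        · exact hne3 i j k l h h' hne h1 h3 (h2.symm.trans h4)
    rw [this, Set.ncard_empty]
  have himg : ed (⊤ : SimpleGraph (Fin a)) = (prs a).image (fun e => s(e.1, e.2)) := by
    ext p
    rw [mem_ed, Finset.mem_image]
    constructor
    · intro hp'
      obtain ⟨i, j, h, rfl⟩ := cfE_lt_rep (SimpleGraph.not_isDiag_of_mem_edgeSet _ hp')
      exact ⟨(i, j), by simp [prs, h], rfl⟩
    · rintro ⟨⟨i, j⟩, h, rfl⟩
      simp only [prs, Finset.mem_filter] at h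
      simpa using h.2.ne
  have hinj2 : Set.InjOn (fun e : Fin a × Fin a => s(e.1, e.2)) (prs a : Set _) := by
    rintro ⟨i, j⟩ h ⟨k, l⟩ h' heq
    simp only [prs, Finset.coe_filter, Set.mem_ofPred_eq] at h h'
    simp only [Sym2.eq_iff] at heq
    rcases heq with ⟨h3, h4⟩ | ⟨h3, h4⟩
    · rw [h3, h4]
    · subst h3
      subst h4
      exact absurd h.2 (not_lt_of_gt h'.2)
  have himg2 : ∀ e ∈ prs a, (ed (⊤ : SimpleGraph (Fin a))).erase s(e.1, e.2) =
      ((prs a).erase e).image (fun e => s(e.1, e.2)) := by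
    intro e he
    ext p
    rw [himg, Finset.mem_erase, Finset.mem_image, Finset.mem_image]
    constructor
    · rintro ⟨h1, e', h2, rfl⟩
      exact ⟨e', Finset.mem_erase.mpr ⟨fun h3 => h1 (by rw [h3]), h2⟩, rfl⟩
    · rintro ⟨e', h2, rfl⟩
      rw [Finset.mem_erase] at h2
      exact ⟨fun h3 => h2.1 (hinj2 h2.2 he h3), e', h2.2, rfl⟩
  have hfin : (∑ p ∈ ed (⊤ : SimpleGraph (Fin a)),
      ∑ q ∈ (ed (⊤ : SimpleGraph (Fin a))).erase p,
        ((∑ e ∈ cfE G τ ω p, ∑ f ∈ cfE G τ ω q, D.N e f) +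
          {x : V | x ∉ Set.range τ ∧ (∃ e ∈ cfE G τ ω p, x ∈ e) ∧
            (∃ f ∈ cfE G τ ω q, x ∈ f)}.ncard)) =
      ∑ e ∈ prs a, ∑ e' ∈ (prs a).erase e,
        ∑ f ∈ route G (τ e.1) (τ e.2) (ω e), ∑ f' ∈ route G (τ e'.1) (τ e'.2) (ω e'),
          D.N f f' := by
    have h0 : ∀ F : Sym2 (Fin a) → ℕ, ∑ p ∈ ed (⊤ : SimpleGraph (Fin a)), F p =
        ∑ e ∈ prs a, F s(e.1, e.2) := by
      intro F
      rw [himg, Finset.sum_image hinj2]
    rw [h0]
    apply Finset.sum_congr rfl
    rintro ⟨i, j⟩ he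
    have hij : i < j := by simpa [prs] using he
    rw [himg2 (i, j) he, Finset.sum_image (hinj2.mono
      (Finset.coe_subset.mpr (Finset.erase_subset _ _)))]
    apply Finset.sum_congr rfl
    rintro ⟨k, l⟩ he'
    rw [Finset.mem_erase] at he'
    have hkl : k < l := by simpa [prs] using he'.2
    rw [hzero i j k l hij hkl (fun h => he'.1 h.symm), add_zero]
    simp only
    rw [cfE_of_lt τ ω hij, cfE_of_lt τ ω hkl]
  rw [hfin] at key
  have key2 : ((crK a : ℕ) : ℝ) ≤ ((∑ e ∈ prs a, ∑ e' ∈ (prs a).erase e,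
        ∑ f ∈ route G (τ e.1) (τ e.2) (ω e), ∑ f' ∈ route G (τ e'.1) (τ e'.2) (ω e'),
          D.N f f' : ℕ) : ℝ) := by
    exact_mod_cast key
  refine le_trans key2 (le_of_eq ?_)
  push_cast
  rfl

end Pool.Agent.ALB
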