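import Pool.Agent.ALB.ClDefs
import Pool.Agent.ALB.ArcA

/-! # ALB module CLZ: basic facts about clouds -/

set_option autoImplicit false

namespace Pool.Agent.ALB

open Finset

variable {V : Type} [Fintype V] {G : SimpleGraph V} {C κ η : ℝ}

/-- Proof: `K ≥ κ n > 0`. -/
theorem Cloud.K_pos (c : Cloud G C κ η) (hκ : 0 < κ) (hV : 0 < Fintype.card V) : 0 < c.K := by
  have h1 : (0 : ℝ) < Fintype.card V := by exact_mod_cast hV
  exact (mul_pos hκ h1).trans_le c.K_ge

/-- Proof: `∑ x / K = 1`. -/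
theorem Cloud.sum_p (c : Cloud G C κ η) (hK : 0 < c.K) : ∑ v, c.p v = 1 := by
  unfold Cloud.p
  rw [← Finset.sum_div]
  exact div_self hK.ne'

/-- Proof: if `two u v`, then `R u v` is nonempty (`η n > 0`) and the sum is
`|R| · (1/|R|) = 1`; otherwise `n · (1/n)`. -/
theorem Cloud.sum_ρ (c : Cloud G C κ η) (hη : 0 < η) (hV : 0 < Fintype.card V) (u v : V) :
    ∑ w, c.ρ u v w = 1 := by
  classical
  have h1 : (0 : ℝ) < Fintype.card V := by exact_mod_cast hV
  unfold Cloud.ρ
  by_cases h : c.two u v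
  · simp only [if_pos h]
    have h2 := c.R_card u v h.1 h.2.1 h.2.2.1 h.2.2.2
    have h3 : 0 < ((c.R u v).card : ℝ) := (mul_pos hη h1).trans_le h2
    rw [← Finset.sum_filter, Finset.sum_const, nsmul_eq_mul]
    have h4 : (Finset.univ.filter fun w => w ∈ c.R u v) = c.R u v := by
      ext w
      simp
    rw [h4]
    field_simp
  · simp only [if_neg h]
    rw [Finset.sum_const, Finset.card_univ, nsmul_eq_mul]
    field_simp

theorem Cloud.ρ_nonneg (c : Cloud G C κ η) (u v w : V) : 0 ≤ c.ρ u v w := by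
  unfold Cloud.ρ
  split
  · split
    · positivity
    · exact le_rfl
  · positivity

theorem Cloud.p_nonneg (c : Cloud G C κ η) (v : V) : 0 ≤ c.p v :=
  div_nonneg (c.x_nonneg v) (Finset.sum_nonneg fun v _ => c.x_nonneg v)

/-- Proof: `two` and `R` are symmetric. -/
theorem Cloud.ρ_comm (c : Cloud G C κ η) (u v w : V) : c.ρ u v w = c.ρ v u w := by
  have h1 : c.two u v ↔ c.two v u := by
    unfold Cloud.two
    rw [G.adj_comm u v, ne_comm]
    tauto
  unfold Cloud.ρ
  rw [c.R_symm u v]
  by_cases h : c.two u v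
  · rw [if_pos h, if_pos (h1.1 h)]
  · rw [if_neg h, if_neg fun h2 => h (h1.2 h2)]

/-- Proof: `two u v` gives `u ≠ v`, `¬ Adj`; `{s(u,w), s(w,v)} = {s(v,w), s(w,u)}`. -/
theorem route_comm (u v w : V) : route G u v w = route G v u w := by
  classical
  unfold route
  by_cases h : u = v
  · rw [if_pos h, if_pos h.symm]
  · rw [if_neg h, if_neg (Ne.symm h)]
    by_cases h1 : G.Adj u v
    · rw [if_pos h1, if_pos h1.symm, Sym2.eq_swap]
    · rw [if_neg h1, if_neg fun h2 => h1 h2.symm]
      rw [Sym2.eq_swap (a := u), Sym2.eq_swap (a := w) (b := v), Finset.pair_comm]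

/-- Configurations of positive weight only use edges of `G`.
Proof.  `u = v`: empty.  `Adj u v`: `s(u,v)`.  Otherwise, as `p u, p v ≠ 0`, we have `two u v`, so
`ρ ≠ 0` means `w ∈ R u v`, and `R_adj`. -/
theorem Cloud.route_sub (c : Cloud G C κ η) {u v w : V} (hu : c.p u ≠ 0) (hv : c.p v ≠ 0)
    (hw : c.ρ u v w ≠ 0) : ∀ f ∈ route G u v w, f ∈ G.edgeSet := by
  classical
  intro f hf
  unfold route at hf
  by_cases h : u = v
  · rw [if_pos h] at hf
    exact absurd hf (Finset.notMem_empty _)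
  · rw [if_neg h] at hf
    by_cases h1 : G.Adj u v
    · rw [if_pos h1, Finset.mem_singleton] at hf
      rw [hf]
      exact h1
    · rw [if_neg h1] at hf
      have hxu : c.x u ≠ 0 := fun h0 => hu (by unfold Cloud.p; rw [h0, zero_div])
      have hxv : c.x v ≠ 0 := fun h0 => hv (by unfold Cloud.p; rw [h0, zero_div])
      have h2 : c.two u v := ⟨h, h1, hxu, hxv⟩
      unfold Cloud.ρ at hw
      rw [if_pos h2] at hw
      have h3 : w ∈ c.R u v := by
        by_contra h4
        exact hw (if_neg h4)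
      obtain ⟨h4, h5⟩ := c.R_adj u v w h3
      rw [Finset.mem_insert, Finset.mem_singleton] at hf
      rcases hf with rfl | rfl
      · exact h4
      · exact h5.symm

end Pool.Agent.ALB
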