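import Pool.Agent.ALB.CloudI

/-! # ALB module MIX: mixtures of clouds -/

set_option autoImplicit false

namespace Pool.Agent.ALB

open Finset

variable {V : Type} [Fintype V] {G : SimpleGraph V} {C κ η : ℝ}

/-- **Mixtures of clouds.**  If finitely many clouds of the same total weight `K`, with
probabilities `P`, satisfy `∑ P load(e)² ≤ 1` for every edge, then ....
Proof.  Sum `cloud_ineq` with the weights `P σ` and use
`∑_σ P σ load_σ f load_σ f' ≤ (1/2) ∑ P σ load_σ(f)² + (1/2) ∑ P σ load_σ(f')² ≤ 1`. -/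
theorem mix_ineq (D : Drw G) (hD : D.NoAdj) (hC : 0 < C) (hκ : 0 < κ)
    (hη : 0 < η) (hV : 0 < Fintype.card V) {a : ℕ} (ha : 4 ≤ a) {S : Type} [Fintype S]
    (P : S → ℝ) (hP : ∀ σ, 0 ≤ P σ) (hP1 : ∑ σ, P σ = 1) (c : S → Cloud G C κ η) (K : ℝ)
    (hK : ∀ σ, (c σ).K = K) (hL : ∀ f ∈ ed G, ∑ σ, P σ * (c σ).load f ^ 2 ≤ 1) :
    (crK a : ℝ) / (24 * (a.choose 4 : ℝ)) * K ^ 4 *
        (1 - (a : ℝ) ^ 4 * (2 * C / κ + 1 / η) / (Fintype.card V : ℝ)) ≤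
      (1 + B0 C κ η * C ^ 4 / ((a : ℝ) - 3)) * (D.cr : ℝ) := by
  set L : ℝ := (crK a : ℝ) / (24 * (a.choose 4 : ℝ)) * K ^ 4 *
        (1 - (a : ℝ) ^ 4 * (2 * C / κ + 1 / η) / (Fintype.card V : ℝ)) with hLd
  set B : ℝ := B0 C κ η * C ^ 4 / ((a : ℝ) - 3) with hB
  have h1 : ∀ σ, L ≤ ∑ f ∈ ed G, ∑ f' ∈ ed G, (c σ).load f * (c σ).load f' * (D.N f f' : ℝ) +
      B * (D.cr : ℝ) := by
    intro σ
    have := cloud_ineq D hD (c σ) hC hκ hη hV ha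
    rw [hK σ] at this
    exact this
  have h2 : L ≤ ∑ σ, P σ * (∑ f ∈ ed G, ∑ f' ∈ ed G,
      (c σ).load f * (c σ).load f' * (D.N f f' : ℝ) + B * (D.cr : ℝ)) := by
    calc L = ∑ σ, P σ * L := by rw [← Finset.sum_mul, hP1, one_mul]
      _ ≤ _ := Finset.sum_le_sum fun σ _ => mul_le_mul_of_nonneg_left (h1 σ) (hP σ)
  have h3 : ∑ σ, P σ * (∑ f ∈ ed G, ∑ f' ∈ ed G,
      (c σ).load f * (c σ).load f' * (D.N f f' : ℝ) + B * (D.cr : ℝ)) =
      ∑ f ∈ ed G, ∑ f' ∈ ed G, (∑ σ, P σ * ((c σ).load f * (c σ).load f')) * (D.N f f' : ℝ) +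
      B * (D.cr : ℝ) := by
    simp only [mul_add]
    rw [Finset.sum_add_distrib, ← Finset.sum_mul, hP1, one_mul]
    congr 1
    simp only [Finset.mul_sum, Finset.sum_mul]
    rw [Finset.sum_comm]
    refine Finset.sum_congr rfl fun f _ => ?_
    rw [Finset.sum_comm]
    refine Finset.sum_congr rfl fun f' _ => ?_
    exact Finset.sum_congr rfl fun σ _ => by ring
  have h4 : ∀ f ∈ ed G, ∀ f' ∈ ed G, ∑ σ, P σ * ((c σ).load f * (c σ).load f') ≤ 1 := by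
    intro f hf f' hf'
    have e1 : ∑ σ, P σ * ((c σ).load f * (c σ).load f') ≤
        (1 / 2) * ∑ σ, P σ * (c σ).load f ^ 2 + (1 / 2) * ∑ σ, P σ * (c σ).load f' ^ 2 := by
      rw [Finset.mul_sum, Finset.mul_sum, ← Finset.sum_add_distrib]
      refine Finset.sum_le_sum fun σ _ => ?_
      have := mul_nonneg (hP σ) (sq_nonneg ((c σ).load f - (c σ).load f'))
      nlinarith
    have e2 := hL f hf
    have e3 := hL f' hf'
    linarith
  have h5 : (D.cr : ℝ) = ∑ f ∈ ed G, ∑ f' ∈ ed G, (D.N f f' : ℝ) := by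
    unfold Drw.cr
    push_cast
    rfl
  have h6 : ∑ f ∈ ed G, ∑ f' ∈ ed G, (∑ σ, P σ * ((c σ).load f * (c σ).load f')) *
      (D.N f f' : ℝ) ≤ (D.cr : ℝ) := by
    rw [h5]
    refine Finset.sum_le_sum fun f hf => Finset.sum_le_sum fun f' hf' => ?_
    calc _ ≤ 1 * (D.N f f' : ℝ) := mul_le_mul_of_nonneg_right (h4 f hf f' hf') (Nat.cast_nonneg _)
      _ = _ := one_mul _
  calc L ≤ _ := h2
    _ = _ := h3
    _ ≤ (D.cr : ℝ) + B * (D.cr : ℝ) := by linarith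
    _ = _ := by ring

end Pool.Agent.ALB
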