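import Pool.Agent.ALB.ClDefs

/-! # ALB module CNTP: counting index pairs -/

set_option autoImplicit false

namespace Pool.Agent.ALB

open Finset

private theorem cntp_pairs {a : ℕ} (s : Finset (Fin a)) :
    ((prs a).filter (fun e => e.1 ∈ s ∧ e.2 ∈ s)).card = s.card.choose 2 := by
  classical
  set T := (prs a).filter (fun e => e.1 ∈ s ∧ e.2 ∈ s) with hT
  have h1 : s.offDiag = T ∪ T.image Prod.swap := by
    ext ⟨x, y⟩
    simp only [Finset.mem_offDiag, Finset.mem_union, Finset.mem_image, hT, prs, Finset.mem_filter,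
      Finset.mem_univ, true_and, Prod.exists, Prod.swap_prod_mk, Prod.mk.injEq]
    constructor
    · rintro ⟨hx, hy, hne⟩
      rcases lt_or_gt_of_ne hne with h | h
      · exact Or.inl ⟨h, hx, hy⟩
      · exact Or.inr ⟨y, x, ⟨h, hy, hx⟩, rfl, rfl⟩
    · rintro (⟨h, hx, hy⟩ | ⟨y', x', ⟨h, hy, hx⟩, rfl, rfl⟩)
      · exact ⟨hx, hy, h.ne⟩
      · exact ⟨hx, hy, h.ne'⟩
  have h2 : Disjoint T (T.image Prod.swap) := by
    rw [Finset.disjoint_left]
    rintro ⟨x, y⟩ hxy hxy'
    simp only [Finset.mem_image, hT, prs, Finset.mem_filter,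
      Finset.mem_univ, true_and, Prod.exists, Prod.swap_prod_mk, Prod.mk.injEq] at hxy hxy'
    obtain ⟨y', x', ⟨h, _, _⟩, rfl, rfl⟩ := hxy'
    exact lt_asymm h hxy.1
  have h3 : (T.image Prod.swap).card = T.card :=
    Finset.card_image_of_injective _ Prod.swap_injective
  have h4 := Finset.offDiag_card s
  rw [h1, Finset.card_union_of_disjoint h2, h3] at h4
  rw [Nat.choose_two_right, Nat.mul_sub_one]
  omega

private theorem cntp_prs (a : ℕ) : (prs a).card = a.choose 2 := by
  classical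
  have h := cntp_pairs (Finset.univ : Finset (Fin a))
  simpa using h

private theorem cntp_a (a : ℕ) : a * a = a + 2 * a.choose 2 := by
  induction a with
  | zero => simp
  | succ n ih =>
    rw [Nat.choose_succ_succ' n 1, Nat.choose_one_right]
    nlinarith

private theorem cntp_b (a : ℕ) : a * a.choose 2 = 2 * a.choose 2 + 3 * a.choose 3 := by
  induction a with
  | zero => simp
  | succ n ih =>
    have h1 := cntp_a n
    rw [Nat.choose_succ_succ' n 1, Nat.choose_succ_succ' n 2, Nat.choose_one_right]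
    nlinarith

private theorem cntp_c (a : ℕ) :
    a.choose 2 * a.choose 2 = a.choose 2 + 6 * a.choose 3 + 6 * a.choose 4 := by
  induction a with
  | zero => simp
  | succ n ih =>
    have h1 := cntp_a n
    have h2 := cntp_b n
    rw [Nat.choose_succ_succ' n 1, Nat.choose_succ_succ' n 2, Nat.choose_succ_succ' n 3,
      Nat.choose_one_right]
    nlinarith

private theorem cntp_d (a : ℕ) : a.choose 2 * (a - 2).choose 2 = 6 * a.choose 4 := by
  rcases Nat.lt_or_ge a 4 with h | h
  · interval_cases a <;> simp [Nat.choose]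
  · have h1 := Nat.choose_mul (n := a) (k := 4) (s := 2) (by norm_num)
    have h2 : Nat.choose 4 2 = 6 := rfl
    have h3 : 4 - 2 = 2 := rfl
    rw [h2, h3] at h1
    rw [← h1, mul_comm]

open Classical in
/-- Number of ordered pairs of disjoint index pairs: `6 binom(a,4)`.
Proof: e.g. `prs a × prs a` disjoint pairs correspond to `4`-subsets with `6` choices; or:
`|prs a| = choose a 2` and for fixed `e` the number of disjoint `e'` is `choose (a-2) 2`;
`choose a 2 * choose (a-2) 2 = 6 choose a 4`. -/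
theorem card_disj (a : ℕ) :
    (((prs a) ×ˢ (prs a)).filter (fun q => q.1.1 ≠ q.2.1 ∧ q.1.1 ≠ q.2.2 ∧ q.1.2 ≠ q.2.1 ∧
      q.1.2 ≠ q.2.2)).card = 6 * a.choose 4 := by
  classical
  rw [Finset.card_filter, Finset.sum_product]
  have h1 : ∀ e ∈ prs a, (∑ e' ∈ prs a, if (e.1 ≠ e'.1 ∧ e.1 ≠ e'.2 ∧ e.2 ≠ e'.1 ∧ e.2 ≠ e'.2) then 1
      else 0) = (a - 2).choose 2 := by
    intro e he
    rw [← Finset.card_filter]
    have hne : e.1 ≠ e.2 := by
      have h := he
      rw [prs, Finset.mem_filter] at h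
      exact h.2.ne
    have h2 : ((Finset.univ : Finset (Fin a)) \ {e.1, e.2}).card = a - 2 := by
      rw [Finset.card_sdiff_of_subset (Finset.subset_univ _), Finset.card_pair hne, Finset.card_univ,
        Fintype.card_fin]
    rw [← h2, ← cntp_pairs]
    congr 1
    ext e'
    simp only [Finset.mem_filter, Finset.mem_sdiff, Finset.mem_univ, true_and,
      Finset.mem_insert, Finset.mem_singleton, not_or]
    constructor
    · rintro ⟨h, h1, h2, h3, h4⟩
      exact ⟨h, ⟨h1.symm, h3.symm⟩, h2.symm, h4.symm⟩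
    · rintro ⟨h, ⟨h1, h3⟩, h2, h4⟩
      exact ⟨h, Ne.symm h1, Ne.symm h2, Ne.symm h3, Ne.symm h4⟩
  rw [Finset.sum_congr rfl h1, Finset.sum_const, cntp_prs, smul_eq_mul, cntp_d]

open Classical in
/-- Number of ordered pairs of different index pairs with a common index: `6 binom(a,3)`.
Proof: for fixed `e = (i,j)` there are `2 (a - 2)` of them;
`choose a 2 * 2 (a-2) = 6 choose a 3`. -/
theorem card_adjp (a : ℕ) :
    (((prs a) ×ˢ (prs a)).filter (fun q => q.1 ≠ q.2 ∧ (q.1.1 = q.2.1 ∨ q.1.1 = q.2.2 ∨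
      q.1.2 = q.2.1 ∨ q.1.2 = q.2.2))).card = 6 * a.choose 3 := by
  classical
  set P := (prs a) ×ˢ (prs a) with hP
  set A := P.filter (fun q => q.1 ≠ q.2 ∧ (q.1.1 = q.2.1 ∨ q.1.1 = q.2.2 ∨
      q.1.2 = q.2.1 ∨ q.1.2 = q.2.2)) with hA
  set B := P.filter (fun q => q.1.1 ≠ q.2.1 ∧ q.1.1 ≠ q.2.2 ∧ q.1.2 ≠ q.2.1 ∧
      q.1.2 ≠ q.2.2) with hB
  set C := (prs a).diag with hC
  have hBc : B.card = 6 * a.choose 4 := card_disj a
  have hCc : C.card = a.choose 2 := by rw [hC, Finset.diag_card, cntp_prs]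
  have hPc : P.card = a.choose 2 * a.choose 2 := by rw [hP, Finset.card_product, cntp_prs]
  have h1 : P = A ∪ (B ∪ C) := by
    ext ⟨e, e'⟩
    simp only [hA, hB, hC, Finset.mem_union, Finset.mem_filter, Finset.mem_diag, hP,
      Finset.mem_product]
    constructor
    · rintro ⟨he, he'⟩
      by_cases h : e = e'
      · exact Or.inr (Or.inr ⟨he, h⟩)
      · by_cases h' : e.1 = e'.1 ∨ e.1 = e'.2 ∨ e.2 = e'.1 ∨ e.2 = e'.2
        · exact Or.inl ⟨⟨he, he'⟩, h, h'⟩
        · rw [not_or, not_or, not_or] at h'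
          exact Or.inr (Or.inl ⟨⟨he, he'⟩, h'⟩)
    · rintro (⟨h, _⟩ | ⟨h, _⟩ | ⟨h, h'⟩)
      · exact h
      · exact h
      · exact ⟨h, h' ▸ h⟩
  have h2 : Disjoint B C := by
    rw [Finset.disjoint_left]
    rintro ⟨e, e'⟩ hb hc
    rw [hB, Finset.mem_filter] at hb
    rw [hC, Finset.mem_diag] at hc
    obtain ⟨_, hc⟩ := hc
    simp only at hc
    subst hc
    exact hb.2.1 rfl
  have h3 : Disjoint A (B ∪ C) := by
    rw [Finset.disjoint_left]
    rintro ⟨e, e'⟩ ha hbc
    rw [hA, Finset.mem_filter] at ha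
    rcases Finset.mem_union.1 hbc with hb | hc
    · rw [hB, Finset.mem_filter] at hb
      obtain ⟨_, b1, b2, b3, b4⟩ := hb
      rcases ha.2.2 with h | h | h | h
      · exact b1 h
      · exact b2 h
      · exact b3 h
      · exact b4 h
    · rw [hC, Finset.mem_diag] at hc
      exact ha.2.1 hc.2
  have h4 : P.card = A.card + (B.card + C.card) := by
    rw [h1, Finset.card_union_of_disjoint h3, Finset.card_union_of_disjoint h2]
  have h5 := cntp_c a
  omega

end Pool.Agent.ALB
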