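import Pool.Agent.ALB.ClB
import Pool.Agent.ALB.ClC
import Pool.Agent.ALB.ClD
import Pool.Agent.ALB.ClE
import Pool.Agent.ALB.CntP

/-! # ALB module CLOUD: the cloud inequality -/

set_option autoImplicit false

namespace Pool.Agent.ALB

open Finset

variable {V : Type} [Fintype V] {G : SimpleGraph V} {C κ η : ℝ}

/-- **Cloud inequality.**

Proof.  Sum `crK_le_config` over the good configurations with weights `wt`
(configurations with `wt = 0` do not matter, `crs ≥ 0`):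
`crK a · (1 - P(bad)) ≤ ∑_{e ≠ e'} ∑_{τ,ω} wt crs`.  Use `Cloud.sum_wt`, `Cloud.bad_le`,
`expect_disj` for the `6 choose a 4` ordered pairs of disjoint index pairs and `expect_adj` for
the `6 choose a 3` others:
`crK a (1 - a⁴ (2C/κ+1/η)/n) ≤ 24 choose a 4 / K⁴ · S + 6 choose a 3 · B0/n⁴ · cr`.
Multiply by `K⁴ / (24 choose a 4)`; `6 choose a 3 / (24 choose a 4) = 1/(a-3)` and `K ≤ C n`. -/
theorem cloud_ineq (D : Drw G) (hD : D.NoAdj) (c : Cloud G C κ η) (hC : 0 < C) (hκ : 0 < κ)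
    (hη : 0 < η) (hV : 0 < Fintype.card V) {a : ℕ} (ha : 4 ≤ a) :
    (crK a : ℝ) / (24 * (a.choose 4 : ℝ)) * c.K ^ 4 *
        (1 - (a : ℝ) ^ 4 * (2 * C / κ + 1 / η) / (Fintype.card V : ℝ)) ≤
      ∑ f ∈ ed G, ∑ f' ∈ ed G, c.load f * c.load f' * (D.N f f' : ℝ) +
        B0 C κ η * C ^ 4 / ((a : ℝ) - 3) * (D.cr : ℝ) := by
  classical
  set n : ℝ := (Fintype.card V : ℝ) with hn
  have hn0 : 0 < n := by rw [hn]; exact_mod_cast hV
  have hK : 0 < c.K := lt_of_lt_of_le (mul_pos hκ hn0) c.K_ge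
  have hKC : c.K ≤ C * n := by
    unfold Cloud.K
    calc ∑ v, c.x v ≤ ∑ _v : V, C := Finset.sum_le_sum fun v _ => c.x_le v
      _ = C * n := by rw [Finset.sum_const, Finset.card_univ, nsmul_eq_mul, mul_comm]
  set β : ℝ := (a : ℝ) ^ 4 * (2 * C / κ + 1 / η) / n with hβ
  set S : ℝ := ∑ f ∈ ed G, ∑ f' ∈ ed G, c.load f * c.load f' * (D.N f f' : ℝ) with hS
  have hbad := c.bad_le hC hκ hη hV a
  have hwt := c.sum_wt hK hη hV a
  have hcrs : ∀ (τ : Fin a → V) (ω : Fin a × Fin a → V) (e e' : Fin a × Fin a),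
      0 ≤ crs D τ ω e e' := fun τ ω e e' =>
    Finset.sum_nonneg fun _ _ => Finset.sum_nonneg fun _ _ => Nat.cast_nonneg _
  have hB0 : 0 ≤ B0 C κ η := by
    unfold B0
    positivity
  -- step 1
  have s1 : (crK a : ℝ) * (1 - β) ≤ ∑ τ : Fin a → V, ∑ ω : Fin a × Fin a → V,
      c.wt τ ω * ∑ e ∈ prs a, ∑ e' ∈ (prs a).erase e, crs D τ ω e e' := by
    have e1 : (crK a : ℝ) * (1 - β) ≤ (crK a : ℝ) * (∑ τ : Fin a → V,
        ∑ ω : Fin a × Fin a → V, (c.wt τ ω - if c.bad τ ω then c.wt τ ω else 0)) := by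
      apply mul_le_mul_of_nonneg_left _ (Nat.cast_nonneg _)
      simp only [Finset.sum_sub_distrib]
      rw [hwt]
      exact sub_le_sub_left hbad 1
    refine e1.trans ?_
    rw [Finset.mul_sum]
    refine Finset.sum_le_sum fun τ _ => ?_
    rw [Finset.mul_sum]
    refine Finset.sum_le_sum fun ω _ => ?_
    have hT : 0 ≤ ∑ e ∈ prs a, ∑ e' ∈ (prs a).erase e, crs D τ ω e e' :=
      Finset.sum_nonneg fun _ _ => Finset.sum_nonneg fun _ _ => hcrs _ _ _ _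
    by_cases hb : c.bad τ ω
    · rw [if_pos hb, sub_self, mul_zero]
      exact mul_nonneg (c.wt_nonneg τ ω) hT
    · rw [if_neg hb, sub_zero, mul_comm]
      by_cases hw : c.wt τ ω = 0
      · rw [hw, zero_mul, zero_mul]
      · exact mul_le_mul_of_nonneg_left (crK_le_config D c τ ω hw hb) (c.wt_nonneg τ ω)
  -- step 2
  set F : (Fin a × Fin a) × (Fin a × Fin a) → ℝ := fun q =>
    ∑ τ : Fin a → V, ∑ ω : Fin a × Fin a → V, c.wt τ ω * crs D τ ω q.1 q.2 with hF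
  have s2 : ∑ τ : Fin a → V, ∑ ω : Fin a × Fin a → V,
      c.wt τ ω * ∑ e ∈ prs a, ∑ e' ∈ (prs a).erase e, crs D τ ω e e' =
      ∑ q ∈ ((prs a) ×ˢ (prs a)).filter (fun q => q.1 ≠ q.2), F q := by
    have e1 : ∀ (τ : Fin a → V) (ω : Fin a × Fin a → V),
        ∑ e ∈ prs a, ∑ e' ∈ (prs a).erase e, crs D τ ω e e' =
        ∑ q ∈ ((prs a) ×ˢ (prs a)).filter (fun q => q.1 ≠ q.2), crs D τ ω q.1 q.2 := by
      intro τ ω
      rw [Finset.sum_filter, Finset.sum_product]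
      refine Finset.sum_congr rfl fun e _ => ?_
      rw [← Finset.sum_filter]
      congr 1
      ext e'
      simp only [Finset.mem_erase, Finset.mem_filter]
      constructor
      · rintro ⟨h1, h2⟩
        exact ⟨h2, fun h => h1 h.symm⟩
      · rintro ⟨h1, h2⟩
        exact ⟨fun h => h2 h.symm, h1⟩
    simp only [e1, Finset.mul_sum, hF]
    rw [Finset.sum_comm]
    have e2 : ∀ ω : Fin a × Fin a → V, ∑ τ : Fin a → V,
        ∑ q ∈ ((prs a) ×ˢ (prs a)).filter (fun q => q.1 ≠ q.2), c.wt τ ω * crs D τ ω q.1 q.2 =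
        ∑ q ∈ ((prs a) ×ˢ (prs a)).filter (fun q => q.1 ≠ q.2), ∑ τ : Fin a → V,
          c.wt τ ω * crs D τ ω q.1 q.2 := fun ω => Finset.sum_comm
    simp only [e2]
    rw [Finset.sum_comm]
    exact Finset.sum_congr rfl fun q _ => Finset.sum_comm
  -- step 3
  have s3 : ((prs a) ×ˢ (prs a)).filter (fun q => q.1 ≠ q.2) =
      ((prs a) ×ˢ (prs a)).filter (fun q => q.1.1 ≠ q.2.1 ∧ q.1.1 ≠ q.2.2 ∧ q.1.2 ≠ q.2.1 ∧
        q.1.2 ≠ q.2.2) ∪
      ((prs a) ×ˢ (prs a)).filter (fun q => q.1 ≠ q.2 ∧ (q.1.1 = q.2.1 ∨ q.1.1 = q.2.2 ∨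
        q.1.2 = q.2.1 ∨ q.1.2 = q.2.2)) := by
    ext q
    simp only [Finset.mem_union, Finset.mem_filter]
    constructor
    · rintro ⟨h1, h2⟩
      by_cases h : q.1.1 = q.2.1 ∨ q.1.1 = q.2.2 ∨ q.1.2 = q.2.1 ∨ q.1.2 = q.2.2
      · exact Or.inr ⟨h1, h2, h⟩
      · push Not at h
        exact Or.inl ⟨h1, h⟩
    · rintro (⟨h1, h2⟩ | ⟨h1, h2⟩)
      · exact ⟨h1, fun h => h2.1 (by rw [h])⟩
      · exact ⟨h1, h2.1⟩
  have s4 : Disjoint (((prs a) ×ˢ (prs a)).filter (fun q => q.1.1 ≠ q.2.1 ∧ q.1.1 ≠ q.2.2 ∧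
        q.1.2 ≠ q.2.1 ∧ q.1.2 ≠ q.2.2))
      (((prs a) ×ˢ (prs a)).filter (fun q => q.1 ≠ q.2 ∧ (q.1.1 = q.2.1 ∨ q.1.1 = q.2.2 ∨
        q.1.2 = q.2.1 ∨ q.1.2 = q.2.2))) := by
    rw [Finset.disjoint_left]
    intro q h1 h2
    rw [Finset.mem_filter] at h1 h2
    obtain ⟨-, k1, k2, k3, k4⟩ := h1
    rcases h2.2.2 with h | h | h | h
    · exact k1 h
    · exact k2 h
    · exact k3 h
    · exact k4 h
  have s5 : ∑ q ∈ ((prs a) ×ˢ (prs a)).filter (fun q => q.1 ≠ q.2), F q ≤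
      (6 * a.choose 4 : ℝ) * (4 / c.K ^ 4 * S) +
      (6 * a.choose 3 : ℝ) * (B0 C κ η / n ^ 4 * (D.cr : ℝ)) := by
    rw [s3, Finset.sum_union s4]
    refine add_le_add ?_ ?_
    · refine (Finset.sum_le_card_nsmul _ _ (4 / c.K ^ 4 * S) fun q hq => ?_).trans (le_of_eq ?_)
      · rw [Finset.mem_filter, Finset.mem_product] at hq
        obtain ⟨⟨h1, h2⟩, k1, k2, k3, k4⟩ := hq
        have h1' : q.1.1 ≠ q.1.2 := by
          unfold prs at h1
          exact ((Finset.mem_filter.1 h1).2).ne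
        have h2' : q.2.1 ≠ q.2.2 := by
          unfold prs at h2
          exact ((Finset.mem_filter.1 h2).2).ne
        exact (expect_disj D c hK hη hV h1' h2' k1 k2 k3 k4).le
      · rw [card_disj, nsmul_eq_mul]
        push_cast
        ring
    · refine (Finset.sum_le_card_nsmul _ _ (B0 C κ η / n ^ 4 * (D.cr : ℝ)) fun q hq => ?_).trans
        (le_of_eq ?_)
      · rw [Finset.mem_filter, Finset.mem_product] at hq
        exact expect_adj D hD c hC hκ hη hV hq.1.1 hq.1.2 hq.2.1 hq.2.2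
      · rw [card_adjp, nsmul_eq_mul]
        push_cast
        ring
  have s6 : (crK a : ℝ) * (1 - β) ≤ (6 * a.choose 4 : ℝ) * (4 / c.K ^ 4 * S) +
      (6 * a.choose 3 : ℝ) * (B0 C κ η / n ^ 4 * (D.cr : ℝ)) := s1.trans (s2.le.trans s5)
  have hch4 : (0 : ℝ) < a.choose 4 := by exact_mod_cast Nat.choose_pos ha
  have har : (4 : ℝ) ≤ a := by exact_mod_cast ha
  have hch : (a.choose 3 : ℝ) * ((a : ℝ) - 3) = (a.choose 4 : ℝ) * 4 := by
    have h1 := Nat.choose_succ_right_eq a 3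
    have h2 : ((a.choose 4 * 4 : ℕ) : ℝ) = ((a.choose 3 * (a - 3) : ℕ) : ℝ) := by
      exact_mod_cast h1
    push_cast [Nat.cast_sub (by omega : 3 ≤ a)] at h2
    linarith
  have ha3 : (0 : ℝ) < (a : ℝ) - 3 := by linarith
  have hK4 : 0 < c.K ^ 4 := by positivity
  calc (crK a : ℝ) / (24 * (a.choose 4 : ℝ)) * c.K ^ 4 * (1 - β) =
        ((crK a : ℝ) * (1 - β)) * (c.K ^ 4 / (24 * (a.choose 4 : ℝ))) := by ring
    _ ≤ ((6 * a.choose 4 : ℝ) * (4 / c.K ^ 4 * S) +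
      (6 * a.choose 3 : ℝ) * (B0 C κ η / n ^ 4 * (D.cr : ℝ))) *
        (c.K ^ 4 / (24 * (a.choose 4 : ℝ))) := mul_le_mul_of_nonneg_right s6 (by positivity)
    _ = S + B0 C κ η * (c.K ^ 4 / n ^ 4) / ((a : ℝ) - 3) * (D.cr : ℝ) := by
        have h1 : (a.choose 3 : ℝ) = (a.choose 4 : ℝ) * 4 / ((a : ℝ) - 3) := by
          rw [eq_div_iff ha3.ne']
          exact hch
        rw [h1]
        field_simp
        ring
    _ ≤ S + B0 C κ η * C ^ 4 / ((a : ℝ) - 3) * (D.cr : ℝ) := by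
        have h1 : c.K ^ 4 / n ^ 4 ≤ C ^ 4 := by
          rw [div_le_iff₀ (by positivity), ← mul_pow]
          exact pow_le_pow_left₀ hK.le hKC 4
        have h2 : B0 C κ η * (c.K ^ 4 / n ^ 4) / ((a : ℝ) - 3) ≤
            B0 C κ η * C ^ 4 / ((a : ℝ) - 3) :=
          div_le_div_of_nonneg_right (mul_le_mul_of_nonneg_left h1 hB0) ha3.le
        have h3 := mul_le_mul_of_nonneg_right h2 (Nat.cast_nonneg (α := ℝ) D.cr)
        linarith

end Pool.Agent.ALB
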