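import Pool.Agent.ALB.GalDefs

/-! # ALB module CRIT2 -/

set_option autoImplicit false

namespace Pool.Agent.ALB

/-- A colouring of `G - v` gives a matching missing `v`.
Proof.  A colour class has at most two elements (`Tri`).  `f v = v`; for `x ≠ v` let `f x` be the
other member of the class of `x` in `V \ {v}` if there is one, and `f x = x` otherwise.  If `P`
classes have two elements and `Q` have one: `2 P + Q = card V - 1`, `P + Q ≤ j`, so
`fixn f = 1 + Q ≤ 1 + 2 j - (card V - 1)`. -/
theorem matching_of_colorable {V : Type} [Fintype V] {G : SimpleGraph V} (hG : Tri G) (v : V)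
    {j : ℕ} (h : (G.comap (Subtype.val : {x : V // x ≠ v} → V)).Colorable j) :
    ∃ f : V → V, IsM Gᶜ f ∧ f v = v ∧ fixn f + Fintype.card V ≤ 2 * j + 2 := by
  classical
  obtain ⟨c⟩ := h
  obtain ⟨c', hc1, hc2⟩ : ∃ c' : V → Option (Fin j), c' v = none ∧
      ∀ x (hx : x ≠ v), c' x = some (c ⟨x, hx⟩) :=
    ⟨fun x => if h : x ≠ v then some (c ⟨x, h⟩) else none, by simp, fun x hx => by simp [hx]⟩
  have hnone : ∀ x, c' x = none → x = v := by
    intro x hx
    by_contra hne
    rw [hc2 x hne] at hx
    exact absurd hx (by simp)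
  have hadj : ∀ x y, x ≠ v → y ≠ v → c' x = c' y → ¬ G.Adj x y := by
    intro x y hx hy he ha
    rw [hc2 x hx, hc2 y hy, Option.some_inj] at he
    exact c.valid (show (G.comap (Subtype.val : {x : V // x ≠ v} → V)).Adj ⟨x, hx⟩ ⟨y, hy⟩ from ha)
      he
  have htri : ∀ x y z, x ≠ v → y ≠ v → z ≠ v → x ≠ y → y ≠ z → x ≠ z → c' x = c' y →
      c' y = c' z → False := by
    intro x y z hx hy hz h1 h2 h3 e1 e2
    rcases hG x y z h1 h2 h3 with h | h | h
    · exact hadj x y hx hy e1 h
    · exact hadj y z hy hz e2 h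
    · exact hadj x z hx hz (e1.trans e2) h
  have hnev : ∀ x y, x ≠ v → c' y = c' x → y ≠ v := by
    intro x y hx he hy
    rw [hy, hc1] at he
    exact hx (hnone x he.symm)
  obtain ⟨f, hf1, hf2⟩ : ∃ f : V → V,
      (∀ x, (x ≠ v ∧ ∃ y, y ≠ x ∧ c' y = c' x) → f x ≠ x ∧ c' (f x) = c' x) ∧
      ∀ x, ¬ (x ≠ v ∧ ∃ y, y ≠ x ∧ c' y = c' x) → f x = x := by
    refine ⟨fun x => if h : x ≠ v ∧ ∃ y, y ≠ x ∧ c' y = c' x then h.2.choose else x, ?_, ?_⟩
    · intro x hx
      simp only [dif_pos hx]
      exact hx.2.choose_spec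
    · intro x hx
      simp only [dif_neg hx]
  have hfv : f v = v := hf2 v fun h => h.1 rfl
  refine ⟨f, ⟨?_, ?_⟩, hfv, ?_⟩
  · intro x
    by_cases hx : x ≠ v ∧ ∃ y, y ≠ x ∧ c' y = c' x
    · obtain ⟨h1, h2⟩ := hf1 x hx
      have hyv : f x ≠ v := hnev x _ hx.1 h2
      obtain ⟨h3, h4⟩ := hf1 (f x) ⟨hyv, x, fun h => h1 h.symm, h2.symm⟩
      by_contra hne
      exact htri (f (f x)) (f x) x (hnev _ _ hyv h4) hyv hx.1 h3 h1 hne h4 h2
    · rw [hf2 x hx, hf2 x hx]
  · intro x hx
    have hx' : x ≠ v ∧ ∃ y, y ≠ x ∧ c' y = c' x := by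
      by_contra hcon
      exact hx (hf2 x hcon)
    obtain ⟨h1, h2⟩ := hf1 x hx'
    rw [SimpleGraph.compl_adj]
    exact ⟨fun h => h1 h.symm, hadj x _ hx'.1 (hnev x _ hx'.1 h2) h2.symm⟩
  · have h1 : Fintype.card V = ∑ o : Option (Fin j), (Finset.univ.filter fun x => c' x = o).card := by
      rw [← Finset.card_univ]
      exact Finset.card_eq_sum_card_fiberwise fun x _ => Finset.mem_univ _
    have h2 : fixn f = ∑ o : Option (Fin j),
        ((Finset.univ.filter fun x => f x = x).filter fun x => c' x = o).card := by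
      have : fixn f = (Finset.univ.filter fun x => f x = x).card := by
        unfold fixn
        congr
      rw [this]
      exact Finset.card_eq_sum_card_fiberwise fun x _ => Finset.mem_univ _
    rw [Fintype.sum_option] at h1 h2
    have h3 : (Finset.univ.filter fun x => c' x = none).card ≤ 1 := by
      rw [Finset.card_le_one]
      intro a ha b hb
      rw [Finset.mem_filter] at ha hb
      rw [hnone a ha.2, hnone b hb.2]
    have h4 : ((Finset.univ.filter fun x => f x = x).filter fun x => c' x = none).card ≤ 1 :=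
      (Finset.card_le_card (Finset.filter_subset_filter _ (Finset.subset_univ _))).trans h3
    have h5 : ∀ i : Fin j, (Finset.univ.filter fun x => c' x = some i).card +
        ((Finset.univ.filter fun x => f x = x).filter fun x => c' x = some i).card ≤ 2 := by
      intro i
      have hiv : ∀ x, c' x = some i → x ≠ v := by
        rintro x hx rfl
        rw [hc1] at hx
        exact absurd hx (by simp)
      rcases Finset.eq_empty_or_nonempty
        ((Finset.univ.filter fun x => f x = x).filter fun x => c' x = some i) with he | ⟨x, hx⟩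
      · rw [he, Finset.card_empty, add_zero]
        by_contra hcon
        push Not at hcon
        obtain ⟨a, b, d, ha, hb, hd, hab, had, hbd⟩ := Finset.two_lt_card_iff.1 hcon
        rw [Finset.mem_filter] at ha hb hd
        exact htri a b d (hiv a ha.2) (hiv b hb.2) (hiv d hd.2) hab hbd had
          (ha.2.trans hb.2.symm) (hb.2.trans hd.2.symm)
      · rw [Finset.mem_filter, Finset.mem_filter] at hx
        have h6 : ∀ y, c' y = some i → y = x := by
          intro y hy
          by_contra hne
          exact (hf1 x ⟨hiv x hx.2, y, hne, hy.trans hx.2.symm⟩).1 hx.1.2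
        have h7 : (Finset.univ.filter fun y => c' y = some i).card ≤ 1 := by
          rw [Finset.card_le_one]
          intro a ha b hb
          rw [Finset.mem_filter] at ha hb
          rw [h6 a ha.2, h6 b hb.2]
        have h8 : ((Finset.univ.filter fun x => f x = x).filter fun y => c' y = some i).card ≤ 1 :=
          (Finset.card_le_card (Finset.filter_subset_filter _ (Finset.subset_univ _))).trans h7
        omega
    have h6 := Finset.sum_le_sum fun (i : Fin j) (_ : i ∈ Finset.univ) => h5 i
    rw [Finset.sum_add_distrib, Finset.sum_const, Finset.card_univ, Fintype.card_fin,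
      smul_eq_mul] at h6
    omega

end Pool.Agent.ALB
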