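import Pool.Agent.ALB.Crit1
import Pool.Agent.ALB.Crit2

/-! # ALB module CRIT: vertex-critical subgraph -/

set_option autoImplicit false

namespace Pool.Agent.ALB

/-- **Vertex-critical subgraph.**

Proof.  Let `A` have minimal cardinality among the sets such that `G` restricted to `A` is not
`(k-1)`-colourable (`univ` is such a set: a colouring of `G.comap val` on `univ` gives one of `G`).
Let `W = {x // x ∈ A}`, `G' = G.comap val`.  (a) if `card W + fixn f < 2k` then, by parity
(`even_card_add_fixn`), `≤ 2 (k-1)` and `G'` would be `(k-1)`-colourable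
(`colorable_of_matching`).  (b) for `v : W` the restriction of `G'` to `{x // x ≠ v}` is
`(k-1)`-colourable by minimality (`A.erase v`), so `matching_of_colorable` with `j = k-1` gives
`fixn f + card W ≤ 2k`, and equality by (a). -/
theorem exists_crit {V : Type} [Fintype V] {G : SimpleGraph V} (hG : Tri G) {k : ℕ}
    (hk : 1 ≤ k) (hχ : ¬ G.Colorable (k - 1)) :
    ∃ A : Finset V,
      (∀ f, IsM (G.comap (Subtype.val : {x // x ∈ A} → V))ᶜ f →
        2 * k ≤ Fintype.card {x // x ∈ A} + fixn f) ∧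
      ∀ v : {x // x ∈ A}, ∃ f, IsM (G.comap (Subtype.val : {x // x ∈ A} → V))ᶜ f ∧
        Fintype.card {x // x ∈ A} + fixn f = 2 * k ∧ f v = v := by
  classical
  obtain ⟨A, hA, hmin⟩ := Finset.exists_min_image
    (Finset.univ.filter fun A : Finset V =>
      ¬ (G.comap (Subtype.val : {x // x ∈ A} → V)).Colorable (k - 1)) Finset.card
    ⟨Finset.univ, by
      rw [Finset.mem_filter]
      refine ⟨Finset.mem_univ _, fun hc => hχ ?_⟩
      obtain ⟨c⟩ := hc
      exact ⟨SimpleGraph.Coloring.mk (fun v => c ⟨v, Finset.mem_univ v⟩) fun {v w} hvw =>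
        c.valid (v := ⟨v, Finset.mem_univ v⟩) (w := ⟨w, Finset.mem_univ w⟩) hvw⟩⟩
  rw [Finset.mem_filter] at hA
  have hnot := hA.2
  have hmin' : ∀ B : Finset V, B.card < A.card →
      (G.comap (Subtype.val : {x // x ∈ B} → V)).Colorable (k - 1) := by
    intro B hB
    by_contra hcon
    have := hmin B (by
      rw [Finset.mem_filter]
      exact ⟨Finset.mem_univ _, hcon⟩)
    omega
  have ha : ∀ f, IsM (G.comap (Subtype.val : {x // x ∈ A} → V))ᶜ f →
      2 * k ≤ Fintype.card {x // x ∈ A} + fixn f := by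
    intro f hf
    by_contra hcon
    push Not at hcon
    obtain ⟨r, hr⟩ := even_card_add_fixn hf
    exact hnot (colorable_of_matching hf (by omega))
  refine ⟨A, ha, fun v => ?_⟩
  have htri : Tri (G.comap (Subtype.val : {x // x ∈ A} → V)) := by
    intro x y z hxy hyz hxz
    exact hG x y z (fun h => hxy (Subtype.ext h)) (fun h => hyz (Subtype.ext h))
      (fun h => hxz (Subtype.ext h))
  have hcol : ((G.comap (Subtype.val : {x // x ∈ A} → V)).comap
      (Subtype.val : {x : {x // x ∈ A} // x ≠ v} → {x // x ∈ A})).Colorable (k - 1) := by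
    obtain ⟨c⟩ := hmin' (A.erase v) (Finset.card_erase_lt_of_mem v.2)
    have hmem : ∀ x : {x : {x // x ∈ A} // x ≠ v}, x.1.1 ∈ A.erase v := fun x =>
      Finset.mem_erase.2 ⟨fun h => x.2 (Subtype.ext h), x.1.2⟩
    exact ⟨SimpleGraph.Coloring.mk (fun x => c ⟨x.1.1, hmem x⟩) fun {x y} hxy =>
      c.valid (v := ⟨x.1.1, hmem x⟩) (w := ⟨y.1.1, hmem y⟩) hxy⟩
  obtain ⟨f, hf1, hf2, hf3⟩ := matching_of_colorable htri v hcol
  refine ⟨f, hf1, ?_, hf2⟩
  have := ha f hf1
  omega

end Pool.Agent.ALB
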