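import Pool.Agent.ALB.GalDefs

/-! # ALB module CRIT1 -/

set_option autoImplicit false

namespace Pool.Agent.ALB

/-- Proof: the non-fixed points come in pairs `{v, f v}`. -/
theorem even_card_add_fixn {V : Type} [Fintype V] {T : SimpleGraph V} {f : V → V}
    (hf : IsM T f) : Even (Fintype.card V + fixn f) := by
  classical
  have : Fact (Nat.Prime 2) := ⟨Nat.prime_two⟩
  have h3 : Fintype.card V ≡ Fintype.card (Function.fixedPoints f) [MOD 2] := by
    have h2 : ∀ g : Function.End V, g = f → g ^ 2 ^ 1 = 1 := by
      rintro g rfl
      funext v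
      rw [pow_one, pow_two]
      exact hf.1 v
    exact Equiv.Perm.card_fixedPoints_modEq (α := V) (f := f) (p := 2) (n := 1) (h2 f rfl)
  have h4 : Fintype.card (Function.fixedPoints f) = fixn f := by
    unfold fixn
    rw [← Set.toFinset_card]
    congr 1
    ext v
    simp [Function.mem_fixedPoints, Function.IsFixedPt]
  have h5 : Fintype.card V ≡ fixn f [MOD 2] := by
    rw [← h4]
    exact h3
  unfold Nat.ModEq at h5
  rw [Nat.even_iff]
  omega

/-- A matching of the complement gives a colouring.
Proof.  Colour `v` by `s(v, f v) : Sym2 V`.  If `v ≠ w` have the same colour, then `w = f v`, so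
`v, w` are adjacent in the complement.  The number of colours is the cardinality `j` of the image:
the fixed points give `fixn f` colours, the others are counted twice,
`2 j = card V + fixn f`. -/
theorem colorable_of_matching {V : Type} [Fintype V] {G : SimpleGraph V} {f : V → V}
    (hf : IsM Gᶜ f) {j : ℕ} (hj : Fintype.card V + fixn f ≤ 2 * j) : G.Colorable j := by
  classical
  set c : V → Sym2 V := fun v => s(v, f v) with hc
  set J : Finset (Sym2 V) := Finset.univ.image c with hJ
  have hcJ : ∀ v, c v ∈ J := fun v => Finset.mem_image_of_mem c (Finset.mem_univ v)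
  have hcol : G.Colorable J.card := by
    have C : G.Coloring J := SimpleGraph.Coloring.mk (fun v => ⟨c v, hcJ v⟩) (by
      intro v w hvw heq
      have h1 : s(v, f v) = s(w, f w) := congrArg Subtype.val heq
      rw [Sym2.eq_iff] at h1
      rcases h1 with ⟨h2, -⟩ | ⟨h2, h3⟩
      · exact hvw.ne h2
      · have h4 : f v ≠ v := by
          rw [h3]
          exact hvw.ne'
        have h5 := hf.2 v h4
        rw [h3, SimpleGraph.compl_adj] at h5
        exact h5.2 hvw)
    have := C.colorable
    rwa [Fintype.card_coe] at this
  refine hcol.mono ?_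
  have h1 : Fintype.card V = ∑ b ∈ J, (Finset.univ.filter fun v => c v = b).card := by
    rw [← Finset.card_univ]
    exact Finset.card_eq_sum_card_fiberwise fun v _ => hcJ v
  have h2 : fixn f = ∑ b ∈ J, ((Finset.univ.filter fun v => f v = v).filter fun v => c v = b).card := by
    have : fixn f = (Finset.univ.filter fun v => f v = v).card := by
      unfold fixn
      congr
    rw [this]
    exact Finset.card_eq_sum_card_fiberwise fun v _ => hcJ v
  have h3 : ∀ b ∈ J, 2 ≤ (Finset.univ.filter fun v => c v = b).card +
      ((Finset.univ.filter fun v => f v = v).filter fun v => c v = b).card := by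
    intro b hb
    obtain ⟨v, -, rfl⟩ := Finset.mem_image.1 hb
    by_cases hv : f v = v
    · have h4 : 0 < (Finset.univ.filter fun w => c w = c v).card :=
        Finset.card_pos.2 ⟨v, by simp⟩
      have h5 : 0 < ((Finset.univ.filter fun w => f w = w).filter fun w => c w = c v).card :=
        Finset.card_pos.2 ⟨v, by simp [hv]⟩
      omega
    · have h4 : 1 < (Finset.univ.filter fun w => c w = c v).card := by
        rw [Finset.one_lt_card]
        refine ⟨v, by simp, f v, ?_, fun h => hv h.symm⟩
        rw [Finset.mem_filter]
        refine ⟨Finset.mem_univ _, ?_⟩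
        rw [hc]
        simp only
        rw [hf.1 v, Sym2.eq_swap]
      omega
  have h4 : ∑ b ∈ J, 2 ≤ ∑ b ∈ J, ((Finset.univ.filter fun v => c v = b).card +
      ((Finset.univ.filter fun v => f v = v).filter fun v => c v = b).card) :=
    Finset.sum_le_sum h3
  rw [Finset.sum_const, Finset.sum_add_distrib, ← h1, ← h2, smul_eq_mul] at h4
  omega

end Pool.Agent.ALB
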