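import Mathlib

/-!
# ALB: Albertson's conjecture for graphs with independence number 2 (MP_b9e35b_co)

Definitions.  A drawing of a graph `G` on the (finite) vertex type `V` in the plane `ℂ`:
vertices are distinct points, every edge `e = s(u, v)` is a simple arc `arc e` (a set) joining
`pos u` and `pos v` which contains no other vertex, and two different edges have only finitely
many common points outside the vertices.

`D.N e f` is the number of common points (outside the vertices) of the arcs `e` and `f`.
Note: for `e = f` an edge, the set is infinite, so `D.N e e = 0` (`Set.ncard` of an infinite set).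

`D.cr` is TWICE the number of crossings (ordered pairs), like the `ncard` in the frozen statement.
`crK a` is the minimum of `D.cr` over the drawings of `K_a`.
-/

set_option autoImplicit false

namespace Pool.Agent.ALB

/-- `S` is a simple arc with end points `a` and `b`. -/
def IsArc (a b : ℂ) (S : Set ℂ) : Prop :=
  ∃ γ : Path a b, Function.Injective γ ∧ Set.range γ = S

/-- A drawing of `G` in the plane. -/
structure Drw {V : Type} (G : SimpleGraph V) where
  pos : V → ℂ
  arc : Sym2 V → Set ℂ
  inj : Function.Injective pos
  isArc : ∀ u v, G.Adj u v → IsArc (pos u) (pos v) (arc s(u, v))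
  avoid : ∀ u v w, G.Adj u v → pos w ∈ arc s(u, v) → w = u ∨ w = v
  fin : ∀ e ∈ G.edgeSet, ∀ f ∈ G.edgeSet, e ≠ f → ((arc e ∩ arc f) \ Set.range pos).Finite

/-- The finite set of edges (no decidability needed). -/
noncomputable def ed {V : Type} [Fintype V] (G : SimpleGraph V) : Finset (Sym2 V) :=
  (Set.toFinite G.edgeSet).toFinset

@[simp] theorem mem_ed {V : Type} [Fintype V] {G : SimpleGraph V} {e : Sym2 V} :
    e ∈ ed G ↔ e ∈ G.edgeSet := by simp [ed]

/-- number of crossings of the edges `e` and `f` -/
noncomputable def Drw.N {V : Type} {G : SimpleGraph V} (D : Drw G) (e f : Sym2 V) : ℕ :=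
  ((D.arc e ∩ D.arc f) \ Set.range D.pos).ncard

/-- twice the number of crossings of the drawing -/
noncomputable def Drw.cr {V : Type} [Fintype V] {G : SimpleGraph V} (D : Drw G) : ℕ :=
  ∑ e ∈ ed G, ∑ f ∈ ed G, D.N e f

/-- (twice) the crossing number of `K_a` -/
noncomputable def crK (a : ℕ) : ℕ :=
  sInf {m | ∃ D : Drw (⊤ : SimpleGraph (Fin a)), D.cr = m}

/-- no two edges with a common end point cross -/
def Drw.NoAdj {V : Type} {G : SimpleGraph V} (D : Drw G) : Prop :=
  ∀ u v w, G.Adj u v → G.Adj u w → v ≠ w → D.N s(u, v) s(u, w) = 0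

theorem Drw.N_comm {V : Type} {G : SimpleGraph V} (D : Drw G) (e f : Sym2 V) :
    D.N e f = D.N f e := by
  unfold Drw.N
  rw [Set.inter_comm]

end Pool.Agent.ALB
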