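import Pool.Agent.ALB.Std

/-! # ALB module STDB: counting in the standard form -/

set_option autoImplicit false

namespace Pool.Agent.ALB

open Finset

variable {V : Type} [Fintype V] {G : SimpleGraph V} {ι β : Type} [Fintype ι] [Fintype β]
  {H : Finset V}

/-- Proof: the complement of `H` is the disjoint union of the images of `q, u, v`. -/
theorem Std.card (S : Std G ι β H) :
    Fintype.card V = H.card + Fintype.card ι + 2 * Fintype.card β := by
  classical
  have hb : Function.Bijective
      (Sum.elim (fun x : {x // x ∈ H} => x.1) (Sum.elim S.q (Sum.elim S.u S.v))) := by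
    constructor
    · rintro (⟨x, hx⟩ | i | b | b) (⟨y, hy⟩ | j | c | c) h <;>
        simp only [Sum.elim_inl, Sum.elim_inr] at h
      · subst h; rfl
      · exact (S.q_not j (h ▸ hx)).elim
      · exact (S.u_not c (h ▸ hx)).elim
      · exact (S.v_not c (h ▸ hx)).elim
      · exact (S.q_not i (h ▸ hy)).elim
      · rw [S.q_inj h]
      · exact (S.qu _ _ h).elim
      · exact (S.qv _ _ h).elim
      · exact (S.u_not b (h ▸ hy)).elim
      · exact (S.qu _ _ h.symm).elim
      · rw [S.u_inj h]
      · exact (S.uv _ _ h).elim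
      · exact (S.v_not b (h ▸ hy)).elim
      · exact (S.qv _ _ h.symm).elim
      · exact (S.uv _ _ h.symm).elim
      · rw [S.v_inj h]
    · intro x
      by_cases hx : x ∈ H
      · exact ⟨Sum.inl ⟨x, hx⟩, rfl⟩
      · rcases S.surj x hx with ⟨i, rfl⟩ | ⟨b, rfl⟩ | ⟨b, rfl⟩
        · exact ⟨Sum.inr (Sum.inl i), rfl⟩
        · exact ⟨Sum.inr (Sum.inr (Sum.inl b)), rfl⟩
        · exact ⟨Sum.inr (Sum.inr (Sum.inr b)), rfl⟩
  have h := Fintype.card_of_bijective hb
  simp only [Fintype.card_sum, Fintype.card_coe] at h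
  omega

/-- Proof: each fibre of `blk` has at least two elements (`big`), `card_eq_sum_card_fiberwise`. -/
theorem Std.two_ι_le (S : Std G ι β H) : 2 * Fintype.card ι ≤ Fintype.card β := by
  classical
  have h := Finset.card_eq_sum_card_fiberwise (f := S.blk) (s := (univ : Finset β))
    (t := (univ : Finset ι)) (fun _ _ => Finset.mem_coe.2 (Finset.mem_univ _))
  rw [Finset.card_univ] at h
  rw [h, mul_comm, ← smul_eq_mul, ← Finset.card_univ]
  refine Finset.card_nsmul_le_sum _ _ _ fun i _ => ?_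
  obtain ⟨b, b', hne, hb, hb'⟩ := S.big i
  exact Finset.one_lt_card.2 ⟨b, by simp [hb], b', by simp [hb'], hne⟩

open Classical in
/-- Size of a component: it is `1 + 2 #{b | blk b = i} ≥ 5`. -/
theorem Std.five_le (S : Std G ι β H) (i : ι) :
    5 ≤ (univ.filter (fun x => x ∉ H ∧ S.comp x = i)).card := by
  obtain ⟨b, b', hne, hb, hb'⟩ := S.big i
  have h1 : ({S.q i, S.u b, S.u b', S.v b, S.v b'} : Finset V).card = 5 := by
    rw [Finset.card_insert_of_notMem, Finset.card_insert_of_notMem, Finset.card_insert_of_notMem,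
      Finset.card_insert_of_notMem, Finset.card_singleton]
    · rw [Finset.mem_singleton]
      exact fun h => hne (S.v_inj h)
    · simp only [Finset.mem_insert, Finset.mem_singleton, not_or]
      exact ⟨S.uv _ _, S.uv _ _⟩
    · simp only [Finset.mem_insert, Finset.mem_singleton, not_or]
      exact ⟨fun h => hne (S.u_inj h), S.uv _ _, S.uv _ _⟩
    · simp only [Finset.mem_insert, Finset.mem_singleton, not_or]
      exact ⟨S.qu _ _, S.qu _ _, S.qv _ _, S.qv _ _⟩
  rw [← h1]
  apply Finset.card_le_card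
  intro x hx
  simp only [Finset.mem_insert, Finset.mem_singleton] at hx
  rw [Finset.mem_filter]
  refine ⟨Finset.mem_univ _, ?_⟩
  rcases hx with rfl | rfl | rfl | rfl | rfl
  · exact ⟨S.q_not _, S.comp_q _⟩
  · exact ⟨S.u_not _, (S.comp_u _).trans hb⟩
  · exact ⟨S.u_not _, (S.comp_u _).trans hb'⟩
  · exact ⟨S.v_not _, (S.comp_v _).trans hb⟩
  · exact ⟨S.v_not _, (S.comp_v _).trans hb'⟩

/-- Non-neighbours of a vertex outside the hub are outside the hub and in the same component.
Proof: `hub`, `cross`. -/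
theorem Std.nonadj (S : Std G ι β H) {x y : V} (hx : x ∉ H) (hxy : y ≠ x)
    (h : ¬ G.Adj x y) : y ∉ H ∧ S.comp y = S.comp x := by
  have hy : y ∉ H := fun hy => h (S.hub y hy x hxy.symm).symm
  refine ⟨hy, ?_⟩
  by_contra hne
  exact h (S.cross x y hx hy fun e => hne e.symm)

/-- Proof: `hub`. -/
theorem Std.tdeg_hub (S : Std G ι β H) {x : V} (hx : x ∈ H) : tdeg G x = 0 := by
  classical
  unfold tdeg
  rw [Finset.card_eq_zero, Finset.filter_eq_empty_iff]
  rintro y _ ⟨hy, hn⟩
  exact hn (S.hub x hx y hy)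

/-- Two different non-neighbours of a vertex are adjacent.  Proof: `tri`. -/
theorem Std.clique (S : Std G ι β H) {x y z : V} (hy : y ≠ x) (hz : z ≠ x) (hyz : y ≠ z)
    (h : ¬ G.Adj x y) (h' : ¬ G.Adj x z) : G.Adj y z := by
  rcases S.tri y x z hy hz.symm hyz with h1 | h1 | h1
  · exact (h h1.symm).elim
  · exact (h' h1).elim
  · exact h1

/-- Proof.  The non-neighbours of `x` (outside `H`, in the component `i = comp x`) contain at most
one element of each pair `{u b, v b}` (`u b, v b` are not adjacent, `Std.clique`) and at most one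
`q` (only `q i`); so at most `|β| + 1`. -/
theorem Std.tdeg_le (S : Std G ι β H) (x : V) : tdeg G x ≤ Fintype.card β + 1 := by
  classical
  by_cases hx : x ∈ H
  · rw [S.tdeg_hub hx]
    exact Nat.zero_le _
  unfold tdeg
  obtain ⟨f, hf⟩ : ∃ f : V → Option β, ∀ y, f y =
      if h : ∃ b, y = S.u b ∨ y = S.v b then some (Classical.choose h) else none :=
    ⟨_, fun _ => rfl⟩
  have hf1 : ∀ y b, f y = some b → y = S.u b ∨ y = S.v b := by
    intro y b h
    rw [hf] at h
    split_ifs at h with h2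
    rw [Option.some.injEq] at h
    rw [← h]
    exact Classical.choose_spec h2
  have hf2 : ∀ y, f y = none → ∀ b, y ≠ S.u b ∧ y ≠ S.v b := by
    intro y h b
    rw [hf] at h
    split_ifs at h with h2
    exact ⟨fun e => h2 ⟨b, Or.inl e⟩, fun e => h2 ⟨b, Or.inr e⟩⟩
  rw [← Fintype.card_option, ← Finset.card_univ]
  refine Finset.card_le_card_of_injOn f (fun _ _ => Finset.mem_coe.2 (Finset.mem_univ _)) ?_
  intro y hy z hz hyz
  have hy' := (Finset.mem_filter.1 (Finset.mem_coe.1 hy)).2
  have hz' := (Finset.mem_filter.1 (Finset.mem_coe.1 hz)).2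
  by_contra hne
  have hadj := S.clique hy'.1 hz'.1 hne hy'.2 hz'.2
  rcases hfy : f y with _ | b
  · have h1 := hf2 y hfy
    have h2 := hf2 z (hyz ▸ hfy)
    obtain ⟨hyH, hyc⟩ := S.nonadj hx hy'.1 hy'.2
    obtain ⟨hzH, hzc⟩ := S.nonadj hx hz'.1 hz'.2
    rcases S.surj y hyH with ⟨i, rfl⟩ | ⟨b, hb⟩ | ⟨b, hb⟩
    · rcases S.surj z hzH with ⟨j, rfl⟩ | ⟨b, hb⟩ | ⟨b, hb⟩
      · rw [S.comp_q] at hyc hzc
        exact hne (by rw [hyc, hzc])
      · exact (h2 b).1 hb
      · exact (h2 b).2 hb
    · exact (h1 b).1 hb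
    · exact (h1 b).2 hb
  · have h1 := hf1 y b hfy
    have h2 := hf1 z b (hyz ▸ hfy)
    rcases h1 with h1 | h1 <;> rcases h2 with h2 | h2
    · exact hne (h1.trans h2.symm)
    · rw [h1, h2] at hadj
      exact S.pair b hadj
    · rw [h1, h2] at hadj
      exact S.pair b hadj.symm
    · exact hne (h1.trans h2.symm)

open Classical in
/-- Proof: the non-neighbours are in the component of `x`, and `x` itself is not one of them. -/
theorem Std.tdeg_lt_comp (S : Std G ι β H) {x : V} (hx : x ∉ H) :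
    tdeg G x < (univ.filter (fun y => y ∉ H ∧ S.comp y = S.comp x)).card := by
  unfold tdeg
  apply Finset.card_lt_card
  rw [Finset.ssubset_iff_of_subset]
  · refine ⟨x, Finset.mem_filter.2 ⟨Finset.mem_univ _, hx, rfl⟩, ?_⟩
    intro h
    exact (Finset.mem_filter.1 h).2.1 rfl
  · intro y hy
    have hy' := (Finset.mem_filter.1 hy).2
    exact Finset.mem_filter.2 ⟨Finset.mem_univ _, S.nonadj hx hy'.1 hy'.2⟩

/-- Proof: subset. -/
theorem cod_le (x y : V) : cod G x y ≤ tdeg G x ∧ cod G x y ≤ tdeg G y := by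
  classical
  unfold cod tdeg
  constructor
  · apply Finset.card_le_card
    intro z hz
    have hz' := (Finset.mem_filter.1 hz).2
    exact Finset.mem_filter.2 ⟨Finset.mem_univ _, hz'.1, hz'.2.1⟩
  · apply Finset.card_le_card
    intro z hz
    have hz' := (Finset.mem_filter.1 hz).2
    exact Finset.mem_filter.2 ⟨Finset.mem_univ _, hz'.2.2.1, hz'.2.2.2⟩

end Pool.Agent.ALB
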