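import Pool.Agent.ALB.PscDefs
import Pool.Agent.ALB.Psd
import Pool.Agent.ALB.StdB

/-! # ALB module EXSTEP -/

set_option autoImplicit false

namespace Pool.Agent.ALB

open Finset

variable {V : Type} [Fintype V] {G : SimpleGraph V} {ι β : Type} [Fintype ι] [Fintype β]
  {H : Finset V}

open Classical in
private noncomputable def exF (G : SimpleGraph V) {m : ℕ} (zz : Fin m → V) (α : V → V → Fin m)
    (x y : V) : Finset (Sym2 V) :=
  if G.Adj x y then {s(x, y)} else
    insert s(x, zz (α x y)) (insert s(y, zz (α y x))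
      (if α x y = α y x then ∅ else {s(zz (α x y), zz (α y x))}))

omit [Fintype V] in
private theorem mem_exF {m : ℕ} {zz : Fin m → V} {α : V → V → Fin m} {x y : V} {e : Sym2 V} :
    e ∈ exF G zz α x y ↔ (G.Adj x y ∧ e = s(x, y)) ∨ (¬ G.Adj x y ∧
      (e = s(x, zz (α x y)) ∨ e = s(y, zz (α y x)) ∨
        (α x y ≠ α y x ∧ e = s(zz (α x y), zz (α y x))))) := by
  unfold exF
  split_ifs with h1 h2
  · simp [h1]
  · simp [h1, h2]
  · simp [h1, h2]

omit [Fintype V] in
private theorem exF_symm {m : ℕ} (zz : Fin m → V) (α : V → V → Fin m) (x y : V) :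
    exF G zz α x y = exF G zz α y x := by
  ext e
  rw [mem_exF, mem_exF, G.adj_comm y x, Sym2.eq_swap (a := y) (b := x),
    Sym2.eq_swap (a := zz (α y x)) (b := zz (α x y)), ne_comm (a := α y x)]
  tauto

omit [Fintype V] in
private theorem ex_half {m : ℕ} {Z : Finset V} {zz : Fin m → V} (hzi : Function.Injective zz)
    (hzZ : ∀ c, zz c ∈ Z) {α : V → V → Fin m}
    (h1 : ∀ x y z, y ≠ x → z ≠ x → ¬ G.Adj x y → ¬ G.Adj x z → y ≠ z → α x y ≠ α x z)
    {x y x' y' : V} (hx : x ∉ Z) (hxy : x ≠ y) (hxy' : x' ≠ y')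
    (ha : ¬ G.Adj x y) (ha' : ¬ G.Adj x' y')
    (h : s(x, zz (α x y)) = s(x', zz (α x' y'))) : x = x' ∧ y = y' := by
  rw [Sym2.eq_iff] at h
  rcases h with ⟨rfl, h⟩ | ⟨h, -⟩
  · refine ⟨rfl, ?_⟩
    by_contra hne
    exact h1 x y y' hxy.symm hxy'.symm ha ha' hne (hzi h)
  · exact absurd (h ▸ hzZ _) hx

omit [Fintype V] in
private theorem ex_dis {m : ℕ} {Z : Finset V} {zz : Fin m → V} (hzi : Function.Injective zz)
    (hzZ : ∀ c, zz c ∈ Z) {α : V → V → Fin m}
    (h1 : ∀ x y z, y ≠ x → z ≠ x → ¬ G.Adj x y → ¬ G.Adj x z → y ≠ z → α x y ≠ α x z)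
    (h2 : ∀ x y x' y', y ≠ x → y' ≠ x' → ¬ G.Adj x y → ¬ G.Adj x' y' →
      α x y ≠ α y x → α x y = α x' y' → α y x = α y' x' → x = x' ∧ y = y')
    (h3 : ∀ x y x' y', y ≠ x → y' ≠ x' → ¬ G.Adj x y → ¬ G.Adj x' y' →
      α x y ≠ α y x → α x y = α y' x' → α y x = α x' y' → x = y' ∧ y = x')
    {x y x' y' : V} (hx : x ∉ Z) (hy : y ∉ Z) (hx' : x' ∉ Z) (hy' : y' ∉ Z)
    (hxy : x ≠ y) (hxy' : x' ≠ y') {e : Sym2 V}
    (he : e ∈ exF G zz α x y) (he' : e ∈ exF G zz α x' y') :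
    (x = x' ∧ y = y') ∨ (x = y' ∧ y = x') := by
  rw [mem_exF] at he he'
  rcases he with ⟨ha, rfl⟩ | ⟨ha, he⟩
  · rcases he' with ⟨ha', h⟩ | ⟨ha', h | h | ⟨-, h⟩⟩
    · rw [Sym2.eq_iff] at h
      exact h
    · rw [Sym2.eq_iff] at h
      rcases h with ⟨-, h⟩ | ⟨h, -⟩
      · exact absurd (h ▸ hzZ _) hy
      · exact absurd (h ▸ hzZ _) hx
    · rw [Sym2.eq_iff] at h
      rcases h with ⟨-, h⟩ | ⟨h, -⟩
      · exact absurd (h ▸ hzZ _) hy
      · exact absurd (h ▸ hzZ _) hx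
    · rw [Sym2.eq_iff] at h
      rcases h with ⟨h, -⟩ | ⟨h, -⟩
      · exact absurd (h ▸ hzZ _) hx
      · exact absurd (h ▸ hzZ _) hx
  · rcases he' with ⟨ha', h'⟩ | ⟨ha', h'⟩
    · subst h'
      rcases he with h | h | ⟨-, h⟩
      · rw [Sym2.eq_iff] at h
        rcases h with ⟨-, h⟩ | ⟨h, -⟩
        · exact absurd (h ▸ hzZ _) hy'
        · exact absurd (h ▸ hzZ _) hx'
      · rw [Sym2.eq_iff] at h
        rcases h with ⟨-, h⟩ | ⟨h, -⟩
        · exact absurd (h ▸ hzZ _) hy'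
        · exact absurd (h ▸ hzZ _) hx'
      · rw [Sym2.eq_iff] at h
        rcases h with ⟨h, -⟩ | ⟨h, -⟩
        · exact absurd (h ▸ hzZ _) hx'
        · exact absurd (h ▸ hzZ _) hx'
    · have hb : ¬ G.Adj y x := fun h => ha h.symm
      have hb' : ¬ G.Adj y' x' := fun h => ha' h.symm
      rcases he with rfl | rfl | ⟨hne, rfl⟩
      · rcases h' with h | h | ⟨-, h⟩
        · exact Or.inl (ex_half hzi hzZ h1 hx hxy hxy' ha ha' h)
        · exact Or.inr (ex_half hzi hzZ h1 hx hxy hxy'.symm ha hb' h)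
        · rw [Sym2.eq_iff] at h
          rcases h with ⟨h, -⟩ | ⟨h, -⟩
          · exact absurd (h ▸ hzZ _) hx
          · exact absurd (h ▸ hzZ _) hx
      · rcases h' with h | h | ⟨-, h⟩
        · have := ex_half hzi hzZ h1 hy hxy.symm hxy' hb ha' h
          exact Or.inr ⟨this.2, this.1⟩
        · have := ex_half hzi hzZ h1 hy hxy.symm hxy'.symm hb hb' h
          exact Or.inl ⟨this.2, this.1⟩
        · rw [Sym2.eq_iff] at h
          rcases h with ⟨h, -⟩ | ⟨h, -⟩
          · exact absurd (h ▸ hzZ _) hy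
          · exact absurd (h ▸ hzZ _) hy
      · rcases h' with h | h | ⟨-, h⟩
        · rw [Sym2.eq_iff] at h
          rcases h with ⟨h, -⟩ | ⟨-, h⟩
          · exact absurd (h ▸ hzZ _) hx'
          · exact absurd (h ▸ hzZ _) hx'
        · rw [Sym2.eq_iff] at h
          rcases h with ⟨h, -⟩ | ⟨-, h⟩
          · exact absurd (h ▸ hzZ _) hy'
          · exact absurd (h ▸ hzZ _) hy'
        · rw [Sym2.eq_iff] at h
          rcases h with ⟨h4, h5⟩ | ⟨h4, h5⟩
          · exact Or.inl (h2 x y x' y' hxy.symm hxy'.symm ha ha' hne (hzi h4) (hzi h5))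
          · exact Or.inr (h3 x y x' y' hxy.symm hxy'.symm ha ha' hne (hzi h4) (hzi h5))

/-- **Drawing `K_k` through `m` hub vertices.**  `Z ⊆ H`, `|Z| = m = |β|`, with a half-colouring
`α` as in `half_col`.

Proof.  Let `z : Fin m ≃ Z`.  Terminals: all vertices outside `Z` (their number is
`|V| - m = k`, `Std.card`), `Y : Fin k → V` injective with range `Zᶜ`.  For terminals `x ≠ y` put
`E x y = {s(x,y)}` if adjacent and otherwise (then `x, y ∉ H`)
`E x y = {s(x, z (α x y)), s(y, z (α y x))}`, together with `s(z (α x y), z (α y x))` if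
`α x y ≠ α y x`.  Apply `psd`.  `hW`: the walk `x - z(α x y) - z(α y x) - y`.  `hdis`: direct edges
contain no vertex of `Z`; an edge `s(x, z c)`, `x ∉ H`, belongs only to the pair `x, y` with
`α x y = c`, unique by (1); an edge inside `Z` belongs to a unique pair by (2).
*First part of the bound*: the sets `E p` are pairwise disjoint, so
`∑_{p ≠ q} ∑_{e ∈ E p, f ∈ E q} N e f ≤ ∑_{e ∈ U} ∑_{f ∈ ed G} N e f` where `U = ⋃ E p` contains no
edge between `Z` and `H \ Z`; so it is at most `D.cr - Phi D H Z`.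
*Second part*: `∑_{p ≠ q} #{common vertices in Z} ≤ ∑_{z ∈ Z} p_z²`, where `p_z` is the number of
`p` such that `z` is on an edge of `E p`; each such `p` contains some `x ∉ H` with half colour
`z` at `x`, and `x` determines `p` by (1); so `p_z ≤ |V \ H| = |ι| + 2m ≤ 5m/2`, and the sum is at
most `m (5m/2)² ≤ 7 m³`. -/
theorem exact_step (S : Std G ι β H) (D : Drw G) {k m : ℕ}
    (hk : k = H.card + Fintype.card ι + Fintype.card β) (hm : m = Fintype.card β)
    (Z : Finset V) (hZ : Z ⊆ H) (hZm : Z.card = m) (α : V → V → Fin m)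
    (h1 : ∀ x y z, y ≠ x → z ≠ x → ¬ G.Adj x y → ¬ G.Adj x z → y ≠ z → α x y ≠ α x z)
    (h2 : ∀ x y x' y', y ≠ x → y' ≠ x' → ¬ G.Adj x y → ¬ G.Adj x' y' →
      α x y ≠ α y x → α x y = α x' y' → α y x = α y' x' → x = x' ∧ y = y')
    (h3 : ∀ x y x' y', y ≠ x → y' ≠ x' → ¬ G.Adj x y → ¬ G.Adj x' y' →
      α x y ≠ α y x → α x y = α y' x' → α y x = α x' y' → x = y' ∧ y = x') :
    crK k + Phi D H Z ≤ D.cr + 7 * m ^ 3 := by
  classical
  -- the enumeration of `Z`
  set zz : Fin m → V := fun c => ((Z.equivFinOfCardEq hZm).symm c : V) with hzz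
  have hzi : Function.Injective zz := fun c c' h =>
    (Z.equivFinOfCardEq hZm).symm.injective (Subtype.ext h)
  have hzZ : ∀ c, zz c ∈ Z := fun c => ((Z.equivFinOfCardEq hZm).symm c).2
  -- the terminals
  have hcard := S.card
  have hT : (Zᶜ).card = k := by
    rw [card_compl, hcard, hZm]
    omega
  set Y : Fin k → V := fun i => (((Zᶜ).equivFinOfCardEq hT).symm i : V) with hYd
  have hYi : Function.Injective Y := fun i i' h =>
    ((Zᶜ).equivFinOfCardEq hT).symm.injective (Subtype.ext h)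
  have hYZ : ∀ i, Y i ∉ Z := fun i => mem_compl.1 (((Zᶜ).equivFinOfCardEq hT).symm i).2
  have hYr : ∀ x, x ∈ Set.range Y ↔ x ∉ Z := by
    intro x
    constructor
    · rintro ⟨i, rfl⟩
      exact hYZ i
    · intro hx
      refine ⟨(Zᶜ).equivFinOfCardEq hT ⟨x, mem_compl.2 hx⟩, ?_⟩
      simp only [hYd, Equiv.symm_apply_apply]
  set E : Sym2 (Fin k) → Finset (Sym2 V) :=
    Sym2.lift ⟨fun i j => exF G zz α (Y i) (Y j), fun i j => exF_symm zz α _ _⟩ with hE
  have hEm : ∀ i j, E s(i, j) = exF G zz α (Y i) (Y j) := fun i j => rfl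
  have hadjZ : ∀ x, x ∉ Z → ∀ c, G.Adj x (zz c) := fun x hx c =>
    (S.hub _ (hZ (hzZ c)) x (fun h => hx (h ▸ hzZ c))).symm
  have hadjZZ : ∀ c c', c ≠ c' → G.Adj (zz c) (zz c') := fun c c' hcc =>
    S.hub _ (hZ (hzZ c)) _ (fun h => hcc (hzi h).symm)
  have hEG : ∀ p, ∀ e ∈ E p, e ∈ G.edgeSet := by
    intro p e he
    induction p using Sym2.ind with
    | _ i j =>
      rw [hEm, mem_exF] at he
      rcases he with ⟨h, rfl⟩ | ⟨-, rfl | rfl | ⟨hne, rfl⟩⟩
      · exact h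
      · exact hadjZ _ (hYZ i) _
      · exact hadjZ _ (hYZ j) _
      · exact hadjZZ _ _ hne
  have hW : ∀ i j, i ≠ j → ∃ W : G.Walk (Y i) (Y j), ∀ e ∈ W.edges, e ∈ E s(i, j) := by
    intro i j _
    by_cases hA : G.Adj (Y i) (Y j)
    · refine ⟨SimpleGraph.Walk.cons hA SimpleGraph.Walk.nil, ?_⟩
      intro e he
      rw [hEm, mem_exF]
      left
      refine ⟨hA, ?_⟩
      simpa using he
    · by_cases hα : α (Y i) (Y j) = α (Y j) (Y i)
      · refine ⟨SimpleGraph.Walk.cons (hadjZ _ (hYZ i) (α (Y i) (Y j)))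
          (SimpleGraph.Walk.cons (hadjZ _ (hYZ j) (α (Y i) (Y j))).symm
            SimpleGraph.Walk.nil), ?_⟩
        intro e he
        rw [hEm, mem_exF]
        right
        refine ⟨hA, ?_⟩
        simp only [SimpleGraph.Walk.edges_cons, SimpleGraph.Walk.edges_nil, List.mem_cons,
          List.not_mem_nil, or_false] at he
        rcases he with rfl | rfl
        · exact Or.inl rfl
        · right
          left
          rw [← hα]
          exact Sym2.eq_swap
      · refine ⟨SimpleGraph.Walk.cons (hadjZ _ (hYZ i) (α (Y i) (Y j)))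
          (SimpleGraph.Walk.cons (hadjZZ (α (Y i) (Y j)) (α (Y j) (Y i)) hα)
          (SimpleGraph.Walk.cons (hadjZ _ (hYZ j) (α (Y j) (Y i))).symm
            SimpleGraph.Walk.nil)), ?_⟩
        intro e he
        rw [hEm, mem_exF]
        right
        refine ⟨hA, ?_⟩
        simp only [SimpleGraph.Walk.edges_cons, SimpleGraph.Walk.edges_nil, List.mem_cons,
          List.not_mem_nil, or_false] at he
        rcases he with rfl | rfl | rfl
        · exact Or.inl rfl
        · exact Or.inr (Or.inr ⟨hα, rfl⟩)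
        · exact Or.inr (Or.inl Sym2.eq_swap)
  have hTr : ∀ i j, i ≠ j → ∀ e ∈ E s(i, j), ∀ x ∈ e, x ∈ Set.range Y → x = Y i ∨ x = Y j := by
    intro i j _ e he x hx hxr
    rw [hYr] at hxr
    rw [hEm, mem_exF] at he
    rcases he with ⟨h, rfl⟩ | ⟨-, rfl | rfl | ⟨hne, rfl⟩⟩
    · exact Sym2.mem_iff.1 hx
    · rcases Sym2.mem_iff.1 hx with h | h
      · exact Or.inl h
      · exact absurd (h ▸ hzZ _) hxr
    · rcases Sym2.mem_iff.1 hx with h | h
      · exact Or.inr h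
      · exact absurd (h ▸ hzZ _) hxr
    · rcases Sym2.mem_iff.1 hx with h | h
      · exact absurd (h ▸ hzZ _) hxr
      · exact absurd (h ▸ hzZ _) hxr
  have hdis : ∀ p ∈ (⊤ : SimpleGraph (Fin k)).edgeSet, ∀ q ∈ (⊤ : SimpleGraph (Fin k)).edgeSet,
      p ≠ q → ∀ e ∈ E p, e ∉ E q := by
    intro p hp q hq hpq e he he'
    induction p using Sym2.ind with
    | _ i j =>
      induction q using Sym2.ind with
      | _ i' j' =>
        rw [SimpleGraph.mem_edgeSet, SimpleGraph.top_adj] at hp hq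
        rw [hEm] at he he'
        rcases ex_dis hzi hzZ h1 h2 h3 (hYZ i) (hYZ j) (hYZ i') (hYZ j')
          (fun h => hp (hYi h)) (fun h => hq (hYi h)) he he' with ⟨h4, h5⟩ | ⟨h4, h5⟩
        · exact hpq (by rw [hYi h4, hYi h5])
        · exact hpq (by rw [hYi h4, hYi h5]; exact Sym2.eq_swap)
  have hpsd := psd D Y hYi E hEG hW hTr hdis
  set P := ed (⊤ : SimpleGraph (Fin k)) with hP
  have hPm : ∀ p ∈ P, p ∈ (⊤ : SimpleGraph (Fin k)).edgeSet := fun p hp => mem_ed.1 hp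
  set g : Sym2 V → ℕ := fun e => ∑ f ∈ ed G, D.N e f with hg
  have hdisj : ∀ Q ⊆ P, Set.PairwiseDisjoint (↑Q : Set (Sym2 (Fin k))) E := by
    intro Q hQ p hp q hq hpq
    rw [Function.onFun, disjoint_left]
    exact hdis p (hPm p (hQ hp)) q (hPm q (hQ hq)) hpq
  -- first part
  have hfirst : ∑ p ∈ P, ∑ q ∈ P.erase p, ∑ e ∈ E p, ∑ f ∈ E q, D.N e f ≤
      ∑ e ∈ P.biUnion E, g e := by
    rw [sum_biUnion (hdisj P subset_rfl)]
    refine sum_le_sum fun p _ => ?_
    rw [sum_comm]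
    refine sum_le_sum fun e _ => ?_
    rw [← sum_biUnion (hdisj (P.erase p) (erase_subset _ _))]
    refine sum_le_sum_of_subset ?_
    intro f hf
    obtain ⟨q, _, hf⟩ := mem_biUnion.1 hf
    exact mem_ed.2 (hEG q f hf)
  have hunion : ∑ e ∈ P.biUnion E, g e + Phi D H Z ≤ D.cr := by
    have hd : Disjoint (P.biUnion E)
        ((ed G).filter (fun e => ∃ z ∈ Z, ∃ h ∈ H, h ∉ Z ∧ e = s(z, h))) := by
      rw [disjoint_left]
      intro e he he'
      obtain ⟨p, hp, he⟩ := mem_biUnion.1 he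
      rw [mem_filter] at he'
      obtain ⟨-, z, hz, h, hh, hhZ, rfl⟩ := he'
      have hp' := hPm p hp
      induction p using Sym2.ind with
      | _ i j =>
        rw [SimpleGraph.mem_edgeSet, SimpleGraph.top_adj] at hp'
        have hij : Y i ≠ Y j := fun h => hp' (hYi h)
        rw [hEm, mem_exF] at he
        rcases he with ⟨_, he⟩ | ⟨hna, he | he | ⟨_, he⟩⟩
        · rw [Sym2.eq_iff] at he
          rcases he with ⟨h4, _⟩ | ⟨h4, _⟩
          · exact hYZ i (h4 ▸ hz)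
          · exact hYZ j (h4 ▸ hz)
        · rw [Sym2.eq_iff] at he
          rcases he with ⟨h4, _⟩ | ⟨_, h5⟩
          · exact hYZ i (h4 ▸ hz)
          · exact hna (S.hub _ (h5 ▸ hh) _ hij.symm)
        · rw [Sym2.eq_iff] at he
          rcases he with ⟨h4, _⟩ | ⟨_, h5⟩
          · exact hYZ j (h4 ▸ hz)
          · exact hna (S.hub _ (h5 ▸ hh) _ hij).symm
        · rw [Sym2.eq_iff] at he
          rcases he with ⟨_, h5⟩ | ⟨_, h5⟩
          · exact hhZ (h5 ▸ hzZ _)
          · exact hhZ (h5 ▸ hzZ _)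
    have : Phi D H Z = ∑ e ∈ (ed G).filter (fun e => ∃ z ∈ Z, ∃ h ∈ H, h ∉ Z ∧ e = s(z, h)),
        g e := rfl
    rw [this, ← sum_union hd]
    unfold Drw.cr
    refine sum_le_sum_of_subset ?_
    intro e he
    rcases mem_union.1 he with he | he
    · obtain ⟨q, _, hf⟩ := mem_biUnion.1 he
      exact mem_ed.2 (hEG q e hf)
    · exact (mem_filter.1 he).1
  -- second part
  set on : V → Sym2 (Fin k) → Prop := fun x p => ∃ e ∈ E p, x ∈ e with hon
  have hnc : ∀ p q, {x : V | x ∉ Set.range Y ∧ (∃ e ∈ E p, x ∈ e) ∧ (∃ f ∈ E q, x ∈ f)}.ncard =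
      ∑ z ∈ Z, (if on z p then 1 else 0) * (if on z q then 1 else 0) := by
    intro p q
    have e1 : {x : V | x ∉ Set.range Y ∧ (∃ e ∈ E p, x ∈ e) ∧ (∃ f ∈ E q, x ∈ f)} =
        ((Z.filter (fun z => on z p ∧ on z q) : Finset V) : Set V) := by
      ext x
      rw [Set.mem_ofPred_eq, hYr, not_not, coe_filter, Set.mem_ofPred_eq]
    rw [e1, Set.ncard_coe_finset, card_filter]
    refine sum_congr rfl fun z _ => ?_
    by_cases h4 : on z p <;> by_cases h5 : on z q <;> simp [h4, h5]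
  have hpz : ∀ z ∈ Z, 2 * (∑ p ∈ P, if on z p then 1 else 0) ≤ 5 * m := by
    intro z hz
    rw [← card_filter]
    have hrep : ∀ p ∈ P.filter (on z), ∃ i j, p = s(i, j) ∧ i ≠ j ∧ ¬ G.Adj (Y i) (Y j) ∧
        z = zz (α (Y i) (Y j)) := by
      intro p hp
      rw [mem_filter] at hp
      obtain ⟨hp, e, he, hze⟩ := hp
      have hp' := hPm p hp
      induction p using Sym2.ind with
      | _ i j =>
        rw [SimpleGraph.mem_edgeSet, SimpleGraph.top_adj] at hp'
        rw [hEm, mem_exF] at he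
        rcases he with ⟨_, rfl⟩ | ⟨hna, rfl | rfl | ⟨_, rfl⟩⟩
        · rcases Sym2.mem_iff.1 hze with h | h
          · exact absurd (h ▸ hz) (hYZ i)
          · exact absurd (h ▸ hz) (hYZ j)
        · rcases Sym2.mem_iff.1 hze with h | h
          · exact absurd (h ▸ hz) (hYZ i)
          · exact ⟨i, j, rfl, hp', hna, h⟩
        · rcases Sym2.mem_iff.1 hze with h | h
          · exact absurd (h ▸ hz) (hYZ j)
          · exact ⟨j, i, Sym2.eq_swap, hp'.symm, fun h => hna h.symm, h⟩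
        · rcases Sym2.mem_iff.1 hze with h | h
          · exact ⟨i, j, rfl, hp', hna, h⟩
          · exact ⟨j, i, Sym2.eq_swap, hp'.symm, fun h => hna h.symm, h⟩
    have hle : (P.filter (fun i => on z i)).card ≤ (Hᶜ).card := by
      rcases (P.filter (on z)).eq_empty_or_nonempty with h0 | ⟨p0, hp0⟩
      · have h0' : P.filter (fun i => on z i) = ∅ := h0
        rw [h0', card_empty]
        exact Nat.zero_le _
      obtain ⟨i0, -⟩ := hrep p0 hp0
      have : Nonempty (Fin k) := ⟨i0⟩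
      choose! fi fj hf1 hf2 hf3 hf4 using hrep
      refine card_le_card_of_injOn (fun p => Y (fi p)) ?_ ?_
      · intro p hp
        rw [mem_coe] at hp
        rw [mem_coe, mem_compl]
        intro hH
        exact hf3 p hp (S.hub _ hH _ (fun h => hf2 p hp (hYi h.symm)))
      · intro p hp q hq hpq
        rw [mem_coe] at hp hq
        have h4 : fi p = fi q := hYi hpq
        have h5 : fj p = fj q := by
          by_contra hne
          refine h1 (Y (fi p)) (Y (fj p)) (Y (fj q)) (fun h => hf2 p hp (hYi h.symm))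
            (fun h => hf2 q hq (by rw [← h4]; exact hYi h.symm)) (hf3 p hp)
            (by rw [h4]; exact hf3 q hq) (fun h => hne (hYi h)) ?_
          apply hzi
          rw [← hf4 p hp]
          conv_rhs => rw [h4]
          exact hf4 q hq
        rw [hf1 p hp, hf1 q hq, h4, h5]
    rw [card_compl, hcard] at hle
    have := S.two_ι_le
    omega
  have hsecond : ∑ p ∈ P, ∑ q ∈ P.erase p,
      {x : V | x ∉ Set.range Y ∧ (∃ e ∈ E p, x ∈ e) ∧ (∃ f ∈ E q, x ∈ f)}.ncard ≤ 7 * m ^ 3 := by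
    have h4 : ∑ p ∈ P, ∑ q ∈ P.erase p,
        {x : V | x ∉ Set.range Y ∧ (∃ e ∈ E p, x ∈ e) ∧ (∃ f ∈ E q, x ∈ f)}.ncard ≤
        ∑ z ∈ Z, (∑ p ∈ P, if on z p then 1 else 0) ^ 2 := by
      calc _ ≤ ∑ p ∈ P, ∑ q ∈ P,
            {x : V | x ∉ Set.range Y ∧ (∃ e ∈ E p, x ∈ e) ∧ (∃ f ∈ E q, x ∈ f)}.ncard :=
            sum_le_sum fun p _ => sum_le_sum_of_subset (erase_subset _ _)
        _ = ∑ p ∈ P, ∑ q ∈ P, ∑ z ∈ Z, (if on z p then 1 else 0) * (if on z q then 1 else 0) := by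
            simp only [hnc]
        _ = ∑ p ∈ P, ∑ z ∈ Z, ∑ q ∈ P, (if on z p then 1 else 0) * (if on z q then 1 else 0) :=
            sum_congr rfl fun p _ => sum_comm
        _ = ∑ z ∈ Z, ∑ p ∈ P, ∑ q ∈ P, (if on z p then 1 else 0) * (if on z q then 1 else 0) :=
            sum_comm
        _ = _ := by
            refine sum_congr rfl fun z _ => ?_
            rw [sq, sum_mul_sum]
    have h5 : 4 * ∑ z ∈ Z, (∑ p ∈ P, if on z p then 1 else 0) ^ 2 ≤ 25 * m ^ 3 := by
      rw [mul_sum]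
      calc ∑ z ∈ Z, 4 * (∑ p ∈ P, if on z p then 1 else 0) ^ 2
          ≤ ∑ _z ∈ Z, (5 * m) ^ 2 := by
            refine sum_le_sum fun z hz => ?_
            calc 4 * (∑ p ∈ P, if on z p then 1 else 0) ^ 2 =
                  (2 * ∑ p ∈ P, if on z p then 1 else 0) ^ 2 := by ring
              _ ≤ (5 * m) ^ 2 := Nat.pow_le_pow_left (hpz z hz) 2
        _ = 25 * m ^ 3 := by
            rw [sum_const, hZm, smul_eq_mul]
            ring
    omega
  have hsplit : ∑ p ∈ P, ∑ q ∈ P.erase p, ((∑ e ∈ E p, ∑ f ∈ E q, D.N e f) +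
      {x : V | x ∉ Set.range Y ∧ (∃ e ∈ E p, x ∈ e) ∧ (∃ f ∈ E q, x ∈ f)}.ncard) =
      ∑ p ∈ P, ∑ q ∈ P.erase p, ∑ e ∈ E p, ∑ f ∈ E q, D.N e f +
      ∑ p ∈ P, ∑ q ∈ P.erase p,
        {x : V | x ∉ Set.range Y ∧ (∃ e ∈ E p, x ∈ e) ∧ (∃ f ∈ E q, x ∈ f)}.ncard := by
    simp only [sum_add_distrib]
  rw [hsplit] at hpsd
  omega

end Pool.Agent.ALB
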