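import Mathlib

/-! # ALB module PSI -/

set_option autoImplicit false

namespace Pool.Agent.ALB

/-- (PSI) An injection without 2-cycles.
Proof.  Injections `J → C` exist (`card J ≤ card C`).  Choose one, `ψ`, with the maximal number of
`b` with `ψ b = φ b`.  If `b ≠ b'`, `ψ b = φ b'`, `ψ b' = φ b`, then `ψ b ≠ ψ b'` gives
`ψ b ≠ φ b` and `ψ b' ≠ φ b'`; interchange the values of `ψ` at `b` and `b'`
(`ψ ∘ Equiv.swap b b'`): still injective, with two more such `b`.  Contradiction. -/
theorem exists_psi {J C : Type} [Fintype J] [Fintype C] [DecidableEq J] [DecidableEq C]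
    (h : Fintype.card J ≤ Fintype.card C) (φ : J → C) :
    ∃ ψ : J → C, Function.Injective ψ ∧ ∀ b b', b ≠ b' → ¬ (ψ b = φ b' ∧ ψ b' = φ b) := by
  classical
  obtain ⟨e⟩ := Function.Embedding.nonempty_of_card_le h
  obtain ⟨ψ, hψ, hmax⟩ := Finset.exists_max_image
    (Finset.univ.filter fun ψ : J → C => Function.Injective ψ)
    (fun ψ => (Finset.univ.filter fun b => ψ b = φ b).card) ⟨e, by simpa using e.injective⟩
  have hinj : Function.Injective ψ := by simpa using hψ
  refine ⟨ψ, hinj, ?_⟩
  rintro b b' hbb ⟨h1, h2⟩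
  have h3 : ψ b ≠ φ b := fun h => hbb (hinj (h.trans h2.symm))
  have h4 : ψ b' ≠ φ b' := fun h => hbb (hinj (h1.trans h.symm))
  have hinj' : Function.Injective (ψ ∘ Equiv.swap b b') :=
    hinj.comp (Equiv.swap b b').injective
  have h5 := hmax (ψ ∘ Equiv.swap b b') (by simpa using hinj')
  have h6 : insert b (Finset.univ.filter fun x => ψ x = φ x) ⊆
      Finset.univ.filter fun x => (ψ ∘ Equiv.swap b b') x = φ x := by
    intro x hx
    rw [Finset.mem_insert] at hx
    rw [Finset.mem_filter]
    refine ⟨Finset.mem_univ _, ?_⟩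
    rcases hx with rfl | hx
    · simpa using h2
    · have h7 : ψ x = φ x := by simpa using hx
      have h8 : x ≠ b := by
        rintro rfl
        exact h3 h7
      have h9 : x ≠ b' := by
        rintro rfl
        exact h4 h7
      rw [Function.comp_apply, Equiv.swap_apply_of_ne_of_ne h8 h9, h7]
  have h7 := Finset.card_le_card h6
  rw [Finset.card_insert_of_notMem (by simpa using h3)] at h7
  have h8 : (Finset.univ.filter fun x => (ψ ∘ Equiv.swap b b') x = φ x).card ≤
    (Finset.univ.filter fun x => ψ x = φ x).card := h5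
  omega

end Pool.Agent.ALB
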