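import Pool.Agent.ALB.StdB
import Pool.Agent.ALB.Psi

/-! # ALB module HCOL: half-colouring of the complement -/

set_option autoImplicit false

namespace Pool.Agent.ALB

open Finset

variable {V : Type} [Fintype V] {G : SimpleGraph V} {ι β : Type} [Fintype ι] [Fintype β]
  {H : Finset V}

private lemma hc_idx (S : Std G ι β H) {x : V} {b b' : β} (h : x = S.u b ∨ x = S.v b)
    (h' : x = S.u b' ∨ x = S.v b') : b = b' := by
  rcases h with h | h <;> rcases h' with h' | h'
  · exact S.u_inj (h.symm.trans h')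
  · exact absurd (h.symm.trans h') (S.uv b b')
  · exact absurd (h'.symm.trans h) (S.uv b' b)
  · exact S.v_inj (h.symm.trans h')

private lemma hc_blk (S : Std G ι β H) {y z : V} {b : β} (hy : y = S.u b ∨ y = S.v b)
    (hz : z = S.u b ∨ z = S.v b) (hyz : y ≠ z) : ¬ G.Adj y z := by
  rcases hy with rfl | rfl <;> rcases hz with rfl | rfl
  · exact absurd rfl hyz
  · exact S.pair b
  · exact fun h => S.pair b h.symm
  · exact absurd rfl hyz

private lemma hc_cls (S : Std G ι β H) {x y : V} (hxy : y ≠ x) (h : ¬ G.Adj x y) :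
    x ∉ H ∧ y ∉ H ∧ S.comp y = S.comp x := by
  have hx : x ∉ H := fun hx => h (S.hub x hx y hxy)
  exact ⟨hx, S.nonadj hx hxy h⟩

private lemma hc_comp (S : Std G ι β H) {x : V} {b : β} (h : x = S.u b ∨ x = S.v b) :
    S.comp x = S.blk b := by
  rcases h with rfl | rfl
  · exact S.comp_u b
  · exact S.comp_v b

private lemma hc_qb (S : Std G ι β H) {x : V} {i : ι} {b : β} (h : x = S.q i)
    (h' : x = S.u b ∨ x = S.v b) : False := by
  rcases h' with h' | h'
  · exact S.qu i b (h.symm.trans h')
  · exact S.qv i b (h.symm.trans h')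

/-- the block function -/
private lemma hc_bl (S : Std G ι β H) [Nonempty β] :
    ∃ bl : V → β, ∀ x b, (x = S.u b ∨ x = S.v b) → bl x = b := by
  classical
  refine ⟨fun x => if h : ∃ b, x = S.u b ∨ x = S.v b then h.choose else Classical.arbitrary β,
    fun x b hb => ?_⟩
  have h : ∃ b, x = S.u b ∨ x = S.v b := ⟨b, hb⟩
  simp only [dif_pos h]
  exact hc_idx S h.choose_spec hb

/-- (HCOL) **Half-colouring.**  Either `G` has a clique with `|H| + |ι| + |β|` vertices or there
are half colours `α x y ∈ ZMod m` (`m = |β|`) for the non-adjacent pairs `x, y` such that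
(1) for fixed `x` they are different for different `y`, and (2) the unordered pairs
`{α x y, α y x}` with two different members are different for different pairs `{x,y}`.

Proof.  If `m = 0` then `β`, hence `ι` (`Std.two_ι_le`) is empty, and `Q = H` is a clique.
Let `m ≥ 1` and `e : β ≃ ZMod m` (or `Fin m` with its addition).
Non-adjacent different `x, y` are outside `H` and in the same component (`Std.nonadj`).
A vertex `x ∉ H` has at most one non-neighbour in each block `{u b, v b}` (`Std.clique`, `pair`).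
The block of `x = u b` or `x = v b` is `b`.
*Both in blocks* `b, b'` (possibly `b = b'`, then `y` is the partner): `α x y = e b + e b'`.
*One is `q i`, the other, `y`, in block `b`* (`blk b = i`):
 (A) if `|ι| ≥ 2` choose for every `i` a block `l i` with `blk (l i) ≠ i` and put
 `α (q i) y = α y (q i) = e b + e (l i)`;
 (B) if `|ι| = 1` (so `i` is unique) let `J = {b | block b has a non-neighbour y_b of q i}`.  If for
 some `b ∈ J` the vertex `y_b` has non-neighbours in all blocks, then these `m` vertices and `q i`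
 are pairwise adjacent (`Std.clique`), together with `H` a clique of size `|H| + m + 1`.
 Otherwise every `y_b` has no non-neighbour in some block `f b`; `φ b = e b + e (f b)`, `ψ` from
 `exists_psi` (`J → ZMod m`), `α y_b (q i) = φ b`, `α (q i) y_b = ψ b`.
(1) For `x` in block `b`: the non-neighbours in blocks `b'` have different `b'`, colours
`e b + e b'`; the non-neighbour `q i` (only one) has colour `e b + e (l i)` where `l i` is in
another component than all these `b'`, resp. `φ b = e b + e (f b)`, `f b` different from all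
these `b'`.  For `x = q i`: different non-neighbours are in different blocks `b`, colours
`e b + e (l i)`, resp. `ψ b` (injective).
(2) Only in (B), pairs `{q, y_b}`: `{ψ b, φ b} = {ψ b', φ b'}` with `ψ b ≠ ψ b'` gives
`ψ b = φ b'`, `ψ b' = φ b`, excluded. -/
theorem half_col (S : Std G ι β H) {m : ℕ} (hm : m = Fintype.card β) :
    (∃ Q : Finset V, Q.card = H.card + Fintype.card ι + Fintype.card β ∧
      ∀ x ∈ Q, ∀ y ∈ Q, x ≠ y → G.Adj x y) ∨
    ∃ α : V → V → Fin m,
      (∀ x y z, y ≠ x → z ≠ x → ¬ G.Adj x y → ¬ G.Adj x z → y ≠ z → α x y ≠ α x z) ∧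
      (∀ x y x' y', y ≠ x → y' ≠ x' → ¬ G.Adj x y → ¬ G.Adj x' y' →
        α x y ≠ α y x → α x y = α x' y' → α y x = α y' x' → x = x' ∧ y = y') ∧
      (∀ x y x' y', y ≠ x → y' ≠ x' → ¬ G.Adj x y → ¬ G.Adj x' y' →
        α x y ≠ α y x → α x y = α y' x' → α y x = α x' y' → x = y' ∧ y = x') := by
  classical
  rcases Nat.eq_zero_or_pos m with hm0 | hm0
  · -- no blocks
    left
    have hβ0 : Fintype.card β = 0 := hm ▸ hm0
    have hι0 : Fintype.card ι = 0 := by
      have := S.two_ι_le
      omega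
    exact ⟨H, by omega, fun x hx y _ hxy => S.hub x hx y hxy.symm⟩
  have : NeZero m := ⟨hm0.ne'⟩
  have : Nonempty β := Fintype.card_pos_iff.1 (hm ▸ hm0)
  obtain ⟨e⟩ : Nonempty (β ≃ ZMod m) := ⟨Fintype.equivOfCardEq (by rw [ZMod.card, hm])⟩
  obtain ⟨c⟩ : Nonempty (ZMod m ≃ Fin m) := ⟨Fintype.equivOfCardEq (by
    rw [ZMod.card, Fintype.card_fin])⟩
  obtain ⟨bl, hbl⟩ := hc_bl S
  -- classification
  have hB : ∀ x, (∃ b, x = S.u b ∨ x = S.v b) → (x = S.u (bl x) ∨ x = S.v (bl x)) := by
    rintro x ⟨b, hb⟩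
    rw [hbl x b hb]
    exact hb
  have hcase : ∀ x, x ∉ H → (∃ i, x = S.q i) ∨ (¬ (∃ i, x = S.q i) ∧
      (x = S.u (bl x) ∨ x = S.v (bl x))) := by
    intro x hx
    rcases S.surj x hx with h | ⟨b, h⟩ | ⟨b, h⟩
    · exact Or.inl h
    · exact Or.inr ⟨fun ⟨i, hi⟩ => hc_qb S hi (Or.inl h), hB x ⟨b, Or.inl h⟩⟩
    · exact Or.inr ⟨fun ⟨i, hi⟩ => hc_qb S hi (Or.inr h), hB x ⟨b, Or.inr h⟩⟩
  -- two non-neighbours in blocks are in different blocks
  have hdiff : ∀ x y z, y ≠ x → z ≠ x → ¬ G.Adj x y → ¬ G.Adj x z → y ≠ z →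
      (y = S.u (bl y) ∨ y = S.v (bl y)) → (z = S.u (bl z) ∨ z = S.v (bl z)) → bl y ≠ bl z := by
    intro x y z h1 h2 h3 h4 h5 h6 h7 h8
    rw [← h8] at h7
    exact hc_blk S h6 h7 h5 (S.clique h1 h2 h5 h3 h4)
  -- reduction to `ZMod m`
  suffices hsuf : (∃ Q : Finset V, Q.card = H.card + Fintype.card ι + Fintype.card β ∧
      ∀ x ∈ Q, ∀ y ∈ Q, x ≠ y → G.Adj x y) ∨
    ∃ α : V → V → ZMod m,
      (∀ x y z, y ≠ x → z ≠ x → ¬ G.Adj x y → ¬ G.Adj x z → y ≠ z → α x y ≠ α x z) ∧
      (∀ x y x' y', y ≠ x → y' ≠ x' → ¬ G.Adj x y → ¬ G.Adj x' y' →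
        α x y ≠ α y x → α x y = α x' y' → α y x = α y' x' → x = x' ∧ y = y') by
    rcases hsuf with h | ⟨α, h1, h2⟩
    · exact Or.inl h
    · refine Or.inr ⟨fun x y => c (α x y), ?_, ?_, ?_⟩
      · intro x y z a1 a2 a3 a4 a5 h
        exact h1 x y z a1 a2 a3 a4 a5 (c.injective h)
      · intro x y x' y' a1 a2 a3 a4 a5 a6 a7
        exact h2 x y x' y' a1 a2 a3 a4 (fun h => a5 (congrArg c h)) (c.injective a6)
          (c.injective a7)
      · intro x y x' y' a1 a2 a3 a4 a5 a6 a7
        exact h2 x y y' x' a1 a2.symm a3 (fun h => a4 h.symm) (fun h => a5 (congrArg c h))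
          (c.injective a6) (c.injective a7)
  by_cases hι : Fintype.card ι ≤ 1
  · -- (B)
    have hsub : ∀ i j : ι, i = j := Fintype.card_le_one_iff.1 hι
    obtain ⟨i0⟩ : Nonempty ι := ⟨S.blk (Classical.arbitrary β)⟩
    have hι1 : Fintype.card ι = 1 := le_antisymm hι (Fintype.card_pos_iff.2 ⟨i0⟩)
    have hQ : ∀ x, (∃ i, x = S.q i) → x = S.q i0 := by
      rintro x ⟨i, hi⟩
      rw [hi, hsub i i0]
    by_cases hcl : ∃ y, (y ≠ S.q i0 ∧ ¬ G.Adj (S.q i0) y) ∧
        ∀ b, ∃ z, (z = S.u b ∨ z = S.v b) ∧ z ≠ y ∧ ¬ G.Adj y z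
    · -- a clique
      left
      obtain ⟨y, ⟨hy1, hy2⟩, hy3⟩ := hcl
      choose z hz1 hz2 hz3 using hy3
      have hzinj : Function.Injective z := fun b b' h => hc_idx S (hz1 b) (h ▸ hz1 b')
      have hzH : ∀ b, z b ∉ H := fun b => (hc_cls S (hz2 b) (hz3 b)).2.1
      have hqz : S.q i0 ∉ Finset.univ.image z := by
        intro h
        obtain ⟨b, -, hb⟩ := Finset.mem_image.1 h
        exact hc_qb S hb (hz1 b)
      have hdisj : Disjoint H (insert (S.q i0) (Finset.univ.image z)) := by
        rw [Finset.disjoint_left]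
        intro x hx hx'
        rcases Finset.mem_insert.1 hx' with rfl | hx'
        · exact S.q_not i0 hx
        · obtain ⟨b, -, rfl⟩ := Finset.mem_image.1 hx'
          exact hzH b hx
      refine ⟨H ∪ insert (S.q i0) (Finset.univ.image z), ?_, ?_⟩
      · rw [Finset.card_union_of_disjoint hdisj, Finset.card_insert_of_notMem hqz,
          Finset.card_image_of_injective _ hzinj, Finset.card_univ, hι1]
        ring
      · have hNN : ∀ x ∈ insert (S.q i0) (Finset.univ.image z), x ≠ y ∧ ¬ G.Adj y x := by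
          intro x hx
          rcases Finset.mem_insert.1 hx with rfl | hx
          · exact ⟨hy1.symm, fun h => hy2 h.symm⟩
          · obtain ⟨b, -, rfl⟩ := Finset.mem_image.1 hx
            exact ⟨hz2 b, hz3 b⟩
        intro x hx x' hx' hne
        rcases Finset.mem_union.1 hx with hx | hx
        · exact S.hub x hx x' hne.symm
        · rcases Finset.mem_union.1 hx' with hx' | hx'
          · exact (S.hub x' hx' x hne).symm
          · exact S.clique (hNN x hx).1 (hNN x' hx').1 hne (hNN x hx).2 (hNN x' hx').2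
    · right
      push Not at hcl
      -- the free block of a non-neighbour of `q`
      have hf : ∀ b : β, ∃ f : β, ∀ y, (y = S.u b ∨ y = S.v b) → y ≠ S.q i0 →
          ¬ G.Adj (S.q i0) y → ∀ z, (z = S.u f ∨ z = S.v f) → z ≠ y → G.Adj y z := by
        intro b
        by_cases hex : ∃ y, (y = S.u b ∨ y = S.v b) ∧ y ≠ S.q i0 ∧ ¬ G.Adj (S.q i0) y
        · obtain ⟨y, hy1, hy2, hy3⟩ := hex
          obtain ⟨f, hf⟩ := hcl y ⟨hy2, hy3⟩
          refine ⟨f, fun y' a1 a2 a3 z a4 a5 => ?_⟩
          have hyy : y' = y := by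
            by_contra hne
            exact hc_blk S a1 hy1 hne (S.clique a2 hy2 hne a3 hy3)
          rw [hyy] at a5 ⊢
          exact hf z a4 a5
        · exact ⟨b, fun y a1 a2 a3 => absurd ⟨y, a1, a2, a3⟩ hex⟩
      choose f hf using hf
      obtain ⟨ψ, hψ1, hψ2⟩ := exists_psi (J := β) (C := ZMod m) (by rw [ZMod.card, hm])
        (fun b => e b + e (f b))
      set α : V → V → ZMod m := fun x y =>
        if ∃ i, x = S.q i then ψ (bl y) else if ∃ i, y = S.q i then e (bl x) + e (f (bl x))
          else e (bl x) + e (bl y) with hα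
      -- non-adjacent pairs: not both are `q`
      have hqq : ∀ x y, y ≠ x → (∃ i, x = S.q i) → ¬ ∃ i, y = S.q i := fun x y h h1 h2 =>
        h ((hQ y h2).trans (hQ x h1).symm)
      have αq : ∀ x y, (∃ i, x = S.q i) → α x y = ψ (bl y) := fun x y h => by
        rw [hα]; simp only [if_pos h]
      have αb : ∀ x y, ¬ (∃ i, x = S.q i) → (∃ i, y = S.q i) →
          α x y = e (bl x) + e (f (bl x)) := fun x y h h' => by
        rw [hα]; simp only [if_neg h, if_pos h']
      have αbb : ∀ x y, ¬ (∃ i, x = S.q i) → ¬ (∃ i, y = S.q i) →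
          α x y = e (bl x) + e (bl y) := fun x y h h' => by
        rw [hα]; simp only [if_neg h, if_neg h']
      -- a vertex of a block
      have hblock : ∀ x, x ∉ H → ¬ (∃ i, x = S.q i) → (x = S.u (bl x) ∨ x = S.v (bl x)) :=
        fun x hx h => ((hcase x hx).resolve_left h).2
      -- uniqueness of the non-neighbour of `q` in a block
      have huniq : ∀ y y', ¬ (∃ i, y = S.q i) → ¬ (∃ i, y' = S.q i) → y ∉ H → y' ∉ H →
          ¬ G.Adj (S.q i0) y → ¬ G.Adj (S.q i0) y' → bl y = bl y' → y = y' := by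
        intro y y' a1 a2 a3 a4 a5 a6 a7
        by_contra hne
        have b1 := hblock y a3 a1
        have b2 := hblock y' a4 a2
        rw [← a7] at b2
        exact hc_blk S b1 b2 hne (S.clique (fun h => a1 ⟨_, h⟩) (fun h => a2 ⟨_, h⟩) hne a5 a6)
      have key : ∀ x y z, y ≠ x → z ≠ x → ¬ G.Adj x y → ¬ G.Adj x z →
          (∃ i, y = S.q i) → ¬ (∃ i, z = S.q i) → α x y ≠ α x z := by
        intro x y z a1 a2 a3 a4 a5 a6 h
        have hx : ¬ ∃ i, x = S.q i := fun h' => hqq x y a1 h' a5
        rw [αb x y hx a5, αbb x z hx a6] at h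
        have h1 : f (bl x) = bl z := e.injective (add_left_cancel h)
        have c1 := hc_cls S a1 a3
        have c2 := hc_cls S a2 a4
        have hxq : x ≠ S.q i0 := fun h' => hx ⟨_, h'⟩
        have hadj : ¬ G.Adj (S.q i0) x := by
          rw [← hQ y a5]; exact fun h' => a3 h'.symm
        refine a4 (hf (bl x) x (hblock x c1.1 hx) hxq hadj z ?_ a2)
        rw [h1]
        exact hblock z c2.2.1 a6
      refine ⟨α, ?_, ?_⟩
      · intro x y z a1 a2 a3 a4 a5
        by_cases hx : ∃ i, x = S.q i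
        · rw [αq x y hx, αq x z hx]
          have c1 := hc_cls S a1 a3
          have c2 := hc_cls S a2 a4
          exact fun h => hdiff x y z a1 a2 a3 a4 a5 (hblock y c1.2.1 (hqq x y a1 hx))
            (hblock z c2.2.1 (hqq x z a2 hx)) (hψ1 h)
        · by_cases hy : ∃ i, y = S.q i
          · by_cases hz : ∃ i, z = S.q i
            · exact absurd ((hQ y hy).trans (hQ z hz).symm) a5
            · exact key x y z a1 a2 a3 a4 hy hz
          · by_cases hz : ∃ i, z = S.q i
            · exact (key x z y a2 a1 a4 a3 hz hy).symm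
            · rw [αbb x y hx hy, αbb x z hx hz]
              have c1 := hc_cls S a1 a3
              have c2 := hc_cls S a2 a4
              exact fun h => hdiff x y z a1 a2 a3 a4 a5 (hblock y c1.2.1 hy)
                (hblock z c2.2.1 hz) (e.injective (add_left_cancel h))
      · -- asymmetric pairs contain `q`
        have hasym : ∀ x y, y ≠ x → α x y ≠ α y x →
            ((∃ i, x = S.q i) ∧ ¬ (∃ i, y = S.q i)) ∨ (¬ (∃ i, x = S.q i) ∧ (∃ i, y = S.q i)) := by
          intro x y hxy h
          by_cases hx : ∃ i, x = S.q i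
          · exact Or.inl ⟨hx, hqq x y hxy hx⟩
          · by_cases hy : ∃ i, y = S.q i
            · exact Or.inr ⟨hx, hy⟩
            · exact absurd (by rw [αbb x y hx hy, αbb y x hy hx, add_comm]) h
        -- no crossing of the two kinds
        have hnot : ∀ x y x' y', (∃ i, x = S.q i) → ¬ (∃ i, y = S.q i) → ¬ (∃ i, x' = S.q i) →
            (∃ i, y' = S.q i) → α x y ≠ α y x → α x y = α x' y' → α y x = α y' x' → False := by
          intro x y x' y' b1 b2 b3 b4 a5 a6 a7
          rw [αq x y b1, αb x' y' b3 b4] at a6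
          rw [αb y x b2 b1, αq y' x' b4] at a7
          by_cases hb : bl y = bl x'
          · apply a5
            rw [αq x y b1, αb y x b2 b1, a6, hb]
          · exact hψ2 _ _ hb ⟨a6, a7.symm⟩
        intro x y x' y' a1 a2 a3 a4 a5 a6 a7
        have a5' : α x' y' ≠ α y' x' := by rw [← a6, ← a7]; exact a5
        have c1 := hc_cls S a1 a3
        have c2 := hc_cls S a2 a4
        rcases hasym x y a1 a5 with ⟨b1, b2⟩ | ⟨b1, b2⟩ <;>
          rcases hasym x' y' a2 a5' with ⟨b3, b4⟩ | ⟨b3, b4⟩
        · rw [αq x y b1, αq x' y' b3] at a6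
          have hx := hQ x b1
          have hx' := hQ x' b3
          refine ⟨hx.trans hx'.symm, huniq y y' b2 b4 c1.2.1 c2.2.1 ?_ ?_ (hψ1 a6)⟩
          · rw [← hx]; exact a3
          · rw [← hx']; exact a4
        · exact (hnot x y x' y' b1 b2 b3 b4 a5 a6 a7).elim
        · exact (hnot x' y' x y b3 b4 b1 b2 a5' a6.symm a7.symm).elim
        · rw [αq y x b2, αq y' x' b4] at a7
          have hy := hQ y b2
          have hy' := hQ y' b4
          refine ⟨huniq x x' b1 b3 c1.1 c2.1 ?_ ?_ (hψ1 a7), hy.trans hy'.symm⟩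
          · rw [← hy]; exact fun h => a3 h.symm
          · rw [← hy']; exact fun h => a4 h.symm
  · -- (A)
    right
    push Not at hι
    have hl : ∀ i : ι, ∃ b : β, S.blk b ≠ i := by
      intro i
      obtain ⟨j, hj⟩ := Fintype.exists_ne_of_one_lt_card hι i
      obtain ⟨b, -, -, hb, -⟩ := S.big j
      exact ⟨b, by rw [hb]; exact hj⟩
    choose l hl using hl
    set g : V → ZMod m := fun x => if ∃ i, x = S.q i then e (l (S.comp x)) else e (bl x) with hg
    have gq : ∀ x, (∃ i, x = S.q i) → g x = e (l (S.comp x)) := fun x h => by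
      rw [hg]; simp only [if_pos h]
    have gb : ∀ x, ¬ (∃ i, x = S.q i) → g x = e (bl x) := fun x h => by
      rw [hg]; simp only [if_neg h]
    have key : ∀ x y z, y ≠ x → z ≠ x → ¬ G.Adj x y → ¬ G.Adj x z →
        (∃ i, y = S.q i) → ¬ (∃ i, z = S.q i) → g y ≠ g z := by
      intro x y z a1 a2 a3 a4 a5 a6 h
      rw [gq y a5, gb z a6] at h
      have c1 := hc_cls S a1 a3
      have c2 := hc_cls S a2 a4
      have h1 := e.injective h
      have h2 := hc_comp S ((hcase z c2.2.1).resolve_left a6).2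
      rw [← h1, c2.2.2, ← c1.2.2] at h2
      exact hl _ h2.symm
    refine ⟨fun x y => g x + g y, ?_, ?_⟩
    · intro x y z a1 a2 a3 a4 a5 h
      have h' := add_left_cancel h
      have c1 := hc_cls S a1 a3
      have c2 := hc_cls S a2 a4
      by_cases hy : ∃ i, y = S.q i
      · by_cases hz : ∃ i, z = S.q i
        · obtain ⟨i, hi⟩ := hy
          obtain ⟨j, hj⟩ := hz
          apply a5
          have d1 := c1.2.2
          have d2 := c2.2.2
          rw [hi, S.comp_q] at d1
          rw [hj, S.comp_q] at d2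
          rw [hi, hj, d1, d2]
        · exact key x y z a1 a2 a3 a4 hy hz h'
      · by_cases hz : ∃ i, z = S.q i
        · exact key x z y a2 a1 a4 a3 hz hy h'.symm
        · rw [gb y hy, gb z hz] at h'
          exact hdiff x y z a1 a2 a3 a4 a5 ((hcase y c1.2.1).resolve_left hy).2
            ((hcase z c2.2.1).resolve_left hz).2 (e.injective h')
    · intro x y x' y' _ _ _ _ a5
      exact absurd (add_comm _ _) a5

end Pool.Agent.ALB
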