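import Pool.Agent.ALB.ExStep
import Pool.Agent.ALB.Psc
import Pool.Agent.ALB.HalfCol
import Pool.Agent.ALB.Lim

/-! # ALB module EXACT: few pairs -/

set_option autoImplicit false

namespace Pool.Agent.ALB

open Finset

variable {V : Type} [Fintype V] {G : SimpleGraph V} {ι β : Type} [Fintype ι] [Fintype β]
  {H : Finset V}

private theorem ex_clique (D : Drw G) (Q : Finset V) {k : ℕ} (hQ : Q.card = k)
    (hA : ∀ x ∈ Q, ∀ y ∈ Q, x ≠ y → G.Adj x y) : crK k ≤ D.cr := by
  refine crK_le_cr_of_clique D (fun i => ((Q.equivFinOfCardEq hQ).symm i : V)) ?_ ?_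
  · intro i j h
    exact (Q.equivFinOfCardEq hQ).symm.injective (Subtype.ext h)
  · intro i j hij
    refine hA _ ((Q.equivFinOfCardEq hQ).symm i).2 _ ((Q.equivFinOfCardEq hQ).symm j).2 ?_
    intro h
    exact hij ((Q.equivFinOfCardEq hQ).symm.injective (Subtype.ext h))

/-- **Few pairs.**

Proof.  `half_col`.  First alternative: `crK_le_cr_of_clique`.  Second: `m = |β| ≥ 1` (there is an
element of `Fin m` because `V` is nonempty; if `V` is empty, `k = 0` and `crK 0 = 0`).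
`s = |H| = k - |ι| - m ≥ 4m - m/2 - m ≥ 2m`.  With `Z` from `exists_Z`:
`s Phi Z ≥ m crK s ≥ 2 m s³`, so `Phi Z ≥ 2 m s² ≥ 8 m³ ≥ 7 m³` (if `s > 0`), and `exact_step`
gives `crK k ≤ D.cr`. -/
theorem exact_regime (S : Std G ι β H) (D : Drw G) {k : ℕ}
    (hk : k = H.card + Fintype.card ι + Fintype.card β) (h4 : 4 * Fintype.card β ≤ k)
    (hs : 2 * H.card ^ 3 ≤ crK H.card) : crK k ≤ D.cr := by
  have hH : ∀ a ∈ H, ∀ b ∈ H, a ≠ b → G.Adj a b := fun a ha b _ hab => S.hub a ha b hab.symm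
  have hι := S.two_ι_le
  rcases Nat.eq_zero_or_pos (Fintype.card β) with h0 | hpos
  · exact ex_clique D H (by omega) hH
  rcases half_col S (m := Fintype.card β) rfl with ⟨Q, hQ, hQA⟩ | ⟨α, h1, h2, h3⟩
  · exact ex_clique D Q (by omega) hQA
  · obtain ⟨Z, hZ, hZm, hZc⟩ := exists_Z D H hH hpos (by omega)
    have hst := exact_step S D hk rfl Z hZ hZm α h1 h2 h3
    have hsH : 2 * Fintype.card β ≤ H.card := by omega
    have hH0 : 0 < H.card := by omega
    have h5 : 2 * Fintype.card β * H.card ^ 2 ≤ Phi D H Z := by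
      have h6 : H.card * (2 * Fintype.card β * H.card ^ 2) ≤ H.card * Phi D H Z := by
        refine le_trans ?_ hZc
        calc H.card * (2 * Fintype.card β * H.card ^ 2) =
              Fintype.card β * (2 * H.card ^ 3) := by ring
          _ ≤ Fintype.card β * crK H.card := Nat.mul_le_mul_left _ hs
      exact Nat.le_of_mul_le_mul_left h6 hH0
    have h7 : 7 * Fintype.card β ^ 3 ≤ 2 * Fintype.card β * H.card ^ 2 := by
      calc 7 * Fintype.card β ^ 3 ≤ 8 * Fintype.card β ^ 3 := by omega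
        _ = 2 * Fintype.card β * (2 * Fintype.card β) ^ 2 := by ring
        _ ≤ 2 * Fintype.card β * H.card ^ 2 :=
            Nat.mul_le_mul_left _ (Nat.pow_le_pow_left hsH 2)
    omega

private theorem ex_choose {s : ℕ} (hs : 4 ≤ s) : s ^ 4 ≤ 256 * s.choose 4 := by
  obtain ⟨t, rfl⟩ : ∃ t, s = t + 4 := ⟨s - 4, by omega⟩
  have h := Nat.descFactorial_eq_factorial_mul_choose (t + 4) 4
  have h2 : (t + 4).descFactorial 4 = (t + 1) * ((t + 2) * ((t + 3) * (t + 4))) := by
    simp [Nat.descFactorial]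
  rw [h2] at h
  have h3 : Nat.factorial 4 = 24 := rfl
  rw [h3] at h
  have h4 : 24 * (t + 4) ^ 4 ≤ 24 * (256 * (t + 4).choose 4) := by
    calc 24 * (t + 4) ^ 4 ≤ 256 * ((t + 1) * ((t + 2) * ((t + 3) * (t + 4)))) := by
          nlinarith [Nat.zero_le t, Nat.zero_le (t ^ 2), Nat.zero_le (t ^ 3), Nat.zero_le (t ^ 4)]
      _ = 24 * (256 * (t + 4).choose 4) := by
          rw [h]
          ring
  omega

/-- **Few pairs, for large `k`.**

Proof.  `c` from `exists_limit`.  If `c = 0`, `crK k = 0`.  If `c > 0`: for `s ≥ s₀`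
`crK s ≥ (c/2) choose s 4 ≥ 2 s³`; `s = |H| ≥ k - (3/2)|β| ≥ k/2 ≥ s₀`; `exact_regime`. -/
theorem exact : ∃ k₀ : ℕ, ∀ (V : Type) (_ : Fintype V) (G : SimpleGraph V) (ι β : Type)
    (_ : Fintype ι) (_ : Fintype β) (H : Finset V) (_ : Std G ι β H) (D : Drw G) (k : ℕ),
    k = H.card + Fintype.card ι + Fintype.card β → k₀ ≤ k →
    4 * Fintype.card β ≤ k → crK k ≤ D.cr := by
  obtain ⟨c, hc0, hc1, hc2⟩ := exists_limit
  rcases hc0.eq_or_lt with hc | hc
  · refine ⟨0, fun V _ G ι β _ _ H S D k hk _ h4 => ?_⟩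
    have := hc1 k
    rw [← hc, zero_mul] at this
    have h5 : crK k = 0 := by
      have : (crK k : ℝ) = 0 := le_antisymm this (Nat.cast_nonneg _)
      exact_mod_cast this
    rw [h5]
    exact Nat.zero_le _
  · obtain ⟨a₀, ha₀, ha⟩ := hc2 (c / 2) (by positivity)
    obtain ⟨n, hn⟩ := exists_nat_ge (1024 / c)
    refine ⟨2 * (a₀ + n), fun V _ G ι β _ _ H S D k hk hk0 h4 => ?_⟩
    refine exact_regime S D hk h4 ?_
    have hι := S.two_ι_le
    have hsa : a₀ + n ≤ H.card := by omega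
    have h5 := ha H.card (by omega)
    have h6 := ex_choose (s := H.card) (by omega)
    have h7 : ((H.card : ℝ)) ^ 4 ≤ 256 * (H.card.choose 4 : ℝ) := by exact_mod_cast h6
    have h8 : 1024 / c ≤ (H.card : ℝ) := by
      refine hn.trans ?_
      exact_mod_cast (by omega : n ≤ H.card)
    have h9 : (2 : ℝ) * (H.card : ℝ) ^ 3 ≤ (crK H.card : ℝ) := by
      refine le_trans ?_ h5
      have h10 : 1024 ≤ c * (H.card : ℝ) := by
        rw [div_le_iff₀ hc] at h8
        linarith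
      have h11 : 0 ≤ (H.card : ℝ) ^ 3 := by positivity
      have h12 : c * (H.card : ℝ) ^ 4 ≤ 256 * (c * (H.card.choose 4 : ℝ)) := by
        nlinarith
      have h13 : 1024 * (H.card : ℝ) ^ 3 ≤ c * (H.card : ℝ) ^ 4 := by
        calc 1024 * (H.card : ℝ) ^ 3 ≤ (c * (H.card : ℝ)) * (H.card : ℝ) ^ 3 := by gcongr
          _ = c * (H.card : ℝ) ^ 4 := by ring
      nlinarith
    exact_mod_cast h9

end Pool.Agent.ALB
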