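import Pool.Agent.ALB.Defs

/-! # ALB: drawings as in the frozen statement S11055 -/

set_option autoImplicit false

namespace Pool.Agent.ALB

/-- the crossing set of the frozen statement -/
def XS {n : ℕ} (G : SimpleGraph (Fin n)) (pos : Fin n → ℝ × ℝ)
    (γ : ∀ u v : Fin n, Path (pos u) (pos v)) : Set ((Fin n × Fin n) × (Fin n × Fin n) × (ℝ × ℝ)) :=
  {q : (Fin n × Fin n) × (Fin n × Fin n) × (ℝ × ℝ) |
          q.1.1 < q.1.2 ∧ G.Adj q.1.1 q.1.2 ∧ q.2.1.1 < q.2.1.2 ∧ G.Adj q.2.1.1 q.2.1.2 ∧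
          q.1 ≠ q.2.1 ∧ q.2.2 ∈ Set.range ⇑(γ q.1.1 q.1.2) ∧
          q.2.2 ∈ Set.range ⇑(γ q.2.1.1 q.2.1.2) ∧ q.2.2 ∉ Set.range pos}

/-- the conditions of the frozen statement on a drawing -/
def IsFrz {n : ℕ} (G : SimpleGraph (Fin n)) (pos : Fin n → ℝ × ℝ)
    (γ : ∀ u v : Fin n, Path (pos u) (pos v)) : Prop :=
  Function.Injective pos ∧
  (∀ u v : Fin n, u < v → G.Adj u v →
    Function.Injective ⇑(γ u v) ∧
      ∀ s : unitInterval, (γ u v) s ∈ Set.range pos → s = 0 ∨ s = 1) ∧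
  Set.Finite (XS G pos γ)

end Pool.Agent.ALB
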