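import Pool.Agent.ALB.Gal1

/-! # ALB module GAL2: one unmatched vertex in each component -/

set_option autoImplicit false

namespace Pool.Agent.ALB

open Classical in
/-- gluing two matchings along a component -/
theorem comp_one_glue {V : Type} (T : SimpleGraph V) {f g : V → V} (hf : IsM T f)
    (hg : IsM T g) (c : T.ConnectedComponent) :
    IsM T (fun w => if T.connectedComponentMk w = c then g w else f w) := by
  have hc : ∀ {h : V → V}, IsM T h → ∀ w, T.connectedComponentMk (h w) =
      T.connectedComponentMk w := by
    intro h hh w
    by_cases h1 : h w = w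
    · rw [h1]
    · exact SimpleGraph.ConnectedComponent.eq.2 (hh.2 w h1).symm.reachable
  constructor
  · intro w
    by_cases h1 : T.connectedComponentMk w = c
    · simp only [h1, if_true, hc hg w, hg.1 w]
    · simp only [h1, if_false, hc hf w, hf.1 w]
  · intro w
    by_cases h1 : T.connectedComponentMk w = c
    · simp only [h1, if_true]
      exact hg.2 w
    · simp only [h1, if_false]
      exact hf.2 w

/-- Every component contains exactly one unmatched vertex.

Proof.  At most one: `gallai`.  At least one: let `C` be a component, `t ∈ C`, and `g` optimal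
with `g t = t`.  `f₁ = g` on `C`, `f` outside, and `f₂ = f` on `C`, `g` outside, are matchings
(both `f` and `g` preserve components), with
`fixn f₁ + fixn f₂ = fixn f + fixn g = 2 N₀`, so both are optimal; `fixn f₁ = fixn f` says that
`f` and `g` have equally many fixed points in `C`, and `g` has one (`t`). -/
theorem comp_one {V : Type} [Fintype V] (T : SimpleGraph V) (N₀ : ℕ)
    (hmin : ∀ f, IsM T f → N₀ ≤ fixn f)
    (hall : ∀ v, ∃ f, IsM T f ∧ fixn f = N₀ ∧ f v = v) (f : V → V) (hf : IsM T f)
    (hf0 : fixn f = N₀) (c : T.ConnectedComponent) :
    ∃! v, f v = v ∧ T.connectedComponentMk v = c := by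
  classical
  have huniq : ∀ v w, f v = v → f w = w → T.connectedComponentMk v = c →
      T.connectedComponentMk w = c → v = w := by
    intro v w hv hw hvc hwc
    by_contra hne
    exact gallai T N₀ hmin hall f hf hf0 hne hv hw
      (SimpleGraph.ConnectedComponent.eq.1 (hvc.trans hwc.symm))
  suffices h : ∃ v, f v = v ∧ T.connectedComponentMk v = c by
    obtain ⟨v, hv, hvc⟩ := h
    exact ⟨v, ⟨hv, hvc⟩, fun w hw => huniq w v hw.1 hv hw.2 hvc⟩
  by_contra hno
  push Not at hno
  obtain ⟨t, ht⟩ := c.exists_rep
  have htc : T.connectedComponentMk t = c := ht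
  obtain ⟨g, hg, hg0, hgt⟩ := hall t
  have h1 := comp_one_glue T hf hg c
  have h2 := comp_one_glue T hg hf c
  have hsum : fixn (fun w => if T.connectedComponentMk w = c then g w else f w) +
      fixn (fun w => if T.connectedComponentMk w = c then f w else g w) = fixn f + fixn g := by
    unfold fixn
    simp only [Finset.card_filter]
    rw [← Finset.sum_add_distrib, ← Finset.sum_add_distrib]
    refine Finset.sum_congr rfl fun w _ => ?_
    by_cases hw : T.connectedComponentMk w = c
    · simp only [hw, if_true]
      ring
    · simp only [hw, if_false]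
  have h3 := hmin _ h2
  have h4 : fixn f < fixn (fun w => if T.connectedComponentMk w = c then g w else f w) := by
    unfold fixn
    refine Finset.card_lt_card ?_
    rw [Finset.ssubset_iff_of_subset]
    · refine ⟨t, ?_, ?_⟩
      · rw [Finset.mem_filter]
        refine ⟨Finset.mem_univ _, ?_⟩
        simp only [htc, if_true]
        exact hgt
      · rw [Finset.mem_filter]
        exact fun h => hno t h.2 htc
    · intro w hw
      rw [Finset.mem_filter] at hw ⊢
      refine ⟨Finset.mem_univ _, ?_⟩
      have : ¬ T.connectedComponentMk w = c := hno w hw.2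
      simp only [this, if_false]
      exact hw.2
  omega

end Pool.Agent.ALB
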