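import Pool.Agent.ALB.GalDefs

/-! # ALB module GAL1: Gallai's lemma -/

set_option autoImplicit false

namespace Pool.Agent.ALB

/-- **Gallai's lemma.**  If every vertex is missed by some maximum matching, then no maximum
matching misses two different vertices of the same component.

Proof.  Otherwise choose an optimal `f` and `u ≠ v` fixed by `f`, reachable from each other, with
`T.dist u v = δ` minimal.  `δ ≠ 1`: if `u, v` are adjacent, exchanging them (`f'` with
`f' u = v`, `f' v = u`) is a matching with fewer fixed points.  So `δ ≥ 2` and there is a vertex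
`t ≠ u, v` on a shortest path, with `dist u t < δ` and `dist t v < δ` (e.g. the second vertex).  By
minimality no optimal matching fixes both `u` and `t`, or both `t` and `v`.  In particular
`f t ≠ t`.  Among the optimal `g` with `g t = t` (they exist by `hall`) choose one with
`#{w | g w = f w}` maximal.  `g u ≠ u`, `g v ≠ v`.  As `f` and `g` have the same number of fixed
points and `u, v` are fixed by `f` only, at least two vertices are fixed by `g` only; one is `t`,
let `x ≠ t` be another: `g x = x`, `f x = y ≠ x`, `T.Adj x y`.  `g y ≠ y` (otherwise exchange `x`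
and `y` in `g`: fewer fixed points).  Let `z = g y`; `z ≠ x, y`.  Define `g'` by `g' x = y`,
`g' y = x`, `g' z = z`, and `g' = g` elsewhere: a matching with the same number of fixed points
(`x` lost, `z` new), `g' t = t` (`t ≠ x`; `t ≠ y, z` as `g` does not fix `y, z`).  It agrees
with `f` at `x` and `y`, where `g` does not (`g x = x ≠ y`, `g y = z ≠ x = f y`); at `z`,
`g z = y ≠ f z` (as `f y = x ≠ z`).  So `g'` agrees with `f` at more vertices: contradiction. -/
theorem gallai {V : Type} [Fintype V] (T : SimpleGraph V) (N₀ : ℕ)
    (hmin : ∀ f, IsM T f → N₀ ≤ fixn f)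
    (hall : ∀ v, ∃ f, IsM T f ∧ fixn f = N₀ ∧ f v = v) (f : V → V) (hf : IsM T f)
    (hf0 : fixn f = N₀) {u v : V} (huv : u ≠ v) (hu : f u = u) (hv : f v = v) :
    ¬ T.Reachable u v := by
  classical
  -- two adjacent unmatched vertices cannot exist
  have exch : ∀ g : V → V, IsM T g → fixn g = N₀ → ∀ x y : V, g x = x → g y = y →
      T.Adj x y → False := by
    intro g hg hg0 x y hx hy hxy
    have hne : x ≠ y := hxy.ne
    set g' : V → V := fun w => if w = x then y else if w = y then x else g w with hg'
    have e1 : g' x = y := by simp [hg']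
    have e2 : g' y = x := by simp [hg', hne.symm]
    have e3 : ∀ w, w ≠ x → w ≠ y → g' w = g w := fun w h1 h2 => by simp [hg', h1, h2]
    have hM : IsM T g' := by
      constructor
      · intro w
        by_cases h1 : w = x
        · rw [h1, e1, e2]
        by_cases h2 : w = y
        · rw [h2, e2, e1]
        rw [e3 w h1 h2, e3, hg.1]
        · intro h3
          exact h1 (by rw [← hg.1 w, h3, hx])
        · intro h3
          exact h2 (by rw [← hg.1 w, h3, hy])
      · intro w
        by_cases h1 : w = x
        · rw [h1, e1]
          exact fun _ => hxy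
        by_cases h2 : w = y
        · rw [h2, e2]
          exact fun _ => hxy.symm
        rw [e3 w h1 h2]
        exact hg.2 w
    have hlt : fixn g' < fixn g := by
      unfold fixn
      refine Finset.card_lt_card ?_
      rw [Finset.ssubset_iff_of_subset]
      · refine ⟨x, ?_, ?_⟩
        · rw [Finset.mem_filter]
          exact ⟨Finset.mem_univ _, hx⟩
        · rw [Finset.mem_filter, e1]
          exact fun h => hne h.2.symm
      · intro w hw
        rw [Finset.mem_filter] at hw ⊢
        refine ⟨Finset.mem_univ _, ?_⟩
        have h1 : w ≠ x := by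
          intro h
          rw [h, e1] at hw
          exact hne hw.2.symm
        have h2 : w ≠ y := by
          intro h
          rw [h, e2] at hw
          exact hne hw.2
        rw [← e3 w h1 h2]
        exact hw.2
    have := hmin g' hM
    omega
  -- strong induction on the distance
  suffices key : ∀ (δ : ℕ) (f : V → V), IsM T f → fixn f = N₀ → ∀ u v : V, u ≠ v → f u = u →
      f v = v → T.Reachable u v → T.dist u v = δ → False from
    fun hr => key _ f hf hf0 u v huv hu hv hr rfl
  clear hu hv huv u v hf0 hf f
  intro δ
  induction δ using Nat.strong_induction_on with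
  | _ δ ih =>
  intro f hf hf0 u v huv hu hv hr hδ
  by_cases hadj : T.Adj u v
  · exact exch f hf hf0 u v hu hv hadj
  obtain ⟨p, hp⟩ := hr.exists_walk_length_eq_dist
  cases p with
  | nil => exact huv rfl
  | @cons _ t _ hut p' =>
  rw [SimpleGraph.Walk.length_cons] at hp
  have hd1 : T.dist t v < δ := by
    have := SimpleGraph.dist_le p'
    omega
  have htv : t ≠ v := by
    rintro rfl
    exact hadj hut
  have hut' : u ≠ t := hut.ne
  have htvr : T.Reachable t v := ⟨p'⟩
  have hd2 : T.dist u t < δ := by
    have h1 : T.dist u t = 1 := SimpleGraph.dist_eq_one_iff_adj.2 hut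
    have h2 : 0 < T.dist t v := htvr.pos_dist_of_ne htv
    have h3 := SimpleGraph.dist_le p'
    omega
  have no1 : ∀ g, IsM T g → fixn g = N₀ → g u = u → g t = t → False := fun g h1 h2 h3 h4 =>
    ih _ hd2 g h1 h2 u t hut' h3 h4 hut.reachable rfl
  have no2 : ∀ g, IsM T g → fixn g = N₀ → g t = t → g v = v → False := fun g h1 h2 h3 h4 =>
    ih _ hd1 g h1 h2 t v htv h3 h4 htvr rfl
  have hft : f t ≠ t := fun h => no1 f hf hf0 hu h
  -- the optimal matching
  obtain ⟨g, hg, hgmax⟩ := (Finset.univ.filter (fun g : V → V =>
    IsM T g ∧ fixn g = N₀ ∧ g t = t)).exists_max_image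
      (fun g => (Finset.univ.filter (fun w => g w = f w)).card) (by
        obtain ⟨g, hg⟩ := hall t
        exact ⟨g, by rw [Finset.mem_filter]; exact ⟨Finset.mem_univ _, hg⟩⟩)
  rw [Finset.mem_filter] at hg
  obtain ⟨-, hgM, hg0, hgt⟩ := hg
  have hgu : g u ≠ u := fun h => no1 g hgM hg0 h hgt
  have hgv : g v ≠ v := fun h => no2 g hgM hg0 hgt h
  -- the vertex `x`
  set Ff := Finset.univ.filter (fun w => f w = w) with hFf
  set Fg := Finset.univ.filter (fun w => g w = w) with hFg
  have hcard : Ff.card = Fg.card := hf0.trans hg0.symm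
  have h2 : 1 < (Ff \ Fg).card := by
    rw [Finset.one_lt_card]
    refine ⟨u, ?_, v, ?_, huv⟩
    · rw [Finset.mem_sdiff, hFf, hFg, Finset.mem_filter, Finset.mem_filter]
      exact ⟨⟨Finset.mem_univ _, hu⟩, fun h => hgu h.2⟩
    · rw [Finset.mem_sdiff, hFf, hFg, Finset.mem_filter, Finset.mem_filter]
      exact ⟨⟨Finset.mem_univ _, hv⟩, fun h => hgv h.2⟩
  rw [Finset.card_sdiff_comm hcard] at h2
  obtain ⟨x, hx, hxt⟩ := Finset.exists_mem_ne h2 t
  rw [Finset.mem_sdiff, hFf, hFg, Finset.mem_filter, Finset.mem_filter] at hx
  have hgx : g x = x := hx.1.2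
  have hfx : f x ≠ x := fun h => hx.2 ⟨Finset.mem_univ _, h⟩
  obtain ⟨y, hy⟩ : ∃ y, y = f x := ⟨_, rfl⟩
  rw [← hy] at hfx
  have hxy : T.Adj x y := by
    rw [hy]
    exact hf.2 x (by rw [← hy]; exact hfx)
  have hfy : f y = x := by rw [hy, hf.1]
  have hgy : g y ≠ y := fun h => exch g hgM hg0 x y hgx h hxy
  obtain ⟨z, hz⟩ : ∃ z, z = g y := ⟨_, rfl⟩
  rw [← hz] at hgy
  have hgz : g z = y := by rw [hz, hgM.1]
  have hzx : z ≠ x := by
    intro h
    apply hfx
    rw [← hgz, h, hgx]
  set g' : V → V := fun w => if w = x then y else if w = y then x else if w = z then z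
    else g w with hg'
  have e1 : g' x = y := by simp [hg']
  have e2 : g' y = x := by simp [hg', hfx]
  have e3 : g' z = z := by simp [hg', hzx, hgy]
  have e4 : ∀ w, w ≠ x → w ≠ y → w ≠ z → g' w = g w := fun w h1 h2 h3 => by
    simp [hg', h1, h2, h3]
  have hM : IsM T g' := by
    constructor
    · intro w
      by_cases h1 : w = x
      · rw [h1, e1, e2]
      by_cases h2 : w = y
      · rw [h2, e2, e1]
      by_cases h3 : w = z
      · rw [h3, e3, e3]
      rw [e4 w h1 h2 h3, e4, hgM.1]
      · intro h
        exact h1 (by rw [← hgM.1 w, h, hgx])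
      · intro h
        exact h3 (by rw [← hgM.1 w, h, hz])
      · intro h
        exact h2 (by rw [← hgM.1 w, h, hgz])
    · intro w
      by_cases h1 : w = x
      · rw [h1, e1]
        exact fun _ => hxy
      by_cases h2 : w = y
      · rw [h2, e2]
        exact fun _ => hxy.symm
      by_cases h3 : w = z
      · rw [h3, e3]
        exact fun h => absurd rfl h
      rw [e4 w h1 h2 h3]
      exact hgM.2 w
  have hfix : fixn g' = N₀ := by
    rw [← hg0]
    have h3 : Finset.univ.filter (fun w => g' w = w) = insert z (Fg.erase x) := by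
      ext w
      rw [Finset.mem_filter, Finset.mem_insert, Finset.mem_erase, hFg, Finset.mem_filter]
      constructor
      · rintro ⟨-, hw⟩
        by_cases h3 : w = z
        · exact Or.inl h3
        have h1 : w ≠ x := by
          intro h
          rw [h, e1] at hw
          exact hfx hw
        have h2 : w ≠ y := by
          intro h
          rw [h, e2] at hw
          exact hfx hw.symm
        rw [e4 w h1 h2 h3] at hw
        exact Or.inr ⟨h1, Finset.mem_univ _, hw⟩
      · rintro (h | ⟨h1, -, h2⟩)
        · rw [h]
          exact ⟨Finset.mem_univ _, e3⟩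
        · refine ⟨Finset.mem_univ _, ?_⟩
          rw [e4 w h1, h2]
          · intro h
            rw [h, ← hz] at h2
            exact hgy h2
          · intro h
            rw [h, hgz] at h2
            exact hgy h2.symm
    have h4 : fixn g' = (insert z (Fg.erase x)).card := by
      rw [← h3]
      rfl
    have h5 : z ∉ Fg.erase x := by
      rw [Finset.mem_erase, hFg, Finset.mem_filter]
      rintro ⟨-, -, h⟩
      rw [hgz] at h
      exact hgy h.symm
    have h6 : x ∈ Fg := by
      rw [hFg, Finset.mem_filter]
      exact ⟨Finset.mem_univ _, hgx⟩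
    rw [h4, Finset.card_insert_of_notMem h5, Finset.card_erase_add_one h6]
    rfl
  have ht' : g' t = t := by
    rw [e4 t hxt.symm, hgt]
    · intro h
      rw [h, ← hz] at hgt
      exact hgy hgt
    · intro h
      rw [h, hgz] at hgt
      exact hgy hgt.symm
  have hle := hgmax g' (by
    rw [Finset.mem_filter]
    exact ⟨Finset.mem_univ _, hM, hfix, ht'⟩)
  have hlt : (Finset.univ.filter (fun w => g w = f w)).card <
      (Finset.univ.filter (fun w => g' w = f w)).card := by
    refine Finset.card_lt_card ?_
    rw [Finset.ssubset_iff_of_subset]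
    · refine ⟨x, ?_, ?_⟩
      · rw [Finset.mem_filter, e1]
        exact ⟨Finset.mem_univ _, hy⟩
      · rw [Finset.mem_filter, hgx, ← hy]
        exact fun h => hfx h.2.symm
    · intro w hw
      rw [Finset.mem_filter] at hw ⊢
      refine ⟨Finset.mem_univ _, ?_⟩
      have hw2 := hw.2
      rw [e4 w, hw2]
      · intro h
        rw [h, hgx, ← hy] at hw2
        exact hfx hw2.symm
      · intro h
        rw [h, ← hz, hfy] at hw2
        exact hzx hw2
      · intro h
        rw [h, hgz] at hw2
        apply hzx
        rw [← hfy, hw2, hf.1]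
  exact absurd hle (not_le.2 hlt)

end Pool.Agent.ALB
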