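import Mathlib

/-! # ALB: matchings as involutions -/

set_option autoImplicit false

namespace Pool.Agent.ALB

/-- `f` is a matching of `T`, given as an involution (fixed points are unmatched). -/
def IsM {V : Type} (T : SimpleGraph V) (f : V → V) : Prop :=
  (∀ v, f (f v) = v) ∧ ∀ v, f v ≠ v → T.Adj v (f v)

open Classical in
/-- number of unmatched vertices -/
noncomputable def fixn {V : Type} [Fintype V] (f : V → V) : ℕ :=
  (Finset.univ.filter (fun v => f v = v)).card

/-- independence number at most two -/
def Tri {V : Type} (G : SimpleGraph V) : Prop :=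
  ∀ x y z, x ≠ y → y ≠ z → x ≠ z → G.Adj x y ∨ G.Adj y z ∨ G.Adj x z

end Pool.Agent.ALB
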