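import Pool.Agent.ALB.StdB
import Pool.Agent.ALB.Gal

/-! # ALB module STDX: the standard form -/

set_option autoImplicit false

namespace Pool.Agent.ALB

theorem fixn_eq {V : Type} [Fintype V] [DecidableEq V] (f : V → V) :
    fixn f = (Finset.univ.filter (fun v => f v = v)).card := by
  unfold fixn
  congr

open Classical in
/-- **Standard form.**  `W` is a linearly ordered finite type.

Proof.  `T = Gᶜ`, `N₀ = 2k - card W`; `gallai`/`comp_one` apply.  Let `f` be an optimal matching
(`W` nonempty: take `f` from `hall`; if `W` is empty then `k = 0` by `hall`-free counting: `f = id`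
gives `2k ≤ 0`, and the empty set is a clique with `0` elements).
`H = {x | ∀ y ≠ x, G.Adj x y}` (the isolated vertices of `T`).  If `H = univ`, `W` is a clique, and
`fixn f = card W` for every matching, so `card W = k`: first alternative.
Otherwise: `ι = {c : T.ConnectedComponent // ∃ x ∉ H, T.connectedComponentMk x = c}`
(nonempty), `q c` = the unique unmatched vertex of `c` (`comp_one`); a component containing a
vertex `x ∉ H` has at least two vertices, so none of its vertices is isolated (connectedness:
every vertex of it has a neighbour), hence `q c ∉ H`, and all its vertices are outside `H`.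
`β = {x : W // x < f x}`, `u b = b`, `v b = f b` (both outside `H` as they are adjacent in `T`),
`blk b` = component of `b`; `comp x` = component of `x` if `x ∉ H`, arbitrary otherwise.
`surj`: `x ∉ H`: `f x = x` gives `x = q (comp x)`; `x < f x` or `f x < x` give a block.
`cross`: vertices in different components of `T` are different and not adjacent in `T`.
`big`: let `c ∈ ι`, `x₀` a vertex of `c` different from `q c`; it is not fixed by `f`
(uniqueness), so there is one pair `{a, a'}` in `c`.  If it were the only one, `c = {q, a, a'}`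
with `q = q c`, `a, a'` adjacent in `T`, and `q` adjacent in `T` to one of them, say `a`, hence
not to the other one, `a'` (`Tri`).  By `hall` there is an optimal `g` with `g a = a`; by
`comp_one` `g q ≠ q`, `g q ∈ c`, `g q ≠ a`, so `g q = a'`, but `q, a'` are not adjacent in `T`:
contradiction.
Count: `card W = |H| + |ι| + 2|β|`, `fixn f = |H| + |ι|` (isolated vertices are fixed; the
others are the `q c`), `2k = card W + fixn f`. -/
theorem std_of_crit {W : Type} [Fintype W] [LinearOrder W] {G : SimpleGraph W} (hG : Tri G)
    {k : ℕ} (hmin : ∀ f, IsM Gᶜ f → 2 * k ≤ Fintype.card W + fixn f)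
    (hall : ∀ v : W, ∃ f, IsM Gᶜ f ∧ Fintype.card W + fixn f = 2 * k ∧ f v = v) :
    (Fintype.card W = k ∧ ∀ x y : W, x ≠ y → G.Adj x y) ∨
    ∃ (ι β : Type) (_ : Fintype ι) (_ : Fintype β) (H : Finset W),
      Nonempty (Std G ι β H) ∧ k = H.card + Fintype.card ι + Fintype.card β := by
  set T : SimpleGraph W := Gᶜ with hT
  have hTadj : ∀ x y, T.Adj x y ↔ x ≠ y ∧ ¬ G.Adj x y := fun x y => SimpleGraph.compl_adj G x y
  have hmin' : ∀ f, IsM T f → 2 * k - Fintype.card W ≤ fixn f := by
    intro f hf
    have := hmin f hf
    omega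
  have hall' : ∀ v : W, ∃ f, IsM T f ∧ fixn f = 2 * k - Fintype.card W ∧ f v = v := by
    intro v
    obtain ⟨f, h1, h2, h3⟩ := hall v
    exact ⟨f, h1, by omega, h3⟩
  rcases isEmpty_or_nonempty W with hE | ⟨⟨w₀⟩⟩
  · left
    have h0 : IsM T (id : W → W) := ⟨fun v => rfl, fun v h => absurd rfl h⟩
    have h1 := hmin id h0
    have h2 : Fintype.card W = 0 := Fintype.card_eq_zero
    have h3 : fixn (id : W → W) = 0 := by
      rw [fixn_eq, Finset.card_eq_zero, Finset.filter_eq_empty_iff]
      intro x
      exact (hE.false x).elim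
    refine ⟨by omega, fun x => (hE.false x).elim⟩
  obtain ⟨f, hf, hfc, -⟩ := hall w₀
  have hf0 : fixn f = 2 * k - Fintype.card W := by omega
  by_cases hA : ∀ x y : W, x ≠ y → G.Adj x y
  · left
    refine ⟨?_, hA⟩
    have h1 : fixn f = Fintype.card W := by
      rw [fixn_eq, ← Finset.card_univ, Finset.filter_true_of_mem]
      intro x _
      by_contra hx
      have := (hTadj _ _).mp (hf.2 x hx)
      exact this.2 (hA _ _ this.1)
    omega
  right
  push Not at hA
  obtain ⟨x₀, y₀, hxy₀, hn₀⟩ := hA
  let Hs : Finset W := Finset.univ.filter (fun x => ∀ y, y ≠ x → G.Adj x y)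
  have hmemH : ∀ x, x ∈ Hs ↔ ∀ y, y ≠ x → G.Adj x y := by
    intro x
    simp [Hs]
  have hnot : ∀ x, x ∉ Hs ↔ ∃ y, T.Adj x y := by
    intro x
    rw [hmemH]
    push Not
    constructor
    · rintro ⟨y, h1, h2⟩
      exact ⟨y, (hTadj _ _).mpr ⟨h1.symm, h2⟩⟩
    · rintro ⟨y, h⟩
      have := (hTadj _ _).mp h
      exact ⟨y, this.1.symm, this.2⟩
  have hx₀ : x₀ ∉ Hs := (hnot _).mpr ⟨y₀, (hTadj _ _).mpr ⟨hxy₀, hn₀⟩⟩
  have hreach : ∀ x y, T.connectedComponentMk x = T.connectedComponentMk y → x ∉ Hs → y ∉ Hs := by
    intro x y h hx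
    obtain ⟨w⟩ := (SimpleGraph.ConnectedComponent.exact h).symm
    cases w with
    | nil => exact hx
    | cons h' _ => exact (hnot _).mpr ⟨_, h'⟩
  have hmkadj : ∀ x y, T.Adj x y → T.connectedComponentMk x = T.connectedComponentMk y := by
    intro x y h
    exact SimpleGraph.ConnectedComponent.sound h.reachable
  let ι : Type := {c : T.ConnectedComponent // ∃ x, x ∉ Hs ∧ T.connectedComponentMk x = c}
  have : Finite T.ConnectedComponent := Quot.finite _
  letI : Fintype ι := Fintype.ofFinite ι
  let β : Type := {x : W // x < f x}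
  letI : Fintype β := Fintype.ofFinite β
  have hone : ∀ i : ι, ∃! v, f v = v ∧ T.connectedComponentMk v = i.1 := fun i =>
    comp_one T (2 * k - Fintype.card W) hmin' hall' f hf hf0 i.1
  choose q hq using hone
  have hq1 : ∀ i, f (q i) = q i := fun i => (hq i).1.1
  have hq2 : ∀ i, T.connectedComponentMk (q i) = i.1 := fun i => (hq i).1.2
  have hq3 : ∀ i v, f v = v → T.connectedComponentMk v = i.1 → v = q i := fun i v h h' =>
    (hq i).2 v ⟨h, h'⟩
  have hqn : ∀ i, q i ∉ Hs := by
    intro i
    obtain ⟨x, hx, hxc⟩ := i.2
    exact hreach x (q i) (by rw [hq2, hxc]) hx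
  have hun : ∀ b : β, b.1 ∉ Hs := fun b => (hnot _).mpr ⟨_, hf.2 _ b.2.ne'⟩
  have hvn : ∀ b : β, f b.1 ∉ Hs := fun b => (hnot _).mpr ⟨_, (hf.2 _ b.2.ne').symm⟩
  have hmkf : ∀ x, T.connectedComponentMk (f x) = T.connectedComponentMk x := by
    intro x
    by_cases h : f x = x
    · rw [h]
    · exact (hmkadj _ _ (hf.2 x h)).symm
  have hfinj : Function.Injective f := fun x y h => by
    rw [← hf.1 x, ← hf.1 y, h]
  let blk : β → ι := fun b => ⟨T.connectedComponentMk b.1, b.1, hun b, rfl⟩
  let i₀ : ι := ⟨T.connectedComponentMk x₀, x₀, hx₀, rfl⟩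
  let comp : W → ι := fun x => if h : x ∉ Hs then ⟨T.connectedComponentMk x, x, h, rfl⟩ else i₀
  have hcomp : ∀ x, x ∉ Hs → (comp x).1 = T.connectedComponentMk x := by
    intro x hx
    simp only [comp, dif_pos hx]
  have hblock : ∀ x, f x ≠ x → ∃ b : β, (b.1 = x ∨ b.1 = f x) ∧
      T.connectedComponentMk b.1 = T.connectedComponentMk x := by
    intro x hx
    rcases lt_or_gt_of_ne hx with h | h
    · exact ⟨⟨f x, by rw [hf.1 x]; exact h⟩, Or.inr rfl, hmkf x⟩
    · exact ⟨⟨x, h⟩, Or.inl rfl, rfl⟩
  have hS : Std G ι β Hs :=
    { q := q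
      u := fun b => b.1
      v := fun b => f b.1
      blk := blk
      comp := comp
      hub := fun h hh x hx => (hmemH h).mp hh x hx
      tri := hG
      q_not := hqn
      u_not := hun
      v_not := hvn
      q_inj := by
        intro i j hij
        apply Subtype.ext
        rw [← hq2 i, ← hq2 j, hij]
      u_inj := fun b b' h => Subtype.ext h
      v_inj := fun b b' h => Subtype.ext (hfinj h)
      qu := by
        intro i b h
        have h1 := hq1 i
        rw [h] at h1
        exact b.2.ne h1.symm
      qv := by
        intro i b h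
        have h1 := hq1 i
        rw [h, hf.1] at h1
        exact b.2.ne h1
      uv := by
        intro b b' h
        have h1 : b.1 = f b'.1 := h
        have h2 := b.2
        have h3 := b'.2
        rw [h1, hf.1] at h2
        exact absurd h2 (not_lt_of_gt h3)
      surj := by
        intro x hx
        rcases lt_trichotomy (f x) x with h | h | h
        · right; right
          exact ⟨⟨f x, by rw [hf.1]; exact h⟩, (hf.1 x).symm⟩
        · left
          exact ⟨comp x, hq3 _ _ h (hcomp x hx).symm⟩
        · right; left
          exact ⟨⟨x, h⟩, rfl⟩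
      pair := by
        intro b
        exact ((hTadj _ _).mp (hf.2 _ b.2.ne')).2
      comp_q := by
        intro i
        apply Subtype.ext
        rw [hcomp _ (hqn i), hq2]
      comp_u := by
        intro b
        apply Subtype.ext
        rw [hcomp _ (hun b)]
      comp_v := by
        intro b
        apply Subtype.ext
        rw [hcomp _ (hvn b), hmkf]
      cross := by
        intro x y hx hy hc
        by_contra hn
        apply hc
        apply Subtype.ext
        rw [hcomp _ hx, hcomp _ hy]
        by_cases hxy : x = y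
        · rw [hxy]
        · exact hmkadj _ _ ((hTadj _ _).mpr ⟨hxy, hn⟩)
      big := by
        intro i
        obtain ⟨a, hqa⟩ := (hnot _).mp (hqn i)
        have hac : T.connectedComponentMk a = i.1 := by rw [← hmkadj _ _ hqa, hq2]
        have haq : a ≠ q i := hqa.ne'
        have hfa : f a ≠ a := fun h => haq (hq3 i a h hac)
        have hTa : T.Adj a (f a) := hf.2 a hfa
        have hfaq : f a ≠ q i := by
          intro h
          apply haq
          apply hfinj
          rw [h, hq1]
        have hnadj : ¬ T.Adj (q i) (f a) := by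
          intro h
          have h1 := (hTadj _ _).mp h
          have h2 := (hTadj _ _).mp hTa
          have h3 := (hTadj _ _).mp hqa
          rcases hG (q i) a (f a) haq.symm hfa.symm hfaq.symm with h4 | h4 | h4
          · exact h3.2 h4
          · exact h2.2 h4
          · exact h1.2 h4
        obtain ⟨g, hg, hg0, hga⟩ := hall' a
        obtain ⟨z, -, hz⟩ := comp_one T (2 * k - Fintype.card W) hmin' hall' g hg hg0 i.1
        have hgq : g (q i) ≠ q i := by
          intro h
          have h1 := hz (q i) ⟨h, hq2 i⟩
          have h2 := hz a ⟨hga, hac⟩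
          exact haq (h2.trans h1.symm)
        have hTw : T.Adj (q i) (g (q i)) := hg.2 _ hgq
        set w := g (q i) with hw
        have hwc : T.connectedComponentMk w = i.1 := by rw [← hmkadj _ _ hTw, hq2]
        have hwa : w ≠ a := by
          intro h
          have h1 := hg.1 (q i)
          rw [← hw, h, hga] at h1
          exact haq h1
        have hwfa : w ≠ f a := fun h => hnadj (h ▸ hTw)
        have hfw : f w ≠ w := fun h => hgq (hq3 i w h hwc)
        obtain ⟨b, hb1, hb2⟩ := hblock a hfa
        obtain ⟨b', hb1', hb2'⟩ := hblock w hfw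
        refine ⟨b, b', ?_, Subtype.ext (hb2.trans hac), Subtype.ext (hb2'.trans hwc)⟩
        intro hbb
        rw [← hbb] at hb1'
        rcases hb1 with h1 | h1 <;> rcases hb1' with h2 | h2
        · exact hwa (h2.symm.trans h1)
        · apply hwfa
          rw [← h1, h2, hf.1]
        · exact hwfa (h2.symm.trans h1)
        · apply hwa
          apply hfinj
          rw [← h2, h1] }
  refine ⟨ι, β, inferInstance, inferInstance, Hs, ⟨hS⟩, ?_⟩
  have hcard := hS.card
  have hfix : fixn f = Hs.card + Fintype.card ι := by
    have h1 : (Finset.univ.filter (fun v => f v = v)) = Hs ∪ (Finset.univ.image q) := by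
      ext x
      simp only [Finset.mem_filter, Finset.mem_univ, true_and, Finset.mem_union,
        Finset.mem_image]
      constructor
      · intro h
        by_cases hx : x ∈ Hs
        · exact Or.inl hx
        · exact Or.inr ⟨comp x, (hq3 _ _ h (hcomp x hx).symm).symm⟩
      · rintro (h | ⟨i, rfl⟩)
        · by_contra hne
          exact (hnot x).mpr ⟨_, hf.2 x hne⟩ h
        · exact hq1 i
    have h2 : Disjoint Hs (Finset.univ.image q) := by
      rw [Finset.disjoint_left]
      intro x hx hx'
      rw [Finset.mem_image] at hx'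
      obtain ⟨i, -, rfl⟩ := hx'
      exact hqn i hx
    have hqinj : Function.Injective q := by
      intro i j hij
      apply Subtype.ext
      rw [← hq2 i, ← hq2 j, hij]
    have h3 : (Finset.univ.image q).card = Fintype.card ι := by
      rw [Finset.card_image_of_injective _ hqinj, Finset.card_univ]
    rw [fixn_eq, h1, Finset.card_union_of_disjoint h2, h3]
  omega

end Pool.Agent.ALB
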