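import Pool.Agent.ALB.Asym
import Pool.Agent.ALB.Exact
import Pool.Agent.ALB.StdX
import Pool.Agent.ALB.Crit
import Pool.Agent.ALB.Clique
import Pool.Agent.ALB.Res
import Pool.Agent.ALB.FrzIn
import Pool.Agent.ALB.FrzOut

/-! # ALB: main theorem -/

set_option autoImplicit false

namespace Pool.Agent.ALB

/-- standard form graphs -/
theorem core_std : ∃ k₀ : ℕ, ∀ (V : Type) (_ : Fintype V) (G : SimpleGraph V) (ι β : Type)
    (_ : Fintype ι) (_ : Fintype β) (H : Finset V) (_ : Std G ι β H) (D : Drw G) (k : ℕ),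
    k = H.card + Fintype.card ι + Fintype.card β → k₀ ≤ k → crK k ≤ D.cr := by
  obtain ⟨k1, h1⟩ := asym
  obtain ⟨k2, h2⟩ := exact
  refine ⟨max k1 k2, ?_⟩
  intro V _ G ι β _ _ H S D k hk hk0
  by_cases h4 : 4 * Fintype.card β ≤ k
  · exact h2 V _ G ι β _ _ H S D k hk (le_trans (le_max_right _ _) hk0) h4
  · obtain ⟨D', hD', hN⟩ := exists_noAdj D
    exact le_trans (h1 V _ G ι β _ _ H S D' k hN hk (le_trans (le_max_left _ _) hk0)
      (by omega)) hD'

/-- all graphs with independence number at most two -/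
theorem core : ∃ k₀ : ℕ, ∀ (n : ℕ) (G : SimpleGraph (Fin n)) (k : ℕ), Tri G → k₀ ≤ k →
    ¬ G.Colorable (k - 1) → ∀ D : Drw G, crK k ≤ D.cr := by
  obtain ⟨k0, h0⟩ := core_std
  refine ⟨max k0 1, ?_⟩
  intro n G k hG hk hχ D
  have hk1 : 1 ≤ k := le_trans (le_max_right _ _) hk
  obtain ⟨A, ha, hb⟩ := exists_crit hG hk1 hχ
  obtain ⟨D', hD'⟩ := exists_comap D (Subtype.val : {x // x ∈ A} → Fin n)
    Subtype.val_injective
  have hG' : Tri (G.comap (Subtype.val : {x // x ∈ A} → Fin n)) := by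
    intro x y z hxy hyz hxz
    exact hG x.1 y.1 z.1 (fun h => hxy (Subtype.ext h)) (fun h => hyz (Subtype.ext h))
      (fun h => hxz (Subtype.ext h))
  refine le_trans ?_ hD'
  rcases std_of_crit hG' ha hb with ⟨hc, hq⟩ | ⟨ι, β, _, _, H, ⟨S⟩, hkk⟩
  · have e : Fin k ≃ {x // x ∈ A} := (Fintype.equivFinOfCardEq hc).symm
    exact crK_le_cr_of_clique D' e e.injective (fun i j hij => hq _ _ (e.injective.ne hij))
  · exact h0 _ _ _ ι β _ _ H S D' k hkk (le_trans (le_max_left _ _) hk)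

/-- **Albertson's conjecture for graphs with independence number at most two and large chromatic
number**, in the form of the frozen statement. -/
theorem main : ∃ t₀ : ℕ, ∀ (n : ℕ) (G : SimpleGraph (Fin n)) (t : ℕ), t₀ ≤ t →
    (∀ x y z : Fin n, x ≠ y → y ≠ z → x ≠ z → G.Adj x y ∨ G.Adj y z ∨ G.Adj x z) →
    (t : ℕ∞) ≤ G.chromaticNumber →
      ∀ (pos : Fin n → ℝ × ℝ) (γ : ∀ u v : Fin n, Path (pos u) (pos v)), IsFrz G pos γ →
        ∃ (pos' : Fin t → ℝ × ℝ) (γ' : ∀ u v : Fin t, Path (pos' u) (pos' v)),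
          IsFrz (⊤ : SimpleGraph (Fin t)) pos' γ' ∧
          (XS (⊤ : SimpleGraph (Fin t)) pos' γ').ncard ≤ (XS G pos γ).ncard := by
  obtain ⟨k0, h0⟩ := core
  refine ⟨max k0 1, ?_⟩
  intro n G t ht hG hχ pos γ hf
  have ht1 : 1 ≤ t := le_trans (le_max_right _ _) ht
  obtain ⟨D, hD⟩ := frz_in hf
  have hcol : ¬ G.Colorable (t - 1) := by
    intro hc
    have h := hc.chromaticNumber_le
    have h2 : (t : ℕ∞) ≤ ((t - 1 : ℕ) : ℕ∞) := le_trans hχ h
    have h3 : t ≤ t - 1 := by exact_mod_cast h2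
    omega
  have hle := h0 n G t hG (le_trans (le_max_left _ _) ht) hcol D
  obtain ⟨D', hD'⟩ := exists_opt t
  obtain ⟨pos', γ', hfz, hcr⟩ := frz_out D'
  exact ⟨pos', γ', hfz, by rw [hcr, hD', ← hD]; exact hle⟩

end Pool.Agent.ALB
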