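import Mathlib

/-! # ALB module NUM: numerical inequalities -/

set_option autoImplicit false

namespace Pool.Agent.ALB

/-- Proof: `(1-s²)⁴ - 1 + (3/2) s = s (3/2 - 4 s + 6 s³ - 4 s⁵ + s⁷)` and the second factor is
positive on `[0,1]` (its minimum is about `0.11` near `s = 0.58`); e.g. split `[0,1]` into
intervals, or write `3/2 - 4s + 6s³ - 4s⁵ + s⁷ ≥ ...` and use `nlinarith`. -/
theorem num1 {s : ℝ} (h0 : 0 ≤ s) (h1 : s ≤ 1) : 1 - 3 / 2 * s ≤ (1 - s ^ 2) ^ 4 := by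
  rcases le_total (2 / 3) s with h | h
  · have h2 : 0 ≤ (1 - s ^ 2) ^ 4 := by positivity
    linarith
  · have e : (1 - s ^ 2) ^ 4 - (1 - 3 / 2 * s) =
        s * (3 / 2 - 4 * s + 6 * s ^ 3 - 4 * s ^ 5 + s ^ 7) := by ring
    have a1 : 0 ≤ s ^ 3 := by positivity
    have a2 : 0 ≤ s ^ 7 := by positivity
    have a3 : s ^ 5 ≤ 4 / 9 * s ^ 3 := by
      have : s ^ 5 = s ^ 2 * s ^ 3 := by ring
      rw [this]
      apply mul_le_mul_of_nonneg_right _ a1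
      nlinarith
    have a4 : 0 ≤ (s - 562 / 1000) ^ 2 * (s + 2 * (562 / 1000)) := by positivity
    have a5 : 3 * (562 / 1000) ^ 2 * s - 2 * (562 / 1000) ^ 3 ≤ s ^ 3 := by nlinarith
    have a6 : 0 ≤ 3 / 2 - 4 * s + 6 * s ^ 3 - 4 * s ^ 5 + s ^ 7 := by
      norm_num at a5
      linarith
    have a7 := mul_nonneg h0 a6
    linarith

/-- Proof.  Numerically the difference is at least `0.06`.  For `p ≤ 2/5`: `16 S⁴ - 3 S ≥ -0.8125`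
for all `S ≥ 0` (tangent at `S = 0.36`: `16 S⁴ - 3 S ≥ 16 S₀⁴ - 3 S₀ + (64 S₀³ - 3)(S - S₀)`, or
`16 S⁴ - 3 S + 13/16 ≥ 0` by `nlinarith`), and `(11/10)(1 + p/5)⁴ + 1/50 ≤ 2 + p - 13/16` on
`[0,2/5]`.  For `p ≥ 2/5`: `S ≥ p - 1/1000 ≥ 0.399`, and `16 S⁴ - 3 S` is increasing for
`S ≥ 0.37` (`16 (S⁴ - T⁴) ≥ 3 (S - T)` for `S ≥ T ≥ 0.37`), so one may put `S = p - 1/1000`; what
remains is a polynomial inequality in `p ∈ [2/5, 1]`. -/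
theorem num2 {p S : ℝ} (h0 : 0 ≤ p) (h1 : p ≤ 1) (hS : 0 ≤ S) (hpS : p - 1 / 1000 ≤ S) :
    11 / 10 * (1 + p / 5) ^ 4 + 1 / 50 ≤ 16 * S ^ 4 - 3 * S + 2 + p := by
  have q0 : ∀ S : ℝ, 0 ≤ S → -(13 / 16) ≤ 16 * S ^ 4 - 3 * S := by
    intro S hS
    have e : 16 * S ^ 4 - 3 * S + 13 / 16 =
        16 * (S ^ 2 - 13 / 100) ^ 2 + (416 / 100) * (S - 3606 / 10000) ^ 2 +
        (416 / 100 * (2 * (3606 / 10000)) - 3) * S +
        (13 / 16 - 16 * (13 / 100) ^ 2 - 416 / 100 * (3606 / 10000) ^ 2) := by ring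
    have h1 : 0 ≤ 16 * (S ^ 2 - 13 / 100) ^ 2 := by positivity
    have h2 : 0 ≤ (416 / 100 : ℝ) * (S - 3606 / 10000) ^ 2 := by positivity
    have h3 : 0 ≤ (416 / 100 * (2 * (3606 / 10000)) - 3) * S := by
      apply mul_nonneg _ hS
      norm_num
    have h4 : (0 : ℝ) ≤ 13 / 16 - 16 * (13 / 100) ^ 2 - 416 / 100 * (3606 / 10000) ^ 2 := by
      norm_num
    linarith
  rcases le_total p (2 / 5) with h | h
  · have h3 := q0 S hS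
    have h4 : 11 / 10 * (1 + p / 5) ^ 4 + 1 / 50 ≤ 2 + p - 13 / 16 := by
      have a1 : 0 ≤ p ^ 2 := by positivity
      have a2 : p ^ 2 ≤ 2 / 5 * p := by nlinarith
      have a3 : p ^ 3 ≤ 4 / 25 * p := by nlinarith
      have a4 : p ^ 4 ≤ 8 / 125 * p := by nlinarith [mul_nonneg h0 a1]
      have e : (1 + p / 5) ^ 4 = 1 + 4 / 5 * p + 6 / 25 * p ^ 2 + 4 / 125 * p ^ 3 +
          1 / 625 * p ^ 4 := by ring
      rw [e]
      linarith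
    linarith
  · obtain ⟨T, hT⟩ : ∃ T : ℝ, T = p - 1 / 1000 := ⟨_, rfl⟩
    have hT0 : 399 / 1000 ≤ T := by linarith
    have hTS : T ≤ S := by linarith
    have h3 : 16 * T ^ 4 - 3 * T ≤ 16 * S ^ 4 - 3 * S := by
      have e : 16 * S ^ 4 - 3 * S - (16 * T ^ 4 - 3 * T) =
          (S - T) * (16 * (S ^ 3 + S ^ 2 * T + S * T ^ 2 + T ^ 3) - 3) := by ring
      have a1 : (399 / 1000 : ℝ) ^ 3 ≤ T ^ 3 := by gcongr
      have a2 : T ^ 3 ≤ S ^ 3 := by gcongr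
      have a3 : T ^ 3 ≤ S ^ 2 * T := by
        have : T ^ 3 = T ^ 2 * T := by ring
        rw [this]
        gcongr
      have a4 : T ^ 3 ≤ S * T ^ 2 := by
        have : T ^ 3 = T * T ^ 2 := by ring
        rw [this]
        gcongr
      have a5 : 0 ≤ 16 * (S ^ 3 + S ^ 2 * T + S * T ^ 2 + T ^ 3) - 3 := by
        norm_num at a1
        linarith
      have a6 := mul_nonneg (by linarith : (0 : ℝ) ≤ S - T) a5
      linarith
    have h4 : 11 / 10 * (1 + p / 5) ^ 4 + 1 / 50 ≤ 16 * T ^ 4 - 3 * T + 2 + p := by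
      have e : p = T + 1 / 1000 := by linarith
      have hT1 : T ≤ 1 := by linarith
      subst e
      obtain ⟨u, hu⟩ : ∃ u : ℝ, u = T - 399 / 1000 := ⟨_, rfl⟩
      have hu0 : 0 ≤ u := by linarith
      have eT : T = u + 399 / 1000 := by linarith
      subst eT
      have hu1 : u ≤ 1 := by linarith
      have b2 : 0 ≤ u ^ 2 := by positivity
      have b3 : 0 ≤ u ^ 3 := by positivity
      have b4 : 0 ≤ u ^ 4 := by positivity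
      nlinarith
    linarith

/-- Proof: `4 d² - 2 d ≤ 0`. -/
theorem num3 {d : ℝ} (h0 : 0 ≤ d) (h1 : d ≤ 1 / 2) : (1 - 2 * d) ^ 2 + 2 * d ≤ 1 := by
  nlinarith

/-- Proof: convex in `d`, at `d = 0`: `T² ≤ 1`, at `d = T`: `2 T ≤ 1`; or `nlinarith`. -/
theorem num4 {d T : ℝ} (h0 : 0 ≤ d) (h1 : d ≤ T) (h2 : T ≤ 1 / 2) :
    (T - d) ^ 2 + 2 * d ≤ 1 := by
  nlinarith [mul_nonneg h0 (sub_nonneg.2 h1)]

/-- Proof: `(1 + p/5 + u)⁴ ≤ (1 + p/5)⁴ + 4 u (1.21)³`, `4 · 1.21³ ≤ 7.1`, `u ≤ 1/1000`, so the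
left side is at most `(11/10)(1+p/5)⁴ + 0.0079`. -/
theorem num5 {p u : ℝ} (h0 : 0 ≤ p) (h1 : p ≤ 1) (hu : 0 ≤ u) (hu1 : u ≤ 1 / 1000) :
    11 / 10 * (1 + p / 5 + u) ^ 4 ≤ 11 / 10 * (1 + p / 5) ^ 4 + 1 / 100 := by
  obtain ⟨x, hx⟩ : ∃ x : ℝ, x = 1 + p / 5 := ⟨_, rfl⟩
  rw [← hx]
  have hx1 : x ≤ 6 / 5 := by linarith
  have hx0 : 0 ≤ x := by linarith
  have e : (x + u) ^ 4 = x ^ 4 + u * (4 * x ^ 3 + 6 * x ^ 2 * u + 4 * x * u ^ 2 + u ^ 3) := by ring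
  have h3 : x ^ 3 ≤ (6 / 5) ^ 3 := by gcongr
  have h4 : x ^ 2 * u ≤ (6 / 5) ^ 2 * (1 / 1000) := by gcongr
  have h5 : x * u ^ 2 ≤ (6 / 5) * (1 / 1000) ^ 2 := by gcongr
  have h6 : u ^ 3 ≤ (1 / 1000) ^ 3 := by gcongr
  have h7 : 4 * x ^ 3 + 6 * x ^ 2 * u + 4 * x * u ^ 2 + u ^ 3 ≤ 7 := by
    norm_num at h3 h4 h5 h6
    linarith
  have h8 : 0 ≤ 4 * x ^ 3 + 6 * x ^ 2 * u + 4 * x * u ^ 2 + u ^ 3 := by positivity
  have h9 : u * (4 * x ^ 3 + 6 * x ^ 2 * u + 4 * x * u ^ 2 + u ^ 3) ≤ 1 / 1000 * 7 := by gcongr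
  rw [e]
  linarith

end Pool.Agent.ALB
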