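import Mathlib

/-! # ALB module PSCA: counting subsets -/

set_option autoImplicit false

namespace Pool.Agent.ALB

open Finset

variable {V : Type} [Fintype V]

open Classical in
/-- Number of subsets of size `m` of `H` separating two given elements in the given order.
Proof: `Z ↦ Z.erase a` is a bijection onto the subsets of size `m - 1` of `H \ {a, b}`. -/
theorem card_sep {H : Finset V} {a b : V} (ha : a ∈ H) (hb : b ∈ H) (hab : a ≠ b) {m : ℕ}
    (hm : 1 ≤ m) :
    ((powersetCard m H).filter (fun Z => a ∈ Z ∧ b ∉ Z)).card = (H.card - 2).choose (m - 1) := by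
  have h2 : ((H.erase a).erase b).card = H.card - 2 := by
    rw [card_erase_of_mem (mem_erase.2 ⟨hab.symm, hb⟩), card_erase_of_mem ha]
    omega
  rw [← h2, ← card_powersetCard]
  refine card_nbij' (fun Z => Z.erase a) (fun Z => insert a Z) ?_ ?_ ?_ ?_
  · intro Z hZ
    rw [mem_coe, mem_filter, mem_powersetCard] at hZ
    obtain ⟨⟨h3, h4⟩, h5, h6⟩ := hZ
    rw [mem_coe, mem_powersetCard]
    refine ⟨?_, ?_⟩
    · intro x hx
      rw [mem_erase] at hx
      rw [mem_erase, mem_erase]
      refine ⟨?_, hx.1, h3 hx.2⟩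
      rintro rfl
      exact h6 hx.2
    · rw [card_erase_of_mem h5, h4]
  · intro Z hZ
    rw [mem_coe, mem_powersetCard] at hZ
    obtain ⟨h3, h4⟩ := hZ
    have h5 : a ∉ Z := fun h => by
      have := h3 h
      rw [mem_erase, mem_erase] at this
      exact this.2.1 rfl
    rw [mem_coe, mem_filter, mem_powersetCard]
    refine ⟨⟨?_, ?_⟩, mem_insert_self _ _, ?_⟩
    · intro x hx
      rcases mem_insert.1 hx with rfl | hx
      · exact ha
      · exact mem_of_mem_erase (mem_of_mem_erase (h3 hx))
    · rw [card_insert_of_notMem h5, h4]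
      omega
    · intro h
      rcases mem_insert.1 h with h | h
      · exact hab h.symm
      · have := h3 h
        rw [mem_erase] at this
        exact this.1 rfl
  · intro Z hZ
    rw [mem_coe, mem_filter] at hZ
    exact insert_erase hZ.2.1
  · intro Z hZ
    rw [mem_coe, mem_powersetCard] at hZ
    refine erase_insert fun h => ?_
    have := hZ.1 h
    rw [mem_erase, mem_erase] at this
    exact this.2.1 rfl

/-- Proof.  `(s-2).choose (m-1) * (s (s-1)) = s.choose m * (m (s-m))` and `s - 1 ≤ 2 (s-m)`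
(as `2m ≤ s`). -/
theorem choose_aux {s m : ℕ} (hm : 1 ≤ m) (hs : 2 * m ≤ s) :
    m * s.choose m ≤ s * (2 * (s - 2).choose (m - 1)) := by
  obtain ⟨n, rfl⟩ : ∃ n, s = n + 2 := ⟨s - 2, by omega⟩
  obtain ⟨k, rfl⟩ : ∃ k, m = k + 1 := ⟨m - 1, by omega⟩
  have e1 : (k + 1) * (n + 2).choose (k + 1) = (n + 2) * (n + 1).choose k := by
    have := Nat.add_one_mul_choose_eq (n + 1) k
    rw [mul_comm (k + 1)]
    exact this.symm
  rw [e1]
  refine Nat.mul_le_mul_left _ ?_
  have e2 := Nat.choose_mul_succ_eq n k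
  have h3 : n + 2 - 2 = n := by omega
  have h4 : k + 1 - 1 = k := by omega
  rw [h3, h4]
  have h5 : 0 < n + 1 - k := by omega
  refine Nat.le_of_mul_le_mul_right ?_ h5
  rw [← e2]
  have h6 : n + 1 ≤ 2 * (n + 1 - k) := by omega
  calc n.choose k * (n + 1) ≤ n.choose k * (2 * (n + 1 - k)) := Nat.mul_le_mul_left _ h6
    _ = 2 * n.choose k * (n + 1 - k) := by ring

end Pool.Agent.ALB
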