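import Pool.Agent.ALB.ArcA

/-! # ALB module RAD: choice of the radius -/

set_option autoImplicit false

namespace Pool.Agent.ALB

open Metric

private theorem rad_ev {q : ℂ} {F : Set ℂ} (hF : IsClosed F) (hq : q ∉ F) :
    ∀ᶠ r in nhdsWithin (0 : ℝ) (Set.Ioi 0), Disjoint (closedBall q r) F := by
  obtain ⟨ε, hε, h⟩ := Metric.isOpen_iff.1 hF.isOpen_compl q hq
  filter_upwards [Ioo_mem_nhdsGT hε] with r hr
  rw [Set.disjoint_left]
  intro z hz hzF
  exact h (closedBall_subset_ball hr.2 hz) hzF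

/-- Around a point `q` which is not a vertex there is a small closed disc which contains no
vertex, misses every edge not through `q`, and in which two different edges have no common point
except possibly `q`.

Proof.  Every requirement is of the form `closedBall q r` is disjoint from a closed set `F`
with `q ∉ F`, for finitely many sets `F`: `F = {pos v}`; `F = arc g` (compact) for `q ∉ arc g`;
and `F = ((arc g ∩ arc h) \ Set.range pos) \ {q}`, a FINITE set by `D.fin` (the points of
`arc g ∩ arc h` which are vertices are excluded by the first requirement).  For each such `F`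
there is `r_F > 0` with `closedBall q r ∩ F = ∅` for all `r ≤ r_F`
(`Metric.isOpen_iff` for `Fᶜ`, take half of the radius).  Take the minimum over the finite type
`V ⊕ Sym2 V ⊕ (Sym2 V × Sym2 V)` (or use `Filter.eventually_all` for the filter `𝓝[>] 0`). -/
theorem exists_radius {V : Type} [Fintype V] {G : SimpleGraph V} (D : Drw G) {q : ℂ}
    (hq : q ∉ Set.range D.pos) :
    ∃ r > 0, (∀ v, D.pos v ∉ closedBall q r) ∧
      (∀ g ∈ G.edgeSet, q ∉ D.arc g → Disjoint (closedBall q r) (D.arc g)) ∧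
      (∀ g ∈ G.edgeSet, ∀ h ∈ G.edgeSet, g ≠ h →
        D.arc g ∩ D.arc h ∩ closedBall q r ⊆ {q}) := by
  classical
  have h1 : ∀ᶠ r in nhdsWithin (0 : ℝ) (Set.Ioi 0), ∀ v, D.pos v ∉ closedBall q r := by
    rw [Filter.eventually_all]
    intro v
    filter_upwards [rad_ev (q := q) (F := {D.pos v}) isClosed_singleton
      (fun h => hq ⟨v, (Set.mem_singleton_iff.1 h).symm⟩)] with r hr
    exact fun h => Set.disjoint_left.1 hr h rfl
  have hcl : ∀ g ∈ G.edgeSet, IsClosed (D.arc g) := by
    intro g hg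
    induction g using Sym2.ind with
    | _ u v => exact (D.isArc u v hg).isCompact.isClosed
  have h2 : ∀ᶠ r in nhdsWithin (0 : ℝ) (Set.Ioi 0), ∀ g ∈ G.edgeSet, q ∉ D.arc g →
      Disjoint (closedBall q r) (D.arc g) := by
    rw [Filter.eventually_all]
    intro g
    by_cases hg : g ∈ G.edgeSet ∧ q ∉ D.arc g
    · filter_upwards [rad_ev (hcl g hg.1) hg.2] with r hr _ _
      exact hr
    · filter_upwards with r h3 h4
      exact absurd ⟨h3, h4⟩ hg
  have h3 : ∀ᶠ r in nhdsWithin (0 : ℝ) (Set.Ioi 0), ∀ g h : Sym2 V, g ∈ G.edgeSet →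
      h ∈ G.edgeSet → g ≠ h →
        Disjoint (closedBall q r) (((D.arc g ∩ D.arc h) \ Set.range D.pos) \ {q}) := by
    rw [Filter.eventually_all]
    intro g
    rw [Filter.eventually_all]
    intro h
    by_cases hg : g ∈ G.edgeSet ∧ h ∈ G.edgeSet ∧ g ≠ h
    · have hfin : (((D.arc g ∩ D.arc h) \ Set.range D.pos) \ {q}).Finite :=
        (D.fin g hg.1 h hg.2.1 hg.2.2).subset Set.sdiff_subset
      filter_upwards [rad_ev hfin.isClosed (fun h0 => h0.2 rfl)] with r hr _ _ _
      exact hr
    · filter_upwards with r h4 h5 h6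
      exact absurd ⟨h4, h5, h6⟩ hg
  obtain ⟨r, hr1, hr2, hr3, hr0⟩ := (h1.and (h2.and (h3.and self_mem_nhdsWithin))).exists
  refine ⟨r, hr0, hr1, hr2, ?_⟩
  rintro g hg h hh hgh z ⟨hz, hzr⟩
  by_contra hzq
  refine Set.disjoint_left.1 (hr3 g h hg hh hgh) hzr ⟨⟨hz, ?_⟩, hzq⟩
  rintro ⟨v, rfl⟩
  exact hr1 v hzr

end Pool.Agent.ALB
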