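import Pool.Agent.ALB.CeDefs
import Pool.Agent.ALB.Num

/-! # ALB module SQA: the load of the square root cloud -/

set_option autoImplicit false

namespace Pool.Agent.ALB

open Finset

variable {V : Type} [Fintype V] {G : SimpleGraph V} {ι β : Type} [Fintype ι] [Fintype β]
  {H : Finset V}

/-- Proof: `Std.card`. -/
theorem Std.nL_eq (S : Std G ι β H) :
    nL H = (Fintype.card ι : ℝ) + 2 * (Fintype.card β : ℝ) := by
  unfold nL
  rw [S.card]
  push_cast
  ring

/-- Proof: `0 ≤ sq ≤ 1` (`Real.sqrt_le_one` or `Real.sqrt_le_sqrt`), cases. -/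
theorem x0_mem (x : V) (hN : 0 < nL H) : 0 ≤ x0 G H x ∧ x0 G H x ≤ 1 ∧ x0 G H x ≤ sq G H x := by
  have h1 : 0 ≤ sq G H x := Real.sqrt_nonneg _
  have h2 : sq G H x ≤ 1 := by
    unfold sq
    refine Real.sqrt_le_iff.2 ⟨zero_le_one, ?_⟩
    have : 0 ≤ 2 * (tdeg G x : ℝ) / nL H := by positivity
    linarith
  unfold x0
  split_ifs
  · exact ⟨le_rfl, zero_le_one, h1⟩
  · exact ⟨le_rfl, zero_le_one, h1⟩
  · exact ⟨h1, h2, le_rfl⟩

/-- If `x0 x ≠ 0` then `x ∉ H`, `x0 x = sq x ≥ 1/2000`, `x0 x ² = 1 - 2 t/N`, `t ≤ N/2`.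
Proof: `sq x > 0` means that the radicand is positive; `Real.sq_sqrt`. -/
theorem x0_ne {x : V} (hN : 0 < nL H) (h : x0 G H x ≠ 0) :
    x ∉ H ∧ 1 / 2000 ≤ x0 G H x ∧ x0 G H x ^ 2 = 1 - 2 * (tdeg G x : ℝ) / nL H ∧
      (tdeg G x : ℝ) ≤ nL H / 2 := by
  unfold x0 at h ⊢
  split_ifs at h ⊢ with h1 h2
  · exact absurd rfl h
  · exact absurd rfl h
  · push Not at h2
    have h3 : 0 < sq G H x := lt_of_lt_of_le (by norm_num) h2
    have h4 : 0 < 1 - 2 * (tdeg G x : ℝ) / nL H := by
      unfold sq at h3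
      exact Real.sqrt_pos.1 h3
    refine ⟨h1, h2, ?_, ?_⟩
    · unfold sq
      exact Real.sq_sqrt h4.le
    · have h5 : 2 * (tdeg G x : ℝ) / nL H < 1 := by linarith
      rw [div_lt_one hN] at h5
      linarith

/-- **Number of middle vertices.**  For non-adjacent `a ≠ v` outside the hub with `x0 ≠ 0`:
`|R| ≥ N - t_a - t_v ≥ N x0 a x0 v` and `|R| ≥ N/4000000`.
Proof.  The vertices outside `H` which are not in `R a v` are not adjacent to `a` or not adjacent
to `v` (possibly equal to one of them); as `a` is a non-neighbour of `v` and vice versa, they are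
in `(non-neighbours of a) ∪ (non-neighbours of v)`.  So `|R| ≥ N - t_a - t_v`
`= (N/2) ((1 - 2 t_a/N) + (1 - 2 t_v/N)) = (N/2)(x0 a ² + x0 v ²) ≥ N x0 a x0 v`. -/
theorem card_Rr (S : Std G ι β H) (hN : 0 < nL H) {a v : V} (hav : v ≠ a)
    (hna : ¬ G.Adj a v) (ha : x0 G H a ≠ 0) (hv : x0 G H v ≠ 0) :
    nL H * (x0 G H a * x0 G H v) ≤ ((Rr G H a v).card : ℝ) ∧
      nL H / 4000000 ≤ ((Rr G H a v).card : ℝ) := by
  classical
  have h1 : nL H ≤ ((Rr G H a v).card : ℝ) + tdeg G a + tdeg G v := by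
    have e1 : (univ.filter fun w : V => w ∉ H) ⊆ Rr G H a v ∪
        ((univ.filter fun y => y ≠ a ∧ ¬ G.Adj a y) ∪
          (univ.filter fun y => y ≠ v ∧ ¬ G.Adj v y)) := by
      intro w hw
      rw [mem_filter] at hw
      rw [mem_union, mem_union]
      unfold Rr
      simp only [mem_filter, mem_univ, true_and]
      by_cases h1 : G.Adj a w
      · by_cases h2 : G.Adj v w
        · exact Or.inl ⟨hw.2, h1, h2⟩
        · right
          by_cases h3 : w = v
          · left
            rw [h3]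
            exact ⟨hav, hna⟩
          · exact Or.inr ⟨h3, h2⟩
      · right
        by_cases h3 : w = a
        · right
          rw [h3]
          exact ⟨hav.symm, fun h => hna h.symm⟩
        · exact Or.inl ⟨h3, h1⟩
    have e2 := (card_le_card e1).trans ((card_union_le _ _).trans
      (Nat.add_le_add_left (card_union_le _ _) _))
    have e3 : (univ.filter fun w : V => w ∉ H).card = Fintype.card V - H.card := by
      rw [← card_compl]
      congr 1
      ext w
      simp
    have e4 : H.card ≤ Fintype.card V := card_le_univ H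
    have e5 : (((univ.filter fun w : V => w ∉ H).card : ℕ) : ℝ) = nL H := by
      rw [e3, Nat.cast_sub e4]
      rfl
    rw [← e5]
    have e6 : (((univ.filter fun w : V => w ∉ H).card : ℕ) : ℝ) ≤
        (((Rr G H a v).card + (tdeg G a + tdeg G v) : ℕ) : ℝ) := by
      unfold tdeg
      exact_mod_cast e2
    push_cast at e6
    linarith
  obtain ⟨-, ha1, ha2, -⟩ := x0_ne hN ha
  obtain ⟨-, hv1, hv2, -⟩ := x0_ne hN hv
  have h2 : nL H * (x0 G H a ^ 2) = nL H - 2 * tdeg G a := by
    rw [ha2]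
    field_simp
  have h3 : nL H * (x0 G H v ^ 2) = nL H - 2 * tdeg G v := by
    rw [hv2]
    field_simp
  constructor
  · have h4 : nL H * (x0 G H a * x0 G H v) ≤
        nL H * ((x0 G H a ^ 2 + x0 G H v ^ 2) / 2) := by
      apply mul_le_mul_of_nonneg_left _ hN.le
      nlinarith [sq_nonneg (x0 G H a - x0 G H v)]
    linarith
  · have h4 : nL H * (1 / 4000000) ≤ nL H * ((x0 G H a ^ 2 + x0 G H v ^ 2) / 2) := by
      apply mul_le_mul_of_nonneg_left _ hN.le
      nlinarith
    linarith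

/-- Proof.  Every term of `half0` is at most `1/N` (`card_Rr`; zero if `x0 a = 0` or `x0 v = 0`),
and the `v` in the sum are non-neighbours of `a` (`≠ a`) but neighbours of `b` (as `b ∈ R a v`
gives `Adj v b`), so their number is at most `t_a - cod a b` (a common non-neighbour of `a`, `b`
is not adjacent to `b`). -/
theorem half0_le (S : Std G ι β H) (hN : 0 < nL H) (a b : V) :
    half0 G H (x0 G H) a b ≤ ((tdeg G a : ℝ) - (cod G a b : ℝ)) / nL H ∧
      (x0 G H a = 0 → half0 G H (x0 G H) a b = 0) := by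
  classical
  constructor
  · set T := univ.filter (fun v => v ≠ a ∧ ¬ G.Adj a v ∧ b ∈ Rr G H a v) with hT
    have h1 : half0 G H (x0 G H) a b ≤ (T.card : ℝ) * (1 / nL H) := by
      have : half0 G H (x0 G H) a b ≤ ∑ _v ∈ T, 1 / nL H := by
        unfold half0
        rw [← hT]
        refine sum_le_sum fun v hv => ?_
        rw [hT, mem_filter] at hv
        obtain ⟨-, hva, hna, -⟩ := hv
        by_cases h0 : x0 G H a = 0
        · rw [h0, zero_mul, zero_div]
          positivity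
        by_cases h0' : x0 G H v = 0
        · rw [h0', mul_zero, zero_div]
          positivity
        obtain ⟨k1, k2⟩ := card_Rr S hN hva hna h0 h0'
        have k3 : 0 < ((Rr G H a v).card : ℝ) := lt_of_lt_of_le (by positivity) k2
        rw [div_le_div_iff₀ k3 hN]
        linarith
      rwa [sum_const, nsmul_eq_mul] at this
    have h2 : T.card + cod G a b ≤ tdeg G a := by
      unfold cod tdeg
      rw [← card_union_of_disjoint]
      · apply card_le_card
        intro v hv
        rw [mem_union] at hv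
        rw [mem_filter]
        rcases hv with hv | hv
        · rw [hT, mem_filter] at hv
          exact ⟨mem_univ _, hv.2.1, hv.2.2.1⟩
        · rw [mem_filter] at hv
          exact ⟨mem_univ _, hv.2.1, hv.2.2.1⟩
      · rw [disjoint_left]
        intro v hv hv'
        rw [hT, mem_filter] at hv
        rw [mem_filter] at hv'
        have k1 := hv.2.2.2
        unfold Rr at k1
        rw [mem_filter] at k1
        exact hv'.2.2.2.2 k1.2.2.2.symm
    have h3 : (T.card : ℝ) ≤ (tdeg G a : ℝ) - cod G a b := by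
      have : ((T.card + cod G a b : ℕ) : ℝ) ≤ (tdeg G a : ℝ) := by exact_mod_cast h2
      push_cast at this
      linarith
    calc half0 G H (x0 G H) a b ≤ (T.card : ℝ) * (1 / nL H) := h1
      _ ≤ ((tdeg G a : ℝ) - cod G a b) * (1 / nL H) :=
          mul_le_mul_of_nonneg_right h3 (by positivity)
      _ = _ := by ring
  · intro h
    unfold half0
    refine sum_eq_zero fun v _ => ?_
    rw [h, zero_mul, zero_div]

/-- Proof: a sum of nonnegative terms. -/
theorem half0_nonneg (hN : 0 < nL H) (a b : V) : 0 ≤ half0 G H (x0 G H) a b := by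
  unfold half0
  exact sum_nonneg fun v _ => div_nonneg (mul_nonneg (x0_mem a hN).1 (x0_mem v hN).1)
    (Nat.cast_nonneg _)

private theorem sqa_cod_comm (a b : V) : cod G a b = cod G b a := by
  classical
  unfold cod
  congr 1
  ext z
  simp only [mem_filter, mem_univ, true_and]
  tauto

private theorem sqa_half (S : Std G ι β H) (hN : 0 < nL H) (a : V) :
    2 / (nL H + 1) * (tdeg G a : ℝ) ≤ 1 := by
  have h1 : (tdeg G a : ℝ) ≤ Fintype.card β + 1 := by exact_mod_cast S.tdeg_le a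
  have h2 : (1 : ℝ) ≤ Fintype.card ι := by
    have : 0 < Fintype.card ι := Fintype.card_pos_iff.2 ⟨S.comp a⟩
    exact_mod_cast this
  have h3 := S.nL_eq
  rw [div_mul_eq_mul_div, div_le_one (by linarith)]
  linarith

private theorem sqa_div (hN : 0 < nL H) (c : ℕ) :
    2 / (nL H + 1) * (c : ℝ) ≤ 2 * ((c : ℝ) / nL H) := by
  have h1 : (2 : ℝ) / (nL H + 1) ≤ 2 / nL H :=
    div_le_div_of_nonneg_left (by norm_num) hN (by linarith)
  calc 2 / (nL H + 1) * (c : ℝ) ≤ 2 / nL H * c :=
        mul_le_mul_of_nonneg_right h1 (Nat.cast_nonneg _)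
    _ = _ := by ring

/-- **Load of the square root cloud.**  For adjacent `a, b ∉ H`:
`load0² + 2 cod / (N+1) ≤ 1`.

Proof.  Let `t = t_a/N`, `t' = t_b/N`, `d = cod/N`, so `d ≤ t, t'` (`cod_le`).  Use `half0_le`.
Both `x0 ≠ 0`: `x0 a x0 b ≤ (x0 a ² + x0 b ²)/2 = 1 - t - t'`, so `load0 ≤ 1 - 2 d`, `d ≤ 1/2`,
`load0 ≥ 0`, and `num3`.  `x0 a ≠ 0 = x0 b`: `load0 ≤ t - d`, `t ≤ 1/2`, `num4`; the same with
`a, b` exchanged.  Both zero: `load0 = 0` and `2 cod/(N+1) ≤ 1` because
`cod ≤ t_a N ≤ |β| + 1 ≤ (N+1)/2` (`Std.tdeg_le`, `Std.nL_eq`, `|ι| ≥ 1` since `a ∉ H` has a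
component). -/
theorem load0_sq (S : Std G ι β H) (hN : 0 < nL H) {a b : V} (ha : a ∉ H) (hb : b ∉ H)
    (hab : G.Adj a b) :
    load0 G H (x0 G H) a b ^ 2 + 2 / (nL H + 1) * (cod G a b : ℝ) ≤ 1 := by
  obtain ⟨c1, c2⟩ := cod_le (G := G) a b
  have c1' : (cod G a b : ℝ) ≤ tdeg G a := by exact_mod_cast c1
  have c2' : (cod G a b : ℝ) ≤ tdeg G b := by exact_mod_cast c2
  have hd0 : 0 ≤ (cod G a b : ℝ) / nL H := by positivity
  have hdiv := sqa_div hN (cod G a b)
  have hnn1 := half0_nonneg (G := G) hN a b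
  have hnn2 := half0_nonneg (G := G) hN b a
  obtain ⟨u1, u2⟩ := half0_le S hN a b
  obtain ⟨v1, v2⟩ := half0_le S hN b a
  rw [sqa_cod_comm b a] at v1
  have xa := (x0_mem (G := G) a hN).1
  have xb := (x0_mem (G := G) b hN).1
  have hd1 : (cod G a b : ℝ) / nL H ≤ (tdeg G a : ℝ) / nL H := div_le_div_of_nonneg_right c1' hN.le
  have hd2 : (cod G a b : ℝ) / nL H ≤ (tdeg G b : ℝ) / nL H := div_le_div_of_nonneg_right c2' hN.le
  rw [sub_div] at u1 v1
  unfold load0
  by_cases h0 : x0 G H a = 0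
  · by_cases h0' : x0 G H b = 0
    · rw [u2 h0, v2 h0', h0]
      have := sqa_half S hN a
      have h1 : 2 / (nL H + 1) * (cod G a b : ℝ) ≤ 2 / (nL H + 1) * (tdeg G a : ℝ) :=
        mul_le_mul_of_nonneg_left c1' (by positivity)
      linarith
    · obtain ⟨-, -, -, ht⟩ := x0_ne hN h0'
      have ht' : (tdeg G b : ℝ) / nL H ≤ 1 / 2 := by
        rw [div_le_div_iff₀ hN (by norm_num)]
        linarith
      have hn := num4 hd0 hd2 ht'
      have e : x0 G H a * x0 G H b + half0 G H (x0 G H) a b + half0 G H (x0 G H) b a =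
          half0 G H (x0 G H) b a := by
        rw [u2 h0, h0]
        ring
      rw [e]
      have h1 : half0 G H (x0 G H) b a ^ 2 ≤
          ((tdeg G b : ℝ) / nL H - (cod G a b : ℝ) / nL H) ^ 2 := pow_le_pow_left₀ hnn2 v1 2
      linarith
  · obtain ⟨-, -, ha2, ht⟩ := x0_ne hN h0
    have ht' : (tdeg G a : ℝ) / nL H ≤ 1 / 2 := by
      rw [div_le_div_iff₀ hN (by norm_num)]
      linarith
    by_cases h0' : x0 G H b = 0
    · have hn := num4 hd0 hd1 ht'
      have e : x0 G H a * x0 G H b + half0 G H (x0 G H) a b + half0 G H (x0 G H) b a =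
          half0 G H (x0 G H) a b := by
        rw [v2 h0', h0']
        ring
      rw [e]
      have h1 : half0 G H (x0 G H) a b ^ 2 ≤
          ((tdeg G a : ℝ) / nL H - (cod G a b : ℝ) / nL H) ^ 2 := pow_le_pow_left₀ hnn1 u1 2
      linarith
    · obtain ⟨-, -, hb2, -⟩ := x0_ne hN h0'
      have hn := num3 hd0 (hd1.trans ht')
      have h1 : x0 G H a * x0 G H b ≤
          1 - (tdeg G a : ℝ) / nL H - (tdeg G b : ℝ) / nL H := by
        have e1 : 2 * (tdeg G a : ℝ) / nL H = 2 * ((tdeg G a : ℝ) / nL H) := by ring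
        have e2 : 2 * (tdeg G b : ℝ) / nL H = 2 * ((tdeg G b : ℝ) / nL H) := by ring
        rw [e1] at ha2
        rw [e2] at hb2
        nlinarith [sq_nonneg (x0 G H a - x0 G H b)]
      have h2 : x0 G H a * x0 G H b + half0 G H (x0 G H) a b + half0 G H (x0 G H) b a ≤
          1 - 2 * ((cod G a b : ℝ) / nL H) := by linarith
      have h3 : (x0 G H a * x0 G H b + half0 G H (x0 G H) a b + half0 G H (x0 G H) b a) ^ 2 ≤
          (1 - 2 * ((cod G a b : ℝ) / nL H)) ^ 2 :=
        pow_le_pow_left₀ (by positivity) h2 2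
      linarith

/-- **Vertex inequality.**  Proof: `x0 a ≠ 0`: `(1 - 2t)² + 2 t ≤ 1` with `t = t_a/N ≤ 1/2`
(`num3`); `x0 a = 0`: `2 t_a/(N+1) ≤ 1`. -/
theorem x0_four (S : Std G ι β H) (hN : 0 < nL H) {a : V} (ha : a ∉ H) :
    x0 G H a ^ 4 + 2 / (nL H + 1) * (tdeg G a : ℝ) ≤ 1 := by
  by_cases h0 : x0 G H a = 0
  · rw [h0]
    have := sqa_half S hN a
    linarith
  · obtain ⟨-, -, ha2, ht⟩ := x0_ne hN h0
    have ht' : (tdeg G a : ℝ) / nL H ≤ 1 / 2 := by
      rw [div_le_div_iff₀ hN (by norm_num)]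
      linarith
    have hn := num3 (d := (tdeg G a : ℝ) / nL H) (by positivity) ht'
    have hdiv := sqa_div hN (tdeg G a)
    have e : x0 G H a ^ 4 = (1 - 2 * ((tdeg G a : ℝ) / nL H)) ^ 2 := by
      have : x0 G H a ^ 4 = (x0 G H a ^ 2) ^ 2 := by ring
      rw [this, ha2]
      ring
    rw [e]
    linarith

end Pool.Agent.ALB
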