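import Pool.Agent.ALB.Defs

/-! # ALB: standard form of a graph with independence number at most 2

`H` is the hub (vertices adjacent to all others).  The other vertices are `q i` (`i : ι`, one for
each component of the complement) and the pairs `u b, v b` (`b : β`) of non-adjacent vertices;
`comp x` is the component of `x` (`comp (u b) = comp (v b) = blk b`), different components are
completely joined in `G`, and every component has at least two pairs.  Such a graph has
`|H| + |ι| + 2 |β|` vertices, and its chromatic number is at most `|H| + |ι| + |β|`. -/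

set_option autoImplicit false

namespace Pool.Agent.ALB

/-- standard form -/
structure Std {V : Type} [Fintype V] (G : SimpleGraph V) (ι β : Type) [Fintype ι] [Fintype β]
    (H : Finset V) where
  q : ι → V
  u : β → V
  v : β → V
  blk : β → ι
  comp : V → ι
  hub : ∀ h ∈ H, ∀ x, x ≠ h → G.Adj h x
  tri : ∀ x y z, x ≠ y → y ≠ z → x ≠ z → G.Adj x y ∨ G.Adj y z ∨ G.Adj x z
  q_not : ∀ i, q i ∉ H
  u_not : ∀ b, u b ∉ H
  v_not : ∀ b, v b ∉ H
  q_inj : Function.Injective q
  u_inj : Function.Injective u
  v_inj : Function.Injective v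
  qu : ∀ i b, q i ≠ u b
  qv : ∀ i b, q i ≠ v b
  uv : ∀ b b', u b ≠ v b'
  surj : ∀ x, x ∉ H → (∃ i, x = q i) ∨ (∃ b, x = u b) ∨ (∃ b, x = v b)
  pair : ∀ b, ¬ G.Adj (u b) (v b)
  comp_q : ∀ i, comp (q i) = i
  comp_u : ∀ b, comp (u b) = blk b
  comp_v : ∀ b, comp (v b) = blk b
  cross : ∀ x y, x ∉ H → y ∉ H → comp x ≠ comp y → G.Adj x y
  big : ∀ i, ∃ b b', b ≠ b' ∧ blk b = i ∧ blk b' = i

variable {V : Type} [Fintype V] {G : SimpleGraph V} {ι β : Type} [Fintype ι] [Fintype β]
  {H : Finset V}

open Classical in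
/-- number of non-neighbours -/
noncomputable def tdeg (G : SimpleGraph V) (x : V) : ℕ :=
  (Finset.univ.filter (fun y => y ≠ x ∧ ¬ G.Adj x y)).card

open Classical in
/-- common non-neighbours -/
noncomputable def cod (G : SimpleGraph V) (x y : V) : ℕ :=
  (Finset.univ.filter (fun z => z ≠ x ∧ ¬ G.Adj x z ∧ z ≠ y ∧ ¬ G.Adj y z)).card

end Pool.Agent.ALB
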