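import Mathlib

/-! # ALB module SUMLT: a finite double sum -/

set_option autoImplicit false

namespace Pool.Agent.ALB

/-- Proof.  Put `E₀ = E \ {e, f}`.  By symmetry and the vanishing diagonal
`∑∑ N = ∑_{x,y ∈ E₀} N x y + 2 ∑_{x ∈ E₀} (N e x + N f x) + 2 N e f`, and the same for `N'`;
compare term by term. -/
theorem sum_lt {α : Type} (E : Finset α) (N N' : α → α → ℕ) (hN : ∀ x y, N x y = N y x)
    (hN' : ∀ x y, N' x y = N' y x) {e f : α} (he : e ∈ E) (hf : f ∈ E) (hef : e ≠ f)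
    (d : ∀ x ∈ E, N' x x = 0) (d0 : ∀ x ∈ E, N x x = 0)
    (h1 : ∀ x ∈ E, ∀ y ∈ E, x ≠ e → x ≠ f → y ≠ e → y ≠ f → N' x y ≤ N x y)
    (h2 : ∀ x ∈ E, x ≠ e → x ≠ f → N' e x + N' f x ≤ N e x + N f x)
    (h3 : N' e f < N e f) :
    ∑ x ∈ E, ∑ y ∈ E, N' x y < ∑ x ∈ E, ∑ y ∈ E, N x y := by
  classical
  have hf' : f ∈ E.erase e := Finset.mem_erase.2 ⟨fun h => hef h.symm, hf⟩
  have hsplit : ∀ g : α → ℕ, ∑ x ∈ E, g x = g e + (g f + ∑ x ∈ (E.erase e).erase f, g x) := by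
    intro g
    rw [← Finset.add_sum_erase E g he, ← Finset.add_sum_erase (E.erase e) g hf']
  have hmem : ∀ x ∈ (E.erase e).erase f, x ∈ E ∧ x ≠ e ∧ x ≠ f := by
    intro x hx
    rw [Finset.mem_erase, Finset.mem_erase] at hx
    exact ⟨hx.2.2, hx.2.1, hx.1⟩
  have key : ∀ M : α → α → ℕ, (∀ x y, M x y = M y x) → (∀ x ∈ E, M x x = 0) →
      ∑ x ∈ E, ∑ y ∈ E, M x y = 2 * M e f + 2 * ∑ x ∈ (E.erase e).erase f, (M e x + M f x) +
        ∑ x ∈ (E.erase e).erase f, ∑ y ∈ (E.erase e).erase f, M x y := by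
    intro M hM hd
    have e1 : ∀ x, ∑ y ∈ E, M x y = M x e + (M x f + ∑ y ∈ (E.erase e).erase f, M x y) :=
      fun x => hsplit (M x)
    simp only [e1]
    rw [hsplit, hd e he, hd f hf, hM f e, Finset.sum_add_distrib, Finset.sum_add_distrib,
      Finset.sum_add_distrib]
    have e2 : ∑ x ∈ (E.erase e).erase f, M x e = ∑ x ∈ (E.erase e).erase f, M e x :=
      Finset.sum_congr rfl fun x _ => hM x e
    have e3 : ∑ x ∈ (E.erase e).erase f, M x f = ∑ x ∈ (E.erase e).erase f, M f x :=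
      Finset.sum_congr rfl fun x _ => hM x f
    rw [e2, e3]
    ring
  rw [key N' hN' d, key N hN d0]
  have a1 : ∑ x ∈ (E.erase e).erase f, (N' e x + N' f x) ≤
      ∑ x ∈ (E.erase e).erase f, (N e x + N f x) :=
    Finset.sum_le_sum fun x hx => h2 x (hmem x hx).1 (hmem x hx).2.1 (hmem x hx).2.2
  have a2 : ∑ x ∈ (E.erase e).erase f, ∑ y ∈ (E.erase e).erase f, N' x y ≤
      ∑ x ∈ (E.erase e).erase f, ∑ y ∈ (E.erase e).erase f, N x y :=
    Finset.sum_le_sum fun x hx => Finset.sum_le_sum fun y hy =>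
      h1 x (hmem x hx).1 y (hmem y hy).1 (hmem x hx).2.1 (hmem x hx).2.2 (hmem y hy).2.1
        (hmem y hy).2.2
  omega

end Pool.Agent.ALB
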