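import Pool.Agent.ALB.ArcLoop
import Pool.Agent.ALB.ArcCut
import Pool.Agent.ALB.Chord
import Pool.Agent.ALB.SumLt
import Pool.Agent.ALB.Rad

/-! # ALB module SURG: removing a crossing of two adjacent edges -/

set_option autoImplicit false

namespace Pool.Agent.ALB

open Metric

private theorem sg_ne {q z : ℂ} {r : ℝ} (hr : 0 < r) (h : z ∈ sphere q r) : z ≠ q := by
  rintro rfl
  rw [mem_sphere, dist_self] at h
  exact hr.ne h

private theorem sg_half {S₁ S₂ A X P : Set ℂ} {q : ℂ} (h1 : S₁ ⊆ A) (h2 : S₂ ⊆ A)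
    (hd : Disjoint S₁ S₂) (q1 : q ∉ S₁) (q2 : q ∉ S₂) (hfin : ((A ∩ X) \ P).Finite) :
    ((S₁ ∩ X) \ P).ncard + ((S₂ ∩ X) \ P).ncard ≤ (((A ∩ X) \ P) \ {q}).ncard := by
  have e1 : (S₁ ∩ X) \ P ⊆ ((A ∩ X) \ P) \ {q} := by
    rintro z ⟨⟨a, b⟩, c⟩
    refine ⟨⟨⟨h1 a, b⟩, c⟩, ?_⟩
    rintro rfl
    exact q1 a
  have e2 : (S₂ ∩ X) \ P ⊆ ((A ∩ X) \ P) \ {q} := by
    rintro z ⟨⟨a, b⟩, c⟩
    refine ⟨⟨⟨h2 a, b⟩, c⟩, ?_⟩
    rintro rfl
    exact q2 a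
  have hfin' : (((A ∩ X) \ P) \ {q}).Finite := hfin.subset Set.sdiff_subset
  have hf1 := hfin'.subset e1
  have hf2 := hfin'.subset e2
  have hdis : Disjoint ((S₁ ∩ X) \ P) ((S₂ ∩ X) \ P) := by
    rw [Set.disjoint_left]
    rintro z ⟨⟨a, -⟩, -⟩ ⟨⟨b, -⟩, -⟩
    exact Set.disjoint_left.1 hd a b
  rw [← Set.ncard_union_eq hdis hf1 hf2]
  exact Set.ncard_le_ncard (Set.union_subset e1 e2) hfin'

/-- If two edges with a common end point `p` cross, there is a drawing with fewer crossings.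

Proof.  `e = s(p,u)`, `f = s(p,v)`, `q` a common point of their arcs outside the vertices
(`N e f ≠ 0` gives such a point).  Take `r` from `exists_radius`, `B = closedBall q r`.
CUT DATA.  For every edge `g` with `q ∈ arc g` choose (via `Sym2.ind`/`Quot.out`) end points
`g = s(x,y)` and apply `IsArc.cut`: points `g₁ ≠ g₂` on the circle, disjoint arcs
`S₁ g` (`pos x → g₁`), `S₂ g` (`g₂ → pos y`) contained in `arc g`, meeting `B` only in `g₁`,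
resp. `g₂`.  For `e` and `f` use the orientations `(p,u)`, `(p,v)`:
`a₁, a₂, S₁e ∋ pos p, S₂e ∋ pos u` and `b₁, b₂, S₁f ∋ pos p, S₂f ∋ pos v`.
Put `O g = S₁ g ∪ S₂ g ⊆ arc g`, `c g = segment g₁ g₂ ⊆ B` (`chord_subset`).
FACTS for different edges `g, h` through `q`:
(F0) `g_i ≠ h_j` (a common point in `B` would be `q`, but `q` is the centre);
(F1) `O g ∩ B = {g₁,g₂}`, `c g ∩ sphere = {g₁,g₂}` (`chord_sphere`), so `O g ∩ c h = ∅`;
(F2) `q ∉ O g`, so `O g ∩ O h \ pos` is contained in `(arc g ∩ arc h \ pos) \ {q}` and has at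
most `N g h - 1` elements (`N g h ≥ 1`);
(F3) two chords with four different end points have at most one common point (`chord_inter`);
(F4) if `q ∉ arc h`: `c g ∩ arc h = ∅`.
NEW ARCS.  By `chord_swap` either (case 1) `[a₁,a₂] ∩ [b₁,b₂] = ∅` or (case 2)
`[b₁,a₂] ∩ [a₁,b₂] = ∅`.  In case 1 let `(T,t) = (S₁e,a₁)`, `(T',t') = (S₁f,b₁)`, in case 2
`(T,t) = (S₁f,b₁)`, `(T',t') = (S₁e,a₁)`.  So `[t,a₂] ∩ [t',b₂] = ∅`, and `t, a₂, t', b₂` are
four different points.  By `IsArc.loop` twice (`isArc_segment`) there are an arc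
`R_e ⊆ T ∪ [t,a₂] ∪ S₂e` from `pos p` to `pos u` and an arc
`R_f ⊆ T' ∪ [t',b₂] ∪ S₂f` from `pos p` to `pos v` (`pos p ≠ a₂` as `pos p ∉ B`).
`D'`: same `pos`; `arc' e = R_e`, `arc' f = R_f`; `arc' g = S₁ g ∪ c g ∪ S₂ g` for the other
edges through `q` (an arc by `IsArc.trans` twice: `S₁ g ∩ c g = {g₁}`,
`(S₁ g ∪ c g) ∩ S₂ g = {g₂}`); `arc' g = arc g` for all other `g`.
`avoid`: the chords are in `B`, which contains no vertex; `S₁, S₂` are in the old arcs; for `e`: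
a vertex in `T ∪ S₂e` is `p, u` or (if `T = S₁f`) possibly `v`; but `pos v ∈ S₁f` is impossible
since `pos v ∈ S₂f` and `S₁f, S₂f` are disjoint; the same for `f`.
CROSSINGS.  For `g, h` different, not `e, f`: `N' g h ≤ N g h` (if both contain `q`: the new
intersection is in `(O g ∩ O h) ∪ (c g ∩ c h)`, at most `N g h - 1 + 1`; if only one: it is in
`O g ∩ arc h`; if none: equal).
For `h ≠ e, f`: `N' e h + N' f h ≤ N e h + N f h`.  With `X = O h` or `X = arc h`: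
`|(T ∪ S₂e) ∩ X \ pos| + |(T' ∪ S₂f) ∩ X \ pos| ≤ |S₁e ∩ X \ pos| + |S₂e ∩ X \ pos| +
|S₁f ∩ X \ pos| + |S₂f ∩ X \ pos| = |O e ∩ X \ pos| + |O f ∩ X \ pos|`
(`{T, T'} = {S₁e, S₁f}`, `S₁e ∩ S₂e = ∅`, `S₁f ∩ S₂f = ∅`).  If `q ∉ arc h` this is
`≤ N e h + N f h` and chords contribute nothing; if `q ∈ arc h` it is
`≤ (N e h - 1) + (N f h - 1)` and the two new chords contribute at most `1` each with `c h`
(and `(T ∪ S₂e) ∩ c h = ∅`, `[t,a₂] ∩ O h = ∅` by (F0), (F1)).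
`N' e f < N e f`: `(T ∪ S₂e) ∩ (T' ∪ S₂f) ⊆ O e ∩ O f` (because `T ∩ T'` is `S₁e ∩ S₁f`;
`T ∩ S₂f`: in case 1 it is `S₁e ∩ S₂f`, in case 2 `S₁f ∩ S₂f = ∅`; the same for `S₂e ∩ T'`),
the chords are disjoint and do not meet the outer parts; so `N' e f ≤ N e f - 1`.
All these sets are finite (`D.fin`), which also gives `D'.fin`.  Finally `sum_lt` (with
`Drw.N_self`). -/
theorem surgery {V : Type} [Fintype V] {G : SimpleGraph V} (D : Drw G) {p u v : V}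
    (hu : G.Adj p u) (hv : G.Adj p v) (huv : u ≠ v) (h : D.N s(p, u) s(p, v) ≠ 0) :
    ∃ D' : Drw G, D'.cr < D.cr := by
  classical
  set e : Sym2 V := s(p, u) with he_def
  set f : Sym2 V := s(p, v) with hf_def
  have he : e ∈ G.edgeSet := hu
  have hf : f ∈ G.edgeSet := hv
  have hef : e ≠ f := fun hh => huv (Sym2.congr_right.1 hh)
  obtain ⟨q, hq⟩ : ((D.arc e ∩ D.arc f) \ Set.range D.pos).Nonempty :=
    Set.nonempty_of_ncard_ne_zero h
  obtain ⟨r, hr, hrv, hrd, hri⟩ := exists_radius D hq.2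
  set Q : Set (Sym2 V) := {g | g ∈ G.edgeSet ∧ q ∈ D.arc g} with hQ
  have hQe : e ∈ Q := ⟨he, hq.1.1⟩
  have hQf : f ∈ Q := ⟨hf, hq.1.2⟩
  -- cut data
  have hcut : ∀ g : Sym2 V, ∃ (x y : V) (g₁ g₂ : ℂ) (S₁ S₂ : Set ℂ), g ∈ Q →
      (g = s(x, y) ∧ (g = e → x = p ∧ y = u) ∧ (g = f → x = p ∧ y = v)) ∧
      g₁ ≠ g₂ ∧ g₁ ∈ sphere q r ∧ g₂ ∈ sphere q r ∧
      IsArc (D.pos x) g₁ S₁ ∧ IsArc g₂ (D.pos y) S₂ ∧ S₁ ⊆ D.arc g ∧ S₂ ⊆ D.arc g ∧
      Disjoint S₁ S₂ ∧ S₁ ∩ closedBall q r = {g₁} ∧ S₂ ∩ closedBall q r = {g₂} := by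
    intro g
    have hor : ∃ x y : V, g = s(x, y) ∧ (g = e → x = p ∧ y = u) ∧ (g = f → x = p ∧ y = v) := by
      by_cases h1 : g = e
      · exact ⟨p, u, h1, fun _ => ⟨rfl, rfl⟩, fun h2 => absurd (h1.symm.trans h2) hef⟩
      · by_cases h2 : g = f
        · exact ⟨p, v, h2, fun h3 => absurd h3 h1, fun _ => ⟨rfl, rfl⟩⟩
        · induction g using Sym2.ind with
          | _ x y => exact ⟨x, y, rfl, fun h3 => absurd h3 h1, fun h3 => absurd h3 h2⟩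
    obtain ⟨x, y, hxy, h1, h2⟩ := hor
    by_cases hg : g ∈ Q
    · have hadj : G.Adj x y := by
        rw [← SimpleGraph.mem_edgeSet, ← hxy]
        exact hg.1
      have harc : IsArc (D.pos x) (D.pos y) (D.arc g) := by
        rw [hxy]
        exact D.isArc x y hadj
      obtain ⟨a₁, a₂, S₁, S₂, h3⟩ := harc.cut hr (hrv x) (hrv y) hg.2
      exact ⟨x, y, a₁, a₂, S₁, S₂, fun _ => ⟨⟨hxy, h1, h2⟩, h3⟩⟩
    · exact ⟨x, y, 0, 0, ∅, ∅, fun h => absurd h hg⟩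
  choose x y g₁ g₂ S₁ S₂ hc using hcut
  have hxy : ∀ g ∈ Q, g = s(x g, y g) := fun g hg => (hc g hg).1.1
  have hxe : x e = p ∧ y e = u := (hc e hQe).1.2.1 rfl
  have hxf : x f = p ∧ y f = v := (hc f hQf).1.2.2 rfl
  have hne : ∀ g ∈ Q, g₁ g ≠ g₂ g := fun g hg => (hc g hg).2.1
  have hs1 : ∀ g ∈ Q, g₁ g ∈ sphere q r := fun g hg => (hc g hg).2.2.1
  have hs2 : ∀ g ∈ Q, g₂ g ∈ sphere q r := fun g hg => (hc g hg).2.2.2.1
  have hA1 : ∀ g ∈ Q, IsArc (D.pos (x g)) (g₁ g) (S₁ g) := fun g hg => (hc g hg).2.2.2.2.1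
  have hA2 : ∀ g ∈ Q, IsArc (g₂ g) (D.pos (y g)) (S₂ g) := fun g hg => (hc g hg).2.2.2.2.2.1
  have hS1 : ∀ g ∈ Q, S₁ g ⊆ D.arc g := fun g hg => (hc g hg).2.2.2.2.2.2.1
  have hS2 : ∀ g ∈ Q, S₂ g ⊆ D.arc g := fun g hg => (hc g hg).2.2.2.2.2.2.2.1
  have hD : ∀ g ∈ Q, Disjoint (S₁ g) (S₂ g) := fun g hg => (hc g hg).2.2.2.2.2.2.2.2.1
  have hB1 : ∀ g ∈ Q, S₁ g ∩ closedBall q r = {g₁ g} := fun g hg =>
    (hc g hg).2.2.2.2.2.2.2.2.2.1
  have hB2 : ∀ g ∈ Q, S₂ g ∩ closedBall q r = {g₂ g} := fun g hg =>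
    (hc g hg).2.2.2.2.2.2.2.2.2.2
  clear hc
  have hadj : ∀ g ∈ Q, G.Adj (x g) (y g) := by
    intro g hg
    rw [← SimpleGraph.mem_edgeSet, ← hxy g hg]
    exact hg.1
  have hq1 : ∀ g ∈ Q, q ∉ S₁ g := by
    intro g hg hh
    have h1 : q ∈ S₁ g ∩ closedBall q r := ⟨hh, mem_closedBall_self hr.le⟩
    rw [hB1 g hg] at h1
    exact sg_ne hr (hs1 g hg) (Set.mem_singleton_iff.1 h1).symm
  have hq2 : ∀ g ∈ Q, q ∉ S₂ g := by
    intro g hg hh
    have h1 : q ∈ S₂ g ∩ closedBall q r := ⟨hh, mem_closedBall_self hr.le⟩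
    rw [hB2 g hg] at h1
    exact sg_ne hr (hs2 g hg) (Set.mem_singleton_iff.1 h1).symm
  -- end points on the circle
  have hF0 : ∀ g ∈ Q, ∀ h ∈ Q, g ≠ h → ∀ z, z ∈ D.arc g → z ∈ D.arc h → z ∉ sphere q r := by
    intro g hg h hh hgh z h1 h2 h3
    have h4 : z ∈ ({q} : Set ℂ) :=
      hri g hg.1 h hh.1 hgh ⟨⟨h1, h2⟩, sphere_subset_closedBall h3⟩
    exact sg_ne hr h3 h4
  have m1 : ∀ g ∈ Q, g₁ g ∈ D.arc g := fun g hg => hS1 g hg (hA1 g hg).right_mem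
  have m2 : ∀ g ∈ Q, g₂ g ∈ D.arc g := fun g hg => hS2 g hg (hA2 g hg).left_mem
  have n11 : ∀ g ∈ Q, ∀ h ∈ Q, g ≠ h → g₁ g ≠ g₁ h := fun g hg h hh hgh heq =>
    hF0 g hg h hh hgh _ (m1 g hg) (heq ▸ m1 h hh) (hs1 g hg)
  have n22 : ∀ g ∈ Q, ∀ h ∈ Q, g ≠ h → g₂ g ≠ g₂ h := fun g hg h hh hgh heq =>
    hF0 g hg h hh hgh _ (m2 g hg) (heq ▸ m2 h hh) (hs2 g hg)
  have n12 : ∀ g ∈ Q, ∀ h ∈ Q, g₁ g ≠ g₂ h := by
    intro g hg h hh
    by_cases hgh : g = h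
    · rw [← hgh]
      exact hne g hg
    · exact fun heq => hF0 g hg h hh hgh _ (m1 g hg) (heq ▸ m2 h hh) (hs1 g hg)
  -- the permutation
  obtain ⟨σ, hσ, hdis⟩ : ∃ σ : Equiv.Perm (Sym2 V), (σ = 1 ∨ σ = Equiv.swap e f) ∧
      segment ℝ (g₁ (σ e)) (g₂ e) ∩ segment ℝ (g₁ (σ f)) (g₂ f) = ∅ := by
    rcases chord_swap (hs1 e hQe) (hs2 e hQe) (hs1 f hQf) (hs2 f hQf) (hne e hQe) (hne f hQf)
      (n11 e hQe f hQf hef) (n12 e hQe f hQf) (n12 f hQf e hQe).symm (n22 e hQe f hQf hef)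
      with h1 | h1
    · exact ⟨1, Or.inl rfl, h1⟩
    · refine ⟨Equiv.swap e f, Or.inr rfl, ?_⟩
      rw [Equiv.swap_apply_left, Equiv.swap_apply_right]
      exact h1
  have hσo : ∀ g, g ≠ e → g ≠ f → σ g = g := by
    rcases hσ with rfl | rfl
    · exact fun g _ _ => rfl
    · exact fun g h1 h2 => Equiv.swap_apply_of_ne_of_ne h1 h2
  have hσef : (σ e = e ∧ σ f = f) ∨ (σ e = f ∧ σ f = e) := by
    rcases hσ with rfl | rfl
    · exact Or.inl ⟨rfl, rfl⟩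
    · exact Or.inr ⟨Equiv.swap_apply_left _ _, Equiv.swap_apply_right _ _⟩
  have hσQ : ∀ g ∈ Q, σ g ∈ Q := by
    intro g hg
    by_cases h1 : g = e
    · subst h1
      rcases hσef with h2 | h2
      · rw [h2.1]; exact hg
      · rw [h2.1]; exact hQf
    · by_cases h2 : g = f
      · subst h2
        rcases hσef with h3 | h3
        · rw [h3.2]; exact hg
        · rw [h3.2]; exact hQe
      · rw [hσo g h1 h2]; exact hg
  have hσx : ∀ g ∈ Q, x (σ g) = x g := by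
    intro g hg
    by_cases h1 : g = e
    · subst h1
      rcases hσef with h2 | h2
      · rw [h2.1]
      · rw [h2.1, hxe.1, hxf.1]
    · by_cases h2 : g = f
      · subst h2
        rcases hσef with h3 | h3
        · rw [h3.2]
        · rw [h3.2, hxe.1, hxf.1]
      · rw [hσo g h1 h2]
  -- the new arcs
  have hRex : ∀ g : Sym2 V, ∃ R : Set ℂ, g ∈ Q → IsArc (D.pos (x g)) (D.pos (y g)) R ∧
      R ⊆ (S₁ (σ g) ∪ S₂ g) ∪ segment ℝ (g₁ (σ g)) (g₂ g) := by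
    intro g
    by_cases hg : g ∈ Q
    swap
    · exact ⟨∅, fun h => absurd h hg⟩
    have h1 : IsArc (D.pos (x g)) (g₁ (σ g)) (S₁ (σ g)) := by
      have h0 := hA1 (σ g) (hσQ g hg)
      rwa [hσx g hg] at h0
    have h2 : g₁ (σ g) ≠ g₂ g := n12 _ (hσQ g hg) _ hg
    have h3 : D.pos (x g) ≠ g₂ g := fun hh =>
      hrv (x g) (hh ▸ sphere_subset_closedBall (hs2 g hg))
    obtain ⟨R0, hR0, hR0'⟩ := h1.loop (isArc_segment h2) h3
    have h4 : D.pos (x g) ≠ D.pos (y g) := D.inj.ne (hadj g hg).ne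
    obtain ⟨R, hR, hR'⟩ := hR0'.loop (hA2 g hg) h4
    refine ⟨R, fun _ => ⟨hR', fun z hz => ?_⟩⟩
    rcases hR hz with h5 | h5
    · rcases hR0 h5 with h6 | h6
      · exact Or.inl (Or.inl h6)
      · exact Or.inr h6
    · exact Or.inl (Or.inr h5)
  choose R hR using hRex
  have hRarc : ∀ g ∈ Q, IsArc (D.pos (x g)) (D.pos (y g)) (R g) := fun g hg => (hR g hg).1
  set O : Sym2 V → Set ℂ := fun g => S₁ (σ g) ∪ S₂ g with hO
  set c : Sym2 V → Set ℂ := fun g => segment ℝ (g₁ (σ g)) (g₂ g) with hcdef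
  have hRsub : ∀ g ∈ Q, R g ⊆ O g ∪ c g := fun g hg => (hR g hg).2
  set P : Set ℂ := Set.range D.pos with hP
  have hcB : ∀ g ∈ Q, c g ⊆ closedBall q r := fun g hg =>
    chord_subset (hs1 _ (hσQ g hg)) (hs2 g hg)
  have hOB : ∀ g ∈ Q, ∀ z ∈ O g, z ∈ closedBall q r → z = g₁ (σ g) ∨ z = g₂ g := by
    rintro g hg z (hz | hz) hzB
    · have h1 : z ∈ S₁ (σ g) ∩ closedBall q r := ⟨hz, hzB⟩
      rw [hB1 _ (hσQ g hg)] at h1
      exact Or.inl h1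
    · have h1 : z ∈ S₂ g ∩ closedBall q r := ⟨hz, hzB⟩
      rw [hB2 g hg] at h1
      exact Or.inr h1
  have hOc : ∀ g ∈ Q, ∀ h ∈ Q, g ≠ h → ∀ z, z ∈ O g → z ∉ c h := by
    intro g hg h hh hgh z hz hzc
    have h1 := hOB g hg z hz (hcB h hh hzc)
    have hsph : z ∈ sphere q r := by
      rcases h1 with h1 | h1
      · rw [h1]; exact hs1 _ (hσQ g hg)
      · rw [h1]; exact hs2 g hg
    have h2 : z ∈ segment ℝ (g₁ (σ h)) (g₂ h) ∩ sphere q r := ⟨hzc, hsph⟩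
    rw [chord_sphere (hs1 _ (hσQ h hh)) (hs2 h hh) (n12 _ (hσQ h hh) h hh)] at h2
    have hσgh : σ g ≠ σ h := fun hh' => hgh (σ.injective hh')
    rcases h1 with h1 | h1 <;> rcases h2 with h2 | h2
    · exact n11 _ (hσQ g hg) _ (hσQ h hh) hσgh (h1.symm.trans h2)
    · exact n12 _ (hσQ g hg) h hh (h1.symm.trans h2)
    · exact n12 _ (hσQ h hh) g hg (h2.symm.trans h1)
    · exact n22 g hg h hh hgh (h1.symm.trans h2)
  have hcc : ∀ g ∈ Q, ∀ h ∈ Q, g ≠ h → (c g ∩ c h).Subsingleton := by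
    intro g hg h hh hgh
    have hσgh : σ g ≠ σ h := fun hh' => hgh (σ.injective hh')
    exact chord_inter (hs1 _ (hσQ g hg)) (hs2 g hg) (hs1 _ (hσQ h hh)) (hs2 h hh)
      (n12 _ (hσQ g hg) g hg) (n12 _ (hσQ h hh) h hh)
      (n11 _ (hσQ g hg) _ (hσQ h hh) hσgh) (n12 _ (hσQ g hg) h hh)
      (n12 _ (hσQ h hh) g hg).symm (n22 g hg h hh hgh)
  have inc1 : ∀ g ∈ Q, ∀ h ∈ Q, g ≠ h →
      (R g ∩ R h) \ P ⊆ ((O g ∩ O h) \ P) ∪ (c g ∩ c h) := by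
    rintro g hg h hh hgh z ⟨⟨h1, h2⟩, h3⟩
    rcases hRsub g hg h1 with h4 | h4 <;> rcases hRsub h hh h2 with h5 | h5
    · exact Or.inl ⟨⟨h4, h5⟩, h3⟩
    · exact absurd h5 (hOc g hg h hh hgh z h4)
    · exact absurd h4 (hOc h hh g hg (Ne.symm hgh) z h5)
    · exact Or.inr ⟨h4, h5⟩
  have inc2 : ∀ g ∈ Q, ∀ h ∈ G.edgeSet, h ∉ Q → (R g ∩ D.arc h) \ P ⊆ (O g ∩ D.arc h) \ P := by
    rintro g hg h hh hhQ z ⟨⟨h1, h2⟩, h3⟩
    rcases hRsub g hg h1 with h4 | h4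
    · exact ⟨⟨h4, h2⟩, h3⟩
    · exact absurd h2 (Set.disjoint_left.1 (hrd h hh fun hh' => hhQ ⟨hh, hh'⟩) (hcB g hg h4))
  -- finiteness
  have fin1 : ∀ g ∈ Q, ∀ h ∈ G.edgeSet, σ g ≠ h → ((S₁ (σ g) ∩ D.arc h) \ P).Finite := by
    intro g hg h hh hgh
    refine (D.fin _ (hσQ g hg).1 h hh hgh).subset ?_
    rintro z ⟨⟨h1, h2⟩, h3⟩
    exact ⟨⟨hS1 _ (hσQ g hg) h1, h2⟩, h3⟩
  have fin2 : ∀ g ∈ Q, ∀ h ∈ G.edgeSet, g ≠ h → ((S₂ g ∩ D.arc h) \ P).Finite := by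
    intro g hg h hh hgh
    refine (D.fin _ hg.1 h hh hgh).subset ?_
    rintro z ⟨⟨h1, h2⟩, h3⟩
    exact ⟨⟨hS2 g hg h1, h2⟩, h3⟩
  have finO : ∀ g ∈ Q, ∀ h ∈ Q, g ≠ h → ((O g ∩ O h) \ P).Finite := by
    intro g hg h hh hgh
    have hσgh : σ g ≠ σ h := fun hh' => hgh (σ.injective hh')
    have k1 : ((D.arc (σ g) ∩ D.arc (σ h)) \ P).Finite :=
      D.fin _ (hσQ g hg).1 _ (hσQ h hh).1 hσgh
    have k4 : ((D.arc g ∩ D.arc h) \ P).Finite := D.fin _ hg.1 _ hh.1 hgh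
    have k2 : ((S₁ (σ g) ∩ S₂ h) \ P).Finite := by
      by_cases h1 : σ g = h
      · rw [h1, Set.disjoint_iff_inter_eq_empty.1 (hD h hh), Set.empty_sdiff]
        exact Set.finite_empty
      · refine (fin1 g hg h hh.1 h1).subset ?_
        rintro z ⟨⟨h1, h2⟩, h3⟩
        exact ⟨⟨h1, hS2 h hh h2⟩, h3⟩
    have k3 : ((S₁ (σ h) ∩ S₂ g) \ P).Finite := by
      by_cases h1 : σ h = g
      · rw [h1, Set.disjoint_iff_inter_eq_empty.1 (hD g hg), Set.empty_sdiff]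
        exact Set.finite_empty
      · refine (fin1 h hh g hg.1 h1).subset ?_
        rintro z ⟨⟨h1, h2⟩, h3⟩
        exact ⟨⟨h1, hS2 g hg h2⟩, h3⟩
    refine ((k1.union k2).union (k3.union k4)).subset ?_
    rintro z ⟨⟨h1 | h1, h2 | h2⟩, h3⟩
    · exact Or.inl (Or.inl ⟨⟨hS1 _ (hσQ g hg) h1, hS1 _ (hσQ h hh) h2⟩, h3⟩)
    · exact Or.inl (Or.inr ⟨⟨h1, h2⟩, h3⟩)
    · exact Or.inr (Or.inl ⟨⟨h2, h1⟩, h3⟩)
    · exact Or.inr (Or.inr ⟨⟨hS2 g hg h1, hS2 h hh h2⟩, h3⟩)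
  have finc : ∀ g ∈ Q, ∀ h ∈ Q, g ≠ h → (c g ∩ c h).Finite := fun g hg h hh hgh =>
    (hcc g hg h hh hgh).finite
  have finR : ∀ g ∈ Q, ∀ h ∈ Q, g ≠ h → ((R g ∩ R h) \ P).Finite := fun g hg h hh hgh =>
    ((finO g hg h hh hgh).union (finc g hg h hh hgh)).subset (inc1 g hg h hh hgh)
  have finRa : ∀ g ∈ Q, ∀ h ∈ G.edgeSet, h ∉ Q → ((R g ∩ D.arc h) \ P).Finite := by
    intro g hg h hh hhQ
    have h1 : σ g ≠ h := fun hh' => hhQ (hh' ▸ hσQ g hg)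
    have h2 : g ≠ h := fun hh' => hhQ (hh' ▸ hg)
    refine (((fin1 g hg h hh h1).union (fin2 g hg h hh h2))).subset ?_
    refine (inc2 g hg h hh hhQ).trans ?_
    rintro z ⟨⟨h3 | h3, h4⟩, h5⟩
    · exact Or.inl ⟨⟨h3, h4⟩, h5⟩
    · exact Or.inr ⟨⟨h3, h4⟩, h5⟩
  -- the new drawing
  set arc' : Sym2 V → Set ℂ := fun g => if g ∈ Q then R g else D.arc g with harc'
  have arcQ : ∀ g ∈ Q, arc' g = R g := fun g hg => if_pos hg
  have arcN : ∀ g, g ∉ Q → arc' g = D.arc g := fun g hg => if_neg hg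
  have hfin' : ∀ g ∈ G.edgeSet, ∀ h ∈ G.edgeSet, g ≠ h → ((arc' g ∩ arc' h) \ P).Finite := by
    intro g hg h hh hgh
    by_cases h1 : g ∈ Q <;> by_cases h2 : h ∈ Q
    · rw [arcQ g h1, arcQ h h2]
      exact finR g h1 h h2 hgh
    · rw [arcQ g h1, arcN h h2]
      exact finRa g h1 h hh h2
    · rw [arcN g h1, arcQ h h2, Set.inter_comm]
      exact finRa h h2 g hg h1
    · rw [arcN g h1, arcN h h2]
      exact D.fin g hg h hh hgh
  have havoid : ∀ g ∈ Q, ∀ w, D.pos w ∈ R g → w = x g ∨ w = y g := by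
    intro g hg w hw
    have hgarc : ∀ g' ∈ Q, D.pos w ∈ D.arc g' → w = x g' ∨ w = y g' := by
      intro g' hg' hw'
      refine D.avoid (x g') (y g') w (hadj g' hg') ?_
      rw [← hxy g' hg']
      exact hw'
    rcases hRsub g hg hw with (h1 | h1) | h1
    · rcases hgarc _ (hσQ g hg) (hS1 _ (hσQ g hg) h1) with h2 | h2
      · left
        rw [h2, hσx g hg]
      · exfalso
        rw [h2] at h1
        exact Set.disjoint_left.1 (hD _ (hσQ g hg)) h1 (hA2 _ (hσQ g hg)).right_mem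
    · exact hgarc g hg (hS2 g hg h1)
    · exact absurd (hcB g hg h1) (hrv w)
  let D' : Drw G :=
    { pos := D.pos
      arc := arc'
      inj := D.inj
      isArc := by
        intro a b hab
        by_cases hg : s(a, b) ∈ Q
        · rw [arcQ _ hg]
          have h1 := hRarc _ hg
          rcases Sym2.eq_iff.1 (hxy _ hg) with ⟨h2, h3⟩ | ⟨h2, h3⟩
          · rw [← h2, ← h3] at h1
            exact h1
          · rw [← h2, ← h3] at h1
            exact h1.symm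
        · rw [arcN _ hg]
          exact D.isArc a b hab
      avoid := by
        intro a b w hab hw
        by_cases hg : s(a, b) ∈ Q
        · rw [arcQ _ hg] at hw
          have h1 := havoid _ hg w hw
          rcases Sym2.eq_iff.1 (hxy _ hg) with ⟨h2, h3⟩ | ⟨h2, h3⟩
          · rwa [← h2, ← h3] at h1
          · rw [← h2, ← h3] at h1
            exact h1.symm
        · rw [arcN _ hg] at hw
          exact D.avoid a b w hab hw
      fin := hfin' }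
  have hN' : ∀ g h, D'.N g h = ((arc' g ∩ arc' h) \ P).ncard := fun g h => rfl
  have hNd : ∀ g h, D.N g h = ((D.arc g ∩ D.arc h) \ P).ncard := fun g h => rfl
  -- counting
  set α : Sym2 V → Sym2 V → ℕ := fun g h => ((S₁ g ∩ D.arc h) \ P).ncard with hα
  set β : Sym2 V → Sym2 V → ℕ := fun g h => ((S₂ g ∩ D.arc h) \ P).ncard with hβ
  have half1 : ∀ g ∈ Q, ∀ h ∈ Q, g ≠ h → α g h + β g h + 1 ≤ D.N g h := by
    intro g hg h hh hgh
    have hfin := D.fin g hg.1 h hh.1 hgh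
    have h1 := sg_half (X := D.arc h) (P := P) (hS1 g hg) (hS2 g hg) (hD g hg) (hq1 g hg)
      (hq2 g hg) hfin
    have h2 : q ∈ (D.arc g ∩ D.arc h) \ P := ⟨⟨hg.2, hh.2⟩, hq.2⟩
    have h3 := Set.ncard_sdiff_singleton_add_one h2 hfin
    rw [hNd, ← h3]
    exact Nat.add_le_add_right h1 1
  have half2 : ∀ g ∈ Q, ∀ h ∈ G.edgeSet, g ≠ h → α g h + β g h ≤ D.N g h := by
    intro g hg h hh hgh
    have hfin := D.fin g hg.1 h hh hgh
    have h1 := sg_half (X := D.arc h) (P := P) (hS1 g hg) (hS2 g hg) (hD g hg) (hq1 g hg)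
      (hq2 g hg) hfin
    exact h1.trans (Set.ncard_le_ncard Set.sdiff_subset hfin)
  have bd1 : ∀ g ∈ Q, ∀ h ∈ Q, h ≠ e → h ≠ f → g ≠ h →
      D'.N g h ≤ α (σ g) h + β g h + 1 := by
    intro g hg h hh hhe hhf hgh
    have hσh : σ h = h := hσo h hhe hhf
    have hσgh : σ g ≠ h := fun hh' => hgh (σ.injective (hh'.trans hσh.symm))
    have f1 := fin1 g hg h hh.1 hσgh
    have f2 := fin2 g hg h hh.1 hgh
    have f3 := finc g hg h hh hgh
    rw [hN', arcQ g hg, arcQ h hh]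
    have h1 : (R g ∩ R h) \ P ⊆
        (((S₁ (σ g) ∩ D.arc h) \ P) ∪ ((S₂ g ∩ D.arc h) \ P)) ∪ (c g ∩ c h) := by
      refine (inc1 g hg h hh hgh).trans (Set.union_subset_union_left _ ?_)
      rintro z ⟨⟨h2 | h2, h3⟩, h4⟩
      · refine Or.inl ⟨⟨h2, ?_⟩, h4⟩
        rcases h3 with h3 | h3
        · rw [hσh] at h3
          exact hS1 h hh h3
        · exact hS2 h hh h3
      · refine Or.inr ⟨⟨h2, ?_⟩, h4⟩
        rcases h3 with h3 | h3
        · rw [hσh] at h3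
          exact hS1 h hh h3
        · exact hS2 h hh h3
    refine (Set.ncard_le_ncard h1 ((f1.union f2).union f3)).trans ?_
    refine (Set.ncard_union_le _ _).trans ?_
    refine Nat.add_le_add (Set.ncard_union_le _ _) ?_
    exact (Set.ncard_le_one f3).2 fun a ha b hb => hcc g hg h hh hgh ha hb
  have bd2 : ∀ g ∈ Q, ∀ h ∈ G.edgeSet, h ∉ Q → D'.N g h ≤ α (σ g) h + β g h := by
    intro g hg h hh hhQ
    have h1 : σ g ≠ h := fun hh' => hhQ (hh' ▸ hσQ g hg)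
    have h2 : g ≠ h := fun hh' => hhQ (hh' ▸ hg)
    have f1 := fin1 g hg h hh h1
    have f2 := fin2 g hg h hh h2
    rw [hN', arcQ g hg, arcN h hhQ]
    have h3 : (R g ∩ D.arc h) \ P ⊆
        ((S₁ (σ g) ∩ D.arc h) \ P) ∪ ((S₂ g ∩ D.arc h) \ P) := by
      refine (inc2 g hg h hh hhQ).trans ?_
      rintro z ⟨⟨h3 | h3, h4⟩, h5⟩
      · exact Or.inl ⟨⟨h3, h4⟩, h5⟩
      · exact Or.inr ⟨⟨h3, h4⟩, h5⟩
    exact (Set.ncard_le_ncard h3 (f1.union f2)).trans (Set.ncard_union_le _ _)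
  have bd0 : ∀ g ∈ Q, ∀ h ∈ G.edgeSet, g ≠ e → g ≠ f → h ≠ e → h ≠ f → g ≠ h →
      D'.N g h ≤ D.N g h := by
    intro g hg h hh hge hgf hhe hhf hgh
    by_cases hhQ : h ∈ Q
    · have h1 := bd1 g hg h hhQ hhe hhf hgh
      rw [hσo g hge hgf] at h1
      exact h1.trans (half1 g hg h hhQ hgh)
    · have h1 := bd2 g hg h hh hhQ
      rw [hσo g hge hgf] at h1
      exact h1.trans (half2 g hg h hh hgh)
  refine ⟨D', ?_⟩
  unfold Drw.cr
  refine sum_lt (ed G) D.N D'.N D.N_comm D'.N_comm (mem_ed.2 he) (mem_ed.2 hf) hef ?_ ?_ ?_ ?_ ?_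
  · exact fun g hg => D'.N_self (mem_ed.1 hg)
  · exact fun g hg => D.N_self (mem_ed.1 hg)
  · intro g hg h hh hge hgf hhe hhf
    have hg' := mem_ed.1 hg
    have hh' := mem_ed.1 hh
    by_cases hgh : g = h
    · subst hgh
      rw [D'.N_self hg']
      exact Nat.zero_le _
    by_cases h1 : g ∈ Q
    · exact bd0 g h1 h hh' hge hgf hhe hhf hgh
    · by_cases h2 : h ∈ Q
      · rw [D'.N_comm, D.N_comm]
        exact bd0 h h2 g hg' hhe hhf hge hgf (Ne.symm hgh)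
      · rw [hN', hNd, arcN g h1, arcN h h2]
  · intro h hh hhe hhf
    have hh' := mem_ed.1 hh
    have hsum : α (σ e) h + α (σ f) h = α e h + α f h := by
      rcases hσef with h1 | h1
      · rw [h1.1, h1.2]
      · rw [h1.1, h1.2, add_comm]
    by_cases hhQ : h ∈ Q
    · have h1 := bd1 e hQe h hhQ hhe hhf (Ne.symm hhe)
      have h2 := bd1 f hQf h hhQ hhe hhf (Ne.symm hhf)
      have h3 := half1 e hQe h hhQ (Ne.symm hhe)
      have h4 := half1 f hQf h hhQ (Ne.symm hhf)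
      omega
    · have h1 := bd2 e hQe h hh' hhQ
      have h2 := bd2 f hQf h hh' hhQ
      have h3 := half2 e hQe h hh' (Ne.symm hhe)
      have h4 := half2 f hQf h hh' (Ne.symm hhf)
      omega
  · have hfin := D.fin e he f hf hef
    have h2 : q ∈ (D.arc e ∩ D.arc f) \ P := ⟨⟨hq.1.1, hq.1.2⟩, hq.2⟩
    have h3 := Set.ncard_sdiff_singleton_add_one h2 hfin
    rw [hN', hNd, ← h3, arcQ e hQe, arcQ f hQf]
    refine Nat.lt_succ_of_le (Set.ncard_le_ncard ?_ (hfin.subset Set.sdiff_subset))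
    intro z hz
    have hqO : ∀ g ∈ Q, q ∉ O g := by
      rintro g hg (h4 | h4)
      · exact hq1 _ (hσQ g hg) h4
      · exact hq2 g hg h4
    rcases inc1 e hQe f hQf hef hz with h4 | h4
    · obtain ⟨⟨h5, h6⟩, h7⟩ := h4
      have hzq : z ∉ ({q} : Set ℂ) := by
        rintro rfl
        exact hqO e hQe h5
      refine ⟨⟨?_, h7⟩, hzq⟩
      rcases hσef with h8 | h8
      · have h9 : O e ⊆ D.arc e := by
          rintro w (h9 | h9)
          · rw [h8.1] at h9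
            exact hS1 e hQe h9
          · exact hS2 e hQe h9
        have h10 : O f ⊆ D.arc f := by
          rintro w (h9 | h9)
          · rw [h8.2] at h9
            exact hS1 f hQf h9
          · exact hS2 f hQf h9
        exact ⟨h9 h5, h10 h6⟩
      · rcases h5 with h5 | h5 <;> rcases h6 with h6 | h6
        · rw [h8.1] at h5
          rw [h8.2] at h6
          exact ⟨hS1 e hQe h6, hS1 f hQf h5⟩
        · rw [h8.1] at h5
          exact absurd h6 (Set.disjoint_left.1 (hD f hQf) h5)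
        · rw [h8.2] at h6
          exact absurd h5 (Set.disjoint_left.1 (hD e hQe) h6)
        · exact ⟨hS2 e hQe h5, hS2 f hQf h6⟩
    · exfalso
      have h5 : z ∈ segment ℝ (g₁ (σ e)) (g₂ e) ∩ segment ℝ (g₁ (σ f)) (g₂ f) := h4
      rw [hdis] at h5
      exact h5

end Pool.Agent.ALB
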