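import Pool.Agent.ALB.ArcLoop

/-! # ALB module WALK: arcs along walks -/

set_option autoImplicit false

namespace Pool.Agent.ALB

/-- A walk between two different vertices contains an arc.
Proof: induction on the walk `u - w - ... - v`.  If `w = v` the arc of the first edge; otherwise
the induction hypothesis gives an arc from `pos w` to `pos v`, and `IsArc.loop` with the arc of
the edge `s(u,w)` (`pos u ≠ pos v`). -/
theorem walk_arc {V : Type} {G : SimpleGraph V} (D : Drw G) {u v : V} (W : G.Walk u v)
    (h : u ≠ v) : ∃ R : Set ℂ, R ⊆ {z | ∃ e ∈ W.edges, z ∈ D.arc e} ∧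
      IsArc (D.pos u) (D.pos v) R := by
  induction W with
  | nil => exact absurd rfl h
  | cons huw W ih =>
    rename_i a b c
    have h1 : IsArc (D.pos a) (D.pos b) (D.arc s(a, b)) := D.isArc a b huw
    by_cases hbc : b = c
    · subst hbc
      refine ⟨D.arc s(a, b), ?_, h1⟩
      intro z hz
      refine ⟨s(a, b), ?_, hz⟩
      rw [SimpleGraph.Walk.edges_cons]
      exact List.mem_cons_self
    · obtain ⟨R, hR, hRa⟩ := ih hbc
      have hne : D.pos a ≠ D.pos c := fun he => h (D.inj he)
      obtain ⟨R', hR', hR'a⟩ := h1.loop hRa hne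
      refine ⟨R', ?_, hR'a⟩
      intro z hz
      rcases hR' hz with h2 | h2
      · refine ⟨s(a, b), ?_, h2⟩
        rw [SimpleGraph.Walk.edges_cons]
        exact List.mem_cons_self
      · obtain ⟨e, he, hze⟩ := hR h2
        refine ⟨e, ?_, hze⟩
        rw [SimpleGraph.Walk.edges_cons]
        exact List.mem_cons_of_mem _ he

end Pool.Agent.ALB
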