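import Pool.Agent.ALB.WbDefs
import Pool.Agent.ALB.Sqa

/-! # ALB module WB2: number of components -/

set_option autoImplicit false

namespace Pool.Agent.ALB

open Finset

variable {V : Type} [Fintype V] {G : SimpleGraph V} {ι β : Type} [Fintype ι] [Fintype β]
  {H : Finset V}

open Classical in
private theorem wb2_card : ((univ.filter (fun x : V => x ∉ H)).card : ℝ) = nL H := by
  have h := Finset.card_filter_add_card_filter_not (s := (univ : Finset V)) (fun x => x ∈ H)
  have h2 : (univ.filter (fun x : V => x ∈ H)) = H := by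
    ext x
    simp
  rw [h2, Finset.card_univ] at h
  unfold nL
  have h3 : (Fintype.card V : ℝ) = (H.card : ℝ) + ((univ.filter (fun x : V => x ∉ H)).card : ℝ) := by
    exact_mod_cast h.symm
  linarith

open Classical in
/-- **Number of components.**  With `p = (1/N) #small vertices`: `|ι| ≤ p N / 5 + 4000`.
Proof: a small component has at least five vertices (`Std.five_le`), all of them small; the other
components have more than `N/4000` vertices each and are disjoint, so there are at most `4000`
(every `i : ι` is the component of `q i`). -/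
theorem card_ι_le (S : Std G ι β H) (hN : 0 < nL H) :
    (Fintype.card ι : ℝ) ≤ ((univ.filter (fun x => S.small x)).card : ℝ) / 5 + 4000 := by
  obtain ⟨c, hc⟩ : ∃ c : ι → ℕ, ∀ i, c i = (univ.filter (fun y => y ∉ H ∧ S.comp y = i)).card :=
    ⟨_, fun _ => rfl⟩
  -- the small components
  have h1 : (Fintype.card ι : ℝ) = ((univ.filter (fun i => (c i : ℝ) ≤ nL H / 4000)).card : ℝ) +
      ((univ.filter (fun i => ¬ (c i : ℝ) ≤ nL H / 4000)).card : ℝ) := by
    have := Finset.card_filter_add_card_filter_not (s := (univ : Finset ι))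
      (fun i => (c i : ℝ) ≤ nL H / 4000)
    rw [Finset.card_univ] at this
    exact_mod_cast this.symm
  -- large ones
  have h2 : ((univ.filter (fun i => ¬ (c i : ℝ) ≤ nL H / 4000)).card : ℝ) ≤ 4000 := by
    have h3 : ∑ i ∈ univ.filter (fun i => ¬ (c i : ℝ) ≤ nL H / 4000), (c i : ℝ) ≤ nL H := by
      rw [← wb2_card]
      have h4 : ∑ i : ι, c i = (univ.filter (fun x : V => x ∉ H)).card := by
        rw [Finset.card_eq_sum_card_fiberwise (f := S.comp) (t := univ)
          (fun _ _ => Finset.mem_coe.2 (Finset.mem_univ _))]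
        refine Finset.sum_congr rfl fun i _ => ?_
        rw [hc, Finset.filter_filter]
      rw [← h4]
      push_cast
      exact Finset.sum_le_sum_of_subset_of_nonneg (Finset.filter_subset _ _)
        fun i _ _ => Nat.cast_nonneg _
    have h5 : ((univ.filter (fun i => ¬ (c i : ℝ) ≤ nL H / 4000)).card : ℝ) * (nL H / 4000) ≤
        ∑ i ∈ univ.filter (fun i => ¬ (c i : ℝ) ≤ nL H / 4000), (c i : ℝ) := by
      rw [← nsmul_eq_mul]
      exact Finset.card_nsmul_le_sum _ _ _ fun i hi => by
        have := (Finset.mem_filter.1 hi).2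
        push Not at this
        exact this.le
    have h6 := h5.trans h3
    by_contra h7
    replace h7 := not_le.1 h7
    have h8 : 4000 * (nL H / 4000) <
        ((univ.filter (fun i => ¬ (c i : ℝ) ≤ nL H / 4000)).card : ℝ) * (nL H / 4000) :=
      mul_lt_mul_of_pos_right h7 (by positivity)
    linarith
  -- small ones
  have h3 : 5 * (univ.filter (fun i => (c i : ℝ) ≤ nL H / 4000)).card ≤
      (univ.filter (fun x => S.small x)).card := by
    rw [Finset.card_eq_sum_card_fiberwise (s := univ.filter (fun x => S.small x)) (f := S.comp)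
      (t := univ.filter (fun i => (c i : ℝ) ≤ nL H / 4000)) (by
        intro x hx
        have hx' := (Finset.mem_filter.1 (Finset.mem_coe.1 hx)).2
        refine Finset.mem_coe.2 (Finset.mem_filter.2 ⟨Finset.mem_univ _, ?_⟩)
        rw [hc]
        exact hx'.2), mul_comm, ← smul_eq_mul]
    refine Finset.card_nsmul_le_sum _ _ _ fun i hi => ?_
    have hi' := (Finset.mem_filter.1 hi).2
    refine (S.five_le i).trans (Finset.card_le_card ?_)
    intro x hx
    have hx' := (Finset.mem_filter.1 hx).2
    refine Finset.mem_filter.2 ⟨Finset.mem_filter.2 ⟨Finset.mem_univ _, hx'.1, ?_⟩, hx'.2⟩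
    rw [hx'.2, ← hc]
    exact hi'
  have h4 : 5 * ((univ.filter (fun i => (c i : ℝ) ≤ nL H / 4000)).card : ℝ) ≤
      ((univ.filter (fun x => S.small x)).card : ℝ) := by exact_mod_cast h3
  linarith

end Pool.Agent.ALB
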