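import Pool.Agent.ALB.WbDefs
import Pool.Agent.ALB.Sqa

/-! # ALB module WB3 -/

set_option autoImplicit false

namespace Pool.Agent.ALB

open Finset

variable {V : Type} [Fintype V] {G : SimpleGraph V} {ι β : Type} [Fintype ι] [Fintype β]
  {H : Finset V}

open Classical in
private theorem wb3_card : ((univ.filter (fun x : V => x ∉ H)).card : ℝ) = nL H := by
  have h := Finset.card_filter_add_card_filter_not (s := (univ : Finset V)) (fun x => x ∈ H)
  have h2 : (univ.filter (fun x : V => x ∈ H)) = H := by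
    ext x
    simp
  rw [h2, Finset.card_univ] at h
  unfold nL
  have h3 : (Fintype.card V : ℝ) = (H.card : ℝ) + ((univ.filter (fun x : V => x ∉ H)).card : ℝ) := by
    exact_mod_cast h.symm
  linarith

open Classical in
/-- **Step 2.**  With `S₀, A` as in step 1 and `p = (1/N) #small vertices`:
`2 A ≥ 2 + p - 3 S₀ - 6/4000` and `S₀ ≥ p - 2/4000`, `0 ≤ p ≤ 1`.

Proof.  For small `v`: `t_v < N/4000` (`Std.tdeg_lt_comp`), so
`sq v ≥ √(1 - 2/4000) ≥ 1 - 2/4000`.  With `S₁ = (1/N) ∑_{small} sq`, `S₂` the rest,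
`S₀ = S₁ + S₂`, `S₁ ≥ p (1 - 2/4000) ≥ p - 2/4000`.
`A ≥ (1/N) ∑_{v ∉ H, not small} (1 - (3/2) sq v) = (1 - p) - (3/2) S₂` (`num1`), so
`2 A ≥ 2 - 2p - 3 S₂ = 2 - 2p - 3 S₀ + 3 S₁ ≥ 2 + p - 3 S₀ - 6/4000`. -/
theorem W_step2 (S : Std G ι β H) (hN : 1 ≤ nL H) :
    2 + ((univ.filter (fun x => S.small x)).card : ℝ) / nL H
        - 3 * ((∑ v ∈ univ.filter (· ∉ H), sq G H v) / nL H) - 6 / 4000 ≤
      2 * ((∑ v ∈ univ.filter (· ∉ H), (1 - sq G H v ^ 2) ^ 4) / nL H) ∧
    ((univ.filter (fun x => S.small x)).card : ℝ) / nL H - 2 / 4000 ≤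
      (∑ v ∈ univ.filter (· ∉ H), sq G H v) / nL H ∧
    ((univ.filter (fun x => S.small x)).card : ℝ) / nL H ≤ 1 := by
  have hN0 : 0 < nL H := by linarith
  have hsq0 : ∀ v : V, 0 ≤ sq G H v := fun v => Real.sqrt_nonneg _
  have hsq1 : ∀ v : V, sq G H v ≤ 1 := by
    intro v
    unfold sq
    rw [Real.sqrt_le_one]
    have : 0 ≤ 2 * (tdeg G v : ℝ) / nL H := by positivity
    linarith
  -- small vertices
  have hsm : ∀ v : V, S.small v → 1 - 2 / 4000 ≤ sq G H v := by
    intro v hv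
    have h1 := S.tdeg_lt_comp hv.1
    have h2 : (tdeg G v : ℝ) ≤ nL H / 4000 := by
      have h3 : (tdeg G v : ℝ) ≤
          ((univ.filter (fun y => y ∉ H ∧ S.comp y = S.comp v)).card : ℝ) := by
        exact_mod_cast h1.le
      exact h3.trans hv.2
    have h3 : 2 * (tdeg G v : ℝ) / nL H ≤ 2 / 4000 := by
      rw [div_le_iff₀ hN0]
      linarith
    unfold sq
    apply Real.le_sqrt_of_sq_le
    nlinarith
  have hfilt : (univ.filter (fun x => S.small x)) =
      (univ.filter (fun x : V => x ∉ H)).filter (fun x => S.small x) := by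
    rw [Finset.filter_filter]
    refine Finset.filter_congr fun x _ => ?_
    exact ⟨fun h => ⟨h.1, h⟩, fun h => h.2⟩
  obtain ⟨p, hp⟩ : ∃ p : ℝ, p = ((univ.filter (fun x => S.small x)).card : ℝ) := ⟨_, rfl⟩
  obtain ⟨S1, hS1⟩ : ∃ S1 : ℝ,
      S1 = ∑ v ∈ (univ.filter (fun x : V => x ∉ H)).filter (fun x => S.small x), sq G H v :=
    ⟨_, rfl⟩
  obtain ⟨S2, hS2⟩ : ∃ S2 : ℝ,
      S2 = ∑ v ∈ (univ.filter (fun x : V => x ∉ H)).filter (fun x => ¬ S.small x), sq G H v :=
    ⟨_, rfl⟩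
  have hS : ∑ v ∈ univ.filter (· ∉ H), sq G H v = S1 + S2 := by
    rw [hS1, hS2, Finset.sum_filter_add_sum_filter_not]
  have hS1p : p * (1 - 2 / 4000) ≤ S1 := by
    rw [hp, hS1, hfilt, ← nsmul_eq_mul]
    exact Finset.card_nsmul_le_sum _ _ _ fun v hv => hsm v (Finset.mem_filter.1 hv).2
  have hS20 : 0 ≤ S2 := by
    rw [hS2]
    exact Finset.sum_nonneg fun v _ => hsq0 v
  have hpN : p ≤ nL H := by
    rw [hp, ← wb3_card (H := H), hfilt]
    exact_mod_cast Finset.card_le_card (Finset.filter_subset _ _)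
  have hp0 : 0 ≤ p := by rw [hp]; positivity
  have hcard : (((univ.filter (fun x : V => x ∉ H)).filter (fun x => ¬ S.small x)).card : ℝ) =
      nL H - p := by
    have h := Finset.card_filter_add_card_filter_not (s := univ.filter (fun x : V => x ∉ H))
      (fun x => S.small x)
    rw [← hfilt] at h
    rw [← wb3_card (H := H), hp, ← h]
    push_cast
    ring
  have hA : (nL H - p) - 3 / 2 * S2 ≤ ∑ v ∈ univ.filter (· ∉ H), (1 - sq G H v ^ 2) ^ 4 := by
    calc (nL H - p) - 3 / 2 * S2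
        = ∑ v ∈ (univ.filter (fun x : V => x ∉ H)).filter (fun x => ¬ S.small x),
            (1 - 3 / 2 * sq G H v) := by
          rw [Finset.sum_sub_distrib, Finset.sum_const, nsmul_eq_mul, mul_one, hcard, hS2,
            Finset.mul_sum]
      _ ≤ ∑ v ∈ (univ.filter (fun x : V => x ∉ H)).filter (fun x => ¬ S.small x),
            (1 - sq G H v ^ 2) ^ 4 := Finset.sum_le_sum fun v _ => num1 (hsq0 v) (hsq1 v)
      _ ≤ _ := Finset.sum_le_sum_of_subset_of_nonneg (Finset.filter_subset _ _)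
            fun v _ _ => by positivity
  rw [hS, ← hp]
  refine ⟨?_, ?_, ?_⟩
  · have e1 : 2 + p / nL H - 3 * ((S1 + S2) / nL H) - 6 / 4000 =
        (2 * nL H + p - 3 * (S1 + S2) - 6 / 4000 * nL H) / nL H := by
      field_simp
    rw [e1, ← mul_div_assoc]
    apply div_le_div_of_nonneg_right _ hN0.le
    linarith
  · have e1 : p / nL H - 2 / 4000 = (p - 2 / 4000 * nL H) / nL H := by
      field_simp
    rw [e1]
    apply div_le_div_of_nonneg_right _ hN0.le
    linarith
  · rw [div_le_one hN0]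
    exact hpN

end Pool.Agent.ALB
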