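import Pool.Agent.ALB.Wb1
import Pool.Agent.ALB.Wb2
import Pool.Agent.ALB.Wb3

/-! # ALB module WB: lower bound for `W` -/

set_option autoImplicit false

namespace Pool.Agent.ALB

open Finset

variable {V : Type} [Fintype V] {G : SimpleGraph V} {ι β : Type} [Fintype ι] [Fintype β]
  {H : Finset V}

/-- **Lower bound for `W`.**

Proof.  `N = nL H = |ι| + 2|β|`, `k_L = |ι| + |β|`, `p, S₀, S', A` as above (`S₀ ≤ S' + 1/2000`,
`S' ≥ p - 1/1000`).  Steps 1, 2:
`16 W / N⁴ ≥ 16 S'⁴ + 2 + p - 3 S' - 3/2000 - 6/4000 - 2/N - 48/20⁴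
≥ (11/10)(1+p/5)⁴ + 1/50 - 0.0035` (`num2`; `N ≥ 4·10⁶`) `≥ (11/10)(1+p/5)⁴ + 1/100
≥ (11/10)(1 + p/5 + 4000/N)⁴` (`num5`, `4000/N ≤ 1/1000`) and
`2 k_L/N = 1 + |ι|/N ≤ 1 + p/5 + 4000/N` (`card_ι_le`).  So `16 W ≥ (11/10) (2 k_L)⁴`, i.e.
`W ≥ (11/10) k_L⁴ ≥ ((51/50) k_L)⁴` (`(51/50)⁴ = 1.0824...`). -/
theorem W_ge (S : Std G ι β H) (hN : 4000000 ≤ nL H) :
    (51 / 50 * ((Fintype.card ι : ℝ) + (Fintype.card β : ℝ))) ^ 4 ≤ WW G H := by
  classical
  have hN1 : 1 ≤ nL H := by linarith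
  have hN0 : 0 < nL H := by linarith
  have hs1 := W_step1 S hN1
  obtain ⟨hs2, hs3, hs4⟩ := W_step2 S hN1
  have hι := card_ι_le S hN0
  have hnl := S.nL_eq
  set S0 : ℝ := (∑ v ∈ univ.filter (· ∉ H), sq G H v) / nL H with hS0
  set A : ℝ := (∑ v ∈ univ.filter (· ∉ H), (1 - sq G H v ^ 2) ^ 4) / nL H with hA
  set p : ℝ := ((univ.filter (fun x => S.small x)).card : ℝ) / nL H with hp
  set S' : ℝ := max 0 (S0 - 1 / 2000) with hS'
  have hp0 : 0 ≤ p := by positivity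
  have hS'0 : 0 ≤ S' := le_max_left _ _
  have hS'1 : S0 - 1 / 2000 ≤ S' := le_max_right _ _
  have hn2 := num2 hp0 hs4 hS'0 (by linarith)
  set N : ℝ := nL H with hNd
  have hu0 : 0 ≤ 4000 / N := by positivity
  have hu1 : 4000 / N ≤ 1 / 1000 := by
    rw [div_le_iff₀ hN0]
    linarith
  have hn5 := num5 hp0 hs4 hu0 hu1
  have h2N : 2 / N ≤ 1 / 2000000 := by
    rw [div_le_iff₀ hN0]
    linarith
  have hmain : 11 / 10 * (1 + p / 5 + 4000 / N) ^ 4 ≤
      16 * S' ^ 4 + 2 * A - 2 / N - 48 * (1 / 20) ^ 4 := by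
    norm_num at hn2 hn5 h2N hs2 hs3 hS'1 ⊢
    linarith
  have hk : 2 * ((Fintype.card ι : ℝ) + (Fintype.card β : ℝ)) ≤ N * (1 + p / 5 + 4000 / N) := by
    have e1 : N * (1 + p / 5 + 4000 / N) =
        N + ((univ.filter (fun x => S.small x)).card : ℝ) / 5 + 4000 := by
      rw [hp]
      field_simp
    rw [e1]
    linarith
  have hk0 : 0 ≤ (Fintype.card ι : ℝ) + (Fintype.card β : ℝ) := by positivity
  have hk4 : (2 * ((Fintype.card ι : ℝ) + (Fintype.card β : ℝ))) ^ 4 ≤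
      (N * (1 + p / 5 + 4000 / N)) ^ 4 := by
    gcongr
  have h16 : 11 / 10 * (2 * ((Fintype.card ι : ℝ) + (Fintype.card β : ℝ))) ^ 4 ≤
      16 * WW G H := by
    calc 11 / 10 * (2 * ((Fintype.card ι : ℝ) + (Fintype.card β : ℝ))) ^ 4
        ≤ 11 / 10 * (N * (1 + p / 5 + 4000 / N)) ^ 4 := by gcongr
      _ = N ^ 4 * (11 / 10 * (1 + p / 5 + 4000 / N) ^ 4) := by ring
      _ ≤ N ^ 4 * (16 * S' ^ 4 + 2 * A - 2 / N - 48 * (1 / 20) ^ 4) := by gcongr
      _ ≤ _ := hs1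
  have h0 : 0 ≤ ((Fintype.card ι : ℝ) + (Fintype.card β : ℝ)) ^ 4 := by positivity
  have e3 : (51 / 50 * ((Fintype.card ι : ℝ) + (Fintype.card β : ℝ))) ^ 4 =
      (51 / 50) ^ 4 * ((Fintype.card ι : ℝ) + (Fintype.card β : ℝ)) ^ 4 := by ring
  have e4 : (2 * ((Fintype.card ι : ℝ) + (Fintype.card β : ℝ))) ^ 4 =
      16 * ((Fintype.card ι : ℝ) + (Fintype.card β : ℝ)) ^ 4 := by ring
  rw [e3]
  rw [e4] at h16
  norm_num
  linarith

/-- Proof.  `x0 ≤ 1` and `t_v ≤ N` give `K ≤ N`, `lam none ≤ 1`, `lam (some v) ≤ 2/(N+1)` and `0`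
for `v ∈ H` (there are `N` vertices outside the hub), so `W ≤ N⁴ + 2 N⁴ ≤ (2N)⁴`. -/
theorem W_le (S : Std G ι β H) (hN : 0 < nL H) : WW G H ≤ (2 * nL H) ^ 4 := by
  classical
  have hnc : ((Hᶜ).card : ℝ) = nL H := by
    rw [card_compl, Nat.cast_sub (card_le_univ H)]
    rfl
  have hnl := S.nL_eq
  -- the total weights are at most `N`
  have hK0 : 0 ≤ Ks G H none ∧ Ks G H none ≤ nL H := by
    unfold Ks
    refine ⟨sum_nonneg fun x _ => (x0_mem x hN).1, ?_⟩
    calc ∑ x, xs G H none x ≤ ∑ x, (if x ∈ Hᶜ then (1:ℝ) else 0) := by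
          refine sum_le_sum fun x _ => ?_
          by_cases hx : x ∈ H
          · have : xs G H none x = 0 := by
              show x0 G H x = 0
              unfold x0
              rw [if_pos hx]
            rw [this]
            split_ifs <;> norm_num
          · rw [if_pos (mem_compl.2 hx)]
            exact (x0_mem x hN).2.1
      _ = nL H := by
          rw [sum_ite_mem, univ_inter, sum_const, nsmul_eq_mul, mul_one, hnc]
  have hKs : ∀ v, 0 ≤ Ks G H (some v) ∧ Ks G H (some v) ≤ nL H := by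
    intro v
    rw [Ks_some]
    refine ⟨Nat.cast_nonneg _, ?_⟩
    by_cases hv : v ∈ H
    · rw [S.tdeg_hub hv]
      push_cast
      exact hN.le
    · have h1 := S.tdeg_le v
      have h2 : 1 ≤ Fintype.card ι := Fintype.card_pos_iff.2 ⟨S.comp v⟩
      have h3 : (tdeg G v : ℝ) ≤ (Fintype.card β : ℝ) + 1 := by exact_mod_cast h1
      have h4 : (1:ℝ) ≤ (Fintype.card ι : ℝ) := by exact_mod_cast h2
      have h5 : (0:ℝ) ≤ (Fintype.card β : ℝ) := Nat.cast_nonneg _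
      linarith
  have hN4 : 0 ≤ nL H ^ 4 := by positivity
  have hnone : lam G H none * Ks G H none ^ 4 ≤ nL H ^ 4 := by
    have h1 : Ks G H none ^ 4 ≤ nL H ^ 4 := pow_le_pow_left₀ hK0.1 hK0.2 4
    unfold lam
    simp only
    split_ifs
    · rw [one_mul]
      exact h1
    · rw [zero_mul]
      exact hN4
  have hsome : ∑ v, lam G H (some v) * Ks G H (some v) ^ 4 ≤ 2 * nL H ^ 4 := by
    calc ∑ v, lam G H (some v) * Ks G H (some v) ^ 4
        ≤ ∑ v, (if v ∈ Hᶜ then 2 / (nL H + 1) * nL H ^ 4 else 0) := by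
          refine sum_le_sum fun v _ => ?_
          have h1 : Ks G H (some v) ^ 4 ≤ nL H ^ 4 := pow_le_pow_left₀ (hKs v).1 (hKs v).2 4
          unfold lam
          simp only
          by_cases hv : v ∈ H
          · rw [if_neg (fun h => h.1 hv), zero_mul, if_neg (fun h => (mem_compl.1 h) hv)]
          · rw [if_pos (mem_compl.2 hv)]
            split_ifs
            · gcongr
            · rw [zero_mul]
              positivity
      _ = nL H * (2 / (nL H + 1) * nL H ^ 4) := by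
          rw [sum_ite_mem, univ_inter, sum_const, nsmul_eq_mul, hnc]
      _ ≤ 2 * nL H ^ 4 := by
          have h2 : nL H * (2 / (nL H + 1)) ≤ 2 := by
            rw [mul_div_assoc', div_le_iff₀ (by linarith)]
            linarith
          calc nL H * (2 / (nL H + 1) * nL H ^ 4) = (nL H * (2 / (nL H + 1))) * nL H ^ 4 := by ring
            _ ≤ 2 * nL H ^ 4 := by gcongr
  unfold WW
  rw [Fintype.sum_option]
  calc _ ≤ nL H ^ 4 + 2 * nL H ^ 4 := add_le_add hnone hsome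
    _ ≤ (2 * nL H) ^ 4 := by
        rw [mul_pow]
        linarith

end Pool.Agent.ALB
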