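import Pool.Agent.ALB.Sqa

/-! # ALB module WB1 -/

set_option autoImplicit false

namespace Pool.Agent.ALB

open Finset

variable {V : Type} [Fintype V] {G : SimpleGraph V} {ι β : Type} [Fintype ι] [Fintype β]
  {H : Finset V}

/-- Proof: the number of non-neighbours of `v`. -/
theorem Ks_some (v : V) : Ks G H (some v) = (tdeg G v : ℝ) := by
  classical
  simp only [Ks, xs, tdeg]
  rw [Finset.sum_boole]

open Classical in
/-- Sum over the vertices outside the hub of `(1 - sq²)⁴`, from below by the fourth powers of the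
degrees: `t⁴ ≥ (N⁴/16) (1 - sq²)⁴` since `1 - sq² = min 1 (2t/N)`. -/
theorem tdeg_four (hN : 0 < nL H) (v : V) :
    nL H ^ 4 / 16 * (1 - sq G H v ^ 2) ^ 4 ≤ (tdeg G v : ℝ) ^ 4 := by
  unfold sq
  rcases le_or_gt 0 (1 - 2 * (tdeg G v : ℝ) / nL H) with h | h
  · rw [Real.sq_sqrt h]
    have e : nL H ^ 4 / 16 * (1 - (1 - 2 * (tdeg G v : ℝ) / nL H)) ^ 4 = (tdeg G v : ℝ) ^ 4 := by
      field_simp
      ring
    exact e.le
  · rw [Real.sqrt_eq_zero_of_nonpos h.le]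
    have h1 : 1 < 2 * (tdeg G v : ℝ) / nL H := by linarith
    rw [lt_div_iff₀ hN] at h1
    have h2 : (nL H / 2) ^ 4 ≤ (tdeg G v : ℝ) ^ 4 :=
      pow_le_pow_left₀ (by positivity) (by linarith) 4
    calc nL H ^ 4 / 16 * (1 - 0 ^ 2) ^ 4 = (nL H / 2) ^ 4 := by ring
      _ ≤ _ := h2

open Classical in
private theorem wb1_card : ((univ.filter (fun x : V => x ∉ H)).card : ℝ) = nL H := by
  have h := Finset.card_filter_add_card_filter_not (s := (univ : Finset V)) (fun x => x ∈ H)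
  have h2 : (univ.filter (fun x : V => x ∈ H)) = H := by
    ext x
    simp
  rw [h2, Finset.card_univ] at h
  unfold nL
  have h3 : (Fintype.card V : ℝ) = (H.card : ℝ) + ((univ.filter (fun x : V => x ∉ H)).card : ℝ) := by
    exact_mod_cast h.symm
  linarith

open Classical in
private theorem wb1_A (hN : 0 < nL H) :
    (nL H * max 0 ((∑ v ∈ univ.filter (· ∉ H), sq G H v) / nL H - 1 / 2000)) ^ 4 -
      nL H ^ 4 * (1 / 20) ^ 4 ≤ lam G H none * Ks G H none ^ 4 := by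
  have h0 : ∀ x : V, 0 ≤ x0 G H x := by
    intro x
    unfold x0
    split_ifs
    · exact le_rfl
    · exact le_rfl
    · exact Real.sqrt_nonneg _
  have hK0 : 0 ≤ Ks G H none := by
    unfold Ks
    exact Finset.sum_nonneg fun x _ => h0 x
  have hK1 : nL H * ((∑ v ∈ univ.filter (· ∉ H), sq G H v) / nL H - 1 / 2000) ≤ Ks G H none := by
    have e : nL H * ((∑ v ∈ univ.filter (· ∉ H), sq G H v) / nL H - 1 / 2000) =
        ∑ v ∈ univ.filter (· ∉ H), (sq G H v - 1 / 2000) := by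
      rw [Finset.sum_sub_distrib, Finset.sum_const, nsmul_eq_mul, wb1_card]
      field_simp
    rw [e]
    calc ∑ v ∈ univ.filter (· ∉ H), (sq G H v - 1 / 2000)
        ≤ ∑ v ∈ univ.filter (· ∉ H), x0 G H v := by
          refine Finset.sum_le_sum fun x hx => ?_
          have hx' : x ∉ H := (Finset.mem_filter.1 hx).2
          unfold x0
          rw [if_neg hx']
          split_ifs with h
          · linarith
          · linarith
      _ ≤ ∑ x, x0 G H x :=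
          Finset.sum_le_sum_of_subset_of_nonneg (Finset.filter_subset _ _) fun x _ _ => h0 x
      _ = Ks G H none := rfl
  have hK2 : nL H * max 0 ((∑ v ∈ univ.filter (· ∉ H), sq G H v) / nL H - 1 / 2000) ≤
      Ks G H none := by
    rcases max_cases 0 ((∑ v ∈ univ.filter (· ∉ H), sq G H v) / nL H - 1 / 2000) with h | h
    · rw [h.1, mul_zero]
      exact hK0
    · rw [h.1]
      exact hK1
  have hK3 : 0 ≤ nL H * max 0 ((∑ v ∈ univ.filter (· ∉ H), sq G H v) / nL H - 1 / 2000) :=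
    mul_nonneg hN.le (le_max_left _ _)
  unfold lam
  simp only
  split_ifs with h
  · have h1 := pow_le_pow_left₀ hK3 hK2 4
    have h2 : 0 ≤ nL H ^ 4 * (1 / 20) ^ 4 := by positivity
    linarith
  · push Not at h
    have h1 := pow_le_pow_left₀ hK3 (hK2.trans h.le) 4
    have h2 : (nL H / 20) ^ 4 = nL H ^ 4 * (1 / 20) ^ 4 := by ring
    linarith

open Classical in
private theorem wb1_B (hN : 1 ≤ nL H) :
    nL H ^ 4 * ((∑ v ∈ univ.filter (· ∉ H), (1 - sq G H v ^ 2) ^ 4) / nL H / 8 - 1 / (8 * nL H)) -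
      2 * nL H ^ 4 * (1 / 20) ^ 4 ≤ ∑ v : V, lam G H (some v) * Ks G H (some v) ^ 4 := by
  have hN0 : 0 < nL H := by linarith
  have h1 : ∀ v ∈ univ.filter (fun x : V => x ∉ H),
      2 / (nL H + 1) * ((tdeg G v : ℝ) ^ 4 - nL H ^ 4 * (1 / 20) ^ 4) ≤
        lam G H (some v) * Ks G H (some v) ^ 4 := by
    intro v hv
    have hv' : v ∉ H := (Finset.mem_filter.1 hv).2
    unfold lam
    simp only
    rw [Ks_some]
    split_ifs with h
    · have h3 : 0 ≤ nL H ^ 4 * (1 / 20) ^ 4 := by positivity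
      exact mul_le_mul_of_nonneg_left (by linarith) (by positivity)
    · have h4 : (tdeg G v : ℝ) < nL H / 20 := by
        by_contra h5
        push Not at h5
        exact h ⟨hv', h5⟩
      have h5 := pow_le_pow_left₀ (Nat.cast_nonneg (tdeg G v) : (0 : ℝ) ≤ _) h4.le 4
      have h2 : (nL H / 20) ^ 4 = nL H ^ 4 * (1 / 20) ^ 4 := by ring
      rw [zero_mul]
      exact mul_nonpos_of_nonneg_of_nonpos (by positivity) (by linarith)
  have h2 : ∑ v ∈ univ.filter (fun x : V => x ∉ H),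
      2 / (nL H + 1) * ((tdeg G v : ℝ) ^ 4 - nL H ^ 4 * (1 / 20) ^ 4) ≤
        ∑ v : V, lam G H (some v) * Ks G H (some v) ^ 4 := by
    refine (Finset.sum_le_sum h1).trans ?_
    refine Finset.sum_le_sum_of_subset_of_nonneg (Finset.filter_subset _ _) fun v _ _ => ?_
    unfold lam
    simp only
    rw [Ks_some]
    split_ifs
    · positivity
    · rw [zero_mul]
  refine le_trans ?_ h2
  rw [← Finset.mul_sum, Finset.sum_sub_distrib, Finset.sum_const, nsmul_eq_mul, wb1_card]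
  obtain ⟨A, hA⟩ : ∃ A : ℝ, A = ∑ v ∈ univ.filter (fun x : V => x ∉ H), (1 - sq G H v ^ 2) ^ 4 :=
    ⟨_, rfl⟩
  have h3 : nL H ^ 4 / 16 * A ≤ ∑ v ∈ univ.filter (fun x : V => x ∉ H), (tdeg G v : ℝ) ^ 4 := by
    rw [hA, Finset.mul_sum]
    exact Finset.sum_le_sum fun v _ => tdeg_four hN0 v
  have h4 : A ≤ nL H := by
    rw [hA, ← wb1_card (H := H)]
    have h5 : ∀ v ∈ univ.filter (fun x : V => x ∉ H), (1 - sq G H v ^ 2) ^ 4 ≤ (1 : ℝ) := by
      intro v _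
      have h6 : 0 ≤ sq G H v := Real.sqrt_nonneg _
      have h7 : sq G H v ≤ 1 := by
        unfold sq
        rw [Real.sqrt_le_one]
        have : 0 ≤ 2 * (tdeg G v : ℝ) / nL H := by positivity
        linarith
      apply pow_le_one₀
      · nlinarith
      · nlinarith
    calc _ ≤ ∑ v ∈ univ.filter (fun x : V => x ∉ H), (1 : ℝ) := Finset.sum_le_sum h5
      _ = _ := by rw [Finset.sum_const, nsmul_eq_mul, mul_one]
  rw [← hA]
  have h5 : 0 ≤ A := by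
    rw [hA]
    exact Finset.sum_nonneg fun v _ => by positivity
  -- final inequality
  have h6 : nL H ^ 4 * (A / nL H / 8 - 1 / (8 * nL H)) - 2 * nL H ^ 4 * (1 / 20) ^ 4 ≤
      2 / (nL H + 1) * (nL H ^ 4 / 16 * A - nL H * (nL H ^ 4 * (1 / 20) ^ 4)) := by
    obtain ⟨N, hNN⟩ : ∃ N : ℝ, N = nL H := ⟨_, rfl⟩
    rw [← hNN] at hN hN0 h4 ⊢
    have e1 : N ^ 4 * (A / N / 8 - 1 / (8 * N)) = N ^ 3 * (A - 1) / 8 := by
      field_simp
    rw [e1, div_mul_eq_mul_div, le_div_iff₀ (by linarith)]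
    have h7 : 0 ≤ N ^ 3 := by positivity
    have h8 : (N ^ 3 * (A - 1) / 8 - 2 * N ^ 4 * (1 / 20) ^ 4) * (N + 1) =
        N ^ 3 * ((A - 1) * (N + 1)) / 8 - 2 * N ^ 4 * (1 / 20) ^ 4 * (N + 1) := by ring
    rw [h8]
    have h9 : (A - 1) * (N + 1) ≤ N * A := by nlinarith
    have h10 : N ^ 3 * ((A - 1) * (N + 1)) ≤ N ^ 3 * (N * A) := mul_le_mul_of_nonneg_left h9 h7
    have h11 : 0 ≤ N ^ 4 * (1 / 20) ^ 4 := by positivity
    nlinarith
  refine h6.trans ?_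
  exact mul_le_mul_of_nonneg_left (by linarith) (by positivity)

open Classical in
/-- **Step 1.**  With `N = nL H`, `S₀ = (1/N) ∑_{v ∉ H} sq v`, `S' = max 0 (S₀ - 1/2000)`,
`A = (1/N) ∑_{v ∉ H} (1 - sq v ²)⁴`:  `16 W ≥ N⁴ (16 S'⁴ + 2 A - 2/N - 48 (1/20)⁴)`.

Proof.  `K₀ = Ks none = ∑ x0 ≥ ∑_{v ∉ H} (sq v - 1/2000) = N (S₀ - 1/2000)` and `K₀ ≥ 0`.
If `K₀ ≥ N/20`: `lam none · K₀⁴ = K₀⁴ ≥ (N S')⁴`; otherwise `N S' ≤ K₀ < N/20`, so
`0 ≥ N⁴ S'⁴ - N⁴/20⁴`.  In both cases `lam none K₀⁴ ≥ N⁴ S'⁴ - N⁴ (1/20)⁴`.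
`∑_v lam (some v) t_v⁴ = (2/(N+1)) ∑_{v ∉ H, t_v ≥ N/20} t_v⁴ ≥ (2/(N+1)) (∑_{v ∉ H} t_v⁴ -
N · N⁴/20⁴)`, `∑_{v ∉ H} t_v⁴ ≥ (N⁵/16) A` (`tdeg_four`), `N/(N+1) ≥ 1 - 1/N`, `A ≤ 1`:
`≥ N⁴ (A/8 - 1/(8N)) - 2 N⁴/20⁴`. -/
theorem W_step1 (S : Std G ι β H) (hN : 1 ≤ nL H) :
    nL H ^ 4 * (16 * (max 0 ((∑ v ∈ univ.filter (· ∉ H), sq G H v) / nL H - 1 / 2000)) ^ 4 +
      2 * ((∑ v ∈ univ.filter (· ∉ H), (1 - sq G H v ^ 2) ^ 4) / nL H) - 2 / nL H
      - 48 * (1 / 20) ^ 4) ≤ 16 * WW G H := by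
  have hN0 : 0 < nL H := by linarith
  have h1 := wb1_A (G := G) (H := H) hN0
  have h2 := wb1_B (G := G) (H := H) hN
  have h3 : WW G H = lam G H none * Ks G H none ^ 4 +
      ∑ v : V, lam G H (some v) * Ks G H (some v) ^ 4 := by
    unfold WW
    rw [Fintype.sum_option]
  rw [h3]
  obtain ⟨A, hA⟩ : ∃ A : ℝ, A = (∑ v ∈ univ.filter (· ∉ H), (1 - sq G H v ^ 2) ^ 4) / nL H :=
    ⟨_, rfl⟩
  obtain ⟨M, hM⟩ : ∃ M : ℝ, M = max 0 ((∑ v ∈ univ.filter (· ∉ H), sq G H v) / nL H - 1 / 2000) :=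
    ⟨_, rfl⟩
  rw [← hM] at h1 ⊢
  rw [← hA] at h2 ⊢
  have e1 : nL H ^ 4 * (16 * M ^ 4 + 2 * A - 2 / nL H - 48 * (1 / 20) ^ 4) =
      16 * ((nL H * M) ^ 4 - nL H ^ 4 * (1 / 20) ^ 4) +
        16 * (nL H ^ 4 * (A / 8 - 1 / (8 * nL H)) - 2 * nL H ^ 4 * (1 / 20) ^ 4) := by
    field_simp
    ring
  rw [e1]
  linarith

end Pool.Agent.ALB
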