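import Pool.Agent.ALB.CeDefs

/-! # ALB: small components -/

set_option autoImplicit false

namespace Pool.Agent.ALB

open Finset

variable {V : Type} [Fintype V] {G : SimpleGraph V} {ι β : Type} [Fintype ι] [Fintype β]
  {H : Finset V}

open Classical in
/-- a vertex outside the hub in a component with at most `N/4000` vertices -/
def Std.small (S : Std G ι β H) (x : V) : Prop :=
  x ∉ H ∧ ((univ.filter (fun y => y ∉ H ∧ S.comp y = S.comp x)).card : ℝ) ≤ nL H / 4000

end Pool.Agent.ALB
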